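import Pool.Agent.Lib.MP_c2d01e_co.Move

/-!
# The affine action on periodic functions and the main criterion
-/

namespace Pool.Agent.Lib.MP_c2d01e_co

namespace Lvl

variable (L : Lvl)

theorem ind_add {v w : V} (hw : L.mem w) : L.ind (v + w) = L.ind v := by
  unfold ind
  by_cases h : L.mem v
  · rw [if_pos h, if_pos ⟨L.H.add_mem h.1 hw.1, dvd_add h.2.1 hw.2.1, dvd_add h.2.2 hw.2.2⟩]
  · rw [if_neg h, if_neg]
    intro h'
    exact h (by simpa using L.mem_sub h' hw)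

theorem ev_add (c : ℤ) (l : List (V × ℤ)) {v w : V} (hw : L.mem w) :
    L.ev c l (v + w) = L.ev c l v := by
  unfold ev
  congr 1
  apply List.map_congr_left
  intro q _
  rw [show v + w - c • q.1 = (v - c • q.1) + w by abel, L.ind_add hw]

theorem D_add {v w : V} (hw : L.mem w) : L.D (v + w) = L.D v := by
  unfold D
  rw [L.ev_add 1 I0 hw, L.ev_add L.c I0 hw]
  congr 1
  unfold Bd
  obtain ⟨h1, h2, h3⟩ := hw
  simp only [Prod.fst_add, Prod.snd_add]
  rw [L.cN_add h1, L.W_add h2, L.W_add h3, dn_add h2, dn_add h3]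

/-- Periodic functions. -/
def Per := {f : V → ℤ // ∀ v w, L.mem w → f (v + w) = f v}

/-- The constant added by the generator `i`. -/
noncomputable def cst (i : Fin 6) (v : V) : ℤ := if i = 0 then L.D v else 0

theorem cst_add (i : Fin 6) {v w : V} (hw : L.mem w) : L.cst i (v + w) = L.cst i v := by
  unfold cst
  split_ifs
  · exact L.D_add hw
  · rfl

theorem cst_R (i : Fin 6) (v : V) : L.cst i (R i v) = -L.cst i v := by
  unfold cst
  split_ifs with h
  · rw [h, L.D_R0]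
  · simp

/-- The action of a generator on periodic functions. -/
noncomputable def Tf (i : Fin 6) (f : L.Per) : L.Per :=
  ⟨fun v => f.1 (R i v) + L.cst i v, by
    intro v w hw
    simp only
    rw [R_add, f.2 _ _ (L.mem_R i hw), L.cst_add i hw]⟩

theorem Tf_Tf (i : Fin 6) : Function.Involutive (L.Tf i) := by
  intro f
  apply Subtype.ext
  funext v
  simp only [Tf]
  rw [R_R, L.cst_R]
  ring

/-- The permutation of the set of periodic functions given by a generator. -/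
noncomputable def T0 (i : Fin 6) : Equiv.Perm L.Per := (L.Tf_Tf i).toPerm

theorem T0_val (i : Fin 6) (f : L.Per) (v : V) : ((L.T0 i) f).1 v = f.1 (R i v) + L.cst i v := rfl

theorem T0_val' (i : Fin 6) (hi : i ≠ 0) (f : L.Per) (v : V) :
    ((L.T0 i) f).1 v = f.1 (R i v) := by
  rw [T0_val, cst, if_neg hi, add_zero]

theorem perm_ext {g : Equiv.Perm L.Per} (h : ∀ (f : L.Per) (v : V), (g f).1 v = f.1 v) : g = 1 := by
  ext f
  apply Subtype.ext
  funext v
  exact h f v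

theorem T0_sq (i : Fin 6) : L.T0 i * L.T0 i = 1 := by
  apply L.perm_ext
  intro f v
  change ((L.Tf i) ((L.Tf i) f)).1 v = f.1 v
  rw [L.Tf_Tf i f]

/-- Commuting relations among the linear generators. -/
theorem rel2 (i j : Fin 6) (hi : i ≠ 0) (hj : j ≠ 0) (h : ∀ v, R j (R i (R j (R i v))) = v) :
    (L.T0 i * L.T0 j) ^ 2 = 1 := by
  apply L.perm_ext
  intro f v
  simp only [pow_succ, pow_zero, one_mul, Equiv.Perm.mul_apply, L.T0_val' _ hi, L.T0_val' _ hj]
  rw [h]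

theorem rel3 (i j : Fin 6) (hi : i ≠ 0) (hj : j ≠ 0)
    (h : ∀ v, R j (R i (R j (R i (R j (R i v))))) = v) : (L.T0 i * L.T0 j) ^ 3 = 1 := by
  apply L.perm_ext
  intro f v
  simp only [pow_succ, pow_zero, one_mul, Equiv.Perm.mul_apply, L.T0_val' _ hi, L.T0_val' _ hj]
  rw [h]

theorem rel4 (i j : Fin 6) (hi : i ≠ 0) (hj : j ≠ 0)
    (h : ∀ v, R j (R i (R j (R i (R j (R i (R j (R i v))))))) = v) :
    (L.T0 i * L.T0 j) ^ 4 = 1 := by
  apply L.perm_ext
  intro f v
  simp only [pow_succ, pow_zero, one_mul, Equiv.Perm.mul_apply, L.T0_val' _ hi, L.T0_val' _ hj]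
  rw [h]

theorem rel0 (j : Fin 6) (hj : j ≠ 0) (h1 : j ≠ 1) (h : ∀ v, R j (R 0 (R j (R 0 v))) = v) :
    (L.T0 0 * L.T0 j) ^ 2 = 1 := by
  apply L.perm_ext
  intro f v
  simp only [pow_succ, pow_zero, one_mul, Equiv.Perm.mul_apply, L.T0_val' _ hj, L.T0_val,
    cst, if_true]
  rw [h, L.D_Rj j hj h1, L.D_R0]
  ring

theorem rel01 : (L.T0 0 * L.T0 1) ^ 3 = 1 := by
  apply L.perm_ext
  intro f v
  simp only [pow_succ, pow_zero, one_mul, Equiv.Perm.mul_apply,
    L.T0_val' _ (show (1 : Fin 6) ≠ 0 by decide), L.T0_val, cst, if_true]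
  have h3 : R 1 (R 0 (R 1 (R 0 (R 1 (R 0 v))))) = v := by
    obtain ⟨⟨p, x, y, z⟩, a, b⟩ := v
    simp only [R, Prod.mk.injEq]
    refine ⟨⟨?_, ?_, ?_, ?_⟩, ?_, ?_⟩ <;> ring
  rw [h3]
  have := L.D_three v
  linarith

theorem pow_inv (i j : Fin 6) (m : ℕ) (h : (L.T0 i * L.T0 j) ^ m = 1) :
    (L.T0 j * L.T0 i) ^ m = 1 := by
  have h1 : (L.T0 i)⁻¹ = L.T0 i := inv_eq_of_mul_eq_one_left (L.T0_sq i)
  have h2 : (L.T0 j)⁻¹ = L.T0 j := inv_eq_of_mul_eq_one_left (L.T0_sq j)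
  have h3 : L.T0 j * L.T0 i = (L.T0 i * L.T0 j)⁻¹ := by rw [mul_inv_rev, h1, h2]
  rw [h3, inv_pow, h, inv_one]

/-- The zero function. -/
def zf : L.Per := ⟨fun _ => 0, fun _ _ _ => rfl⟩

/-- The main criterion. -/
theorem infinite_of (rel : Set (FreeGroup (Fin 6)))
    (hrel : ∀ r ∈ rel, FreeGroup.lift L.T0 r = 1) (x' : H4) (k : ℤ) (hx : nm x' = 1 + L.n * k)
    (hD : L.D ((2, -1, -1, -1), 1, 1) ≠ L.D (x', 1, 1)) : Infinite (PresentedGroup rel) := by
  by_contra hfin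
  rw [not_infinite_iff_finite] at hfin
  have : Fintype (PresentedGroup rel) := Fintype.ofFinite _
  let φ : PresentedGroup rel →* Equiv.Perm L.Per := PresentedGroup.toGroup hrel
  have hφ : ∀ i, φ (PresentedGroup.of i) = L.T0 i := fun i => PresentedGroup.toGroup.of hrel
  set S : V → ℤ := fun v => ∑ g, (φ g L.zf).1 v with hS
  have hSi : ∀ (i : Fin 6) (v : V),
      S v = S (R i v) + (Fintype.card (PresentedGroup rel) : ℤ) * L.cst i v := by
    intro i v
    have h1 : S v = ∑ g, (φ (PresentedGroup.of i * g) L.zf).1 v := by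
      rw [hS]
      exact (Equiv.sum_comp (Equiv.mulLeft (PresentedGroup.of i : PresentedGroup rel))
        (fun g => (φ g L.zf).1 v)).symm
    rw [h1]
    have h2 : ∀ g, (φ (PresentedGroup.of i * g) L.zf).1 v =
        (φ g L.zf).1 (R i v) + L.cst i v := by
      intro g
      rw [map_mul, hφ, Equiv.Perm.mul_apply, T0_val]
    rw [Finset.sum_congr rfl fun g _ => h2 g, Finset.sum_add_distrib, Finset.sum_const,
      Finset.card_univ, nsmul_eq_mul]
  have hper : ∀ v w, L.mem w → S (v + w) = S v := by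
    intro v w hw
    rw [hS]
    exact Finset.sum_congr rfl fun g _ => (φ g L.zf).2 v w hw
  have hinv : ∀ i : Fin 6, i ≠ 0 → ∀ v, S (R i v) = S v := by
    intro i hi v
    have := hSi i v
    rw [cst, if_neg hi, mul_zero, add_zero] at this
    exact this.symm
  have hE := inv_E S hinv
  have hcard : (Fintype.card (PresentedGroup rel) : ℤ) ≠ 0 := by
    have : 0 < Fintype.card (PresentedGroup rel) := Fintype.card_pos
    exact_mod_cast this.ne'
  have e1 : S (x', 1, 1) = S ((2, -1, -1, -1), 1, 1) := by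
    rw [← hE (x' - (2, -1, -1, -1)) ((2, -1, -1, -1), 1, 1)]
    have h1 : E (x' - (2, -1, -1, -1)) ((2, -1, -1, -1), 1, 1) =
        ((x', 1, 1) : V) + (0, L.n * (-k), 0) := by
      obtain ⟨p, x, y, z⟩ := x'
      simp only [nm] at hx
      simp only [E, bil, nm, Prod.mk_sub_mk, Prod.smul_mk, Prod.mk_add_mk, smul_eq_mul,
        Prod.mk.injEq, ← Prod.mk_zero_zero]
      refine ⟨⟨?_, ?_, ?_, ?_⟩, ?_, ?_⟩ <;> linarith
    rw [h1, hper _ _ ⟨L.H.zero_mem, dvd_mul_right _ _, dvd_zero _⟩]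
  have e2 : S (R 0 (x', 1, 1)) = S (R 0 ((2, -1, -1, -1), 1, 1)) := by
    rw [← hE (-(x' - (2, -1, -1, -1))) (R 0 ((2, -1, -1, -1), 1, 1))]
    have h1 : E (-(x' - (2, -1, -1, -1))) (R 0 ((2, -1, -1, -1), 1, 1)) =
        R 0 (x', 1, 1) + (0, L.n * k, 0) := by
      obtain ⟨p, x, y, z⟩ := x'
      simp only [nm] at hx
      simp only [R, E, bil, nm, Prod.mk_sub_mk, Prod.neg_mk, Prod.smul_mk, Prod.mk_add_mk,
        smul_eq_mul, Prod.mk.injEq, ← Prod.mk_zero_zero]
      refine ⟨⟨?_, ?_, ?_, ?_⟩, ?_, ?_⟩ <;> linarith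
    rw [h1, hper _ _ ⟨L.H.zero_mem, dvd_mul_right _ _, dvd_zero _⟩]
  have a1 := hSi 0 (x', 1, 1)
  have a2 := hSi 0 ((2, -1, -1, -1), 1, 1)
  rw [cst, if_pos rfl] at a1 a2
  rw [e1, e2, a2] at a1
  apply hD
  have := add_left_cancel a1
  exact mul_left_cancel₀ hcard this

end Lvl

end Pool.Agent.Lib.MP_c2d01e_co
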