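import Mathlib

/-!
# The lattice `H ⊕ ℤ ⊕ ℤ`, the six reflections and the formal sums of wall vectors
-/

namespace Pool.Agent.Lib.MP_c2d01e_co

/-! ### The lattice and the reflections -/

/-- Hurwitz quaternions in the basis `ω = (1+i+j+k)/2, i, j, k`. -/
abbrev H4 := ℤ × ℤ × ℤ × ℤ

/-- The lattice `H ⊕ ℤ ⊕ ℤ`. -/
abbrev V := H4 × ℤ × ℤ

/-- The six reflections. -/
def R : Fin 6 → V → V
  | 0, ((p, x, y, z), a, b) => ((p, x, y, z), -b, -a)
  | 1, ((p, x, y, z), a, b) => ((2 * b - p, x + p - b, y + p - b, z + p - b), a - b + p, b)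
  | 2, ((p, x, y, z), a, b) =>
      ((p + (p + x + y + z), x - (p + x + y + z), y - (p + x + y + z), z - (p + x + y + z)), a, b)
  | 3, ((p, x, y, z), a, b) => ((p, x, y, -p - z), a, b)
  | 4, ((p, x, y, z), a, b) => ((p, x, z, y), a, b)
  | 5, ((p, x, y, z), a, b) => ((p, y, x, z), a, b)

theorem R_sub (i : Fin 6) (v w : V) : R i (v - w) = R i v - R i w := by
  obtain ⟨⟨p, x, y, z⟩, a, b⟩ := v
  obtain ⟨⟨p', x', y', z'⟩, a', b'⟩ := w
  fin_cases i <;> simp [R] <;> (try constructorm* _ ∧ _) <;> ring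

theorem R_add (i : Fin 6) (v w : V) : R i (v + w) = R i v + R i w := by
  obtain ⟨⟨p, x, y, z⟩, a, b⟩ := v
  obtain ⟨⟨p', x', y', z'⟩, a', b'⟩ := w
  fin_cases i <;> simp [R] <;> (try constructorm* _ ∧ _) <;> ring

theorem R_smul (i : Fin 6) (c : ℤ) (v : V) : R i (c • v) = c • R i v := by
  obtain ⟨⟨p, x, y, z⟩, a, b⟩ := v
  fin_cases i <;> simp [R] <;> (try constructorm* _ ∧ _) <;> ring

theorem R_R (i : Fin 6) (v : V) : R i (R i v) = v := by
  obtain ⟨⟨p, x, y, z⟩, a, b⟩ := v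
  fin_cases i <;> simp [R] <;> (try constructorm* _ ∧ _) <;> ring


/-! ### Formal sums of lattice vectors -/

/-- The 24 units of `H`. -/
def U : List H4 :=
  [(-2, 1, 1, 1), (-1, 0, 0, 0), (-1, 0, 0, 1), (-1, 0, 1, 0), (-1, 0, 1, 1), (-1, 1, 0, 0),
   (-1, 1, 0, 1), (-1, 1, 1, 0), (-1, 1, 1, 1), (0, -1, 0, 0), (0, 0, -1, 0), (0, 0, 0, -1),
   (0, 0, 0, 1), (0, 0, 1, 0), (0, 1, 0, 0), (1, -1, -1, -1), (1, -1, -1, 0), (1, -1, 0, -1),
   (1, -1, 0, 0), (1, 0, -1, -1), (1, 0, -1, 0), (1, 0, 0, -1), (1, 0, 0, 0), (2, -1, -1, -1)]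

/-- The 24 elements of norm 2 of `H`. -/
def N2 : List H4 :=
  [(-2, 0, 1, 1), (-2, 1, 0, 1), (-2, 1, 1, 0), (-2, 1, 1, 2), (-2, 1, 2, 1), (-2, 2, 1, 1),
   (0, -1, -1, 0), (0, -1, 0, -1), (0, -1, 0, 1), (0, -1, 1, 0), (0, 0, -1, -1), (0, 0, -1, 1),
   (0, 0, 1, -1), (0, 0, 1, 1), (0, 1, -1, 0), (0, 1, 0, -1), (0, 1, 0, 1), (0, 1, 1, 0),
   (2, -2, -1, -1), (2, -1, -2, -1), (2, -1, -1, -2), (2, -1, -1, 0), (2, -1, 0, -1),
   (2, 0, -1, -1)]

/-- The wall vectors strictly between the two cusps. -/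
def I0 : List (V × ℤ) :=
  U.flatMap (fun u => [((u, 1, 1), 2), ((u, -1, -1), -2)]) ++
    [(((0, 0, 0, 0), 1, 2), 2), (((0, 0, 0, 0), 2, 1), 2), (((0, 0, 0, 0), -1, -2), -2),
      (((0, 0, 0, 0), -2, -1), -2)]

/-- First corner term. -/
def K1 : List (V × ℤ) :=
  N2.flatMap fun x => if x.1 = -2 then [((x, 1, 0), 2)] else
    if x.1 = 2 then [((x, -1, 0), -2)] else []

/-- Second corner term. -/
def K0 : List (V × ℤ) :=
  N2.flatMap fun x => if x.1 = -2 then [((x, 0, 0), 1), ((x, 2, 0), 1)] else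
    if x.1 = 2 then [((x, 0, 0), -1), ((x, -2, 0), -1)] else []

/-- Apply `R i` to a formal sum. -/
def mp (i : Fin 6) (l : List (V × ℤ)) : List (V × ℤ) := l.map fun q => (R i q.1, q.2)

/-- Change the sign of a formal sum. -/
def ng (l : List (V × ℤ)) : List (V × ℤ) := l.map fun q => (q.1, -q.2)

/-- Sum over the rotation of order three. -/
def three (l : List (V × ℤ)) : List (V × ℤ) := l ++ (mp 0 (mp 1 l) ++ mp 0 (mp 1 (mp 0 (mp 1 l))))

/-- A formal sum vanishes (computable test). -/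
def nullB (l : List (V × ℤ)) : Bool :=
  l.all fun p => decide ((l.map fun q => if q.1 = p.1 then q.2 else 0).sum = 0)

theorem null_sum {l : List (V × ℤ)} (h : nullB l = true) (f : V → ℤ) :
    (l.map fun q => q.2 * f q.1).sum = 0 := by
  classical
  set g : V →₀ ℤ := (l.map fun q => Finsupp.single q.1 q.2).sum with hg
  have hgv : ∀ v, g v = (l.map fun q => if q.1 = v then q.2 else 0).sum := by
    intro v
    have h1 : g v = Finsupp.applyAddHom v g := rfl
    rw [h1, hg, map_list_sum, List.map_map]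
    congr 1
    apply List.map_congr_left
    intro q _
    simp [Finsupp.single_apply]
  have hg0 : g = 0 := by
    ext v
    rw [hgv v]
    by_cases hv : ∃ p ∈ l, p.1 = v
    · obtain ⟨p, hp, rfl⟩ := hv
      have h2 := List.all_eq_true.1 h p hp
      simpa using h2
    · push Not at hv
      have : (l.map fun q => if q.1 = v then q.2 else 0) = l.map fun _ => (0 : ℤ) := by
        apply List.map_congr_left
        intro q hq
        rw [if_neg (hv q hq)]
      rw [this]
      simp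
  have h3 : (l.map fun q => q.2 * f q.1).sum =
      Finsupp.liftAddHom (fun v => (AddMonoidHom.mulRight (f v) : ℤ →+ ℤ)) g := by
    rw [hg, map_list_sum, List.map_map]
    congr 1
    apply List.map_congr_left
    intro q _
    simp
  rw [h3, hg0, map_zero]

theorem null_three_I : nullB (three (I0 ++ K1)) = true := by decide +kernel

theorem null_three_K : nullB (three K0) = true := by decide +kernel

theorem null_R0 : nullB (I0 ++ mp 0 I0) = true := by decide +kernel

theorem null_R2 : nullB (I0 ++ ng (mp 2 I0)) = true := by decide +kernel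
theorem null_R3 : nullB (I0 ++ ng (mp 3 I0)) = true := by decide +kernel
theorem null_R4 : nullB (I0 ++ ng (mp 4 I0)) = true := by decide +kernel
theorem null_R5 : nullB (I0 ++ ng (mp 5 I0)) = true := by decide +kernel

end Pool.Agent.Lib.MP_c2d01e_co
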