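import Pool.Agent.Lib.MP_c2d01e_co.Move

/-!
# The intersection property

Let `G` be a group generated by involutions `r 0, …, r 5` satisfying the Coxeter relations of type
`{3,3,3,4,3}` and acting on a set `X` so that `r i` acts on the image of the lattice `V` by the
reflection `R i`, where the image of `V` in `X` separates vectors which are incongruent modulo `n`
for some `n ≥ 3`.  Then `⟨r i : i ∈ I⟩ ∩ ⟨r j : j ∈ J⟩ = ⟨r i : i ∈ I ∩ J⟩`.

For a parabolic subgroup of finite type and `i` a node of it, the orbit of the vector `fv i` (fixed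
by all `R j`, `j ≠ i`) gives a coset enumeration certificate (`cert`).
-/

set_option autoImplicit false

namespace Pool.Agent.Lib.MP_c2d01e_co.CGroup

open Subgroup

/-- The Coxeter matrix of the string diagram `{3,3,3,4,3}` on the nodes `0, …, 5`. -/
def cox (i j : Fin 6) : ℕ :=
  if i = j then 1
  else if (i = 3 ∧ j = 4) ∨ (i = 4 ∧ j = 3) then 4
  else if (i : ℕ) + 1 = j ∨ (j : ℕ) + 1 = i then 3
  else 2

/-- A vector fixed by all reflections but one. -/
def fv : Fin 6 → V
  | 0 => ((0, 0, 0, 0), 1, 0)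
  | 1 => ((0, 0, 0, 0), -1, 1)
  | 2 => ((2, -1, -1, -1), -2, 2)
  | 3 => ((3, -1, -1, -1), -3, 3)
  | 4 => ((4, -1, -1, -2), -4, 4)
  | 5 => ((2, 0, -1, -1), -2, 2)

theorem fv_fix (i j : Fin 6) (h : j ≠ i) : R j (fv i) = fv i := by
  revert h
  revert i j
  decide +kernel

/-- The nodes of an interval. -/
def gens (a b : Fin 6) : List (Fin 6) := (List.finRange 6).filter fun g => a ≤ g ∧ g ≤ b

/-- Breadth first search of an orbit; every vector is stored with the generator leading to it. -/
def bfs (gs : List (Fin 6)) : ℕ → ℕ → List (V × Fin 6) → List (V × Fin 6)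
  | 0, _, L => L
  | fuel + 1, i, L =>
    match L[i]? with
    | none => L
    | some x => bfs gs fuel (i + 1)
        (gs.foldl (fun L g => if L.any (fun y => y.1 == R g x.1) then L else L ++ [(R g x.1, g)]) L)

/-- The orbit. -/
def orb (a b i : Fin 6) : List (V × Fin 6) := bfs (gens a b) 100 0 [(fv i, 0)]

/-- The vector number `k`. -/
def vec (L : List (V × Fin 6)) (k : ℕ) : V := (L.getD k (0, 0)).1

/-- The generator leading to the vector number `k`. -/
def par (L : List (V × Fin 6)) (k : ℕ) : Fin 6 := (L.getD k (0, 0)).2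

/-- The action on the numbers. -/
def T (L : List (V × Fin 6)) (k : ℕ) (g : Fin 6) : ℕ := L.findIdx fun y => y.1 == R g (vec L k)

/-- Some difference of coordinates is `± 1` or `± 2`. -/
def near (v w : V) : Bool :=
  [v.1.1 - w.1.1, v.1.2.1 - w.1.2.1, v.1.2.2.1 - w.1.2.2.1, v.1.2.2.2 - w.1.2.2.2, v.2.1 - w.2.1,
    v.2.2 - w.2.2].any fun d => d.natAbs == 1 || d.natAbs == 2

/-- The walk along alternating letters, using edges below `N` and the edge from `N` with letter
`h`. -/
def walk (L : List (V × Fin 6)) (N : ℕ) (h : Fin 6) : List (Fin 6) → ℕ → Option ℕ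
  | [], cur => some cur
  | a :: w, cur =>
    if (cur < N ∧ T L cur a < N) ∨ (cur = N ∧ a = h) ∨ (T L cur a = N ∧ a = h) then
      walk L N h w (T L cur a) else none

/-- The alternating word `h g h … h` of odd length `2 m - 1`. -/
def alt (h g : Fin 6) : ℕ → List (Fin 6)
  | 0 => []
  | 1 => [h]
  | m + 2 => h :: g :: alt h g (m + 1)

/-- The certificate of the coset enumeration. -/
def cert (a b i : Fin 6) : Bool :=
  let L := orb a b i
  (vec L 0 == fv i) && (0 < L.length : Bool) &&
  (List.range L.length).all fun k =>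
    ((gens a b).all fun g => (T L k g < L.length : Bool) && (T L (T L k g) g == k)) &&
    ((List.finRange 6).all fun g => !((g : ℕ) + 1 < a || (b : ℕ) + 1 < g) ||
      (R g (vec L k) == vec L k)) &&
    (if k = 0 then ((gens a b).all fun g => if g = i then (T L 0 g != 0) else (T L 0 g == 0))
      else (gens a b).contains (par L k) && (T L k (par L k) < k : Bool) && near (vec L k) (fv i) &&
        ((gens a b).all fun g => g == par L k || (k < T L k g : Bool) ||
          (walk L k (par L k) (alt (par L k) g (cox g (par L k))) k == some (T L k g))))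

/-- All certificates are correct. -/
theorem all_cert : ∀ a b i : Fin 6, a ≤ i → i ≤ b → ¬(a ≤ 2 ∧ b = 5) → cert a b i = true := by
  decide +kernel

/-- The interval from `a` to `b` is the component of `i` in `I`, of finite type. -/
def Comp (I : Finset (Fin 6)) (i a b : Fin 6) : Prop :=
  a ≤ i ∧ i ≤ b ∧ ¬(a ≤ 2 ∧ b = 5) ∧ (∀ g : Fin 6, (a ≤ g ∧ g ≤ b) → g ∈ I) ∧
      ∀ g : Fin 6, g ∈ I → ((a ≤ g ∧ g ≤ b) ∨ (g : ℕ) + 1 < a ∨ (b : ℕ) + 1 < g)

instance (I : Finset (Fin 6)) (i a b : Fin 6) : Decidable (Comp I i a b) := by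
  unfold Comp; infer_instance

theorem component' : ∀ (I : Finset (Fin 6)) (i : Fin 6), i ∈ I →
    (¬({2, 3, 4, 5} ⊆ I) ∨ (I = {0, 2, 3, 4, 5} ∧ i = 0)) → ∃ a b : Fin 6, Comp I i a b := by
  decide +kernel

/-! ### Soundness of the certificate -/

section sound

variable {G : Type*} [Group G] (r : Fin 6 → G)

theorem alt_two {a b : G} (ha : a * a = 1) (h : (a * b) ^ 2 = 1) : b * (a * b) = a := by
  have h1 : a * (b * (a * b)) = 1 := by
    rw [← h]; simp only [pow_succ, pow_zero, one_mul, mul_assoc]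
  rw [mul_eq_one_iff_inv_eq] at h1
  rw [← h1, inv_eq_iff_mul_eq_one, ha]

theorem alt_three {a b : G} (ha : a * a = 1) (h : (a * b) ^ 3 = 1) :
    b * (a * (b * (a * b))) = a := by
  have h1 : a * (b * (a * (b * (a * b)))) = 1 := by
    rw [← h]; simp only [pow_succ, pow_zero, one_mul, mul_assoc]
  rw [mul_eq_one_iff_inv_eq] at h1
  rw [← h1, inv_eq_iff_mul_eq_one, ha]

theorem alt_four {a b : G} (ha : a * a = 1) (h : (a * b) ^ 4 = 1) :
    b * (a * (b * (a * (b * (a * b))))) = a := by
  have h1 : a * (b * (a * (b * (a * (b * (a * b)))))) = 1 := by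
    rw [← h]; simp only [pow_succ, pow_zero, one_mul, mul_assoc]
  rw [mul_eq_one_iff_inv_eq] at h1
  rw [← h1, inv_eq_iff_mul_eq_one, ha]

variable {r} (hr : ∀ i j, (r i * r j) ^ cox i j = 1)
include hr

theorem sq (i : Fin 6) : r i * r i = 1 := by simpa [cox] using hr i i

omit hr in
theorem cox_cases (g h : Fin 6) (hne : g ≠ h) :
    cox g h = 2 ∨ cox g h = 3 ∨ cox g h = 4 := by
  revert hne
  revert g h
  decide

theorem alt_smul {Y : Type*} [MulAction G Y] (g h : Fin 6) (hne : g ≠ h) (c : Y) :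
    (alt h g (cox g h)).foldl (fun c a => r a • c) c = r g • c := by
  have ha := sq hr g
  have hm := hr g h
  rcases cox_cases g h hne with e | e | e <;> rw [e] at hm ⊢ <;>
    simp only [alt, List.foldl_cons, List.foldl_nil, smul_smul]
  · rw [alt_two ha hm]
  · rw [alt_three ha hm]
  · rw [alt_four ha hm]

omit hr in
/-- The cosets of the enumeration. -/
noncomputable def cc (r : Fin 6 → G) (L : List (V × Fin 6)) (K : Subgroup G) (k : ℕ) : G ⧸ K :=
  if _h : T L k (par L k) < k then r (par L k) • cc r L K (T L k (par L k)) else ((1 : G) : G ⧸ K)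
termination_by k

omit hr in
theorem cc_lt {L : List (V × Fin 6)} {K : Subgroup G} {k : ℕ} (h : T L k (par L k) < k) :
    cc r L K k = r (par L k) • cc r L K (T L k (par L k)) := by
  rw [cc, dif_pos h]

omit hr in
theorem cc_zero {L : List (V × Fin 6)} {K : Subgroup G} : cc r L K 0 = ((1 : G) : G ⧸ K) := by
  rw [cc, dif_neg (by omega)]

/-- The conditions checked by the certificate. -/
structure Ct (L : List (V × Fin 6)) (a b i : Fin 6) : Prop where
  zero : vec L 0 = fv i
  pos : 0 < L.length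
  lt : ∀ k < L.length, ∀ g ∈ gens a b, T L k g < L.length
  inv : ∀ k < L.length, ∀ g ∈ gens a b, T L (T L k g) g = k
  far : ∀ k < L.length, ∀ g : Fin 6, ((g : ℕ) + 1 < a ∨ (b : ℕ) + 1 < g) → R g (vec L k) = vec L k
  base : ∀ g ∈ gens a b, g ≠ i → T L 0 g = 0
  base' : i ∈ gens a b → T L 0 i ≠ 0
  par_mem : ∀ k < L.length, k ≠ 0 → par L k ∈ gens a b
  par_lt : ∀ k < L.length, k ≠ 0 → T L k (par L k) < k
  near : ∀ k < L.length, k ≠ 0 → near (vec L k) (fv i) = true
  walk : ∀ k < L.length, k ≠ 0 → ∀ g ∈ gens a b, g ≠ par L k → T L k g ≤ k →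
    walk L k (par L k) (alt (par L k) g (cox g (par L k))) k = some (T L k g)

omit hr in
theorem ct_of_cert {a b i : Fin 6} (h : cert a b i = true) : Ct (orb a b i) a b i := by
  unfold cert at h
  simp only [Bool.and_eq_true, beq_iff_eq, decide_eq_true_eq, List.all_eq_true, List.mem_range,
    Bool.or_eq_true, List.mem_finRange, forall_const, Bool.not_eq_eq_eq_not, Bool.not_true] at h
  obtain ⟨⟨h1, h2⟩, h3⟩ := h
  refine ⟨h1, h2, ?_, ?_, ?_, ?_, ?_, ?_, ?_, ?_, ?_⟩
  · exact fun k hk g hg => ((h3 k hk).1.1 g hg).1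
  · exact fun k hk g hg => ((h3 k hk).1.1 g hg).2
  · intro k hk g hg
    rcases (h3 k hk).1.2 g with h4 | h4
    · exfalso
      simp only [Bool.or_eq_false_iff, decide_eq_false_iff_not] at h4
      tauto
    · exact h4
  · intro g hg hgi
    have h4 := (h3 0 h2).2
    rw [if_pos rfl] at h4
    simp only [List.all_eq_true] at h4
    have h5 := h4 g hg
    rw [if_neg hgi] at h5
    simpa using h5
  · intro hg
    have h4 := (h3 0 h2).2
    rw [if_pos rfl] at h4
    simp only [List.all_eq_true] at h4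
    have h5 := h4 i hg
    rw [if_pos rfl] at h5
    simpa using h5
  all_goals
    intro k hk hk0
    have h4 := (h3 k hk).2
    rw [if_neg hk0] at h4
    simp only [Bool.and_eq_true, decide_eq_true_eq, List.all_eq_true, Bool.or_eq_true,
      beq_iff_eq, List.contains_iff_mem] at h4
  · exact h4.1.1.1
  · exact h4.1.1.2
  · exact h4.1.2
  · intro g hg hgp hle
    rcases h4.2 g hg with (h5 | h5) | h5
    · exact absurd h5 hgp
    · omega
    · exact h5

/-- The table gives the action on the cosets. -/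
theorem claim {L : List (V × Fin 6)} {a b i : Fin 6} (hL : Ct L a b i) (K : Subgroup G)
    (hK : ∀ g ∈ gens a b, g ≠ i → r g ∈ K) (N : ℕ) :
    ∀ k l : ℕ, k ≤ N → l ≤ N → k < L.length → ∀ g ∈ gens a b, T L k g = l →
      r g • cc r L K k = cc r L K l := by
  induction N using Nat.strong_induction_on with
  | _ N ih =>
    -- the edges from `N`
    have step : ∀ l : ℕ, l ≤ N → N < L.length → ∀ g ∈ gens a b, T L N g = l →
        r g • cc r L K N = cc r L K l := by
      intro l hl hN g hg hT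
      by_cases hN0 : N = 0
      · subst hN0
        obtain rfl : l = 0 := by omega
        have hgi : g ≠ i := by
          rintro rfl
          exact hL.base' hg hT
        rw [cc_zero]
        exact QuotientGroup.eq.2 (by simpa using K.inv_mem (hK g hg hgi))
      · have hp := hL.par_lt N hN hN0
        have hpm := hL.par_mem N hN hN0
        have hdef := cc_lt (r := r) (K := K) hp
        have hedge : r (par L N) • cc r L K N = cc r L K (T L N (par L N)) := by
          rw [hdef, smul_smul, sq hr, one_smul]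
        by_cases hgp : g = par L N
        · subst hgp
          rw [← hT]
          exact hedge
        · have hw := hL.walk N hN hN0 g hg hgp (by omega)
          -- soundness of the walk
          have ws : ∀ (w : List (Fin 6)) (cur l' : ℕ), (∀ x ∈ w, x ∈ gens a b) → cur < L.length →
              cur ≤ N → walk L N (par L N) w cur = some l' →
              w.foldl (fun c a => r a • c) (cc r L K cur) = cc r L K l' := by
            intro w
            induction w with
            | nil =>
              intro cur l' _ _ _ hw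
              simp only [walk, Option.some.injEq] at hw
              rw [hw]
              rfl
            | cons x w ihw =>
              intro cur l' hx hcur hcurN hw
              simp only [walk] at hw
              split_ifs at hw with hc
              rw [List.foldl_cons]
              have hxg := hx x List.mem_cons_self
              have hlt := hL.lt cur hcur x hxg
              have e : r x • cc r L K cur = cc r L K (T L cur x) := by
                rcases hc with ⟨h1, h2⟩ | ⟨h1, h2⟩ | ⟨h1, h2⟩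
                · exact ih (max cur (T L cur x)) (by omega) cur _ (le_max_left _ _)
                    (le_max_right _ _) hcur x hxg rfl
                · rw [h1, h2]; exact hedge
                · have h3 := hL.inv cur hcur x hxg
                  rw [h1, h2] at h3
                  rw [h1, h2, ← h3, ← hedge, smul_smul, sq hr, one_smul]
              rw [e]
              refine ihw _ l' (fun y hy => hx y (List.mem_cons_of_mem _ hy)) hlt ?_ hw
              rcases hc with ⟨h1, h2⟩ | ⟨h1, h2⟩ | ⟨h1, h2⟩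
              · omega
              · rw [h1, h2]; exact hp.le
              · omega
          have hmem : ∀ m : ℕ, ∀ x ∈ alt (par L N) g m, x ∈ gens a b := by
            intro m
            induction m using Nat.strong_induction_on with
            | _ m ihm =>
              match m with
              | 0 => intro x hx; simp [alt] at hx
              | 1 => intro x hx; simp only [alt, List.mem_singleton] at hx; rw [hx]; exact hpm
              | m + 2 =>
                intro x hx
                simp only [alt, List.mem_cons] at hx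
                rcases hx with rfl | rfl | hx
                · exact hpm
                · exact hg
                · exact ihm (m + 1) (by omega) x hx
          have h5 := ws _ N _ (hmem _) hN le_rfl hw
          rw [alt_smul hr g (par L N) hgp, hT] at h5
          exact h5
    intro k l hk hl hkL g hg hT
    by_cases hkN : k = N
    · subst hkN
      exact step l hl hkL g hg hT
    · by_cases hlN : l = N
      · have hlt := hL.lt k hkL g hg
        have hinv := hL.inv k hkL g hg
        rw [hT] at hlt hinv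
        subst hlN
        rw [← step k hk hlt g hg hinv, smul_smul, sq hr, one_smul]
      · exact ih (max k l) (by omega) k l (le_max_left _ _) (le_max_right _ _) hkL g hg hT

theorem claim' {L : List (V × Fin 6)} {a b i : Fin 6} (hL : Ct L a b i) (K : Subgroup G)
    (hK : ∀ g ∈ gens a b, g ≠ i → r g ∈ K) (k : ℕ) (hk : k < L.length) (g : Fin 6)
    (hg : g ∈ gens a b) : r g • cc r L K k = cc r L K (T L k g) :=
  claim hr hL K hK (max k (T L k g)) k _ (le_max_left _ _) (le_max_right _ _) hk g hg rfl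

theorem comm_r (g h : Fin 6) (hgh : (g : ℕ) + 1 < h ∨ (h : ℕ) + 1 < g) :
    r g * r h = r h * r g := by
  have e : cox g h = 2 := by
    unfold cox
    rw [if_neg (by rintro rfl; omega), if_neg (by rintro (⟨rfl, rfl⟩ | ⟨rfl, rfl⟩) <;> simp at hgh),
      if_neg (by omega)]
  have h1 := alt_two (sq hr g) (by rw [← e]; exact hr g h)
  calc r g * r h = (r h * (r g * r h)) * r h := by rw [h1]
    _ = r h * r g := by rw [mul_assoc, mul_assoc, sq hr, mul_one]

theorem claim_far {L : List (V × Fin 6)} {a b i : Fin 6} (hL : Ct L a b i) (K : Subgroup G)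
    (g : Fin 6) (hgK : r g ∈ K) (hg : (g : ℕ) + 1 < a ∨ (b : ℕ) + 1 < g) (k : ℕ)
    (hk : k < L.length) : r g • cc r L K k = cc r L K k := by
  induction k using Nat.strong_induction_on with
  | _ k ih =>
    by_cases hk0 : k = 0
    · subst hk0
      rw [cc_zero]
      exact QuotientGroup.eq.2 (by simpa using K.inv_mem hgK)
    · have hp := hL.par_lt k hk hk0
      have hpm := hL.par_mem k hk hk0
      rw [cc_lt hp, smul_smul, comm_r hr g (par L k), ← smul_smul, ih _ hp (hp.trans hk)]
      simp only [gens, List.mem_filter, List.mem_finRange, true_and, decide_eq_true_eq] at hpm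
      obtain ⟨h1, h2⟩ := hpm
      have h3 : (a : ℕ) ≤ (par L k : ℕ) := h1
      have h4 : (par L k : ℕ) ≤ (b : ℕ) := h2
      omega

/-- The stabilizer of `fv i` in a parabolic subgroup in which `i` has a finite component. -/
theorem stab {X : Type*} (φ : G →* Equiv.Perm X) (π : V → X)
    (hφ : ∀ i v, φ (r i) (π v) = π (R i v))
    (hπ : ∀ v w, near v w = true → π v ≠ π w) (J : Finset (Fin 6)) (a b i : Fin 6)
    (hai : a ≤ i) (hib : i ≤ b) (hfin : ¬(a ≤ 2 ∧ b = 5)) (hJ1 : ∀ g, a ≤ g → g ≤ b → g ∈ J)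
    (hJ2 : ∀ g ∈ J, (a ≤ g ∧ g ≤ b) ∨ (g : ℕ) + 1 < a ∨ (b : ℕ) + 1 < g) (w : G)
    (hw : w ∈ closure (r '' (J : Set (Fin 6)))) (hfix : φ w (π (fv i)) = π (fv i)) :
    w ∈ closure (r '' ((J.erase i : Finset (Fin 6)) : Set (Fin 6))) := by
  set K := closure (r '' ((J.erase i : Finset (Fin 6)) : Set (Fin 6))) with hKdef
  have hL := ct_of_cert (all_cert a b i hai hib hfin)
  set L := orb a b i with hLdef
  have hrK : ∀ g ∈ J, g ≠ i → r g ∈ K := fun g hg hgi =>
    subset_closure ⟨g, by simp [hg, hgi], rfl⟩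
  have hgens : ∀ g : Fin 6, g ∈ gens a b ↔ a ≤ g ∧ g ≤ b := by
    intro g; simp [gens]
  have hK : ∀ g ∈ gens a b, g ≠ i → r g ∈ K := fun g hg hgi =>
    hrK g (hJ1 g ((hgens g).1 hg).1 ((hgens g).1 hg).2) hgi
  have hinvr : ∀ g, (r g)⁻¹ = r g := fun g => by
    rw [inv_eq_iff_mul_eq_one]; exact sq hr g
  have key : ∃ l < L.length, w • cc r L K 0 = cc r L K l ∧ φ w (π (vec L 0)) = π (vec L l) := by
    have stp : ∀ g ∈ J, ∀ y : G,
        (∃ l < L.length, y • cc r L K 0 = cc r L K l ∧ φ y (π (vec L 0)) = π (vec L l)) →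
        ∃ l < L.length, (r g * y) • cc r L K 0 = cc r L K l ∧
          φ (r g * y) (π (vec L 0)) = π (vec L l) := by
      rintro g hg y ⟨l, hl, h1, h2⟩
      rcases hJ2 g hg with h3 | h3
      · have hgg := (hgens g).2 h3
        refine ⟨T L l g, hL.lt l hl g hgg, ?_, ?_⟩
        · rw [mul_smul, h1, claim' hr hL K hK l hl g hgg]
        · rw [map_mul, Equiv.Perm.mul_apply, h2, hφ]
          congr 1
          have h4 : (L[T L l g]'(hL.lt l hl g hgg)).1 == R g (vec L l) :=
            List.findIdx_getElem (p := fun y : V × Fin 6 => y.1 == R g (vec L l))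
              (w := hL.lt l hl g hgg)
          rw [beq_iff_eq] at h4
          rw [← h4, vec, List.getD_eq_getElem _ _ (hL.lt l hl g hgg)]
      · refine ⟨l, hl, ?_, ?_⟩
        · have hgi : g ≠ i := by
            rintro rfl
            have h5 : (a : ℕ) ≤ (g : ℕ) := hai
            have h6 : (g : ℕ) ≤ (b : ℕ) := hib
            omega
          rw [mul_smul, h1, claim_far hr hL K g (hrK g hg hgi) h3 l hl]
        · rw [map_mul, Equiv.Perm.mul_apply, h2, hφ, hL.far l hl g h3]
    refine closure_induction_left (p := fun w _ => ∃ l < L.length, w • cc r L K 0 = cc r L K l ∧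
      φ w (π (vec L 0)) = π (vec L l)) ?_ ?_ ?_ hw
    · exact ⟨0, hL.pos, by rw [one_smul], by rw [map_one]; rfl⟩
    · rintro x ⟨g, hg, rfl⟩ y _ h
      exact stp g hg y h
    · rintro x ⟨g, hg, rfl⟩ y _ h
      rw [hinvr g]
      exact stp g hg y h
  obtain ⟨l, hl, h1, h2⟩ := key
  by_cases hl0 : l = 0
  · subst hl0
    rw [cc_zero] at h1
    have h3 : ((w : G) : G ⧸ K) = ((1 : G) : G ⧸ K) := by
      rw [← h1]
      change _ = ((w * 1 : G) : G ⧸ K)
      rw [mul_one]
    rw [QuotientGroup.eq, mul_one] at h3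
    exact (K.inv_mem_iff).1 h3
  · exfalso
    have h3 := hL.near l hl hl0
    rw [hL.zero, hfix] at h2
    exact hπ _ _ h3 h2.symm

theorem fix_of_notMem {X : Type*} (φ : G →* Equiv.Perm X) (π : V → X)
    (hφ : ∀ i v, φ (r i) (π v) = π (R i v)) (J : Finset (Fin 6)) (i : Fin 6) (hi : i ∉ J) (w : G)
    (hw : w ∈ closure (r '' (J : Set (Fin 6)))) : φ w (π (fv i)) = π (fv i) := by
  have hinvr : ∀ g, (r g)⁻¹ = r g := fun g => by
    rw [inv_eq_iff_mul_eq_one]; exact sq hr g
  have stp : ∀ g ∈ J, ∀ y : G, φ y (π (fv i)) = π (fv i) →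
      φ (r g * y) (π (fv i)) = π (fv i) := by
    intro g hg y h
    rw [map_mul, Equiv.Perm.mul_apply, h, hφ, fv_fix i g (by rintro rfl; exact hi hg)]
  refine closure_induction_left (p := fun w _ => φ w (π (fv i)) = π (fv i)) ?_ ?_ ?_ hw
  · rw [map_one]; rfl
  · rintro x ⟨g, hg, rfl⟩ y _ h
    exact stp g hg y h
  · rintro x ⟨g, hg, rfl⟩ y _ h
    rw [hinvr g]
    exact stp g hg y h

omit hr in
theorem component : ∀ (I : Finset (Fin 6)), ∀ i ∈ I,
    (¬({2, 3, 4, 5} ⊆ I) ∨ (I = {0, 2, 3, 4, 5} ∧ i = 0)) →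
    ∃ a b : Fin 6, a ≤ i ∧ i ≤ b ∧ ¬(a ≤ 2 ∧ b = 5) ∧ (∀ g, a ≤ g → g ≤ b → g ∈ I) ∧
      ∀ g ∈ I, (a ≤ g ∧ g ≤ b) ∨ (g : ℕ) + 1 < a ∨ (b : ℕ) + 1 < g := by
  intro I i hi h
  obtain ⟨a, b, h1, h2, h3, h4, h5⟩ := component' I i hi h
  exact ⟨a, b, h1, h2, h3, fun g hg hg' => h4 g ⟨hg, hg'⟩, h5⟩

theorem inter_fin_aux {X : Type*} (φ : G →* Equiv.Perm X) (π : V → X)
    (hφ : ∀ i v, φ (r i) (π v) = π (R i v))
    (hπ : ∀ v w, near v w = true → π v ≠ π w) (J : Finset (Fin 6)) (w : G)
    (hwJ : w ∈ closure (r '' (J : Set (Fin 6)))) (n : ℕ) :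
    ∀ I : Finset (Fin 6), (I \ J).card = n → ¬({2, 3, 4, 5} ⊆ I) →
      w ∈ closure (r '' (I : Set (Fin 6))) →
      w ∈ closure (r '' ((I ∩ J : Finset (Fin 6)) : Set (Fin 6))) := by
  induction n with
  | zero =>
    intro I hI _ hw
    have : I ⊆ J := Finset.sdiff_eq_empty_iff_subset.1 (Finset.card_eq_zero.1 hI)
    rwa [Finset.inter_eq_left.2 this]
  | succ n ih =>
    intro I hI hI2 hw
    obtain ⟨i, hi⟩ : (I \ J).Nonempty := Finset.card_pos.1 (by omega)
    have hi' := Finset.mem_sdiff.1 hi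
    obtain ⟨a, b, h1, h2, h3, h4, h5⟩ := component I i hi'.1 (Or.inl hI2)
    have h6 := stab hr φ π hφ hπ I a b i h1 h2 h3 h4 h5 w hw
      (fix_of_notMem hr φ π hφ J i hi'.2 w hwJ)
    have h7 : ((I.erase i) \ J).card = n := by
      rw [Finset.erase_sdiff_comm, Finset.card_erase_of_mem hi, hI]
      omega
    have h8 := ih (I.erase i) h7 (fun h => hI2 (h.trans (Finset.erase_subset _ _))) h6
    have h9 : (I.erase i) ∩ J = I ∩ J := by
      rw [Finset.erase_inter, Finset.erase_eq_of_notMem]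
      simp [hi'.2]
    rwa [h9] at h8

omit hr in
theorem two_big : ∀ I J : Finset (Fin 6), {2, 3, 4, 5} ⊆ I → {2, 3, 4, 5} ⊆ J → ¬(I ⊆ J) →
    ¬(J ⊆ I) → (I = {0, 2, 3, 4, 5} ∧ 0 ∉ J ∧ I.erase 0 = I ∩ J) ∨
      (J = {0, 2, 3, 4, 5} ∧ 0 ∉ I ∧ J.erase 0 = I ∩ J) := by
  decide +kernel

theorem inter_fin {X : Type*} (φ : G →* Equiv.Perm X) (π : V → X)
    (hφ : ∀ i v, φ (r i) (π v) = π (R i v))
    (hπ : ∀ v w, near v w = true → π v ≠ π w) (I J : Finset (Fin 6)) :
    closure (r '' (I : Set (Fin 6))) ⊓ closure (r '' (J : Set (Fin 6))) =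
      closure (r '' ((I ∩ J : Finset (Fin 6)) : Set (Fin 6))) := by
  apply le_antisymm
  · rintro w ⟨hwI, hwJ⟩
    by_cases h1 : I ⊆ J
    · rwa [Finset.inter_eq_left.2 h1]
    by_cases h2 : J ⊆ I
    · rwa [Finset.inter_eq_right.2 h2]
    by_cases h3 : {2, 3, 4, 5} ⊆ I
    · by_cases h4 : {2, 3, 4, 5} ⊆ J
      · rcases two_big I J h3 h4 h1 h2 with ⟨e, h0, h5⟩ | ⟨e, h0, h5⟩
        · obtain ⟨a, b, g1, g2, g3, g4, g5⟩ := component I 0 (by rw [e]; simp) (Or.inr ⟨e, rfl⟩)
          rw [← h5]
          exact stab hr φ π hφ hπ I a b 0 g1 g2 g3 g4 g5 w hwI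
            (fix_of_notMem hr φ π hφ J 0 h0 w hwJ)
        · obtain ⟨a, b, g1, g2, g3, g4, g5⟩ := component J 0 (by rw [e]; simp) (Or.inr ⟨e, rfl⟩)
          rw [← h5]
          exact stab hr φ π hφ hπ J a b 0 g1 g2 g3 g4 g5 w hwJ
            (fix_of_notMem hr φ π hφ I 0 h0 w hwI)
      · have := inter_fin_aux hr φ π hφ hπ I w hwI _ J rfl h4 hwJ
        rwa [Finset.inter_comm] at this
    · exact inter_fin_aux hr φ π hφ hπ J w hwJ _ I rfl h3 hwI
  · apply le_inf
    · exact closure_mono (Set.image_mono (by exact_mod_cast Finset.inter_subset_left))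
    · exact closure_mono (Set.image_mono (by exact_mod_cast Finset.inter_subset_right))

/-- The intersection property. -/
theorem inter {X : Type*} (φ : G →* Equiv.Perm X) (π : V → X)
    (hφ : ∀ i v, φ (r i) (π v) = π (R i v))
    (hπ : ∀ v w, near v w = true → π v ≠ π w) (I J : Set (Fin 6)) :
    closure (r '' I) ⊓ closure (r '' J) = closure (r '' (I ∩ J)) := by
  classical
  have := inter_fin hr φ π hφ hπ I.toFinite.toFinset J.toFinite.toFinset
  simp only [Finset.coe_inter, Set.Finite.coe_toFinset] at this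
  exact this

omit hr in
theorem near_R : ∀ i : Fin 6, near (R i (fv i)) (fv i) = true := by
  decide +kernel

omit hr in
theorem ne_one {X : Type*} (φ : G →* Equiv.Perm X) (π : V → X)
    (hφ : ∀ i v, φ (r i) (π v) = π (R i v))
    (hπ : ∀ v w, near v w = true → π v ≠ π w) (i : Fin 6) : r i ≠ 1 := by
  intro h
  have h1 := hφ i (fv i)
  rw [h, map_one] at h1
  exact hπ _ _ (near_R i) h1.symm

omit hr in
theorem injective {X : Type*} (φ : G →* Equiv.Perm X) (π : V → X)
    (hφ : ∀ i v, φ (r i) (π v) = π (R i v))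
    (hπ : ∀ v w, near v w = true → π v ≠ π w) : Function.Injective r := by
  intro i j h
  by_contra hne
  have h1 := hφ i (fv i)
  rw [h, hφ, fv_fix i j (fun e => hne e.symm)] at h1
  exact hπ _ _ (near_R i) h1.symm

end sound

/-! ### The groups `Gam s k`, `s ≥ 3` -/

/-- The generator `ρᵢ` of the free group. -/
def gen (i : Fin 6) : FreeGroup (Fin 6) := FreeGroup.of i

/-- `σ = ρ₂ρ₃ρ₄ρ₃ρ₂`. -/
def sigma : FreeGroup (Fin 6) := gen 2 * gen 3 * gen 4 * gen 3 * gen 2

/-- `τ = ρ₅ρ₄ρ₃ρ₄ρ₅`. -/
def tau : FreeGroup (Fin 6) := gen 5 * gen 4 * gen 3 * gen 4 * gen 5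

/-- The additional relator: `(ρ₁στσ)^s` if `k = 1` and `(ρ₁στ)^(2s)` if `k = 2`. -/
def extra (s k : ℕ) : FreeGroup (Fin 6) :=
  if k = 1 then (gen 1 * sigma * tau * sigma) ^ s else (gen 1 * sigma * tau) ^ (2 * s)

/-- The relators: `(ρᵢρⱼ)^(m i j)` with `m = cox`, and the additional relator. -/
def rels (s k : ℕ) : Set (FreeGroup (Fin 6)) :=
  {r | ∃ i j, r = (gen i * gen j) ^ cox i j} ∪ {extra s k}

/-- The lattice modulo `n`. -/
abbrev VN (n : ℕ) := (ZMod n × ZMod n × ZMod n × ZMod n) × ZMod n × ZMod n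

/-- Reduction modulo `n`. -/
def pi (n : ℕ) (v : V) : VN n :=
  ((v.1.1, v.1.2.1, v.1.2.2.1, v.1.2.2.2), v.2.1, v.2.2)

theorem pi_surj (n : ℕ) (x : VN n) : ∃ v, pi n v = x := by
  obtain ⟨⟨p, x, y, z⟩, a, b⟩ := x
  obtain ⟨p', rfl⟩ := ZMod.intCast_surjective p
  obtain ⟨x', rfl⟩ := ZMod.intCast_surjective x
  obtain ⟨y', rfl⟩ := ZMod.intCast_surjective y
  obtain ⟨z', rfl⟩ := ZMod.intCast_surjective z
  obtain ⟨a', rfl⟩ := ZMod.intCast_surjective a
  obtain ⟨b', rfl⟩ := ZMod.intCast_surjective b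
  exact ⟨((p', x', y', z'), a', b'), rfl⟩

/-- The reflections modulo `n`. -/
def RN (n : ℕ) : Fin 6 → VN n → VN n
  | 0, ((p, x, y, z), a, b) => ((p, x, y, z), -b, -a)
  | 1, ((p, x, y, z), a, b) => ((2 * b - p, x + p - b, y + p - b, z + p - b), a - b + p, b)
  | 2, ((p, x, y, z), a, b) =>
      ((p + (p + x + y + z), x - (p + x + y + z), y - (p + x + y + z), z - (p + x + y + z)), a, b)
  | 3, ((p, x, y, z), a, b) => ((p, x, y, -p - z), a, b)
  | 4, ((p, x, y, z), a, b) => ((p, x, z, y), a, b)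
  | 5, ((p, x, y, z), a, b) => ((p, y, x, z), a, b)

theorem RN_pi (n : ℕ) (i : Fin 6) (v : V) : RN n i (pi n v) = pi n (R i v) := by
  obtain ⟨⟨p, x, y, z⟩, a, b⟩ := v
  fin_cases i <;> simp [RN, R, pi]

/-- The reflections modulo `n` as permutations. -/
def PN (n : ℕ) (i : Fin 6) : Equiv.Perm (VN n) where
  toFun := RN n i
  invFun := RN n i
  left_inv x := by
    obtain ⟨v, rfl⟩ := pi_surj n x
    rw [RN_pi, RN_pi, R_R]
  right_inv x := by
    obtain ⟨v, rfl⟩ := pi_surj n x
    rw [RN_pi, RN_pi, R_R]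

theorem PN_pi (n : ℕ) (i : Fin 6) (v : V) : PN n i (pi n v) = pi n (R i v) := RN_pi n i v

theorem R_cox : ∀ i j : Fin 6, ∀ v : V, (fun v => R i (R j v))^[cox i j] v = v := by
  intro i j v
  obtain ⟨⟨p, x, y, z⟩, a, b⟩ := v
  fin_cases i <;> fin_cases j <;>
    simp [cox, R] <;> (try constructorm* _ ∧ _) <;> (try ring)

theorem pow_pi (n : ℕ) (g : Equiv.Perm (VN n)) (f : V → V) (h : ∀ v, g (pi n v) = pi n (f v))
    (m : ℕ) (v : V) : (g ^ m) (pi n v) = pi n (f^[m] v) := by
  induction m generalizing v with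
  | zero => rfl
  | succ m ih => rw [pow_succ, Equiv.Perm.mul_apply, h, ih, Function.iterate_succ_apply]

theorem eq_one_pi (n : ℕ) (g : Equiv.Perm (VN n)) (h : ∀ v, g (pi n v) = pi n v) : g = 1 := by
  ext1 x
  obtain ⟨v, rfl⟩ := pi_surj n x
  exact h v

theorem lift_cox (n : ℕ) (i j : Fin 6) :
    FreeGroup.lift (PN n) ((gen i * gen j) ^ cox i j) = 1 := by
  rw [map_pow, map_mul, gen, gen, FreeGroup.lift_apply_of, FreeGroup.lift_apply_of]
  apply eq_one_pi
  intro v
  rw [pow_pi n _ (fun v => R i (R j v)) (fun v => by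
    rw [Equiv.Perm.mul_apply, PN_pi, PN_pi]) _ v, R_cox]

theorem PN_sq (n : ℕ) (i : Fin 6) : PN n i * PN n i = 1 := by
  apply eq_one_pi
  intro v
  rw [Equiv.Perm.mul_apply, PN_pi, PN_pi, R_R]

theorem E_iter (y : H4) (m : ℕ) (v : V) : (E y)^[m] v = E ((m : ℤ) • y) v := by
  induction m generalizing v with
  | zero => simp [E_zero]
  | succ m ih =>
    rw [Function.iterate_succ_apply, ih, E_E]
    congr 1
    push_cast
    rw [add_smul, one_smul]

theorem E_pi (n : ℕ) (y : H4) (v : V) : pi n (E ((n : ℤ) • y) v) = pi n v := by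
  obtain ⟨⟨p, x, y1, z⟩, a, b⟩ := v
  obtain ⟨q, q1, q2, q3⟩ := y
  simp only [E, bil, nm, pi, Prod.smul_mk, Prod.mk_add_mk, smul_eq_mul, Prod.mk.injEq]
  push_cast
  simp

theorem pow_inv_E (n : ℕ) (g g' : Equiv.Perm (VN n)) (hg : g * g' = 1) (y : H4)
    (h : ∀ v, g' (pi n v) = pi n (E y v)) : g ^ n = 1 := by
  have h1 : g' ^ n = 1 := by
    apply eq_one_pi
    intro v
    rw [pow_pi n g' _ h, E_iter, E_pi]
  have h2 : g = g'⁻¹ := eq_inv_of_mul_eq_one_left hg
  rw [h2, inv_pow, h1, inv_one]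

theorem lift_extra (n k : ℕ) (hk : k = 1 ∨ k = 2) : FreeGroup.lift (PN n) (extra n k) = 1 := by
  have h0 := PN_sq n
  have c : ∀ i (g : Equiv.Perm (VN n)), PN n i * (PN n i * g) = g := by
    intro i g
    rw [← mul_assoc, h0, one_mul]
  rcases hk with rfl | rfl
  · rw [extra, if_pos rfl, map_pow]
    refine pow_inv_E n _ (FreeGroup.lift (PN n) (sigma * tau * sigma * gen 1)) ?_ (-2, 1, 1, 1) ?_
    · simp only [sigma, tau, gen, map_mul, FreeGroup.lift_apply_of, mul_assoc]
      simp only [c, h0]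
    · intro v
      simp only [sigma, tau, gen, map_mul, FreeGroup.lift_apply_of, Equiv.Perm.mul_apply, PN_pi]
      rw [word1]
  · rw [extra, if_neg (by norm_num), map_pow, pow_mul]
    refine pow_inv_E n _ (FreeGroup.lift (PN n) ((tau * sigma * gen 1) ^ 2)) ?_ (-2, 0, 1, 1) ?_
    · simp only [sigma, tau, gen, map_mul, pow_two, FreeGroup.lift_apply_of, mul_assoc]
      simp only [c, h0]
    · intro v
      simp only [sigma, tau, gen, map_mul, pow_two, FreeGroup.lift_apply_of,
        Equiv.Perm.mul_apply, PN_pi]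
      rw [word2]

theorem lift_rels (n k : ℕ) (hk : k = 1 ∨ k = 2) :
    ∀ r ∈ rels n k, FreeGroup.lift (PN n) r = 1 := by
  rintro r (⟨i, j, rfl⟩ | hr)
  · exact lift_cox n i j
  · rw [Set.mem_singleton_iff.1 hr]
    exact lift_extra n k hk

theorem near_pi (n : ℕ) (hn : 3 ≤ n) (v w : V) (h : near v w = true) : pi n v ≠ pi n w := by
  intro he
  simp only [near, List.any_eq_true, Bool.or_eq_true, beq_iff_eq] at h
  obtain ⟨d, hd, h1⟩ := h
  have h2 : ((d : ℤ) : ZMod n) = 0 := by
    simp only [pi, Prod.mk.injEq] at he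
    simp only [List.mem_cons, List.not_mem_nil, or_false] at hd
    rcases hd with rfl | rfl | rfl | rfl | rfl | rfl <;> push_cast <;> simp [he]
  rw [ZMod.intCast_zmod_eq_zero_iff_dvd] at h2
  have h3 : n ∣ d.natAbs := by
    have := Int.natAbs_dvd_natAbs.2 h2
    simpa using this
  have h4 := Nat.le_of_dvd (by omega) h3
  omega

/-- The homomorphism to the permutations of the lattice modulo `n`. -/
def phi (n k : ℕ) (hk : k = 1 ∨ k = 2) :
    PresentedGroup (rels n k) →* Equiv.Perm (VN n) :=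
  PresentedGroup.toGroup (lift_rels n k hk)

theorem phi_of (n k : ℕ) (hk : k = 1 ∨ k = 2) (i : Fin 6) (v : V) :
    phi n k hk (PresentedGroup.of i) (pi n v) = pi n (R i v) := by
  rw [phi, PresentedGroup.toGroup.of, PN_pi]

theorem of_cox (n k : ℕ) (i j : Fin 6) :
    ((PresentedGroup.of i * PresentedGroup.of j : PresentedGroup (rels n k))) ^ cox i j = 1 := by
  have h : (PresentedGroup.mk (rels n k)) ((gen i * gen j) ^ cox i j) = 1 :=
    PresentedGroup.one_of_mem (Or.inl ⟨i, j, rfl⟩)
  rw [map_pow, map_mul] at h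
  exact h

/-- The intersection property for the groups `Gam n k`, `n ≥ 3`. -/
theorem gam_inter (n k : ℕ) (hn : 3 ≤ n) (hk : k = 1 ∨ k = 2) (I J : Set (Fin 6)) :
    closure ((fun i => (PresentedGroup.of i : PresentedGroup (rels n k))) '' I) ⊓
      closure ((fun i => (PresentedGroup.of i : PresentedGroup (rels n k))) '' J) =
    closure ((fun i => (PresentedGroup.of i : PresentedGroup (rels n k))) '' (I ∩ J)) :=
  inter (of_cox n k) (phi n k hk) (pi n) (phi_of n k hk) (near_pi n hn) I J

theorem gam_ne_one (n k : ℕ) (hn : 3 ≤ n) (hk : k = 1 ∨ k = 2) (i : Fin 6) :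
    (PresentedGroup.of i : PresentedGroup (rels n k)) ≠ 1 :=
  ne_one (phi n k hk) (pi n) (phi_of n k hk) (near_pi n hn) i

theorem gam_injective (n k : ℕ) (hn : 3 ≤ n) (hk : k = 1 ∨ k = 2) :
    Function.Injective (fun i => (PresentedGroup.of i : PresentedGroup (rels n k))) :=
  injective (phi n k hk) (pi n) (phi_of n k hk) (near_pi n hn)

end Pool.Agent.Lib.MP_c2d01e_co.CGroup
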