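import Pool.Agent.Lib.MP_c2d01e_co.CGroup

/-!
# The intersection property, second part: the groups `Gam 2 k`

The reflections act on `N / 4 V`, where `N` consists of the vectors `(h, a, b)` with `h` in
`(1 + i) H` and `a, b` even.  Translations by `2 y` act trivially, so `Gam 2 k` acts on `N / 4 V`.
The stabilizers of six sets of vectors (the vertex sets of the base faces of the cross-polytope and
two single vectors) replace the stabilizers of the vectors `fv i`.
-/

set_option autoImplicit false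

namespace Pool.Agent.Lib.MP_c2d01e_co.CGroup

open Subgroup

/-- Six sets of vectors. -/
def bs : Fin 6 → List V
  | 0 => [((0, 0, 0, 0), 2, 0)]
  | 1 => [((0, 0, 0, 0), 2, 0), ((0, 0, 0, 0), 0, -2)]
  | 2 => [((0, 0, 0, 0), 2, 0), ((0, 0, 0, 0), 0, -2), ((-4, 2, 2, 2), 2, -2)]
  | 3 => [((0, 0, 0, 0), 2, 0), ((0, 0, 0, 0), 0, -2), ((-4, 2, 2, 2), 2, -2),
      ((-2, 0, 0, 0), 2, -2)]
  | 4 => [fv 4]
  | 5 => [fv 5]

/-- Same elements. -/
def eqs (l l' : List V) : Bool := (l.all fun v => l'.contains v) && (l'.all fun v => l.contains v)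

/-- Congruence modulo 4. -/
def eq4 (v w : V) : Bool :=
  ((v.1.1 - w.1.1) % 4 == 0) && ((v.1.2.1 - w.1.2.1) % 4 == 0) &&
  ((v.1.2.2.1 - w.1.2.2.1) % 4 == 0) && ((v.1.2.2.2 - w.1.2.2.2) % 4 == 0) &&
  ((v.2.1 - w.2.1) % 4 == 0) && ((v.2.2 - w.2.2) % 4 == 0)

/-- Every vector of `l` is congruent to one of `l'`. -/
def sub4 (l l' : List V) : Bool := l.all fun v => l'.any fun w => eq4 v w

/-- The lattice `N`. -/
def inN (v : V) : Bool :=
  (v.1.1 % 2 == 0) && ((v.1.2.1 + v.1.2.2.1 + v.1.2.2.2) % 2 == 0) && (v.2.1 % 2 == 0) &&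
  (v.2.2 % 2 == 0)

/-- The images of the set of vectors. -/
def build (L : List (V × Fin 6)) (B : List V) : ℕ → List (List V)
  | 0 => [B]
  | n + 1 => build L B n ++
      [((build L B n).getD (T L (n + 1) (par L (n + 1))) []).map (R (par L (n + 1)))]

/-- The second certificate, for given lists. -/
def cert2' (a b : Fin 6) (L : List (V × Fin 6)) (B : List V) (P : List (List V)) : Bool :=
  (P.getD 0 [] == B) &&
  (List.range L.length).all fun k =>
    ((gens a b).all fun g => eqs ((P.getD k []).map (R g)) (P.getD (T L k g) [])) &&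
    ((List.finRange 6).all fun g => !((g : ℕ) + 1 < a || (b : ℕ) + 1 < g) ||
      eqs ((P.getD k []).map (R g)) (P.getD k [])) &&
    (k == 0 || (!(sub4 (P.getD k []) B) && (P.getD k []).all inN))

/-- The second certificate. -/
def cert2 (a b i : Fin 6) : Bool :=
  cert2' a b (orb a b i) (bs i) (build (orb a b i) (bs i) ((orb a b i).length - 1))

/-- All certificates are correct. -/
theorem all_cert2 : ∀ a b i : Fin 6, a ≤ i → i ≤ b → ¬(a ≤ 2 ∧ b = 5) → cert2 a b i = true := by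
  decide +kernel

/-- The conditions checked by the second certificate. -/
structure Ct2 (L : List (V × Fin 6)) (P : List (List V)) (a b i : Fin 6) : Prop where
  zero : P.getD 0 [] = bs i
  step : ∀ k < L.length, ∀ g ∈ gens a b,
    eqs ((P.getD k []).map (R g)) (P.getD (T L k g) []) = true
  far : ∀ k < L.length, ∀ g : Fin 6, ((g : ℕ) + 1 < a ∨ (b : ℕ) + 1 < g) →
    eqs ((P.getD k []).map (R g)) (P.getD k []) = true
  ne : ∀ k < L.length, k ≠ 0 → sub4 (P.getD k []) (bs i) = false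
  mem : ∀ k < L.length, k ≠ 0 → (P.getD k []).all inN = true

theorem ct2_of_cert {a b i : Fin 6} (h : cert2 a b i = true) :
    Ct2 (orb a b i) (build (orb a b i) (bs i) ((orb a b i).length - 1)) a b i := by
  unfold cert2 at h
  generalize build (orb a b i) (bs i) ((orb a b i).length - 1) = P at h ⊢
  unfold cert2' at h
  simp only [Bool.and_eq_true, beq_iff_eq, List.all_eq_true, List.mem_range,
    Bool.or_eq_true, List.mem_finRange, forall_const, Bool.not_eq_eq_eq_not, Bool.not_true] at h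
  obtain ⟨h1, h3⟩ := h
  refine ⟨h1, ?_, ?_, ?_, ?_⟩
  · exact fun k hk g hg => (h3 k hk).1.1 g hg
  · intro k hk g hg
    rcases (h3 k hk).1.2 g with h4 | h4
    · exfalso
      simp only [Bool.or_eq_false_iff, decide_eq_false_iff_not] at h4
      rcases hg with hg | hg
      · exact h4.1 hg
      · exact h4.2 hg
    · exact h4
  · intro k hk hk0
    rcases (h3 k hk).2 with h4 | h4
    · exact absurd h4 hk0
    · exact h4.1
  · intro k hk hk0
    rcases (h3 k hk).2 with h4 | h4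
    · exact absurd h4 hk0
    · exact List.all_eq_true.2 h4.2

theorem bs_fix (i j : Fin 6) (h : j ≠ i) : eqs ((bs i).map (R j)) (bs i) = true := by
  revert h
  revert i j
  decide +kernel

theorem bs_move (i : Fin 6) : sub4 ((bs i).map (R i)) (bs i) = false ∧
    ((bs i).map (R i)).all inN = true := by
  revert i
  decide +kernel

/-! ### Soundness -/

section sound2

variable {G : Type*} [Group G] (r : Fin 6 → G)
variable (hr : ∀ i j : Fin 6, (r i * r j) ^ cox i j = 1)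
include hr

theorem inv_r (g : Fin 6) : (r g)⁻¹ = r g := by
  rw [inv_eq_iff_mul_eq_one]; exact sq hr g

theorem stabS {X : Type*} (φ : G →* Equiv.Perm X) (S : List V → Set X)
    (hφ : ∀ g l, φ (r g) '' S l = S (l.map (R g)))
    (hS : ∀ l l', eqs l l' = true → S l = S l')
    (hne : ∀ l l', l.all inN = true → sub4 l l' = false → S l ≠ S l')
    (J : Finset (Fin 6)) (a b i : Fin 6)
    (hai : a ≤ i) (hib : i ≤ b) (hfin : ¬(a ≤ 2 ∧ b = 5)) (hJ1 : ∀ g, a ≤ g → g ≤ b → g ∈ J)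
    (hJ2 : ∀ g ∈ J, (a ≤ g ∧ g ≤ b) ∨ (g : ℕ) + 1 < a ∨ (b : ℕ) + 1 < g) (w : G)
    (hw : w ∈ closure (r '' (J : Set (Fin 6)))) (hfix : φ w '' S (bs i) = S (bs i)) :
    w ∈ closure (r '' ((J.erase i : Finset (Fin 6)) : Set (Fin 6))) := by
  set K := closure (r '' ((J.erase i : Finset (Fin 6)) : Set (Fin 6))) with hKdef
  have hL := ct_of_cert (all_cert a b i hai hib hfin)
  have hP := ct2_of_cert (all_cert2 a b i hai hib hfin)
  set L := orb a b i with hLdef
  set P := build L (bs i) (L.length - 1) with hPdef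
  have hrK : ∀ g ∈ J, g ≠ i → r g ∈ K := fun g hg hgi =>
    subset_closure ⟨g, by simp [hg, hgi], rfl⟩
  have hgens : ∀ g : Fin 6, g ∈ gens a b ↔ a ≤ g ∧ g ≤ b := by
    intro g; simp [gens]
  have hK : ∀ g ∈ gens a b, g ≠ i → r g ∈ K := fun g hg hgi =>
    hrK g (hJ1 g ((hgens g).1 hg).1 ((hgens g).1 hg).2) hgi
  have hinvr : ∀ g, (r g)⁻¹ = r g := inv_r r hr
  have hmul : ∀ x y : G, ∀ s : Set X, φ (x * y) '' s = φ x '' (φ y '' s) := by
    intro x y s
    rw [map_mul, Equiv.Perm.coe_mul, Set.image_comp]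
  have key : ∃ l < L.length, w • cc r L K 0 = cc r L K l ∧
      φ w '' S (P.getD 0 []) = S (P.getD l []) := by
    have stp : ∀ g ∈ J, ∀ y : G,
        (∃ l < L.length, y • cc r L K 0 = cc r L K l ∧
          φ y '' S (P.getD 0 []) = S (P.getD l [])) →
        ∃ l < L.length, (r g * y) • cc r L K 0 = cc r L K l ∧
          φ (r g * y) '' S (P.getD 0 []) = S (P.getD l []) := by
      rintro g hg y ⟨l, hl, h1, h2⟩
      rcases hJ2 g hg with h3 | h3
      · have hgg := (hgens g).2 h3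
        refine ⟨T L l g, hL.lt l hl g hgg, ?_, ?_⟩
        · rw [mul_smul, h1, claim' hr hL K hK l hl g hgg]
        · rw [hmul, h2, hφ]
          exact hS _ _ (hP.step l hl g hgg)
      · refine ⟨l, hl, ?_, ?_⟩
        · have hgi : g ≠ i := by
            rintro rfl
            have h5 : (a : ℕ) ≤ (g : ℕ) := hai
            have h6 : (g : ℕ) ≤ (b : ℕ) := hib
            omega
          rw [mul_smul, h1, claim_far hr hL K g (hrK g hg hgi) h3 l hl]
        · rw [hmul, h2, hφ]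
          exact hS _ _ (hP.far l hl g h3)
    refine closure_induction_left (p := fun w _ => ∃ l < L.length, w • cc r L K 0 = cc r L K l ∧
      φ w '' S (P.getD 0 []) = S (P.getD l [])) ?_ ?_ ?_ hw
    · exact ⟨0, hL.pos, by rw [one_smul], by rw [map_one]; simp⟩
    · rintro x ⟨g, hg, rfl⟩ y _ h
      exact stp g hg y h
    · rintro x ⟨g, hg, rfl⟩ y _ h
      rw [hinvr g]
      exact stp g hg y h
  obtain ⟨l, hl, h1, h2⟩ := key
  by_cases hl0 : l = 0
  · subst hl0
    rw [cc_zero] at h1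
    have h3 : ((w : G) : G ⧸ K) = ((1 : G) : G ⧸ K) := by
      rw [← h1]
      change _ = ((w * 1 : G) : G ⧸ K)
      rw [mul_one]
    rw [QuotientGroup.eq, mul_one] at h3
    exact (K.inv_mem_iff).1 h3
  · exfalso
    rw [hP.zero, hfix] at h2
    exact hne _ _ (hP.mem l hl hl0) (hP.ne l hl hl0) h2.symm

theorem fixS {X : Type*} (φ : G →* Equiv.Perm X) (S : List V → Set X)
    (hφ : ∀ g l, φ (r g) '' S l = S (l.map (R g)))
    (hS : ∀ l l', eqs l l' = true → S l = S l') (J : Finset (Fin 6)) (i : Fin 6) (hi : i ∉ J)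
    (w : G) (hw : w ∈ closure (r '' (J : Set (Fin 6)))) : φ w '' S (bs i) = S (bs i) := by
  have stp : ∀ g ∈ J, ∀ y : G, φ y '' S (bs i) = S (bs i) →
      φ (r g * y) '' S (bs i) = S (bs i) := by
    intro g hg y h
    rw [map_mul, Equiv.Perm.coe_mul, Set.image_comp, h, hφ]
    exact hS _ _ (bs_fix i g (by rintro rfl; exact hi hg))
  refine closure_induction_left (p := fun w _ => φ w '' S (bs i) = S (bs i)) ?_ ?_ ?_ hw
  · rw [map_one]; simp
  · rintro x ⟨g, hg, rfl⟩ y _ h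
    exact stp g hg y h
  · rintro x ⟨g, hg, rfl⟩ y _ h
    rw [inv_r r hr g]
    exact stp g hg y h

theorem inter_fin_auxS {X : Type*} (φ : G →* Equiv.Perm X) (S : List V → Set X)
    (hφ : ∀ g l, φ (r g) '' S l = S (l.map (R g)))
    (hS : ∀ l l', eqs l l' = true → S l = S l')
    (hne : ∀ l l', l.all inN = true → sub4 l l' = false → S l ≠ S l')
    (J : Finset (Fin 6)) (w : G)
    (hwJ : w ∈ closure (r '' (J : Set (Fin 6)))) (n : ℕ) :
    ∀ I : Finset (Fin 6), (I \ J).card = n → ¬({2, 3, 4, 5} ⊆ I) →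
      w ∈ closure (r '' (I : Set (Fin 6))) →
      w ∈ closure (r '' ((I ∩ J : Finset (Fin 6)) : Set (Fin 6))) := by
  induction n with
  | zero =>
    intro I hI _ hw
    have : I ⊆ J := Finset.sdiff_eq_empty_iff_subset.1 (Finset.card_eq_zero.1 hI)
    rwa [Finset.inter_eq_left.2 this]
  | succ n ih =>
    intro I hI hI2 hw
    obtain ⟨i, hi⟩ : (I \ J).Nonempty := Finset.card_pos.1 (by omega)
    have hi' := Finset.mem_sdiff.1 hi
    obtain ⟨a, b, h1, h2, h3, h4, h5⟩ := component I i hi'.1 (Or.inl hI2)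
    have h6 := stabS r hr φ S hφ hS hne I a b i h1 h2 h3 h4 h5 w hw
      (fixS r hr φ S hφ hS J i hi'.2 w hwJ)
    have h7 : ((I.erase i) \ J).card = n := by
      rw [Finset.erase_sdiff_comm, Finset.card_erase_of_mem hi, hI]
      omega
    have h8 := ih (I.erase i) h7 (fun h => hI2 (h.trans (Finset.erase_subset _ _))) h6
    have h9 : (I.erase i) ∩ J = I ∩ J := by
      rw [Finset.erase_inter, Finset.erase_eq_of_notMem]
      simp [hi'.2]
    rwa [h9] at h8

theorem inter_finS {X : Type*} (φ : G →* Equiv.Perm X) (S : List V → Set X)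
    (hφ : ∀ g l, φ (r g) '' S l = S (l.map (R g)))
    (hS : ∀ l l', eqs l l' = true → S l = S l')
    (hne : ∀ l l', l.all inN = true → sub4 l l' = false → S l ≠ S l')
    (I J : Finset (Fin 6)) :
    closure (r '' (I : Set (Fin 6))) ⊓ closure (r '' (J : Set (Fin 6))) =
      closure (r '' ((I ∩ J : Finset (Fin 6)) : Set (Fin 6))) := by
  apply le_antisymm
  · rintro w ⟨hwI, hwJ⟩
    by_cases h1 : I ⊆ J
    · rwa [Finset.inter_eq_left.2 h1]
    by_cases h2 : J ⊆ I
    · rwa [Finset.inter_eq_right.2 h2]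
    by_cases h3 : {2, 3, 4, 5} ⊆ I
    · by_cases h4 : {2, 3, 4, 5} ⊆ J
      · rcases two_big I J h3 h4 h1 h2 with ⟨e, h0, h5⟩ | ⟨e, h0, h5⟩
        · obtain ⟨a, b, g1, g2, g3, g4, g5⟩ := component I 0 (by rw [e]; simp) (Or.inr ⟨e, rfl⟩)
          rw [← h5]
          exact stabS r hr φ S hφ hS hne I a b 0 g1 g2 g3 g4 g5 w hwI
            (fixS r hr φ S hφ hS J 0 h0 w hwJ)
        · obtain ⟨a, b, g1, g2, g3, g4, g5⟩ := component J 0 (by rw [e]; simp) (Or.inr ⟨e, rfl⟩)
          rw [← h5]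
          exact stabS r hr φ S hφ hS hne J a b 0 g1 g2 g3 g4 g5 w hwJ
            (fixS r hr φ S hφ hS I 0 h0 w hwI)
      · have := inter_fin_auxS r hr φ S hφ hS hne I w hwI _ J rfl h4 hwJ
        rwa [Finset.inter_comm] at this
    · exact inter_fin_auxS r hr φ S hφ hS hne J w hwJ _ I rfl h3 hwI
  · apply le_inf
    · exact closure_mono (Set.image_mono (by exact_mod_cast Finset.inter_subset_left))
    · exact closure_mono (Set.image_mono (by exact_mod_cast Finset.inter_subset_right))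

theorem interS {X : Type*} (φ : G →* Equiv.Perm X) (S : List V → Set X)
    (hφ : ∀ g l, φ (r g) '' S l = S (l.map (R g)))
    (hS : ∀ l l', eqs l l' = true → S l = S l')
    (hne : ∀ l l', l.all inN = true → sub4 l l' = false → S l ≠ S l')
    (I J : Set (Fin 6)) :
    closure (r '' I) ⊓ closure (r '' J) = closure (r '' (I ∩ J)) := by
  classical
  have := inter_finS r hr φ S hφ hS hne I.toFinite.toFinset J.toFinite.toFinset
  simp only [Finset.coe_inter, Set.Finite.coe_toFinset] at this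
  exact this

omit hr in
theorem ne_oneS {X : Type*} (φ : G →* Equiv.Perm X) (S : List V → Set X)
    (hφ : ∀ g l, φ (r g) '' S l = S (l.map (R g)))
    (hne : ∀ l l', l.all inN = true → sub4 l l' = false → S l ≠ S l') (i : Fin 6) :
    r i ≠ 1 := by
  intro h
  have h1 := hφ i (bs i)
  rw [h, map_one] at h1
  have h2 := hne _ _ (bs_move i).2 (bs_move i).1
  apply h2
  rw [← h1]
  simp

omit hr in
theorem injectiveS {X : Type*} (φ : G →* Equiv.Perm X) (S : List V → Set X)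
    (hφ : ∀ g l, φ (r g) '' S l = S (l.map (R g)))
    (hS : ∀ l l', eqs l l' = true → S l = S l')
    (hne : ∀ l l', l.all inN = true → sub4 l l' = false → S l ≠ S l') :
    Function.Injective r := by
  intro i j h
  by_contra hij
  have h1 := hφ i (bs i)
  rw [h, hφ, hS _ _ (bs_fix i j (fun e => hij e.symm))] at h1
  exact hne _ _ (bs_move i).2 (bs_move i).1 h1.symm

end sound2

/-! ### The action on `N / 4 V` -/

/-- The image of `N`. -/
def PX (x : VN 4) : Prop := ∃ v : V, inN v = true ∧ pi 4 v = x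

theorem inN_R (i : Fin 6) (v : V) (h : inN v = true) : inN (R i v) = true := by
  obtain ⟨⟨p, x, y, z⟩, a, b⟩ := v
  simp only [inN, Bool.and_eq_true, beq_iff_eq] at h
  obtain ⟨⟨⟨h1, h2⟩, h3⟩, h4⟩ := h
  fin_cases i <;> simp only [R, inN, Bool.and_eq_true, beq_iff_eq] <;> refine ⟨⟨⟨?_, ?_⟩, ?_⟩, ?_⟩ <;>
    omega

theorem PX_iff (i : Fin 6) (x : VN 4) : PX x ↔ PX (PN 4 i x) := by
  constructor
  · rintro ⟨v, hv, rfl⟩
    exact ⟨R i v, inN_R i v hv, (PN_pi 4 i v).symm⟩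
  · rintro ⟨v, hv, h⟩
    refine ⟨R i v, inN_R i v hv, ?_⟩
    rw [← PN_pi, h]
    have := congrArg (fun g : Equiv.Perm (VN 4) => g x) (PN_sq 4 i)
    simpa using this

/-- The reflections on `N / 4 V`. -/
def Q (i : Fin 6) : Equiv.Perm {x : VN 4 // PX x} := (PN 4 i).subtypePerm (fun x => (PX_iff i x).symm)

theorem lift_Q (w : FreeGroup (Fin 6)) (x : {x : VN 4 // PX x}) :
    ((FreeGroup.lift Q w) x).1 = (FreeGroup.lift (PN 4) w) x.1 := by
  have hinv : ∀ i, (PN 4 i)⁻¹ = PN 4 i := fun i => by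
    rw [inv_eq_iff_mul_eq_one]; exact PN_sq 4 i
  have hQ : ∀ i (x : {x : VN 4 // PX x}), (Q i x).1 = PN 4 i x.1 := fun i x => rfl
  have hQinv : ∀ i, (Q i)⁻¹ = Q i := fun i => by
    rw [inv_eq_iff_mul_eq_one]
    ext1 x
    apply Subtype.ext
    rw [Equiv.Perm.mul_apply, hQ, hQ, ← Equiv.Perm.mul_apply, PN_sq]
    rfl
  induction w using FreeGroup.induction_on generalizing x with
  | C1 => simp
  | of i => simp [hQ]
  | inv_of i h => simp [hQ, hQinv, hinv]
  | mul a b ha hb => rw [map_mul, map_mul, Equiv.Perm.mul_apply, Equiv.Perm.mul_apply, ha, hb]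

theorem pi_eq (v w : V) (h : eq4 w v = true) : pi 4 v = pi 4 w := by
  simp only [eq4, Bool.and_eq_true, beq_iff_eq] at h
  obtain ⟨⟨⟨⟨⟨h1, h2⟩, h3⟩, h4⟩, h5⟩, h6⟩ := h
  simp only [pi, Prod.mk.injEq, ZMod.intCast_eq_intCast_iff_dvd_sub]
  push_cast
  refine ⟨⟨?_, ?_, ?_, ?_⟩, ?_, ?_⟩ <;> omega

theorem eq4_of_pi (v w : V) (h : pi 4 v = pi 4 w) : eq4 v w = true := by
  simp only [pi, Prod.mk.injEq, ZMod.intCast_eq_intCast_iff_dvd_sub] at h
  push_cast at h
  obtain ⟨⟨h1, h2, h3, h4⟩, h5, h6⟩ := h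
  simp only [eq4, Bool.and_eq_true, beq_iff_eq]
  refine ⟨⟨⟨⟨⟨?_, ?_⟩, ?_⟩, ?_⟩, ?_⟩, ?_⟩ <;> omega

theorem E2_pi (y : H4) (v : V) (hv : inN v = true) : pi 4 (E ((2 : ℤ) • y) v) = pi 4 v := by
  obtain ⟨⟨p, x, y1, z⟩, a, b⟩ := v
  obtain ⟨q, q1, q2, q3⟩ := y
  simp only [inN, Bool.and_eq_true, beq_iff_eq] at hv
  obtain ⟨⟨⟨h1, h2⟩, h3⟩, h4⟩ := hv
  obtain ⟨p', rfl⟩ : ∃ p', p = 2 * p' := ⟨p / 2, by omega⟩
  obtain ⟨s', hs⟩ : ∃ s', x + y1 + z = 2 * s' := ⟨(x + y1 + z) / 2, by omega⟩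
  obtain ⟨b', rfl⟩ : ∃ b', b = 2 * b' := ⟨b / 2, by omega⟩
  obtain rfl : z = 2 * s' - x - y1 := by omega
  apply pi_eq
  simp only [E, bil, nm, eq4, Prod.smul_mk, Prod.mk_add_mk, smul_eq_mul, Bool.and_eq_true,
    beq_iff_eq]
  refine ⟨⟨⟨⟨⟨?_, ?_⟩, ?_⟩, ?_⟩, ?_⟩, ?_⟩ <;> apply Int.emod_eq_zero_of_dvd
  · exact ⟨-(b' * q), by ring⟩
  · exact ⟨-(b' * q1), by ring⟩
  · exact ⟨-(b' * q2), by ring⟩
  · exact ⟨-(b' * q3), by ring⟩
  · exact ⟨2 * p' * q + p' * (q1 + q2 + q3) + q * s' + (x * q1 + y1 * q2 +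
      (2 * s' - x - y1) * q3) + (q ^ 2 + q1 ^ 2 + q2 ^ 2 + q3 ^ 2 + q * (q1 + q2 + q3)) *
      (2 * b'), by ring⟩
  · exact ⟨0, by ring⟩

theorem pow_two_inv_E (g g' : Equiv.Perm (VN 4)) (hg : g * g' = 1) (y : H4)
    (h : ∀ v, g' (pi 4 v) = pi 4 (E y v)) (v : V) (hv : inN v = true) :
    (g ^ 2) (pi 4 v) = pi 4 v := by
  have h1 : (g' ^ 2) (pi 4 v) = pi 4 v := by
    rw [pow_pi 4 g' _ h, E_iter]
    exact E2_pi y v hv
  have h2 : g = g'⁻¹ := eq_inv_of_mul_eq_one_left hg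
  rw [h2, inv_pow]
  exact (Equiv.Perm.inv_eq_iff_eq.2 h1.symm)

theorem lift_extraQ (k : ℕ) (hk : k = 1 ∨ k = 2) : FreeGroup.lift Q (extra 2 k) = 1 := by
  have h0 := PN_sq 4
  have c : ∀ i (g : Equiv.Perm (VN 4)), PN 4 i * (PN 4 i * g) = g := by
    intro i g
    rw [← mul_assoc, h0, one_mul]
  have key : ∀ v : V, inN v = true → FreeGroup.lift (PN 4) (extra 2 k) (pi 4 v) = pi 4 v := by
    rcases hk with rfl | rfl
    · rw [extra, if_pos rfl, map_pow]
      refine pow_two_inv_E _ (FreeGroup.lift (PN 4) (sigma * tau * sigma * gen 1)) ?_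
        (-2, 1, 1, 1) ?_
      · simp only [sigma, tau, gen, map_mul, FreeGroup.lift_apply_of, mul_assoc]
        simp only [c, h0]
      · intro v
        simp only [sigma, tau, gen, map_mul, FreeGroup.lift_apply_of, Equiv.Perm.mul_apply, PN_pi]
        rw [word1]
    · rw [extra, if_neg (by norm_num), map_pow, pow_mul]
      refine pow_two_inv_E _ (FreeGroup.lift (PN 4) ((tau * sigma * gen 1) ^ 2)) ?_
        (-2, 0, 1, 1) ?_
      · simp only [sigma, tau, gen, map_mul, pow_two, FreeGroup.lift_apply_of, mul_assoc]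
        simp only [c, h0]
      · intro v
        simp only [sigma, tau, gen, map_mul, pow_two, FreeGroup.lift_apply_of,
          Equiv.Perm.mul_apply, PN_pi]
        rw [word2]
  ext1 x
  apply Subtype.ext
  rw [lift_Q]
  obtain ⟨x, v, hv, rfl⟩ := x
  exact key v hv

theorem lift_relsQ (k : ℕ) (hk : k = 1 ∨ k = 2) : ∀ r ∈ rels 2 k, FreeGroup.lift Q r = 1 := by
  rintro r (⟨i, j, rfl⟩ | hr)
  · ext1 x
    apply Subtype.ext
    rw [lift_Q, lift_cox]
    rfl
  · rw [Set.mem_singleton_iff.1 hr]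
    exact lift_extraQ k hk

/-- The action of `Gam 2 k`. -/
def phiQ (k : ℕ) (hk : k = 1 ∨ k = 2) :
    PresentedGroup (rels 2 k) →* Equiv.Perm {x : VN 4 // PX x} :=
  PresentedGroup.toGroup (lift_relsQ k hk)

/-- The sets of images of vectors. -/
def SQ (l : List V) : Set {x : VN 4 // PX x} := {x | ∃ v ∈ l, pi 4 v = x.1}

theorem phiQ_SQ (k : ℕ) (hk : k = 1 ∨ k = 2) (g : Fin 6) (l : List V) :
    phiQ k hk (PresentedGroup.of g) '' SQ l = SQ (l.map (R g)) := by
  have h1 : phiQ k hk (PresentedGroup.of g) = Q g := by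
    rw [phiQ, PresentedGroup.toGroup.of]
  have h2 : ∀ x, (Q g x).1 = PN 4 g x.1 := fun x => rfl
  have h3 : ∀ x, Q g (Q g x) = x := by
    intro x
    apply Subtype.ext
    rw [h2, h2, ← Equiv.Perm.mul_apply, PN_sq]
    rfl
  rw [h1]
  ext x
  constructor
  · rintro ⟨y, ⟨v, hv, hy⟩, rfl⟩
    refine ⟨R g v, List.mem_map_of_mem hv, ?_⟩
    rw [h2, ← hy, PN_pi]
  · rintro ⟨w, hw, hx⟩
    obtain ⟨v, hv, rfl⟩ := List.mem_map.1 hw
    refine ⟨Q g x, ⟨v, hv, ?_⟩, h3 x⟩
    rw [h2, ← hx, PN_pi, R_R]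

theorem SQ_eq (l l' : List V) (h : eqs l l' = true) : SQ l = SQ l' := by
  simp only [eqs, Bool.and_eq_true, List.all_eq_true, List.contains_iff_mem] at h
  ext x
  constructor
  · rintro ⟨v, hv, hx⟩
    exact ⟨v, h.1 v hv, hx⟩
  · rintro ⟨v, hv, hx⟩
    exact ⟨v, h.2 v hv, hx⟩

theorem SQ_ne (l l' : List V) (hN : l.all inN = true) (h : sub4 l l' = false) :
    SQ l ≠ SQ l' := by
  intro he
  have h1 : sub4 l l' = true := by
    rw [sub4, List.all_eq_true]
    intro v hv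
    have hvN := List.all_eq_true.1 hN v hv
    have h2 : (⟨pi 4 v, v, hvN, rfl⟩ : {x : VN 4 // PX x}) ∈ SQ l := ⟨v, hv, rfl⟩
    rw [he] at h2
    obtain ⟨w, hw, hx⟩ := h2
    exact List.any_eq_true.2 ⟨w, hw, eq4_of_pi v w hx.symm⟩
  rw [h] at h1
  exact Bool.false_ne_true h1

/-- The intersection property for the groups `Gam n k`, `n ≥ 2`. -/
theorem gam_inter' (n k : ℕ) (hn : 2 ≤ n) (hk : k = 1 ∨ k = 2) (I J : Set (Fin 6)) :
    closure ((fun i => (PresentedGroup.of i : PresentedGroup (rels n k))) '' I) ⊓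
      closure ((fun i => (PresentedGroup.of i : PresentedGroup (rels n k))) '' J) =
    closure ((fun i => (PresentedGroup.of i : PresentedGroup (rels n k))) '' (I ∩ J)) := by
  rcases hn.eq_or_lt with rfl | hn
  · exact interS _ (of_cox 2 k) (phiQ k hk) SQ (phiQ_SQ k hk) SQ_eq SQ_ne I J
  · exact gam_inter n k hn hk I J

theorem gam_ne_one' (n k : ℕ) (hn : 2 ≤ n) (hk : k = 1 ∨ k = 2) (i : Fin 6) :
    (PresentedGroup.of i : PresentedGroup (rels n k)) ≠ 1 := by
  rcases hn.eq_or_lt with rfl | hn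
  · exact ne_oneS (fun i => (PresentedGroup.of i : PresentedGroup (rels 2 k))) (phiQ k hk) SQ
      (phiQ_SQ k hk) SQ_ne i
  · exact gam_ne_one n k hn hk i

theorem gam_injective' (n k : ℕ) (hn : 2 ≤ n) (hk : k = 1 ∨ k = 2) :
    Function.Injective (fun i => (PresentedGroup.of i : PresentedGroup (rels n k))) := by
  rcases hn.eq_or_lt with rfl | hn
  · exact injectiveS _ (phiQ k hk) SQ (phiQ_SQ k hk) SQ_eq SQ_ne
  · exact gam_injective n k hn hk

end Pool.Agent.Lib.MP_c2d01e_co.CGroup
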