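import Pool.Agent.Lib.MP_c2d01e_co.CGroup
import Pool.Agent.Lib.MP_c2d01e_co.Dce.Core

/-!
# The intersection property for `s = 2`

For the group of the vector `(2,0,0,0)` the vectors modulo `2` do not separate enough; we use an
explicit action on 1476 points with six base points (all of them were found by coset enumeration).
-/

set_option autoImplicit false

namespace Pool.Agent.Lib.MP_c2d01e_co.CGroup

open Subgroup Dce

section two

variable {G : Type*} [Group G] (r : Fin 6 → G)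

/-- The group element number `k` of the enumeration. -/
noncomputable def ww (L : List (V × Fin 6)) (k : ℕ) : G :=
  if _h : T L k (par L k) < k then r (par L k) * ww L (T L k (par L k)) else 1
termination_by k

theorem cc_ww (L : List (V × Fin 6)) (K : Subgroup G) (k : ℕ) :
    cc r L K k = ((ww r L k : G) : G ⧸ K) := by
  induction k using Nat.strong_induction_on with
  | _ k ih =>
    rw [cc, ww]
    split_ifs with h
    · rw [ih _ h]; rfl
    · rfl

variable {r} (hr : ∀ i j, (r i * r j) ^ cox i j = 1)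
include hr

theorem fix_of_notMem2 {X : Type*} (φ : G →* Equiv.Perm X) (x : Fin 6 → X)
    (hx : ∀ i j, j ≠ i → φ (r j) (x i) = x i) (J : Finset (Fin 6)) (i : Fin 6) (hi : i ∉ J) (w : G)
    (hw : w ∈ closure (r '' (J : Set (Fin 6)))) : φ w (x i) = x i := by
  have hinvr : ∀ g, (r g)⁻¹ = r g := fun g => by
    rw [inv_eq_iff_mul_eq_one]; exact sq hr g
  have stp : ∀ g ∈ J, ∀ y : G, φ y (x i) = x i → φ (r g * y) (x i) = x i := by
    intro g hg y h
    rw [map_mul, Equiv.Perm.mul_apply, h, hx i g (by rintro rfl; exact hi hg)]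
  refine closure_induction_left (p := fun w _ => φ w (x i) = x i) ?_ ?_ ?_ hw
  · rw [map_one]; rfl
  · rintro z ⟨g, hg, rfl⟩ y _ h
    exact stp g hg y h
  · rintro z ⟨g, hg, rfl⟩ y _ h
    rw [hinvr g]
    exact stp g hg y h

/-- The stabilizer of `x i` in a parabolic subgroup in which `i` has a finite component. -/
theorem stab2 {X : Type*} (φ : G →* Equiv.Perm X) (x : Fin 6 → X)
    (hx : ∀ i j, j ≠ i → φ (r j) (x i) = x i) (J : Finset (Fin 6)) (a b i : Fin 6)
    (hs : ∀ l < (orb a b i).length, l ≠ 0 → φ (ww r (orb a b i) l) (x i) ≠ x i)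
    (hai : a ≤ i) (hib : i ≤ b) (hfin : ¬(a ≤ 2 ∧ b = 5)) (hJ1 : ∀ g, a ≤ g → g ≤ b → g ∈ J)
    (hJ2 : ∀ g ∈ J, (a ≤ g ∧ g ≤ b) ∨ (g : ℕ) + 1 < a ∨ (b : ℕ) + 1 < g) (w : G)
    (hw : w ∈ closure (r '' (J : Set (Fin 6)))) (hfix : φ w (x i) = x i) :
    w ∈ closure (r '' ((J.erase i : Finset (Fin 6)) : Set (Fin 6))) := by
  set K := closure (r '' ((J.erase i : Finset (Fin 6)) : Set (Fin 6))) with hKdef
  have hL := ct_of_cert (all_cert a b i hai hib hfin)
  set L := orb a b i with hLdef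
  have hrK : ∀ g ∈ J, g ≠ i → r g ∈ K := fun g hg hgi =>
    subset_closure ⟨g, by simp [hg, hgi], rfl⟩
  have hgens : ∀ g : Fin 6, g ∈ gens a b ↔ a ≤ g ∧ g ≤ b := by
    intro g; simp [gens]
  have hK : ∀ g ∈ gens a b, g ≠ i → r g ∈ K := fun g hg hgi =>
    hrK g (hJ1 g ((hgens g).1 hg).1 ((hgens g).1 hg).2) hgi
  have hinvr : ∀ g, (r g)⁻¹ = r g := fun g => by
    rw [inv_eq_iff_mul_eq_one]; exact sq hr g
  have key : ∃ l < L.length, w • cc r L K 0 = cc r L K l := by
    have stp : ∀ g ∈ J, ∀ y : G, (∃ l < L.length, y • cc r L K 0 = cc r L K l) →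
        ∃ l < L.length, (r g * y) • cc r L K 0 = cc r L K l := by
      rintro g hg y ⟨l, hl, h1⟩
      rcases hJ2 g hg with h3 | h3
      · have hgg := (hgens g).2 h3
        exact ⟨T L l g, hL.lt l hl g hgg, by rw [mul_smul, h1, claim' hr hL K hK l hl g hgg]⟩
      · refine ⟨l, hl, ?_⟩
        have hgi : g ≠ i := by
          rintro rfl
          have h5 : (a : ℕ) ≤ (g : ℕ) := hai
          have h6 : (g : ℕ) ≤ (b : ℕ) := hib
          omega
        rw [mul_smul, h1, claim_far hr hL K g (hrK g hg hgi) h3 l hl]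
    refine closure_induction_left (p := fun w _ => ∃ l < L.length, w • cc r L K 0 = cc r L K l)
      ?_ ?_ ?_ hw
    · exact ⟨0, hL.pos, by rw [one_smul]⟩
    · rintro z ⟨g, hg, rfl⟩ y _ h
      exact stp g hg y h
    · rintro z ⟨g, hg, rfl⟩ y _ h
      rw [hinvr g]
      exact stp g hg y h
  obtain ⟨l, hl, h1⟩ := key
  have h2 : (ww r L l)⁻¹ * w ∈ K := by
    rw [cc_zero, cc_ww] at h1
    have h3 : ((w : G) : G ⧸ K) = ((ww r L l : G) : G ⧸ K) := by
      rw [← h1]
      change _ = ((w * 1 : G) : G ⧸ K)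
      rw [mul_one]
    rw [eq_comm, QuotientGroup.eq] at h3
    exact h3
  by_cases hl0 : l = 0
  · subst hl0
    have e : ww r L 0 = 1 := by rw [ww, dif_neg (by omega)]
    rw [e] at h2
    simpa using h2
  · exfalso
    have h3 := fix_of_notMem2 hr φ x hx (J.erase i) i (by simp) _ h2
    rw [map_mul, Equiv.Perm.mul_apply, hfix] at h3
    refine hs l hl hl0 ?_
    have h4 : φ (ww r L l) (φ (ww r L l)⁻¹ (x i)) = x i := by
      rw [← Equiv.Perm.mul_apply, ← map_mul, mul_inv_cancel, map_one]; rfl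
    rwa [h3] at h4

theorem inter_fin_aux2 {X : Type*} (φ : G →* Equiv.Perm X) (x : Fin 6 → X)
    (hx : ∀ i j, j ≠ i → φ (r j) (x i) = x i)
    (hs : ∀ a b i : Fin 6, a ≤ i → i ≤ b → ¬(a ≤ 2 ∧ b = 5) →
      ∀ l < (orb a b i).length, l ≠ 0 → φ (ww r (orb a b i) l) (x i) ≠ x i)
    (J : Finset (Fin 6)) (w : G) (hwJ : w ∈ closure (r '' (J : Set (Fin 6)))) (n : ℕ) :
    ∀ I : Finset (Fin 6), (I \ J).card = n → ¬({2, 3, 4, 5} ⊆ I) →
      w ∈ closure (r '' (I : Set (Fin 6))) →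
      w ∈ closure (r '' ((I ∩ J : Finset (Fin 6)) : Set (Fin 6))) := by
  induction n with
  | zero =>
    intro I hI _ hw
    have : I ⊆ J := Finset.sdiff_eq_empty_iff_subset.1 (Finset.card_eq_zero.1 hI)
    rwa [Finset.inter_eq_left.2 this]
  | succ n ih =>
    intro I hI hI2 hw
    obtain ⟨i, hi⟩ : (I \ J).Nonempty := Finset.card_pos.1 (by omega)
    have hi' := Finset.mem_sdiff.1 hi
    obtain ⟨a, b, h1, h2, h3, h4, h5⟩ := component I i hi'.1 (Or.inl hI2)
    have h6 := stab2 hr φ x hx I a b i (hs a b i h1 h2 h3) h1 h2 h3 h4 h5 w hw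
      (fix_of_notMem2 hr φ x hx J i hi'.2 w hwJ)
    have h7 : ((I.erase i) \ J).card = n := by
      rw [Finset.erase_sdiff_comm, Finset.card_erase_of_mem hi, hI]
      omega
    have h8 := ih (I.erase i) h7 (fun h => hI2 (h.trans (Finset.erase_subset _ _))) h6
    have h9 : (I.erase i) ∩ J = I ∩ J := by
      rw [Finset.erase_inter, Finset.erase_eq_of_notMem]
      simp [hi'.2]
    rwa [h9] at h8

theorem inter_fin2 {X : Type*} (φ : G →* Equiv.Perm X) (x : Fin 6 → X)
    (hx : ∀ i j, j ≠ i → φ (r j) (x i) = x i)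
    (hs : ∀ a b i : Fin 6, a ≤ i → i ≤ b → ¬(a ≤ 2 ∧ b = 5) →
      ∀ l < (orb a b i).length, l ≠ 0 → φ (ww r (orb a b i) l) (x i) ≠ x i)
    (I J : Finset (Fin 6)) :
    closure (r '' (I : Set (Fin 6))) ⊓ closure (r '' (J : Set (Fin 6))) =
      closure (r '' ((I ∩ J : Finset (Fin 6)) : Set (Fin 6))) := by
  apply le_antisymm
  · rintro w ⟨hwI, hwJ⟩
    by_cases h1 : I ⊆ J
    · rwa [Finset.inter_eq_left.2 h1]
    by_cases h2 : J ⊆ I
    · rwa [Finset.inter_eq_right.2 h2]
    by_cases h3 : {2, 3, 4, 5} ⊆ I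
    · by_cases h4 : {2, 3, 4, 5} ⊆ J
      · rcases two_big I J h3 h4 h1 h2 with ⟨e, h0, h5⟩ | ⟨e, h0, h5⟩
        · obtain ⟨a, b, g1, g2, g3, g4, g5⟩ := component I 0 (by rw [e]; simp) (Or.inr ⟨e, rfl⟩)
          rw [← h5]
          exact stab2 hr φ x hx I a b 0 (hs a b 0 g1 g2 g3) g1 g2 g3 g4 g5 w hwI
            (fix_of_notMem2 hr φ x hx J 0 h0 w hwJ)
        · obtain ⟨a, b, g1, g2, g3, g4, g5⟩ := component J 0 (by rw [e]; simp) (Or.inr ⟨e, rfl⟩)
          rw [← h5]
          exact stab2 hr φ x hx J a b 0 (hs a b 0 g1 g2 g3) g1 g2 g3 g4 g5 w hwJ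
            (fix_of_notMem2 hr φ x hx I 0 h0 w hwI)
      · have := inter_fin_aux2 hr φ x hx hs I w hwI _ J rfl h4 hwJ
        rwa [Finset.inter_comm] at this
    · exact inter_fin_aux2 hr φ x hx hs J w hwJ _ I rfl h3 hwI
  · apply le_inf
    · exact closure_mono (Set.image_mono (by exact_mod_cast Finset.inter_subset_left))
    · exact closure_mono (Set.image_mono (by exact_mod_cast Finset.inter_subset_right))

/-- The intersection property. -/
theorem inter2 {X : Type*} (φ : G →* Equiv.Perm X) (x : Fin 6 → X)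
    (hx : ∀ i j, j ≠ i → φ (r j) (x i) = x i)
    (hs : ∀ a b i : Fin 6, a ≤ i → i ≤ b → ¬(a ≤ 2 ∧ b = 5) →
      ∀ l < (orb a b i).length, l ≠ 0 → φ (ww r (orb a b i) l) (x i) ≠ x i) (I J : Set (Fin 6)) :
    closure (r '' I) ⊓ closure (r '' J) = closure (r '' (I ∩ J)) := by
  classical
  have := inter_fin2 hr φ x hx hs I.toFinite.toFinset J.toFinite.toFinset
  simp only [Finset.coe_inter, Set.Finite.coe_toFinset] at this
  exact this

end two

end Pool.Agent.Lib.MP_c2d01e_co.CGroup
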