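import Mathlib

/-!
# The presented groups of the families (B) and (C)

The same definitions as in the hand-ins `InfiniteBC` and `GcdBC`.
-/

set_option autoImplicit false

namespace Pool.Agent.Lib.MP_c2d01e_co.EqDefs

/-- The generator `ρᵢ` of the free group. -/
def gen (i : Fin 6) : FreeGroup (Fin 6) := FreeGroup.of i

/-- The Coxeter matrix of the string diagram `{3,3,4,3,3}` on the nodes `0, …, 5`. -/
def coxB (i j : Fin 6) : ℕ :=
  if i = j then 1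
  else if (i = 2 ∧ j = 3) ∨ (i = 3 ∧ j = 2) then 4
  else if (i : ℕ) + 1 = j ∨ (j : ℕ) + 1 = i then 3
  else 2

/-- `ρ₁ρ₂ρ₃ρ₂ρ₁`. -/
def sB : FreeGroup (Fin 6) := gen 1 * gen 2 * gen 3 * gen 2 * gen 1

/-- `ρ₄ρ₃ρ₂ρ₃ρ₄`. -/
def tB : FreeGroup (Fin 6) := gen 4 * gen 3 * gen 2 * gen 3 * gen 4

/-- The relator of the facets `{3,3,4,3}_(s^k,0^(4-k))`. -/
def facetB (s k : ℕ) : FreeGroup (Fin 6) :=
  if k = 1 then (gen 0 * sB * tB * sB) ^ s else (gen 0 * sB * tB) ^ (2 * s)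

/-- The relator of the vertex-figures `{3,4,3,3}_(t^l,0^(4-l))`. -/
def vertB (t l : ℕ) : FreeGroup (Fin 6) :=
  if l = 1 then (gen 5 * tB * sB * tB) ^ t else (gen 5 * tB * sB) ^ (2 * t)

/-- The relators of family (B). -/
def relsB (s k t l : ℕ) : Set (FreeGroup (Fin 6)) :=
  {r | ∃ i j, r = (gen i * gen j) ^ coxB i j} ∪ {facetB s k, vertB t l}

/-- The group of family (B) with parameter vectors `(s^k,0^(4-k))` and `(t^l,0^(4-l))`. -/
abbrev GamB (s k t l : ℕ) : Type := PresentedGroup (relsB s k t l)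

/-- The Coxeter matrix of the string diagram `{3,4,3,3,4}` on the nodes `0, …, 5`. -/
def coxC (i j : Fin 6) : ℕ :=
  if i = j then 1
  else if (i = 1 ∧ j = 2) ∨ (i = 2 ∧ j = 1) ∨ (i = 4 ∧ j = 5) ∨ (i = 5 ∧ j = 4) then 4
  else if (i : ℕ) + 1 = j ∨ (j : ℕ) + 1 = i then 3
  else 2

/-- `ρ₃ρ₂ρ₁ρ₂ρ₃`. -/
def sC : FreeGroup (Fin 6) := gen 3 * gen 2 * gen 1 * gen 2 * gen 3

/-- `ρ₀ρ₁ρ₂ρ₁ρ₀`. -/
def tC : FreeGroup (Fin 6) := gen 0 * gen 1 * gen 2 * gen 1 * gen 0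

/-- The relator of the facets `{3,4,3,3}_(t^k,0^(4-k))`. -/
def facetC (t k : ℕ) : FreeGroup (Fin 6) :=
  if k = 1 then (gen 4 * sC * tC * sC) ^ t else (gen 4 * sC * tC) ^ (2 * t)

/-- The relator of the vertex-figures `{4,3,3,4}_(u^l,0^(4-l))`. -/
def vertC (u l : ℕ) : FreeGroup (Fin 6) :=
  if l = 1 then (gen 1 * gen 2 * gen 3 * gen 4 * gen 5 * gen 4 * gen 3 * gen 2) ^ u
  else if l = 2 then (gen 1 * gen 2 * gen 3 * gen 4 * gen 5 * gen 4 * gen 3) ^ (2 * u)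
  else (gen 1 * gen 2 * gen 3 * gen 4 * gen 5) ^ (4 * u)

/-- The relators of family (C). -/
def relsC (t k u l : ℕ) : Set (FreeGroup (Fin 6)) :=
  {r | ∃ i j, r = (gen i * gen j) ^ coxC i j} ∪ {facetC t k, vertC u l}

/-- The group of family (C) with parameter vectors `(t^k,0^(4-k))` and `(u^l,0^(4-l))`. -/
abbrev GamC (t k u l : ℕ) : Type := PresentedGroup (relsC t k u l)

end Pool.Agent.Lib.MP_c2d01e_co.EqDefs
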