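import Mathlib

/-!
# An integral representation of dimension 48 for the parameter vector `(6,0,0,0)`

The index-three subgroup `⟨ρ₀, …, ρ₄, ρ₅ρ₄ρ₃ρ₄ρ₅⟩` of the Coxeter group `[3,3,3,4,3]` is a semidirect
product of a right-angled Coxeter group with 16 generators `r_v` (`v` an even vector of `F₂⁵`) and
the Weyl group `W(D₅)`.  The reflection representation of the Coxeter group with the same
generators, `(r_v r_w)² = 1` at distance 2 and `(r_v r_w)³ = 1` at distance 4, induced to
`[3,3,3,4,3]`, is the representation below, on functions `x : ℕ → ℤ` (only the first 48 coordinates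
are moved).  All verifications are finite computations with sparse rows.
-/

namespace Pool.Agent.Lib.MP_c2d01e_co.Six

/-- Sparse rows. -/
abbrev Row := List (ℕ × ℤ)

/-- Value of a sparse row on a vector. -/
def ev (r : Row) (x : ℕ → ℤ) : ℤ := (r.map fun p => p.2 * x p.1).sum

/-- Permutation tables of the six generators. -/
def tab : ℕ → List ℕ
  | 0 => [0, 2, 1, 3, 4, 6, 5, 7, 8, 10, 9, 11, 12, 14, 13, 15, 16, 18, 17, 19, 20, 22, 21, 23, 24,
      26, 25, 27, 28, 30, 29, 31, 32, 34, 33, 35, 36, 38, 37, 39, 40, 42, 41, 43, 44, 46, 45, 47]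
  | 1 => [0, 1, 4, 5, 2, 3, 6, 7, 8, 9, 12, 13, 10, 11, 14, 15, 16, 17, 20, 21, 18, 19, 22, 23, 24,
      25, 28, 29, 26, 27, 30, 31, 32, 33, 36, 37, 34, 35, 38, 39, 40, 41, 44, 45, 42, 43, 46, 47]
  | 2 => [0, 1, 2, 3, 8, 9, 10, 11, 4, 5, 6, 7, 12, 13, 14, 15, 16, 17, 18, 19, 24, 25, 26, 27, 20,
      21, 22, 23, 28, 29, 30, 31, 32, 33, 34, 35, 40, 41, 42, 43, 36, 37, 38, 39, 44, 45, 46, 47]
  | 3 => [8, 1, 2, 11, 4, 13, 14, 7, 0, 9, 10, 3, 12, 5, 6, 15, 24, 17, 18, 27, 20, 29, 30, 23, 16,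
      25, 26, 19, 28, 21, 22, 31, 32, 41, 42, 35, 44, 37, 38, 47, 40, 33, 34, 43, 36, 45, 46, 39]
  | 4 => [0, 1, 2, 3, 4, 5, 6, 7, 8, 9, 10, 11, 12, 13, 14, 15, 32, 33, 34, 35, 36, 37, 38, 39, 40,
      41, 42, 43, 44, 45, 46, 47, 16, 17, 18, 19, 20, 21, 22, 23, 24, 25, 26, 27, 28, 29, 30, 31]
  | _ => [16, 17, 18, 19, 20, 21, 22, 23, 24, 25, 26, 27, 28, 29, 30, 31, 0, 1, 2, 3, 4, 5, 6, 7, 8,
      9, 10, 11, 12, 13, 14, 15, 32, 33, 34, 35, 36, 37, 38, 39, 40, 41, 42, 43, 44, 45, 46, 47]

/-- The rows of the generators. -/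
def row (i j : ℕ) : Row :=
  if i = 4 ∧ j = 0 then [(0, -1), (7, 1), (11, 1), (13, 1), (14, 1), (15, 1)]
  else if i = 5 ∧ j = 32 then [(32, -1), (39, 1), (43, 1), (45, 1), (46, 1), (47, 1)]
  else [((tab i).getD j j, 1)]

/-- The linear map of the generator `i`. -/
def T (i : ℕ) (x : ℕ → ℤ) : ℕ → ℤ := fun j => ev (row i j) x

/-- Add `c` times the coordinate `k` to a row. -/
def addTo (k : ℕ) (c : ℤ) : Row → Row
  | [] => [(k, c)]
  | (k', c') :: l =>
    if k = k' then (if c + c' = 0 then l else (k, c + c') :: l)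
    else if k < k' then (k, c) :: (k', c') :: l else (k', c') :: addTo k c l

theorem ev_cons (p : ℕ × ℤ) (l : Row) (x : ℕ → ℤ) : ev (p :: l) x = p.2 * x p.1 + ev l x := by
  simp [ev]

theorem ev_addTo (k : ℕ) (c : ℤ) (l : Row) (x : ℕ → ℤ) :
    ev (addTo k c l) x = c * x k + ev l x := by
  induction l with
  | nil => simp [addTo, ev]
  | cons p l ih =>
    obtain ⟨k', c'⟩ := p
    simp only [addTo]
    split_ifs with h1 h2 h3
    · subst h1
      rw [ev_cons]
      have : c' = -c := by omega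
      subst this
      ring
    · subst h1
      rw [ev_cons, ev_cons]
      ring
    · rw [ev_cons]
    · rw [ev_cons, ev_cons, ih]
      ring

/-- Composition of a row with a generator. -/
def comp (r : Row) (i : ℕ) : Row :=
  r.foldr (fun p acc => (row i p.1).foldr (fun q acc => addTo q.1 (p.2 * q.2) acc) acc) []

theorem ev_inner (c : ℤ) (s acc : Row) (x : ℕ → ℤ) :
    ev (s.foldr (fun q acc => addTo q.1 (c * q.2) acc) acc) x = c * ev s x + ev acc x := by
  induction s with
  | nil => simp [ev]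
  | cons q s ih =>
    rw [List.foldr_cons, ev_addTo, ih, ev_cons]
    ring

theorem ev_comp (r : Row) (i : ℕ) (x : ℕ → ℤ) : ev (comp r i) x = ev r (T i x) := by
  unfold comp
  induction r with
  | nil => simp [ev]
  | cons p r ih =>
    rw [List.foldr_cons, ev_inner, ih, ev_cons]
    rfl

/-- The row of a word. -/
def red (w : List ℕ) (r : Row) : Row := w.foldl comp r

theorem ev_red (w : List ℕ) (r : Row) (x : ℕ → ℤ) : ev (red w r) x = ev r (w.foldr T x) := by
  unfold red
  induction w generalizing r with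
  | nil => rfl
  | cons i w ih => rw [List.foldl_cons, ih, ev_comp, List.foldr_cons]

theorem tab_length (i : ℕ) : (tab i).length = 48 := by
  unfold tab
  split <;> rfl

theorem T_ge (i : ℕ) (x : ℕ → ℤ) (j : ℕ) (hj : 48 ≤ j) : T i x j = x j := by
  have h : row i j = [(j, 1)] := by
    unfold row
    rw [if_neg (by omega), if_neg (by omega), List.getD_eq_default _ _ (by rw [tab_length]; exact hj)]
  simp [T, h, ev]

theorem foldr_ge (w : List ℕ) (x : ℕ → ℤ) (j : ℕ) (hj : 48 ≤ j) : w.foldr T x j = x j := by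
  induction w with
  | nil => rfl
  | cons i w ih => rw [List.foldr_cons, T_ge _ _ _ hj, ih]

/-- The word `w` acts trivially (computable test). -/
def triv (w : List ℕ) : Bool := (List.range 48).all fun j => decide (red w [(j, 1)] = [(j, 1)])

theorem triv_sound {w : List ℕ} (h : triv w = true) (x : ℕ → ℤ) : w.foldr T x = x := by
  funext j
  rcases lt_or_ge j 48 with hj | hj
  · have h1 := List.all_eq_true.1 h j (List.mem_range.2 hj)
    have h2 : red w [(j, 1)] = [(j, 1)] := of_decide_eq_true h1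
    have h3 := ev_red w [(j, 1)] x
    rw [h2] at h3
    simpa [ev] using h3.symm
  · exact foldr_ge w x j hj

theorem triv_sq (i : Fin 6) : triv [i, i] = true := by
  fin_cases i <;> decide +kernel

/-- The generators as permutations of the set of all vectors. -/
def P (i : Fin 6) : Equiv.Perm (ℕ → ℤ) where
  toFun := T i
  invFun := T i
  left_inv x := triv_sound (triv_sq i) x
  right_inv x := triv_sound (triv_sq i) x

/-- The word as an element of the free group. -/
def w2g (w : List (Fin 6)) : FreeGroup (Fin 6) := (w.map FreeGroup.of).prod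

theorem lift_w2g (w : List (Fin 6)) (x : ℕ → ℤ) :
    FreeGroup.lift P (w2g w) x = (w.map fun i : Fin 6 => (i : ℕ)).foldr T x := by
  unfold w2g
  induction w with
  | nil => simp
  | cons i w ih =>
    rw [List.map_cons, List.prod_cons, map_mul, FreeGroup.lift_apply_of, Equiv.Perm.mul_apply, ih,
      List.map_cons, List.foldr_cons]
    rfl

theorem w2g_append (u v : List (Fin 6)) : w2g (u ++ v) = w2g u * w2g v := by
  simp [w2g]

theorem w2g_pow (u : List (Fin 6)) (n : ℕ) : w2g (List.replicate n u).flatten = w2g u ^ n := by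
  induction n with
  | zero => simp [w2g]
  | succ n ih => rw [List.replicate_succ, List.flatten_cons, w2g_append, ih, pow_succ']

/-- The orbit of vectors. -/
def X (n : ℤ) (j : ℕ) : ℤ :=
  if j = 0 ∨ j = 8 then n else if j = 7 ∨ j = 15 then n + 1 else 0

/-- A word of infinite order. -/
def g : List (Fin 6) :=
  [5, 4, 3, 4, 5, 2, 3, 1, 2, 5, 4, 3, 4, 5, 0, 1, 2, 3, 4, 3, 2, 1, 0, 5, 4, 3, 4, 5, 2, 1, 3, 2, 5,
    4, 3, 4, 5, 2, 3, 1, 2, 5, 4, 3, 4, 5, 0, 1, 2, 3, 4, 3, 2, 1, 0, 5, 4, 3, 4, 5, 2, 1, 3, 2, 4, 3,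
    4, 3]

/-- Value of a row on `X n`, as an affine function of `n` (coefficients). -/
def evX (r : Row) : ℤ × ℤ :=
  ((r.map fun p => p.2 * X 0 p.1).sum, (r.map fun p => p.2 * (X 1 p.1 - X 0 p.1)).sum)

theorem X_affine (n : ℤ) (j : ℕ) : X n j = X 0 j + n * (X 1 j - X 0 j) := by
  unfold X
  split_ifs <;> ring

theorem ev_X (r : Row) (n : ℤ) : ev r (X n) = (evX r).1 + n * (evX r).2 := by
  unfold evX ev
  induction r with
  | nil => simp
  | cons p r ih =>
    simp only [List.map_cons, List.sum_cons] at ih ⊢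
    rw [ih, X_affine n p.1]
    ring

/-- The word `g` moves `X n` to `X (n + 2)` (computable test). -/
def shift : Bool := (List.range 48).all fun j =>
  decide (evX (red (g.map fun i : Fin 6 => (i : ℕ)) [(j, 1)]) = (X 2 j, X 1 j - X 0 j))

theorem shift_true : shift = true := by decide +kernel

theorem g_X (n : ℤ) : (g.map fun i : Fin 6 => (i : ℕ)).foldr T (X n) = X (n + 2) := by
  funext j
  rcases lt_or_ge j 48 with hj | hj
  · have h1 := List.all_eq_true.1 shift_true j (List.mem_range.2 hj)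
    have h2 := of_decide_eq_true h1
    have h3 := ev_red (g.map fun i : Fin 6 => (i : ℕ)) [(j, 1)] (X n)
    rw [ev_X, h2] at h3
    have h4 : ev [(j, 1)] ((g.map fun i : Fin 6 => (i : ℕ)).foldr T (X n)) =
        (g.map fun i : Fin 6 => (i : ℕ)).foldr T (X n) j := by simp [ev]
    rw [← h4, ← h3, X_affine (n + 2) j, X_affine 2 j]
    ring
  · rw [foldr_ge _ _ _ hj]
    unfold X
    rw [if_neg (by omega), if_neg (by omega), if_neg (by omega), if_neg (by omega)]

theorem lift_g_pow (k : ℕ) (n : ℤ) : (FreeGroup.lift P (w2g g) ^ k) (X n) = X (n + 2 * k) := by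
  induction k generalizing n with
  | zero => simp
  | succ k ih =>
    rw [pow_succ, Equiv.Perm.mul_apply, lift_w2g, g_X, ih]
    congr 1
    push_cast
    ring

/-- A group all of whose relators pass the test `triv` is infinite. -/
theorem infinite_of_triv (rels : Set (FreeGroup (Fin 6)))
    (h : ∀ r ∈ rels, ∃ w : List (Fin 6), r = w2g w ∧ triv (w.map fun i : Fin 6 => (i : ℕ)) = true) :
    Infinite (PresentedGroup rels) := by
  have hrel : ∀ r ∈ rels, FreeGroup.lift P r = 1 := by
    intro r hr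
    obtain ⟨w, rfl, hw⟩ := h r hr
    ext x j
    rw [lift_w2g, triv_sound hw]
    rfl
  by_contra hinf
  rw [not_infinite_iff_finite] at hinf
  have hfin : IsOfFinOrder (PresentedGroup.mk rels (w2g g)) := isOfFinOrder_of_finite _
  obtain ⟨n, hn, hpow⟩ := isOfFinOrder_iff_pow_eq_one.1 hfin
  have h1 : (PresentedGroup.toGroup hrel) (PresentedGroup.mk rels (w2g g)) =
      FreeGroup.lift P (w2g g) := rfl
  have h2 : FreeGroup.lift P (w2g g) ^ n = 1 := by
    rw [← h1, ← map_pow, hpow, map_one]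
  have h3 := lift_g_pow n 0
  rw [h2] at h3
  have h4 := congrFun h3 0
  simp [X] at h4
  omega

end Pool.Agent.Lib.MP_c2d01e_co.Six
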