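import Pool.Agent.Lib.MP_c2d01e_co.Rel
import Pool.Agent.Lib.MP_c2d01e_co.Six

/-!
# The infinite groups of family (A)

The presentation of the groups of family (A) and their infiniteness for `(s,0,0,0)`, `s ≥ 5`, and `(s,s,0,0)`,
`s ≥ 4`, as in the hand-in `FamilyA` (this file repeats that part of its text, without the finite cases).
-/

namespace Pool.Agent.Lib.MP_c2d01e_co.GcdA

/-- The Coxeter matrix of the string diagram `{3,3,3,4,3}` on the nodes `0, …, 5`. -/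
def cox (i j : Fin 6) : ℕ :=
  if i = j then 1
  else if (i = 3 ∧ j = 4) ∨ (i = 4 ∧ j = 3) then 4
  else if (i : ℕ) + 1 = j ∨ (j : ℕ) + 1 = i then 3
  else 2

/-- The generator `ρᵢ` of the free group. -/
def gen (i : Fin 6) : FreeGroup (Fin 6) := FreeGroup.of i

/-- `σ = ρ₂ρ₃ρ₄ρ₃ρ₂`. -/
def sigma : FreeGroup (Fin 6) := gen 2 * gen 3 * gen 4 * gen 3 * gen 2

/-- `τ = ρ₅ρ₄ρ₃ρ₄ρ₅`. -/
def tau : FreeGroup (Fin 6) := gen 5 * gen 4 * gen 3 * gen 4 * gen 5

/-- The additional relator: `(ρ₁στσ)^s` if `k = 1` and `(ρ₁στ)^(2s)` if `k = 2`. -/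
def extra (s k : ℕ) : FreeGroup (Fin 6) :=
  if k = 1 then (gen 1 * sigma * tau * sigma) ^ s else (gen 1 * sigma * tau) ^ (2 * s)

/-- The relators: `(ρᵢρⱼ)^(m i j)` with `m = cox`, and the additional relator. -/
def rels (s k : ℕ) : Set (FreeGroup (Fin 6)) :=
  {r | ∃ i j, r = (gen i * gen j) ^ cox i j} ∪ {extra s k}

/-- The group `Γ` of family (A) with parameter vector `(s^k, 0^(4-k))`, `k = 1, 2`. -/
abbrev Gam (s k : ℕ) : Type := PresentedGroup (rels s k)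

/-- The generator `ρᵢ` of `Γ`. -/
def rho (s k : ℕ) (i : Fin 6) : Gam s k := PresentedGroup.of i

open Pool.Agent.Lib.MP_c2d01e_co

theorem lift_gen (L : Lvl) (i : Fin 6) : FreeGroup.lift L.T0 (gen i) = L.T0 i :=
  FreeGroup.lift_apply_of

theorem lift_cox (L : Lvl) (i j : Fin 6) :
    FreeGroup.lift L.T0 ((gen i * gen j) ^ cox i j) = 1 := by
  rw [map_pow, map_mul, lift_gen, lift_gen]
  exact L.rel_cox i j

theorem lift_sigma (L : Lvl) : FreeGroup.lift L.T0 sigma = L.Sg := by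
  simp only [sigma, map_mul, lift_gen, Lvl.Sg]

theorem lift_tau (L : Lvl) : FreeGroup.lift L.T0 tau = L.Ta := by
  simp only [tau, map_mul, lift_gen, Lvl.Ta]

theorem lift_rels (L : Lvl) (s k : ℕ) (h : FreeGroup.lift L.T0 (extra s k) = 1) :
    ∀ r ∈ rels s k, FreeGroup.lift L.T0 r = 1 := by
  rintro r (⟨i, j, rfl⟩ | hr)
  · exact lift_cox L i j
  · rw [Set.mem_singleton_iff.1 hr]
    exact h

theorem lift_extra_one (L : Lvl) (s : ℕ) (h1 : (-2 * (s : ℤ), (s : ℤ), (s : ℤ), (s : ℤ)) ∈ L.H)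
    (h2 : L.n ∣ s) : FreeGroup.lift L.T0 (extra s 1) = 1 := by
  rw [extra, if_pos rfl, map_pow, map_mul, map_mul, map_mul, lift_gen, lift_sigma, lift_tau]
  exact L.rel_one s h1 h2

theorem lift_extra_two (L : Lvl) (s : ℕ) (h1 : (-2 * (s : ℤ), (0 : ℤ), (s : ℤ), (s : ℤ)) ∈ L.H)
    (h2 : L.n ∣ 2 * s) : FreeGroup.lift L.T0 (extra s 2) = 1 := by
  rw [extra, if_neg (by norm_num), map_pow, map_mul, map_mul, lift_gen, lift_sigma, lift_tau]
  exact L.rel_two s h1 h2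

/-- Parameter vector `(6, 0, 0, 0)`: the group is infinite. -/
theorem infinite_six : Infinite (Gam 6 1) := by
  refine Six.infinite_of_triv _ ?_
  rintro r (⟨i, j, rfl⟩ | hr)
  · refine ⟨(List.replicate (cox i j) [i, j]).flatten, ?_, ?_⟩
    · rw [Six.w2g_pow]
      simp [Six.w2g, gen]
    · revert i j
      decide +kernel
  · rw [Set.mem_singleton_iff.1 hr]
    refine ⟨(List.replicate 6 [1, 2, 3, 4, 3, 2, 5, 4, 3, 4, 5, 2, 3, 4, 3, 2]).flatten, ?_, ?_⟩
    · rw [Six.w2g_pow, extra, if_pos rfl]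
      congr 1
    · decide +kernel

/-- Parameter vector `(s, 0, 0, 0)`: the group is infinite for `s ≥ 5`. -/
theorem infinite_one (s : ℕ) (hs : 5 ≤ s) : Infinite (Gam s 1) := by
  by_cases h6 : s = 6
  · subst h6
    exact infinite_six
  have h4 : s % 2 = 1 ∨ s % 4 = 2 ∨ s % 4 = 0 := by omega
  rcases h4 with h | h | h
  · refine infinite_odd s (by omega) (by omega) _ (lift_rels _ s 1 (lift_extra_one _ s ?_ ?_))
    · exact ⟨dvd_mul_left _ _, dvd_rfl, dvd_rfl, dvd_rfl⟩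
    · exact dvd_rfl
  · obtain ⟨t, rfl⟩ : ∃ t, s = 2 * t := ⟨s / 2, by omega⟩
    refine infinite_odd t (by omega) (by omega) _
      (lift_rels _ _ 1 (lift_extra_one _ _ ?_ ?_))
    · push_cast
      exact ⟨⟨-4, by ring⟩, dvd_mul_left _ _, dvd_mul_left _ _, dvd_mul_left _ _⟩
    · push_cast
      exact dvd_mul_left _ _
  · obtain ⟨t, rfl⟩ : ∃ t, s = 2 * t := ⟨s / 2, by omega⟩
    refine infinite_even t (by omega) (by omega) _
      (lift_rels _ _ 1 (lift_extra_one _ _ ?_ ?_))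
    · push_cast
      exact ⟨⟨-2, by ring⟩, dvd_mul_left _ _, dvd_mul_left _ _, dvd_mul_left _ _, ⟨3, by ring⟩⟩
    · push_cast
      exact dvd_rfl

/-- Parameter vector `(s, s, 0, 0)`: the group is infinite for `s ≥ 4`. -/
theorem infinite_two (s : ℕ) (hs : 4 ≤ s) : Infinite (Gam s 2) := by
  have h4 : s % 2 = 1 ∨ s % 2 = 0 := by omega
  rcases h4 with h | h
  · refine infinite_odd s (by omega) (by omega) _ (lift_rels _ s 2 (lift_extra_two _ s ?_ ?_))
    · exact ⟨dvd_mul_left _ _, dvd_zero _, dvd_rfl, dvd_rfl⟩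
    · exact dvd_mul_left _ _
  · refine infinite_even s (by omega) (by omega) _ (lift_rels _ s 2 (lift_extra_two _ s ?_ ?_))
    · exact ⟨⟨-1, by ring⟩, dvd_zero _, dvd_rfl, dvd_rfl, ⟨1, by ring⟩⟩
    · exact dvd_rfl

end Pool.Agent.Lib.MP_c2d01e_co.GcdA
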