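import Pool.Agent.Lib.MP_c2d01e_co.Fi.Core
import Pool.Agent.Lib.MP_c2d01e_co.EqDefs
import Pool.Agent.Lib.MP_c2d01e_co.GcdA

/-!
# Family (C): finite groups from family (A)

The group of family (A) with the vector `(n,n,0,0)` acts on the product of its 10 cosets of
`⟨c, d, e, f, b σ b, a⟩` and the group of family (C) with the vectors `(n,0,0,0)`, `(n,n,0,0)`; similarly
`(2n,0,0,0)` and `(n,n,0,0)`, `(n,n,n,n)`. The relations are checked by lists of braid moves.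
-/

set_option autoImplicit false

namespace Pool.Agent.Lib.MP_c2d01e_co.FinC

open Fi EqDefs

/-- The tables of the ten cosets. -/
def TC : Tb 10 where
  nx :=
    ![![0, 3, 5, 1, 6, 2, 4, 7, 8, 9], ![1, 0, 2, 3, 4, 7, 8, 5, 6, 9], ![0, 2, 1, 5, 4, 3, 6,
    7, 9, 8], ![0, 1, 4, 3, 2, 6, 5, 8, 7, 9], ![0, 1, 2, 3, 4, 5, 6, 7, 8, 9], ![0, 1, 2, 3,
    4, 5, 6, 7, 8, 9]]
  lb :=
    ![![[5], [], [], [], [], [], [], [0], [0], [0]], ![[], [], [0], [5], [0], [], [], [], [],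
    [1]], ![[0], [], [], [], [1], [], [1], [5], [], []], ![[1], [1], [], [1], [], [], [], [],
    [], [5]], ![[2], [2], [2], [2], [4], [2], [4], [2], [4], [4]], ![[3], [3], [3], [3], [3],
    [3], [3], [3], [3], [3]]]

theorem nn : ∀ k i, TC.nx k (TC.nx k i) = i := by decide +kernel

theorem ll : ∀ k i, isRel coxC (TC.lb k (TC.nx k i) ++ TC.lb k i) = true := by decide +kernel

theorem cxC (t k u l : ℕ) : Cx coxC (PresentedGroup.of : Fin 6 → GamC t k u l) :=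
  mkCx (by decide) (by decide) (fun s t' => by
    have h : PresentedGroup.mk (relsC t k u l) ((gen s * gen t') ^ coxC s t') = 1 :=
      PresentedGroup.one_of_mem (Or.inl ⟨s, t', rfl⟩)
    rw [map_pow, map_mul] at h
    exact h)

theorem map_lp {M N : Type} [Group M] [Group N] (φ : M →* N) (x : Fin 6 → M) (w : List (Fin 6)) :
    φ (lp x w) = lp (fun k => φ (x k)) w := by
  induction w with
  | nil => simp [lp_nil]
  | cons k w ih => rw [lp_cons, lp_cons, map_mul, ih]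

theorem mk_word (rels : Set (FreeGroup (Fin 6))) (w : List (Fin 6)) :
    PresentedGroup.mk rels (lp FreeGroup.of w) = lp (PresentedGroup.of : Fin 6 → _) w :=
  map_lp _ _ w

theorem lift_lp {M : Type} [Group M] (x : Fin 6 → M) (w : List (Fin 6)) :
    FreeGroup.lift x (lp FreeGroup.of w) = lp x w := lift_word x w

/-- Words of the relators. -/
def wF1 : List (Fin 6) := [4, 3, 2, 1, 2, 3, 0, 1, 2, 1, 0, 3, 2, 1, 2, 3]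
def wV2 : List (Fin 6) := [1, 2, 3, 4, 5, 4, 3, 1, 2, 3, 4, 5, 4, 3]
def wF2 : List (Fin 6) := [4, 3, 2, 1, 2, 3, 0, 1, 2, 1, 0, 4, 3, 2, 1, 2, 3, 0, 1, 2, 1, 0]
def wV4 : List (Fin 6) := [1, 2, 3, 4, 5, 1, 2, 3, 4, 5, 1, 2, 3, 4, 5, 1, 2, 3, 4, 5]
def wX : List (Fin 6) := [1, 2, 3, 4, 3, 2, 5, 4, 3, 4, 5, 1, 2, 3, 4, 3, 2, 5, 4, 3, 4, 5]
def wT : List (Fin 6) := [1, 2, 3, 4, 3, 2, 5, 4, 3, 4, 5, 2, 3, 4, 3, 2, 1, 2, 3, 4, 3, 2, 5, 4, 3, 4, 5, 2, 3, 4, 3, 2]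

theorem facC1 (n u l : ℕ) : lp (PresentedGroup.of : Fin 6 → GamC n 1 u l) wF1 ^ n = 1 := by
  have h : PresentedGroup.mk (relsC n 1 u l) (facetC n 1) = 1 :=
    PresentedGroup.one_of_mem (Or.inr (Or.inl rfl))
  have e : gen 4 * sC * tC * sC = lp FreeGroup.of wF1 := by
    simp [Fi.lp, wF1, gen, sC, tC, mul_assoc]
  rw [facetC, if_pos rfl, e, map_pow, mk_word] at h
  exact h

theorem verC2 (t k n : ℕ) : lp (PresentedGroup.of : Fin 6 → GamC t k n 2) wV2 ^ n = 1 := by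
  have h : PresentedGroup.mk (relsC t k n 2) (vertC n 2) = 1 :=
    PresentedGroup.one_of_mem (Or.inr (Or.inr rfl))
  have e : (gen 1 * gen 2 * gen 3 * gen 4 * gen 5 * gen 4 * gen 3) ^ 2 = lp FreeGroup.of wV2 := by
    simp [Fi.lp, wV2, gen, pow_succ, mul_assoc]
  rw [vertC, if_neg (by norm_num), if_pos rfl, pow_mul, e, map_pow, mk_word] at h
  exact h

theorem facC2 (n u l : ℕ) : lp (PresentedGroup.of : Fin 6 → GamC n 2 u l) wF2 ^ n = 1 := by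
  have h : PresentedGroup.mk (relsC n 2 u l) (facetC n 2) = 1 :=
    PresentedGroup.one_of_mem (Or.inr (Or.inl rfl))
  have e : (gen 4 * sC * tC) ^ 2 = lp FreeGroup.of wF2 := by
    simp [Fi.lp, wF2, gen, sC, tC, pow_succ, mul_assoc]
  rw [facetC, if_neg (by norm_num), pow_mul, e, map_pow, mk_word] at h
  exact h

theorem verC4 (t k n : ℕ) : lp (PresentedGroup.of : Fin 6 → GamC t k n 4) wV4 ^ n = 1 := by
  have h : PresentedGroup.mk (relsC t k n 4) (vertC n 4) = 1 :=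
    PresentedGroup.one_of_mem (Or.inr (Or.inr rfl))
  have e : (gen 1 * gen 2 * gen 3 * gen 4 * gen 5) ^ 4 = lp FreeGroup.of wV4 := by
    simp [Fi.lp, wV4, gen, pow_succ, mul_assoc]
  rw [vertC, if_neg (by norm_num), if_neg (by norm_num), pow_mul, e, map_pow, mk_word] at h
  exact h

/-- The Coxeter relations of family (A). -/
theorem coxOK : ∀ i j : Fin 6, ∀ p : Fin 10,
    nxw TC (List.replicate (GcdA.cox i j) [i, j]).flatten p = p ∧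
      isRel coxC (lbw TC (List.replicate (GcdA.cox i j) [i, j]).flatten p) = true := by
  decide +kernel

theorem act_cox (t k u l : ℕ) (i j : Fin 6) :
    (act TC coxC (PresentedGroup.of : Fin 6 → GamC t k u l) (cxC t k u l) nn ll i *
      act TC coxC (PresentedGroup.of : Fin 6 → GamC t k u l) (cxC t k u l) nn ll j) ^
        GcdA.cox i j = 1 := by
  have h := lp_one_of TC coxC (PresentedGroup.of : Fin 6 → GamC t k u l) (cxC t k u l) nn ll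
    (List.replicate (GcdA.cox i j) [i, j]).flatten (fun p => (coxOK i j p).1)
    (fun p => isRel_sound (cxC t k u l) _ (coxOK i j p).2)
  rw [lp_replicate, lp_cons, lp_cons, lp_nil, mul_one] at h
  exact h

/-! ### The extra relation, `(n,n,0,0)` -/

def gX : Fin 10 → List (Fin 6) :=
    ![[], [0, 1, 2, 3, 2, 3, 4, 3], [0, 1, 2, 3, 2, 3, 4, 3], [5, 4, 5, 3, 4, 2, 3], [0, 1, 2,
    3, 2, 3, 4, 3], [5, 4, 5, 3, 4, 2, 3], [5, 4, 5, 3, 4, 2, 3], [], [], []]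

def rX : Fin 10 → List (Fin 6) := ![wF1, wF1, wF1, wV2, wF1, wV2, wV2, wV2, wV2, wV2]

def mX : Fin 10 → List (ℕ × Fin 6 × Fin 6) :=
    ![[(15, 3, 3), (14, 2, 2), (13, 1, 1), (12, 2, 2), (11, 3, 3), (10, 0, 0), (9, 1, 1), (8,
    2, 2), (7, 1, 1), (6, 0, 0), (5, 3, 3), (4, 2, 2), (3, 1, 1), (2, 2, 2), (1, 3, 3), (0, 4,
    4)], [(15, 3, 0), (16, 3, 1), (17, 3, 2), (19, 2, 2), (18, 3, 3), (9, 3, 4), (11, 4, 2),
    (12, 4, 1), (13, 4, 2), (14, 4, 0), (15, 4, 1), (16, 4, 2), (17, 4, 4), (17, 3, 3), (16, 2,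
    2), (15, 1, 1), (13, 2, 0), (14, 2, 2), (8, 2, 4), (9, 2, 3), (11, 3, 1), (12, 3, 0), (13,
    3, 3), (12, 0, 0), (11, 1, 1), (10, 2, 2), (7, 1, 4), (8, 1, 3), (9, 1, 1), (4, 0, 3), (5,
    0, 2), (6, 0, 4), (7, 0, 3), (8, 0, 0), (7, 3, 3), (5, 2, 4), (6, 2, 2), (3, 1, 3), (4, 1,
    4), (5, 1, 1), (4, 4, 2), (2, 2, 3), (4, 3, 4), (6, 4, 4), (5, 3, 3), (4, 4, 4), (2, 3, 2),
    (4, 2, 2), (3, 3, 3), (2, 2, 2), (1, 1, 1), (0, 0, 0)], [(15, 3, 0), (16, 3, 1), (17, 3,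
    2), (19, 2, 2), (18, 3, 3), (13, 4, 2), (14, 4, 0), (15, 4, 1), (16, 4, 2), (17, 4, 4),
    (17, 3, 3), (16, 2, 2), (15, 1, 1), (13, 2, 0), (14, 2, 2), (12, 3, 0), (13, 3, 3), (12, 0,
    0), (11, 1, 1), (10, 2, 2), (9, 1, 1), (8, 0, 0), (7, 3, 3), (5, 2, 4), (6, 2, 2), (3, 1,
    3), (4, 1, 4), (5, 1, 1), (4, 4, 2), (2, 2, 3), (4, 3, 4), (6, 4, 4), (5, 3, 3), (4, 4, 4),
    (2, 3, 2), (4, 2, 2), (3, 3, 3), (2, 2, 2), (1, 1, 1), (0, 0, 0)], [(20, 3, 3), (18, 4, 2),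
    (19, 4, 4), (16, 5, 3), (17, 5, 2), (18, 5, 5), (13, 3, 5), (14, 3, 4), (16, 4, 2), (17, 4,
    4), (12, 2, 5), (13, 2, 4), (14, 2, 3), (16, 3, 3), (15, 2, 2), (11, 1, 5), (12, 1, 4),
    (13, 1, 3), (14, 1, 1), (13, 3, 3), (12, 4, 4), (11, 5, 5), (6, 3, 5), (7, 3, 4), (9, 4,
    2), (10, 4, 4), (5, 2, 5), (6, 2, 4), (7, 2, 3), (9, 3, 3), (8, 2, 2), (4, 1, 5), (5, 1,
    4), (6, 1, 3), (7, 1, 1), (6, 3, 3), (3, 2, 5), (4, 2, 4), (5, 2, 2), (4, 4, 4), (2, 3, 5),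
    (3, 3, 3), (2, 5, 5), (1, 4, 4), (0, 5, 5)], [(15, 3, 0), (16, 3, 1), (17, 3, 2), (19, 2,
    2), (18, 3, 3), (14, 4, 0), (15, 4, 1), (16, 4, 2), (17, 4, 4), (17, 3, 3), (16, 2, 2),
    (15, 1, 1), (13, 2, 0), (14, 2, 2), (12, 3, 0), (13, 3, 3), (12, 0, 0), (11, 1, 1), (10, 2,
    2), (9, 1, 1), (8, 0, 0), (7, 3, 3), (6, 2, 2), (3, 1, 3), (4, 1, 4), (5, 1, 1), (4, 4, 2),
    (2, 2, 3), (4, 3, 4), (6, 4, 4), (5, 3, 3), (4, 4, 4), (2, 3, 2), (4, 2, 2), (3, 3, 3), (2,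
    2, 2), (1, 1, 1), (0, 0, 0)], [(20, 3, 3), (18, 4, 2), (19, 4, 4), (16, 5, 3), (17, 5, 2),
    (18, 5, 5), (13, 3, 5), (14, 3, 4), (16, 4, 2), (17, 4, 4), (12, 2, 5), (13, 2, 4), (14, 2,
    3), (16, 3, 3), (15, 2, 2), (9, 1, 3), (10, 1, 4), (11, 1, 5), (12, 1, 4), (13, 1, 3), (14,
    1, 1), (13, 3, 3), (12, 4, 4), (11, 5, 5), (10, 4, 4), (9, 3, 3), (8, 2, 2), (7, 1, 1), (6,
    3, 3), (4, 2, 4), (5, 2, 2), (4, 4, 4), (3, 3, 3), (2, 5, 5), (1, 4, 4), (0, 5, 5)], [(20,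
    3, 3), (18, 4, 2), (19, 4, 4), (16, 5, 3), (17, 5, 2), (18, 5, 5), (13, 3, 5), (14, 3, 4),
    (16, 4, 2), (17, 4, 4), (11, 2, 4), (12, 2, 5), (13, 2, 4), (14, 2, 3), (16, 3, 3), (15, 2,
    2), (9, 1, 3), (10, 1, 4), (11, 1, 5), (12, 1, 4), (13, 1, 3), (14, 1, 1), (13, 3, 3), (12,
    4, 4), (11, 5, 5), (10, 4, 4), (9, 3, 3), (8, 2, 2), (7, 1, 1), (6, 3, 3), (5, 2, 2), (4,
    4, 4), (3, 3, 3), (2, 5, 5), (1, 4, 4), (0, 5, 5)], [(13, 3, 3), (11, 4, 2), (12, 4, 4),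
    (9, 5, 3), (10, 5, 2), (11, 5, 5), (6, 3, 5), (7, 3, 4), (9, 4, 2), (10, 4, 4), (4, 2, 4),
    (5, 2, 5), (6, 2, 4), (7, 2, 3), (9, 3, 3), (8, 2, 2), (2, 1, 3), (3, 1, 4), (4, 1, 5), (5,
    1, 4), (6, 1, 3), (7, 1, 1), (6, 3, 3), (5, 4, 4), (4, 5, 5), (3, 4, 4), (2, 3, 3), (1, 2,
    2), (0, 1, 1)], [(13, 3, 3), (12, 4, 4), (9, 5, 3), (10, 5, 2), (11, 5, 5), (6, 3, 5), (7,
    3, 4), (9, 4, 2), (10, 4, 4), (5, 2, 5), (6, 2, 4), (7, 2, 3), (9, 3, 3), (8, 2, 2), (2, 1,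
    3), (3, 1, 4), (4, 1, 5), (5, 1, 4), (6, 1, 3), (7, 1, 1), (6, 3, 3), (5, 4, 4), (4, 5, 5),
    (3, 4, 4), (2, 3, 3), (1, 2, 2), (0, 1, 1)], [(13, 3, 3), (12, 4, 4), (11, 5, 5), (10, 4,
    4), (9, 3, 3), (8, 2, 2), (7, 1, 1), (6, 3, 3), (5, 4, 4), (4, 5, 5), (3, 4, 4), (2, 3, 3),
    (1, 2, 2), (0, 1, 1)]]

theorem okX : ∀ p : Fin 10, nxw TC wX p = p ∧ (rX p = wF1 ∨ rX p = wV2) ∧
    run coxC (lbw TC wX p ++ (gX p ++ (rX p ++ (gX p).reverse)).reverse) (mX p) = some [] := by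
  decide +kernel

theorem relX (n : ℕ) : ∀ r ∈ GcdA.rels n 2, FreeGroup.lift
    (act TC coxC (PresentedGroup.of : Fin 6 → GamC n 1 n 2) (cxC n 1 n 2) nn ll) r = 1 := by
  rintro r (⟨i, j, rfl⟩ | hr)
  · rw [map_pow, map_mul, GcdA.gen, GcdA.gen, FreeGroup.lift_apply_of, FreeGroup.lift_apply_of]
    exact act_cox n 1 n 2 i j
  · have e : (GcdA.gen 1 * GcdA.sigma * GcdA.tau) ^ 2 = lp FreeGroup.of wX := by
      simp [Fi.lp, wX, GcdA.gen, GcdA.sigma, GcdA.tau, pow_succ, mul_assoc]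
    rw [Set.mem_singleton_iff.1 hr, GcdA.extra, if_neg (by norm_num), pow_mul, e, map_pow, lift_lp]
    refine pow_one_of TC coxC _ _ nn ll wX n (fun p => (okX p).1) (fun p => ?_)
    refine pow_of_run (cxC n 1 n 2) (mX p) (okX p).2.2 ?_
    rcases (okX p).2.1 with h | h
    · rw [h]
      exact facC1 n n 2
    · rw [h]
      exact verC2 n 1 n

/-- Words of the generators of the subgroup of index 10. -/
def wH : Fin 6 → List (Fin 6) := ![[2], [3], [4], [5], [1, 2, 3, 4, 3, 2, 1], [0]]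

theorem okH : ∀ k : Fin 6, nxw TC (wH k) 0 = 0 ∧ lbw TC (wH k) 0 = [k] := by
  decide +kernel

theorem finC1 (n : ℕ) (_ : 0 < n) (hf : Finite (GcdA.Gam n 2)) : Finite (GamC n 1 n 2) := by
  refine finite_of (PresentedGroup.toGroup (relX n)) (PresentedGroup.of : Fin 6 → GamC n 1 n 2)
    (cxC n 1 n 2).sq (PresentedGroup.closure_range_of _) 0 (fun k => ?_)
  refine ⟨lp PresentedGroup.of (wH k), fun g => ?_⟩
  rw [map_lp]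
  have h : (fun k => PresentedGroup.toGroup (relX n) (PresentedGroup.of k)) =
      act TC coxC (PresentedGroup.of : Fin 6 → GamC n 1 n 2) (cxC n 1 n 2) nn ll :=
    funext fun k => PresentedGroup.toGroup.of (relX n)
  rw [h, act_word, (okH k).1, (okH k).2, lp_cons, lp_nil, mul_one]

/-! ### The extra relation, `(2n,0,0,0)` -/

def gT : Fin 10 → List (Fin 6) :=
    ![[], [], [0, 1, 2, 0, 3, 4], [], [0, 1, 2, 0, 3, 4], [], [], [], [], []]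

def rT : Fin 10 → List (Fin 6) := ![wF2, (List.reverse wF2), (List.reverse wF2), wF2, (List.reverse wF2), (List.reverse wV4), (List.reverse wV4), wV4, wV4, wF2]

def mT : Fin 10 → List (ℕ × Fin 6 × Fin 6) :=
    ![[(21, 0, 0), (20, 1, 1), (19, 2, 2), (18, 1, 1), (17, 0, 0), (16, 3, 3), (15, 2, 2), (14,
    1, 1), (13, 2, 2), (12, 3, 3), (6, 4, 0), (7, 4, 1), (8, 4, 2), (9, 4, 1), (10, 4, 0), (11,
    4, 4), (10, 0, 0), (9, 1, 1), (8, 2, 2), (7, 1, 1), (6, 0, 0), (5, 3, 3), (4, 2, 2), (3, 1,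
    1), (2, 2, 2), (1, 3, 3), (0, 4, 4)], [(21, 4, 4), (20, 3, 3), (19, 2, 2), (18, 1, 1), (17,
    2, 2), (16, 3, 3), (14, 0, 4), (15, 0, 0), (13, 1, 4), (14, 1, 1), (12, 2, 4), (13, 2, 2),
    (11, 1, 4), (12, 1, 1), (10, 0, 4), (11, 0, 0), (10, 4, 4), (9, 3, 3), (8, 2, 2), (7, 1,
    1), (6, 2, 2), (5, 3, 3), (4, 0, 0), (3, 1, 1), (2, 2, 2), (1, 1, 1), (0, 0, 0)], [(21, 1,
    0), (23, 0, 2), (24, 0, 0), (25, 4, 4), (24, 3, 3), (23, 2, 2), (22, 1, 1), (20, 2, 0),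
    (21, 2, 2), (18, 3, 1), (19, 3, 0), (20, 3, 3), (19, 0, 0), (18, 1, 1), (17, 2, 2), (14, 1,
    3), (15, 1, 4), (16, 1, 1), (10, 1, 0), (12, 0, 2), (13, 0, 3), (14, 0, 4), (15, 0, 0),
    (14, 4, 4), (13, 3, 3), (12, 2, 2), (11, 1, 1), (9, 2, 0), (10, 2, 2), (7, 3, 1), (8, 3,
    0), (9, 3, 3), (8, 0, 0), (7, 1, 1), (5, 2, 4), (6, 2, 2), (3, 1, 3), (4, 1, 4), (5, 1, 1),
    (4, 4, 0), (5, 4, 4), (3, 3, 0), (4, 3, 3), (3, 0, 0), (2, 2, 2), (1, 1, 1), (0, 0, 0)],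
    [], [(21, 1, 0), (23, 0, 2), (24, 0, 0), (25, 4, 4), (24, 3, 3), (23, 2, 2), (22, 1, 1),
    (20, 2, 0), (21, 2, 2), (18, 3, 1), (19, 3, 0), (20, 3, 3), (19, 0, 0), (18, 1, 1), (16, 2,
    4), (17, 2, 2), (14, 1, 3), (15, 1, 4), (16, 1, 1), (10, 1, 0), (12, 0, 2), (13, 0, 3),
    (14, 0, 4), (15, 0, 0), (14, 4, 4), (13, 3, 3), (12, 2, 2), (11, 1, 1), (9, 2, 0), (10, 2,
    2), (7, 3, 1), (8, 3, 0), (9, 3, 3), (8, 0, 0), (7, 1, 1), (6, 2, 2), (3, 1, 3), (4, 1, 4),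
    (5, 1, 1), (4, 4, 0), (5, 4, 4), (3, 3, 0), (4, 3, 3), (3, 0, 0), (2, 2, 2), (1, 1, 1), (0,
    0, 0)], [(19, 1, 1), (18, 2, 2), (16, 3, 1), (17, 3, 3), (14, 4, 2), (15, 4, 1), (16, 4,
    4), (9, 5, 1), (10, 5, 2), (11, 5, 1), (12, 5, 3), (13, 5, 2), (14, 5, 1), (15, 5, 5), (14,
    1, 1), (13, 2, 2), (12, 3, 3), (8, 4, 1), (9, 4, 2), (10, 4, 1), (11, 4, 4), (7, 5, 1), (8,
    5, 2), (9, 5, 1), (10, 5, 5), (9, 1, 1), (8, 2, 2), (6, 3, 1), (7, 3, 3), (5, 4, 1), (6, 4,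
    4), (2, 5, 3), (3, 5, 2), (4, 5, 1), (5, 5, 5), (4, 1, 1), (3, 2, 2), (2, 3, 3), (1, 4, 4),
    (0, 5, 5)], [(19, 1, 1), (18, 2, 2), (16, 3, 1), (17, 3, 3), (15, 4, 1), (16, 4, 4), (9, 5,
    1), (10, 5, 2), (11, 5, 1), (12, 5, 3), (13, 5, 2), (14, 5, 1), (15, 5, 5), (14, 1, 1),
    (13, 2, 2), (12, 3, 3), (8, 4, 1), (9, 4, 2), (10, 4, 1), (11, 4, 4), (7, 5, 1), (8, 5, 2),
    (9, 5, 1), (10, 5, 5), (9, 1, 1), (8, 2, 2), (6, 3, 1), (7, 3, 3), (4, 4, 2), (5, 4, 1),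
    (6, 4, 4), (2, 5, 3), (3, 5, 2), (4, 5, 1), (5, 5, 5), (4, 1, 1), (3, 2, 2), (2, 3, 3), (1,
    4, 4), (0, 5, 5)], [(19, 5, 5), (18, 4, 4), (16, 3, 5), (17, 3, 3), (15, 2, 5), (16, 2, 2),
    (9, 1, 5), (10, 1, 4), (11, 1, 5), (12, 1, 3), (13, 1, 4), (14, 1, 5), (15, 1, 1), (14, 5,
    5), (13, 4, 4), (12, 3, 3), (8, 2, 5), (9, 2, 4), (10, 2, 5), (11, 2, 2), (7, 1, 5), (8, 1,
    4), (9, 1, 5), (10, 1, 1), (9, 5, 5), (8, 4, 4), (6, 3, 5), (7, 3, 3), (4, 2, 4), (5, 2,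
    5), (6, 2, 2), (2, 1, 3), (3, 1, 4), (4, 1, 5), (5, 1, 1), (4, 5, 5), (3, 4, 4), (2, 3, 3),
    (1, 2, 2), (0, 1, 1)], [(19, 5, 5), (18, 4, 4), (16, 3, 5), (17, 3, 3), (14, 2, 4), (15, 2,
    5), (16, 2, 2), (9, 1, 5), (10, 1, 4), (11, 1, 5), (12, 1, 3), (13, 1, 4), (14, 1, 5), (15,
    1, 1), (14, 5, 5), (13, 4, 4), (12, 3, 3), (8, 2, 5), (9, 2, 4), (10, 2, 5), (11, 2, 2),
    (7, 1, 5), (8, 1, 4), (9, 1, 5), (10, 1, 1), (9, 5, 5), (8, 4, 4), (6, 3, 5), (7, 3, 3),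
    (5, 2, 5), (6, 2, 2), (2, 1, 3), (3, 1, 4), (4, 1, 5), (5, 1, 1), (4, 5, 5), (3, 4, 4), (2,
    3, 3), (1, 2, 2), (0, 1, 1)], []]

theorem okT : ∀ p : Fin 10, nxw TC wT p = p ∧ (p = 3 ∨ p = 9 ∨
    ((rT p = wF2 ∨ rT p = wF2.reverse ∨ rT p = wV4 ∨ rT p = wV4.reverse) ∧
    run coxC (lbw TC wT p ++ (gT p ++ (rT p ++ (gT p).reverse)).reverse) (mT p) = some [])) := by
  decide +kernel

def y3 : List (Fin 6) := [5]
def z3 : List (Fin 6) := [5, 4, 5, 1, 2, 1]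
def y9 : List (Fin 6) := []
def z9 : List (Fin 6) := [5, 4, 5, 2, 1]
def m3 : List (ℕ × Fin 6 × Fin 6) :=
    [(18, 5, 1), (19, 5, 2), (20, 5, 1), (21, 5, 5), (17, 4, 1), (18, 4, 2), (19, 4, 1), (20,
    4, 4), (16, 5, 1), (17, 5, 2), (18, 5, 1), (19, 5, 3), (20, 5, 2), (21, 5, 1), (22, 5, 5),
    (15, 4, 1), (16, 4, 2), (17, 4, 1), (14, 3, 1), (11, 2, 1), (14, 2, 3), (16, 3, 1), (17, 3,
    4), (19, 4, 2), (20, 4, 1), (21, 4, 4), (13, 1, 3), (10, 3, 1), (11, 3, 2), (13, 2, 1),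
    (16, 2, 4), (17, 2, 3), (19, 3, 1), (20, 3, 3), (15, 1, 4), (16, 1, 3), (14, 2, 4), (12, 3,
    1), (9, 4, 1), (10, 4, 2), (11, 4, 1), (12, 4, 3), (14, 3, 2), (16, 2, 1), (19, 2, 2), (18,
    1, 1), (17, 2, 5), (18, 2, 4), (15, 3, 1), (16, 3, 5), (13, 4, 2), (14, 4, 1), (8, 5, 1),
    (9, 5, 2), (10, 5, 1), (11, 5, 3), (12, 5, 2), (13, 5, 1), (7, 4, 1), (8, 4, 2), (9, 4, 1),
    (6, 3, 1), (3, 2, 1), (6, 2, 3), (8, 3, 1), (9, 3, 4), (11, 4, 2), (12, 4, 1), (13, 4, 5),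
    (16, 4, 3), (18, 3, 2), (20, 2, 2), (19, 3, 1), (20, 3, 5), (17, 4, 2), (18, 4, 1), (15, 5,
    3), (16, 5, 2), (17, 5, 1), (5, 1, 3), (2, 3, 1), (3, 3, 2), (5, 2, 1), (8, 2, 4), (9, 2,
    3), (11, 3, 1), (12, 3, 5), (13, 3, 4), (15, 4, 2), (16, 4, 1), (17, 4, 5), (20, 4, 3),
    (22, 3, 3), (23, 1, 1), (22, 2, 2), (16, 1, 5), (17, 1, 4), (18, 1, 5), (19, 1, 3), (20, 1,
    4), (21, 1, 1), (18, 5, 3), (7, 1, 4), (8, 1, 3), (6, 2, 4), (4, 3, 1), (1, 4, 1), (2, 4,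
    2), (3, 4, 1), (4, 4, 3), (6, 3, 2), (8, 2, 1), (11, 2, 5), (12, 2, 4), (13, 2, 3), (15, 3,
    5), (16, 3, 4), (18, 4, 5), (21, 4, 4), (20, 5, 5), (20, 5, 5), (19, 4, 4), (17, 3, 5),
    (18, 3, 3), (14, 2, 5), (15, 2, 4), (16, 2, 5), (17, 2, 2), (10, 1, 5), (11, 1, 4), (12, 1,
    3), (13, 1, 5), (14, 1, 4), (15, 1, 5), (16, 1, 1), (15, 5, 5), (14, 4, 4), (12, 3, 5),
    (13, 3, 3), (9, 2, 5), (10, 2, 4), (11, 2, 5), (12, 2, 2), (8, 1, 5), (9, 1, 4), (10, 1,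
    5), (11, 1, 1), (10, 5, 5), (9, 4, 4), (7, 3, 5), (8, 3, 3), (6, 2, 5), (7, 2, 2), (3, 1,
    3), (4, 1, 4), (5, 1, 5), (6, 1, 1), (5, 5, 5), (4, 4, 4), (3, 3, 3), (2, 2, 2), (1, 1, 1),
    (0, 5, 5)]
def c3 : List (ℕ × Fin 6 × Fin 6) :=
    [(20, 5, 5), (15, 5, 1), (16, 5, 2), (17, 5, 3), (18, 5, 4), (21, 5, 5), (23, 1, 1), (22,
    2, 2), (20, 4, 1), (14, 4, 1), (15, 4, 2), (16, 4, 3), (18, 3, 5), (19, 3, 1), (20, 3, 4),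
    (22, 4, 4), (18, 5, 1), (17, 4, 1), (10, 5, 1), (11, 5, 2), (12, 5, 3), (13, 5, 1), (14, 5,
    2), (15, 5, 3), (16, 5, 1), (17, 5, 4), (20, 5, 3), (21, 5, 5), (16, 1, 4), (17, 1, 5),
    (18, 1, 4), (19, 1, 3), (20, 1, 1), (12, 3, 1), (13, 3, 2), (15, 2, 4), (16, 2, 5), (17, 2,
    4), (18, 2, 3), (20, 3, 3), (9, 4, 1), (10, 4, 2), (11, 4, 1), (12, 4, 2), (13, 4, 3), (15,
    3, 5), (16, 3, 4), (18, 4, 2), (19, 4, 4), (5, 5, 1), (6, 5, 2), (7, 5, 3), (8, 5, 1), (9,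
    5, 2), (10, 5, 1), (11, 5, 2), (12, 5, 3), (13, 5, 4), (16, 5, 3), (17, 5, 2), (18, 5, 5),
    (8, 1, 2), (11, 1, 3), (12, 1, 4), (13, 1, 5), (14, 1, 4), (15, 1, 3), (16, 1, 2), (19, 1,
    3), (20, 1, 4), (21, 1, 5), (22, 1, 1), (6, 2, 3), (8, 3, 1), (9, 3, 2), (11, 2, 4), (12,
    2, 5), (13, 2, 4), (14, 2, 3), (16, 3, 1), (17, 3, 2), (19, 2, 4), (20, 2, 5), (21, 2, 2),
    (4, 4, 1), (3, 3, 1), (4, 3, 4), (6, 4, 2), (7, 4, 1), (8, 4, 2), (9, 4, 3), (11, 3, 5),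
    (12, 3, 4), (14, 4, 2), (15, 4, 1), (16, 4, 2), (17, 4, 3), (19, 3, 5), (20, 3, 3), (3, 1,
    4), (4, 1, 3), (5, 1, 2), (8, 1, 3), (9, 1, 4), (10, 1, 5), (11, 1, 4), (12, 1, 3), (13, 1,
    2), (16, 1, 3), (17, 1, 4), (18, 1, 5), (19, 1, 4), (20, 1, 5), (21, 1, 1), (2, 2, 4), (3,
    2, 3), (5, 3, 1), (6, 3, 2), (8, 2, 4), (9, 2, 5), (10, 2, 4), (11, 2, 3), (13, 3, 1), (14,
    3, 2), (16, 2, 4), (17, 2, 5), (18, 2, 4), (19, 2, 5), (20, 2, 2), (1, 1, 4), (2, 1, 3),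
    (3, 1, 2), (6, 1, 3), (7, 1, 4), (8, 1, 5), (9, 1, 4), (10, 1, 3), (11, 1, 2), (14, 1, 3),
    (15, 1, 4), (16, 1, 5), (17, 1, 4), (18, 1, 5), (19, 1, 1), (18, 5, 5), (17, 4, 4), (16, 5,
    5), (16, 5, 5), (15, 4, 4), (14, 3, 3), (13, 2, 2), (12, 1, 1), (11, 2, 5), (12, 2, 4),
    (10, 3, 5), (7, 4, 5), (10, 4, 3), (12, 3, 2), (14, 2, 2), (13, 3, 1), (14, 3, 5), (11, 4,
    2), (12, 4, 1), (9, 5, 3), (10, 5, 2), (11, 5, 1), (6, 3, 5), (7, 3, 4), (9, 4, 2), (10, 4,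
    1), (11, 4, 5), (14, 4, 3), (16, 3, 3), (15, 4, 2), (16, 4, 1), (13, 5, 3), (14, 5, 2),
    (15, 5, 1), (5, 2, 5), (6, 2, 4), (7, 2, 3), (9, 3, 1), (10, 3, 5), (11, 3, 4), (13, 4, 2),
    (14, 4, 1), (15, 4, 5), (18, 4, 4), (17, 5, 3), (18, 5, 2), (19, 5, 1), (20, 5, 5), (19, 1,
    5), (20, 1, 4), (21, 1, 5), (22, 1, 1), (18, 2, 5), (19, 2, 4), (20, 2, 5), (21, 2, 2),
    (14, 1, 5), (15, 1, 4), (16, 1, 3), (17, 1, 5), (18, 1, 4), (19, 1, 5), (20, 1, 1), (19, 5,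
    5), (18, 4, 4), (16, 3, 5), (17, 3, 3), (13, 2, 5), (14, 2, 4), (15, 2, 5), (16, 2, 2), (9,
    1, 5), (10, 1, 4), (11, 1, 3), (12, 1, 5), (13, 1, 4), (14, 1, 5), (15, 1, 1), (14, 5, 5),
    (13, 4, 4), (11, 3, 5), (12, 3, 3), (8, 2, 5), (9, 2, 4), (10, 2, 5), (11, 2, 2), (4, 1,
    5), (5, 1, 4), (6, 1, 3), (7, 1, 5), (8, 1, 4), (9, 1, 5), (10, 1, 1), (9, 5, 5), (8, 4,
    4), (6, 3, 5), (7, 3, 3), (3, 2, 5), (4, 2, 4), (5, 2, 5), (6, 2, 2), (5, 5, 1), (6, 5, 5),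
    (4, 4, 1), (5, 4, 4), (2, 3, 5), (3, 3, 1), (4, 3, 3), (5, 1, 1), (4, 2, 2), (3, 1, 1), (2,
    5, 5), (1, 4, 4), (0, 5, 5)]
def m9 : List (ℕ × Fin 6 × Fin 6) :=
    [(15, 2, 5), (16, 2, 4), (17, 2, 5), (18, 2, 2), (17, 5, 1), (18, 5, 5), (16, 4, 1), (17,
    4, 4), (14, 3, 5), (15, 3, 1), (16, 3, 3), (14, 5, 1), (15, 5, 2), (16, 5, 1), (17, 5, 5),
    (13, 4, 1), (14, 4, 2), (15, 4, 1), (16, 4, 4), (12, 5, 1), (13, 5, 2), (14, 5, 1), (15, 5,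
    3), (16, 5, 2), (17, 5, 1), (18, 5, 5), (11, 4, 1), (12, 4, 2), (13, 4, 1), (10, 3, 1), (7,
    2, 1), (10, 2, 3), (12, 3, 1), (13, 3, 4), (15, 4, 2), (16, 4, 1), (17, 4, 4), (9, 1, 3),
    (6, 3, 1), (7, 3, 2), (9, 2, 1), (12, 2, 4), (13, 2, 3), (15, 3, 1), (16, 3, 3), (11, 1,
    4), (12, 1, 3), (10, 2, 4), (8, 3, 1), (5, 4, 1), (6, 4, 2), (7, 4, 1), (8, 4, 3), (10, 3,
    2), (12, 2, 1), (15, 2, 2), (14, 1, 1), (18, 1, 1), (17, 2, 2), (19, 5, 5), (18, 4, 4),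
    (16, 3, 5), (17, 3, 3), (13, 2, 5), (14, 2, 4), (15, 2, 5), (16, 2, 2), (12, 1, 5), (13, 1,
    4), (14, 1, 5), (15, 1, 1), (14, 5, 5), (13, 4, 4), (11, 3, 5), (12, 3, 3), (10, 2, 5),
    (11, 2, 2), (7, 1, 3), (8, 1, 4), (9, 1, 5), (10, 1, 1), (9, 5, 5), (8, 4, 4), (7, 3, 3),
    (6, 2, 2), (5, 1, 1), (4, 5, 5), (3, 4, 4), (2, 3, 3), (1, 2, 2), (0, 1, 1)]
def c9 : List (ℕ × Fin 6 × Fin 6) :=
    [(19, 5, 5), (18, 4, 4), (14, 5, 1), (15, 5, 2), (16, 5, 3), (17, 5, 5), (18, 1, 1), (17,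
    2, 2), (16, 3, 3), (13, 4, 1), (14, 4, 2), (15, 4, 4), (9, 5, 1), (10, 5, 2), (11, 5, 3),
    (12, 5, 1), (13, 5, 2), (14, 5, 5), (12, 1, 2), (15, 1, 3), (16, 1, 4), (17, 1, 5), (18, 1,
    1), (10, 2, 3), (12, 3, 1), (13, 3, 2), (15, 2, 4), (16, 2, 5), (17, 2, 2), (8, 4, 1), (7,
    3, 1), (8, 3, 4), (10, 4, 2), (11, 4, 1), (12, 4, 2), (13, 4, 3), (15, 3, 5), (16, 3, 3),
    (7, 1, 4), (8, 1, 3), (9, 1, 2), (12, 1, 3), (13, 1, 4), (14, 1, 5), (15, 1, 4), (16, 1,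
    5), (17, 1, 1), (6, 2, 4), (7, 2, 3), (9, 3, 1), (10, 3, 2), (12, 2, 4), (13, 2, 5), (14,
    2, 4), (15, 2, 5), (16, 2, 2), (5, 1, 4), (6, 1, 3), (7, 1, 2), (10, 1, 3), (11, 1, 4),
    (12, 1, 5), (13, 1, 4), (14, 1, 5), (15, 1, 3), (16, 1, 4), (17, 1, 5), (18, 1, 1), (17, 5,
    2), (18, 5, 5), (16, 4, 2), (17, 4, 4), (14, 5, 3), (15, 5, 2), (16, 5, 5), (15, 2, 5),
    (16, 2, 4), (14, 3, 5), (11, 4, 5), (14, 4, 3), (16, 3, 2), (18, 2, 2), (17, 3, 1), (18, 3,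
    5), (15, 4, 2), (16, 4, 1), (13, 5, 3), (14, 5, 2), (15, 5, 1), (10, 3, 5), (11, 3, 4),
    (13, 4, 2), (14, 4, 1), (15, 4, 5), (18, 4, 3), (20, 3, 3), (19, 4, 2), (20, 4, 1), (17, 5,
    3), (18, 5, 2), (19, 5, 1), (9, 2, 5), (10, 2, 4), (11, 2, 3), (13, 3, 1), (14, 3, 5), (15,
    3, 4), (17, 4, 2), (18, 4, 1), (19, 4, 5), (22, 4, 4), (21, 5, 3), (22, 5, 2), (23, 5, 1),
    (24, 5, 5), (8, 1, 5), (9, 1, 4), (10, 1, 3), (7, 2, 5), (8, 2, 4), (6, 3, 5), (3, 4, 5),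
    (6, 4, 3), (8, 3, 2), (10, 2, 1), (13, 2, 5), (14, 2, 4), (15, 2, 3), (17, 3, 1), (18, 3,
    5), (19, 3, 4), (21, 4, 2), (22, 4, 1), (23, 4, 4), (12, 1, 5), (13, 1, 4), (14, 1, 3),
    (11, 2, 5), (12, 2, 4), (9, 3, 1), (10, 3, 5), (7, 4, 2), (8, 4, 1), (5, 5, 3), (6, 5, 2),
    (7, 5, 1), (2, 3, 5), (3, 3, 4), (5, 4, 2), (6, 4, 1), (7, 4, 5), (10, 4, 3), (12, 3, 2),
    (14, 2, 1), (17, 2, 5), (18, 2, 4), (19, 2, 3), (21, 3, 1), (22, 3, 3), (16, 1, 5), (17, 1,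
    4), (18, 1, 3), (15, 2, 5), (16, 2, 4), (13, 3, 1), (14, 3, 5), (11, 4, 2), (12, 4, 1), (9,
    5, 3), (10, 5, 2), (11, 5, 1), (1, 2, 5), (2, 2, 4), (3, 2, 3), (5, 3, 1), (6, 3, 5), (7,
    3, 4), (9, 4, 2), (10, 4, 1), (11, 4, 5), (14, 4, 3), (16, 3, 2), (18, 2, 1), (21, 2, 2),
    (20, 1, 1), (19, 2, 5), (20, 2, 4), (21, 2, 5), (22, 2, 2), (18, 1, 5), (19, 1, 4), (20, 1,
    5), (21, 1, 1), (20, 5, 5), (19, 4, 4), (17, 3, 5), (18, 3, 3), (16, 2, 5), (17, 2, 2),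
    (10, 1, 5), (11, 1, 4), (12, 1, 5), (13, 1, 3), (14, 1, 4), (15, 1, 5), (16, 1, 1), (15, 5,
    5), (14, 4, 4), (13, 3, 3), (9, 2, 5), (10, 2, 4), (11, 2, 5), (12, 2, 2), (5, 1, 5), (6,
    1, 4), (7, 1, 3), (8, 1, 5), (9, 1, 4), (10, 1, 5), (11, 1, 1), (10, 5, 5), (9, 4, 4), (7,
    3, 5), (8, 3, 3), (4, 2, 5), (5, 2, 4), (6, 2, 5), (7, 2, 2), (0, 1, 5), (1, 1, 4), (2, 1,
    3), (3, 1, 5), (4, 1, 4), (5, 1, 5), (6, 1, 1), (5, 5, 5), (4, 4, 4), (2, 3, 5), (3, 3, 3),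
    (4, 1, 1), (3, 2, 2), (2, 5, 5), (1, 4, 4), (0, 5, 5)]

theorem ok3 : run coxC (lbw TC wT 3 ++ ((y3 ++ (wV4 ++ y3.reverse)) ++
    (z3 ++ (wV4 ++ z3.reverse))).reverse) m3 = some [] := by
  decide +kernel

theorem ok3' : run coxC (((y3 ++ (wV4 ++ y3.reverse)) ++ (z3 ++ (wV4 ++ z3.reverse))) ++
    ((z3 ++ (wV4 ++ z3.reverse)) ++ (y3 ++ (wV4 ++ y3.reverse))).reverse) c3 = some [] := by
  decide +kernel

theorem ok9 : run coxC (lbw TC wT 9 ++ ((y9 ++ (wV4 ++ y9.reverse)) ++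
    (z9 ++ (wV4 ++ z9.reverse))).reverse) m9 = some [] := by
  decide +kernel

theorem ok9' : run coxC (((y9 ++ (wV4 ++ y9.reverse)) ++ (z9 ++ (wV4 ++ z9.reverse))) ++
    ((z9 ++ (wV4 ++ z9.reverse)) ++ (y9 ++ (wV4 ++ y9.reverse))).reverse) c9 = some [] := by
  decide +kernel

theorem cpow {G : Type} [Group G] {x : Fin 6 → G} (h : Cx coxC x) {r : List (Fin 6)} {n : ℕ}
    (hn : lp x r ^ n = 1) (g : List (Fin 6)) : lp x (g ++ (r ++ g.reverse)) ^ n = 1 := by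
  rw [lp_append, lp_append, lp_rev h, ← mul_assoc, conj_pow, hn]
  simp

theorem relT (n : ℕ) : ∀ r ∈ GcdA.rels (2 * n) 1, FreeGroup.lift
    (act TC coxC (PresentedGroup.of : Fin 6 → GamC n 2 n 4) (cxC n 2 n 4) nn ll) r = 1 := by
  rintro r (⟨i, j, rfl⟩ | hr)
  · rw [map_pow, map_mul, GcdA.gen, GcdA.gen, FreeGroup.lift_apply_of, FreeGroup.lift_apply_of]
    exact act_cox n 2 n 4 i j
  · have e : (GcdA.gen 1 * GcdA.sigma * GcdA.tau * GcdA.sigma) ^ 2 = lp FreeGroup.of wT := by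
      simp [Fi.lp, wT, GcdA.gen, GcdA.sigma, GcdA.tau, pow_succ, mul_assoc]
    rw [Set.mem_singleton_iff.1 hr, GcdA.extra, if_pos rfl, pow_mul, e, map_pow, lift_lp]
    have hF := facC2 n n 4
    have hV := verC4 n 2 n
    have hc := cxC n 2 n 4
    refine pow_one_of TC coxC _ _ nn ll wT n (fun p => (okT p).1) (fun p => ?_)
    rcases (okT p).2 with h | h | ⟨h, h'⟩
    · rw [h]
      exact pow_of_comm hc m3 c3 ok3 ok3' (cpow hc hV y3) (cpow hc hV z3)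
    · rw [h]
      exact pow_of_comm hc m9 c9 ok9 ok9' (cpow hc hV y9) (cpow hc hV z9)
    · refine pow_of_run hc (mT p) h' ?_
      rcases h with h | h | h | h
      · rw [h]
        exact hF
      · rw [h]
        exact pow_rev hc hF
      · rw [h]
        exact hV
      · rw [h]
        exact pow_rev hc hV

theorem finC2 (n : ℕ) (_ : 0 < n) (hf : Finite (GcdA.Gam (2 * n) 1)) :
    Finite (GamC n 2 n 4) := by
  refine finite_of (PresentedGroup.toGroup (relT n)) (PresentedGroup.of : Fin 6 → GamC n 2 n 4)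
    (cxC n 2 n 4).sq (PresentedGroup.closure_range_of _) 0 (fun k => ?_)
  refine ⟨lp PresentedGroup.of (wH k), fun g => ?_⟩
  rw [map_lp]
  have h : (fun k => PresentedGroup.toGroup (relT n) (PresentedGroup.of k)) =
      act TC coxC (PresentedGroup.of : Fin 6 → GamC n 2 n 4) (cxC n 2 n 4) nn ll :=
    funext fun k => PresentedGroup.toGroup.of (relT n)
  rw [h, act_word, (okH k).1, (okH k).2, lp_cons, lp_nil, mul_one]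

end Pool.Agent.Lib.MP_c2d01e_co.FinC
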