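import Pool.Agent.Lib.MP_c2d01e_co.GcdA
import Pool.Agent.Lib.MP_c2d01e_co.Four.Small

/-!
# The finite groups of family (A)

As in the hand-in `FamilyA` (this file repeats that part of its text), for the definitions of `GcdA`.
-/

namespace Pool.Agent.Lib.MP_c2d01e_co.FinA

open Pool.Agent.Lib.MP_c2d01e_co
open Pool.Agent.Lib.MP_c2d01e_co.GcdA

section fin

variable (s k : ℕ)

/-- the generators, indexed by natural numbers -/
def rN (i : ℕ) : Gam s k := if h : i < 6 then rho s k ⟨i, h⟩ else 1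

theorem rho_cox (i j : Fin 6) : (rho s k i * rho s k j) ^ cox i j = 1 := by
  have h : PresentedGroup.mk (rels s k) ((gen i * gen j) ^ cox i j) = 1 :=
    PresentedGroup.one_of_mem (Or.inl ⟨i, j, rfl⟩)
  rw [map_pow, map_mul] at h
  exact h

theorem rN_cox (i j : ℕ) (hi : i < 6) (hj : j < 6) :
    (rN s k i * rN s k j) ^ cox ⟨i, hi⟩ ⟨j, hj⟩ = 1 := by
  rw [rN, rN, dif_pos hi, dif_pos hj]
  exact rho_cox _ _ _ _

theorem rel0 : Four.Rel0 (rN s k) := by
  have hcox : ∀ i j, 1 ≤ i → i ≤ 5 → 1 ≤ j → j ≤ 5 → i ≠ j →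
      (rN s k i * rN s k j) ^ Dce.cx i j = 1 := by
    intro i j hi hi' hj hj' hij
    have h := rN_cox s k i j (by omega) (by omega)
    have e : Dce.cx i j = cox ⟨i, by omega⟩ ⟨j, by omega⟩ := by
      interval_cases i <;> interval_cases j <;> first | rfl | omega
    rw [e]
    exact h
  have hsq : ∀ i, i ≤ 5 → rN s k i * rN s k i = 1 := by
    intro i hi
    have h := rN_cox s k i i (by omega) (by omega)
    rw [cox, if_pos rfl, pow_one] at h
    exact h
  refine ⟨⟨fun i _ h => hsq i h, hcox⟩, hsq 0 (by norm_num), ?_, ?_⟩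
  · intro i h2 h5
    have h := rN_cox s k 0 i (by norm_num) (by omega)
    have e : cox ⟨0, by norm_num⟩ ⟨i, by omega⟩ = 2 := by interval_cases i <;> rfl
    rw [e, pow_two] at h
    have a1 := inv_eq_of_mul_eq_one_left (hsq 0 (by norm_num))
    have a2 := inv_eq_of_mul_eq_one_left (hsq i h5)
    calc rN s k 0 * rN s k i = rN s k 0 * rN s k i * (rN s k 0 * rN s k i *
          (rN s k 0 * rN s k i))⁻¹ := by rw [h]; simp
      _ = (rN s k i)⁻¹ * (rN s k 0)⁻¹ := by group
      _ = rN s k i * rN s k 0 := by rw [a1, a2]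
  · exact rN_cox s k 0 1 (by norm_num) (by norm_num)

theorem ext_one : Dce.lp (rN s 1) Four.wA ^ s = 1 := by
  have h : PresentedGroup.mk (rels s 1) (extra s 1) = 1 :=
    PresentedGroup.one_of_mem (Or.inr rfl)
  rw [extra, if_pos rfl, map_pow] at h
  rw [← h]
  congr 1

theorem ext_two : Dce.lp (rN s 2) Four.wB ^ (2 * s) = 1 := by
  have h : PresentedGroup.mk (rels s 2) (extra s 2) = 1 :=
    PresentedGroup.one_of_mem (Or.inr rfl)
  rw [extra, if_neg (by norm_num), map_pow] at h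
  rw [← h]
  congr 1

theorem closure_rN : Subgroup.closure {g | ∃ i, i ≤ 5 ∧ g = rN s k i} = ⊤ := by
  rw [eq_top_iff, ← PresentedGroup.closure_range_of (rels s k)]
  refine Subgroup.closure_mono ?_
  rintro _ ⟨i, rfl⟩
  exact ⟨i, by omega, by rw [rN, dif_pos i.2]; rfl⟩

end fin

theorem finite_21 : Finite (Gam 2 1) :=
  Four.finite_of_rel41 (Four.rel41_of_two (rel0 2 1) (ext_one 2)) (closure_rN 2 1)

theorem finite_22 : Finite (Gam 2 2) :=
  Four.finite_of_rel41 (Four.rel41_of_twotwo (rel0 2 2) (ext_two 2)) (closure_rN 2 2)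

theorem finite_31 : Finite (Gam 3 1) :=
  Dce.finite_of_rel33 (Four.rel33_of_three (rel0 3 1) (ext_one 3)) (closure_rN 3 1)

theorem finite_32 : Finite (Gam 3 2) :=
  Dce.finite_of_rel33 (Four.rel33_of_threethree (rel0 3 2) (ext_two 3)) (closure_rN 3 2)

theorem finite_41 : Finite (Gam 4 1) :=
  Four.finite_of_rel41 (Four.rel41_of_four (rel0 4 1) (ext_one 4)) (closure_rN 4 1)

end Pool.Agent.Lib.MP_c2d01e_co.FinA
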