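import Pool.Agent.Lib.MP_c2d01e_co.GcdY

/-!
# The group of family (B) acts on five copies of itself

From the coset table of `⟨b, c, d, e, f, L₁⟩` in `⟨a, …, f⟩`: six permutations of `Fin 5 × H`.
-/

set_option autoImplicit false

namespace Pool.Agent.Lib.MP_c2d01e_co.FinB

open Pool.Agent.Lib.MP_c2d01e_co.GcdW

variable {H : Type} [Group H]

/-- The Coxeter relations of the string `{3,3,4,3,3}`. -/
structure RelB (x0 x1 x2 x3 x4 x5 : H) : Prop where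
  s0 : x0 * x0 = 1
  s1 : x1 * x1 = 1
  s2 : x2 * x2 = 1
  s3 : x3 * x3 = 1
  s4 : x4 * x4 = 1
  s5 : x5 * x5 = 1
  b01 : x0 * x1 * x0 = x1 * x0 * x1
  b12 : x1 * x2 * x1 = x2 * x1 * x2
  b23 : x2 * x3 * x2 * x3 = x3 * x2 * x3 * x2
  b34 : x3 * x4 * x3 = x4 * x3 * x4
  b45 : x4 * x5 * x4 = x5 * x4 * x5
  c02 : x0 * x2 = x2 * x0
  c03 : x0 * x3 = x3 * x0
  c04 : x0 * x4 = x4 * x0
  c05 : x0 * x5 = x5 * x0
  c13 : x1 * x3 = x3 * x1
  c14 : x1 * x4 = x4 * x1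
  c15 : x1 * x5 = x5 * x1
  c24 : x2 * x4 = x4 * x2
  c25 : x2 * x5 = x5 * x2
  c35 : x3 * x5 = x5 * x3

/-- `a`. -/
def fa (x0 : H) : Fin 5 × H → Fin 5 × H
  | (0, x) => (1, x)
  | (1, x) => (0, x)
  | (2, x) => (2, x0 * x)
  | (3, x) => (3, x0 * x)
  | (4, x) => (4, x0 * x)

/-- `b`. -/
def fb (x0 x1 : H) : Fin 5 × H → Fin 5 × H
  | (0, x) => (0, x0 * x)
  | (1, x) => (2, x)
  | (2, x) => (1, x)
  | (3, x) => (3, x1 * x)
  | (4, x) => (4, x1 * x)

/-- `c`. -/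
def fc (x1 x2 : H) : Fin 5 × H → Fin 5 × H
  | (0, x) => (0, x1 * x)
  | (1, x) => (1, x1 * x)
  | (2, x) => (3, x)
  | (3, x) => (2, x)
  | (4, x) => (4, x2 * x)

/-- `d`. -/
def fd (x2 : H) : Fin 5 × H → Fin 5 × H
  | (0, x) => (0, x2 * x)
  | (1, x) => (1, x2 * x)
  | (2, x) => (2, x2 * x)
  | (3, x) => (4, x)
  | (4, x) => (3, x)

/-- `e`. -/
def fe (x3 x5 : H) : Fin 5 × H → Fin 5 × H
  | (0, x) => (0, x3 * x)
  | (1, x) => (1, x3 * x)
  | (2, x) => (2, x3 * x)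
  | (3, x) => (3, x3 * x)
  | (4, x) => (4, x5 * x)

/-- `f`. -/
def ff (x4 : H) : Fin 5 × H → Fin 5 × H
  | (0, x) => (0, x4 * x)
  | (1, x) => (1, x4 * x)
  | (2, x) => (2, x4 * x)
  | (3, x) => (3, x4 * x)
  | (4, x) => (4, x4 * x)

section

variable {x0 x1 x2 x3 x4 x5 : H}

theorem ia (h : x0 * x0 = 1) : Function.Involutive (fa x0) := by
  rintro ⟨i, x⟩
  fin_cases i
  · rfl
  · rfl
  all_goals exact Prod.ext rfl (ca h x)

theorem ib (h : x0 * x0 = 1) (h1 : x1 * x1 = 1) : Function.Involutive (fb x0 x1) := by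
  rintro ⟨i, x⟩
  fin_cases i
  · exact Prod.ext rfl (ca h x)
  · rfl
  · rfl
  all_goals exact Prod.ext rfl (ca h1 x)

theorem ic (h : x1 * x1 = 1) (h1 : x2 * x2 = 1) : Function.Involutive (fc x1 x2) := by
  rintro ⟨i, x⟩
  fin_cases i
  · exact Prod.ext rfl (ca h x)
  · exact Prod.ext rfl (ca h x)
  · rfl
  · rfl
  all_goals exact Prod.ext rfl (ca h1 x)

theorem id' (h : x2 * x2 = 1) : Function.Involutive (fd x2) := by
  rintro ⟨i, x⟩
  fin_cases i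
  · exact Prod.ext rfl (ca h x)
  · exact Prod.ext rfl (ca h x)
  · exact Prod.ext rfl (ca h x)
  all_goals rfl

theorem ie (h : x3 * x3 = 1) (h1 : x5 * x5 = 1) : Function.Involutive (fe x3 x5) := by
  rintro ⟨i, x⟩
  fin_cases i
  · exact Prod.ext rfl (ca h x)
  · exact Prod.ext rfl (ca h x)
  · exact Prod.ext rfl (ca h x)
  · exact Prod.ext rfl (ca h x)
  all_goals exact Prod.ext rfl (ca h1 x)

theorem if' (h : x4 * x4 = 1) : Function.Involutive (ff x4) := by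
  rintro ⟨i, x⟩
  fin_cases i
  all_goals exact Prod.ext rfl (ca h x)

end

/-- Equality of permutations from equality of the functions. -/
theorem ext5 {F K : Equiv.Perm (Fin 5 × H)} (h0 : ∀ x, F (0, x) = K (0, x))
    (h1 : ∀ x, F (1, x) = K (1, x)) (h2 : ∀ x, F (2, x) = K (2, x)) (h3 : ∀ x, F (3, x) = K (3, x))
    (h4 : ∀ x, F (4, x) = K (4, x)) : F = K := by
  refine Equiv.ext ?_
  rintro ⟨i, x⟩
  fin_cases i
  exacts [h0 x, h1 x, h2 x, h3 x, h4 x]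

section

variable {x0 x1 x2 x3 x4 x5 : H} (h : RelB x0 x1 x2 x3 x4 x5)

/-- `a`. -/
def pa : Equiv.Perm (Fin 5 × H) := (ia h.s0).toPerm

/-- `b`. -/
def pb : Equiv.Perm (Fin 5 × H) := (ib h.s0 h.s1).toPerm

/-- `c`. -/
def pc : Equiv.Perm (Fin 5 × H) := (ic h.s1 h.s2).toPerm

/-- `d`. -/
def pd : Equiv.Perm (Fin 5 × H) := (id' h.s2).toPerm

/-- `e`. -/
def pe : Equiv.Perm (Fin 5 × H) := (ie h.s3 h.s5).toPerm

/-- `f`. -/
def pf : Equiv.Perm (Fin 5 × H) := (if' h.s4).toPerm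

/-- Word equalities. -/
theorem w2 {x y z : H} (hxy : x * y = y * x) : x * (y * z) = y * (x * z) := by
  rw [← mul_assoc, hxy, mul_assoc]

theorem w3 {x y z : H} (hxy : x * y * x = y * x * y) : x * (y * (x * z)) = y * (x * (y * z)) := by
  simp only [← mul_assoc, hxy]

theorem w4 {x y z : H} (hxy : x * y * x * y = y * x * y * x) :
    x * (y * (x * (y * z))) = y * (x * (y * (x * z))) := by
  simp only [← mul_assoc, hxy]

theorem relP : Rel (pa h) (pb h) (pc h) (pd h) (pe h) (pf h) where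
  aa := Equiv.ext fun y => ia h.s0 y
  bb := Equiv.ext fun y => ib h.s0 h.s1 y
  cc := Equiv.ext fun y => ic h.s1 h.s2 y
  dd := Equiv.ext fun y => id' h.s2 y
  ee := Equiv.ext fun y => ie h.s3 h.s5 y
  ff := Equiv.ext fun y => if' h.s4 y
  aba := ext5 (fun x => rfl) (fun x => rfl) (fun x => rfl)
    (fun x => Prod.ext rfl (w3 h.b01)) (fun x => Prod.ext rfl (w3 h.b01))
  bcb := ext5 (fun x => Prod.ext rfl (w3 h.b01)) (fun x => rfl) (fun x => rfl)
    (fun x => rfl) (fun x => Prod.ext rfl (w3 h.b12))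
  cdc := ext5 (fun x => Prod.ext rfl (w3 h.b12)) (fun x => Prod.ext rfl (w3 h.b12)) (fun x => rfl)
    (fun x => rfl) (fun x => rfl)
  dede := ext5 (fun x => Prod.ext rfl (w4 h.b23)) (fun x => Prod.ext rfl (w4 h.b23))
    (fun x => Prod.ext rfl (w4 h.b23)) (fun x => Prod.ext rfl (w2 h.c35.symm))
    (fun x => Prod.ext rfl (w2 h.c35))
  efe := ext5 (fun x => Prod.ext rfl (w3 h.b34)) (fun x => Prod.ext rfl (w3 h.b34))
    (fun x => Prod.ext rfl (w3 h.b34)) (fun x => Prod.ext rfl (w3 h.b34))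
    (fun x => Prod.ext rfl (w3 h.b45.symm))
  ac := ext5 (fun x => rfl) (fun x => rfl) (fun x => rfl)
    (fun x => rfl) (fun x => Prod.ext rfl (w2 h.c02))
  ad := ext5 (fun x => rfl) (fun x => rfl) (fun x => Prod.ext rfl (w2 h.c02))
    (fun x => rfl) (fun x => rfl)
  ae := ext5 (fun x => rfl) (fun x => rfl) (fun x => Prod.ext rfl (w2 h.c03))
    (fun x => Prod.ext rfl (w2 h.c03)) (fun x => Prod.ext rfl (w2 h.c05))
  af := ext5 (fun x => rfl) (fun x => rfl) (fun x => Prod.ext rfl (w2 h.c04))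
    (fun x => Prod.ext rfl (w2 h.c04)) (fun x => Prod.ext rfl (w2 h.c04))
  bd := ext5 (fun x => Prod.ext rfl (w2 h.c02)) (fun x => rfl) (fun x => rfl)
    (fun x => rfl) (fun x => rfl)
  be := ext5 (fun x => Prod.ext rfl (w2 h.c03)) (fun x => rfl) (fun x => rfl)
    (fun x => Prod.ext rfl (w2 h.c13)) (fun x => Prod.ext rfl (w2 h.c15))
  bf := ext5 (fun x => Prod.ext rfl (w2 h.c04)) (fun x => rfl) (fun x => rfl)
    (fun x => Prod.ext rfl (w2 h.c14)) (fun x => Prod.ext rfl (w2 h.c14))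
  ce := ext5 (fun x => Prod.ext rfl (w2 h.c13)) (fun x => Prod.ext rfl (w2 h.c13)) (fun x => rfl)
    (fun x => rfl) (fun x => Prod.ext rfl (w2 h.c25))
  cf := ext5 (fun x => Prod.ext rfl (w2 h.c14)) (fun x => Prod.ext rfl (w2 h.c14)) (fun x => rfl)
    (fun x => rfl) (fun x => Prod.ext rfl (w2 h.c24))
  df := ext5 (fun x => Prod.ext rfl (w2 h.c24)) (fun x => Prod.ext rfl (w2 h.c24))
    (fun x => Prod.ext rfl (w2 h.c24)) (fun x => rfl) (fun x => rfl)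

end

end Pool.Agent.Lib.MP_c2d01e_co.FinB
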