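import Pool.Agent.Lib.MP_c2d01e_co.FinB
import Pool.Agent.Lib.MP_c2d01e_co.GcdA
import Pool.Agent.Lib.MP_c2d01e_co.EqDefs

/-!
# Finiteness passes from family (A) to family (B)
-/

set_option autoImplicit false

namespace Pool.Agent.Lib.MP_c2d01e_co.FinB

open Pool.Agent.Lib.MP_c2d01e_co.GcdW
open Pool.Agent.Lib.MP_c2d01e_co.GcdA (Gam rho rels extra sigma tau cox)
open Pool.Agent.Lib.MP_c2d01e_co.EqDefs

/-! ### Elements commuting with the translations -/

section

variable {G : Type} [Group G] {a b c d e f : G} (h : Rel a b c d e f)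

include h

theorem dt : d * ta d e f = ta d e f * d := by
  have h1 : d * (e * d * e) = e * d * e * d := by
    calc d * (e * d * e) = d * e * d * e := by simp only [mul_assoc]
      _ = e * d * e * d := h.dede
  exact cmm h1 h.df

theorem dT : Commute d (tT b (sg c d e) (ta d e f)) := by
  have e1 : Commute d b := h.bd.symm
  have e2 : Commute d (sg c d e) := ds h
  have e3 : Commute d (ta d e f) := dt h
  exact ((e1.mul_right e2).mul_right e3).mul_right e2

theorem dX : Commute d ((b * sg c d e * ta d e f) * (b * sg c d e * ta d e f)) := by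
  have e1 : Commute d b := h.bd.symm
  have e2 : Commute d (sg c d e) := ds h
  have e3 : Commute d (ta d e f) := dt h
  have e4 := (e1.mul_right e2).mul_right e3
  exact e4.mul_right e4

theorem M_eq : ta d e f * sg c d e * ta d e f =
    f * (sg c d e * (d * e * d)) * (f * e * f) * ((d * e * d) * sg c d e) * f := by
  have s1 : e * (f * sg c d e * f) * e = sg c d e * (f * e * f) * sg c d e := by
    calc e * (f * sg c d e * f) * e = (e * sg c d e) * f * (sg c d e * e) := by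
          rw [fs h]; simp only [mul_assoc]
      _ = (sg c d e * e) * f * (e * sg c d e) := by rw [es h]
      _ = sg c d e * (e * f * e) * sg c d e := by simp only [mul_assoc]
      _ = sg c d e * (f * e * f) * sg c d e := by rw [h.efe]
  have s2 : d * (sg c d e * (f * e * f) * sg c d e) * d =
      sg c d e * (f * (d * e * d) * f) * sg c d e := by
    calc d * (sg c d e * (f * e * f) * sg c d e) * d
        = (d * sg c d e) * (f * e * f) * (sg c d e * d) := by simp only [mul_assoc]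
      _ = (sg c d e * d) * (f * e * f) * (d * sg c d e) := by rw [ds h]
      _ = sg c d e * (d * f) * e * (f * d) * sg c d e := by simp only [mul_assoc]
      _ = sg c d e * (f * d) * e * (d * f) * sg c d e := by rw [h.df]
      _ = sg c d e * (f * (d * e * d) * f) * sg c d e := by simp only [mul_assoc]
  have s3 : e * (f * (d * e * d) * f) * e = (d * e * d) * (f * e * f) * (d * e * d) := by
    have c1 : e * (d * e * d) = (d * e * d) * e := e_ded h
    calc e * (f * (d * e * d) * f) * e = (e * (d * e * d)) * f * ((d * e * d) * e) := by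
          rw [f_ded h]; simp only [mul_assoc]
      _ = ((d * e * d) * e) * f * (e * (d * e * d)) := by rw [c1]
      _ = (d * e * d) * (e * f * e) * (d * e * d) := by simp only [mul_assoc]
      _ = _ := by rw [h.efe]
  have c2 : Commute e (sg c d e) := es h
  calc ta d e f * sg c d e * ta d e f
      = f * e * (d * (e * (f * sg c d e * f) * e) * d) * e * f := by
        simp only [ta, mul_assoc]
    _ = f * e * (sg c d e * (f * (d * e * d) * f) * sg c d e) * e * f := by rw [s1, s2]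
    _ = f * (e * sg c d e) * (f * (d * e * d) * f) * (sg c d e * e) * f := by
        simp only [mul_assoc]
    _ = f * (sg c d e * e) * (f * (d * e * d) * f) * (e * sg c d e) * f := by rw [c2.eq]
    _ = f * sg c d e * (e * (f * (d * e * d) * f) * e) * sg c d e * f := by
        simp only [mul_assoc]
    _ = _ := by rw [s3]; simp only [mul_assoc]

theorem cX : Commute c ((b * sg c d e * ta d e f) * (b * sg c d e * ta d e f)) := by
  have e1 : Commute c (b * sg c d e * b) := cL h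
  have e2 : Commute c (ta d e f * sg c d e * ta d e f) := by
    have k1 : c * sg c d e * c = d * e * d := by
      simp only [sg, mul_assoc, ca h.cc, h.cc, mul_one]
    have k2 : c * (d * e * d) * c = sg c d e := rfl
    have k3 : sg c d e * (d * e * d) = (d * e * d) * sg c d e :=
      (cmm (es h).symm (ds h).symm)
    have k4 : c * (f * e * f) * c = f * e * f := by
      have q1 : Commute c e := h.ce
      have q2 : Commute c f := h.cf
      exact GcdW.cj h.cc ((q2.mul_right q1).mul_right q2).eq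
    refine cm h.cc ?_
    rw [M_eq h]
    calc c * (f * (sg c d e * (d * e * d)) * (f * e * f) * ((d * e * d) * sg c d e) * f) * c
        = (c * f * c) * ((c * sg c d e * c) * (c * (d * e * d) * c)) * (c * (f * e * f) * c) *
            ((c * (d * e * d) * c) * (c * sg c d e * c)) * (c * f * c) := by
          simp only [mul_assoc, ca h.cc]
      _ = f * ((d * e * d) * sg c d e) * (f * e * f) * (sg c d e * (d * e * d)) * f := by
          rw [k1, k2, k4, GcdW.cj h.cc h.cf]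
      _ = _ := by rw [k3]
  rw [X_eq h]
  exact e1.mul_right e2

end

/-! ### Permutations -/

section

variable {H : Type} [Group H]

theorem pow_at {F : Equiv.Perm (Fin 5 × H)} {i : Fin 5} {w : H} (hF : ∀ x, F (i, x) = (i, w * x))
    (n : ℕ) (x : H) : (F ^ n) (i, x) = (i, w ^ n * x) := by
  induction n with
  | zero => simp
  | succ n ih => rw [pow_succ', Equiv.Perm.mul_apply, ih, hF, pow_succ', mul_assoc]

variable {x0 x1 x2 x3 x4 x5 : H} (h : RelB x0 x1 x2 x3 x4 x5)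

/-- `X` as a permutation. -/
def pX : Equiv.Perm (Fin 5 × H) :=
  (pb h * sg (pc h) (pd h) (pe h) * ta (pd h) (pe h) (pf h)) *
    (pb h * sg (pc h) (pd h) (pe h) * ta (pd h) (pe h) (pf h))

/-- `T` as a permutation. -/
def pT : Equiv.Perm (Fin 5 × H) :=
  tT (pb h) (sg (pc h) (pd h) (pe h)) (ta (pd h) (pe h) (pf h))

theorem X0 (x : H) : pX h (0, x) =
    (0, ((x0 * (x1 * x2 * x3 * x2 * x1) * (x4 * x3 * x2 * x3 * x4)) *
      (x0 * (x1 * x2 * x3 * x2 * x1) * (x4 * x3 * x2 * x3 * x4))) * x) :=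
  Prod.ext rfl (by simp only [mul_assoc]; rfl)

theorem X1 (x : H) : pX h (1, x) =
    (1, (x5 * (x4 * x3 * x2 * x3 * x4) * (x1 * x2 * x3 * x2 * x1) * (x4 * x3 * x2 * x3 * x4)) * x) :=
  Prod.ext rfl (by simp only [mul_assoc]; rfl)

theorem X2 (x : H) : pX h (2, x) =
    (2, ((x1 * x2 * x3 * x2 * x1) * (x4 * x3 * x2 * x3 * x4) * x5 * (x4 * x3 * x2 * x3 * x4)) * x) :=
  Prod.ext rfl (by simp only [mul_assoc]; rfl)

theorem T0 (x : H) : pT h (0, x) =
    (0, (x0 * (x1 * x2 * x3 * x2 * x1) * (x4 * x3 * x2 * x3 * x4) * (x1 * x2 * x3 * x2 * x1)) * x) :=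
  Prod.ext rfl (by simp only [mul_assoc]; rfl)

theorem T1 (x : H) : (pT h * pT h) (1, x) =
    (1, ((x5 * (x4 * x3 * x2 * x3 * x4) * x5) *
      ((x1 * x2 * x3 * x2 * x1) * (x4 * x3 * x2 * x3 * x4) * (x1 * x2 * x3 * x2 * x1))) * x) :=
  Prod.ext rfl (by simp only [mul_assoc]; rfl)

theorem T2 (x : H) : (pT h * pT h) (2, x) =
    (2, (((x1 * x2 * x3 * x2 * x1) * (x4 * x3 * x2 * x3 * x4) * (x1 * x2 * x3 * x2 * x1)) *
      (x5 * (x4 * x3 * x2 * x3 * x4) * x5)) * x) :=
  Prod.ext rfl (by simp only [mul_assoc]; rfl)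

theorem T3 (x : H) : (pT h * pT h) (3, x) =
    (3, ((x1 * (x2 * x3 * x2) * (x4 * (x3 * x5) * x4) * (x2 * x3 * x2)) *
      (x1 * (x2 * x3 * x2) * (x4 * (x5 * x3) * x4) * (x2 * x3 * x2))) * x) :=
  Prod.ext rfl (by simp only [mul_assoc]; rfl)

/-- `X ^ n = 1`. -/
theorem pX_pow (n : ℕ)
    (hF : (x0 * (x1 * x2 * x3 * x2 * x1) * (x4 * x3 * x2 * x3 * x4)) ^ (2 * n) = 1)
    (hV : (x5 * (x4 * x3 * x2 * x3 * x4) * (x1 * x2 * x3 * x2 * x1) *
      (x4 * x3 * x2 * x3 * x4)) ^ n = 1) : pX h ^ n = 1 := by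
  have tt : (x4 * x3 * x2 * x3 * x4) * (x4 * x3 * x2 * x3 * x4) = 1 := by
    simp only [mul_assoc, ca h.s4, ca h.s3, ca h.s2, h.s4]
  have e2 : ∀ x, (pX h ^ n) (2, x) = (2, x) := by
    intro x
    have hW : ((x1 * x2 * x3 * x2 * x1) * (x4 * x3 * x2 * x3 * x4) * x5 *
        (x4 * x3 * x2 * x3 * x4)) ^ n = 1 := by
      have h1 : (x1 * x2 * x3 * x2 * x1) * (x4 * x3 * x2 * x3 * x4) * x5 *
          (x4 * x3 * x2 * x3 * x4) = ((x4 * x3 * x2 * x3 * x4) * x5) *
          (x5 * (x4 * x3 * x2 * x3 * x4) * (x1 * x2 * x3 * x2 * x1) *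
            (x4 * x3 * x2 * x3 * x4)) * ((x4 * x3 * x2 * x3 * x4) * x5)⁻¹ := by
        rw [eq_mul_inv_iff_mul_eq]
        calc (x1 * x2 * x3 * x2 * x1) * (x4 * x3 * x2 * x3 * x4) * x5 *
              (x4 * x3 * x2 * x3 * x4) * ((x4 * x3 * x2 * x3 * x4) * x5)
            = (x1 * x2 * x3 * x2 * x1) * (x4 * x3 * x2 * x3 * x4) * x5 *
              ((x4 * x3 * x2 * x3 * x4) * (x4 * x3 * x2 * x3 * x4)) * x5 := by
              simp only [mul_assoc]
          _ = (x1 * x2 * x3 * x2 * x1) * (x4 * x3 * x2 * x3 * x4) := by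
              rw [tt, mul_one, mul_assoc _ x5 x5, h.s5, mul_one]
          _ = ((x4 * x3 * x2 * x3 * x4) * (x4 * x3 * x2 * x3 * x4)) *
              (x1 * x2 * x3 * x2 * x1) * (x4 * x3 * x2 * x3 * x4) := by rw [tt, one_mul]
          _ = (x4 * x3 * x2 * x3 * x4) * (x5 * x5) * (x4 * x3 * x2 * x3 * x4) *
              (x1 * x2 * x3 * x2 * x1) * (x4 * x3 * x2 * x3 * x4) := by rw [h.s5, mul_one]
          _ = _ := by simp only [mul_assoc]
      rw [h1, conj_pow, hV]
      group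
    rw [pow_at (X2 h), hW, one_mul]
  have e3 : ∀ x, (pX h ^ n) (3, x) = (3, x) := by
    intro x
    have hc : Commute (pc h) (pX h ^ n) := (cX (relP h)).pow_right n
    have h1 : (pX h ^ n * pc h) (2, x) = (pc h * pX h ^ n) (2, x) := by rw [hc.eq]
    rw [Equiv.Perm.mul_apply, Equiv.Perm.mul_apply, e2 x] at h1
    exact h1
  have e4 : ∀ x, (pX h ^ n) (4, x) = (4, x) := by
    intro x
    have hc : Commute (pd h) (pX h ^ n) := (dX (relP h)).pow_right n
    have h1 : (pX h ^ n * pd h) (3, x) = (pd h * pX h ^ n) (3, x) := by rw [hc.eq]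
    rw [Equiv.Perm.mul_apply, Equiv.Perm.mul_apply, e3 x] at h1
    exact h1
  refine ext5 (fun x => ?_) (fun x => ?_) e2 e3 e4
  · rw [pow_at (X0 h), ← pow_two, ← pow_mul, hF, one_mul]
    rfl
  · rw [pow_at (X1 h), hV, one_mul]
    rfl

/-- `T ^ (2 n) = 1`. -/
theorem pT_pow (n : ℕ)
    (hF : (x0 * (x1 * x2 * x3 * x2 * x1) * (x4 * x3 * x2 * x3 * x4) *
      (x1 * x2 * x3 * x2 * x1)) ^ (2 * n) = 1)
    (hV : (x5 * (x4 * x3 * x2 * x3 * x4) * (x1 * x2 * x3 * x2 * x1)) ^ (2 * n) = 1) :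
    pT h ^ (2 * n) = 1 := by
  have c5 : Commute x5 (x1 * x2 * x3 * x2 * x1) := by
    have k1 : Commute x5 x1 := h.c15.symm
    have k2 : Commute x5 x2 := h.c25.symm
    have k3 : Commute x5 x3 := h.c35.symm
    exact (((k1.mul_right k2).mul_right k3).mul_right k2).mul_right k1
  have hV' : ((x5 * (x4 * x3 * x2 * x3 * x4) * x5) *
      ((x1 * x2 * x3 * x2 * x1) * (x4 * x3 * x2 * x3 * x4) * (x1 * x2 * x3 * x2 * x1))) ^ n = 1 := by
    rw [pow_mul, pow_two] at hV
    rw [← hV]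
    congr 1
    calc (x5 * (x4 * x3 * x2 * x3 * x4) * x5) *
          ((x1 * x2 * x3 * x2 * x1) * (x4 * x3 * x2 * x3 * x4) * (x1 * x2 * x3 * x2 * x1))
        = x5 * (x4 * x3 * x2 * x3 * x4) * (x5 * (x1 * x2 * x3 * x2 * x1)) *
          (x4 * x3 * x2 * x3 * x4) * (x1 * x2 * x3 * x2 * x1) := by simp only [mul_assoc]
      _ = x5 * (x4 * x3 * x2 * x3 * x4) * ((x1 * x2 * x3 * x2 * x1) * x5) *
          (x4 * x3 * x2 * x3 * x4) * (x1 * x2 * x3 * x2 * x1) := by rw [c5.eq]
      _ = _ := by simp only [mul_assoc]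
  have hP : pT h ^ (2 * n) = (pT h * pT h) ^ n := by rw [pow_mul, pow_two]
  have rr : (x2 * x3 * x2) * (x2 * x3 * x2) = 1 := inv3 h.s2 h.s3
  have l1 : x2 * x1 * (x4 * x3 * x2 * x3 * x4) =
      (x4 * (x2 * x3 * x2) * x1 * (x2 * x3 * x2) * x4) * (x2 * x1) := by
    calc x2 * x1 * (x4 * x3 * x2 * x3 * x4)
        = x2 * (x1 * x4) * x3 * x2 * x3 * x4 := by simp only [mul_assoc]
      _ = (x2 * x4) * x1 * x3 * x2 * x3 * x4 := by rw [h.c14]; simp only [mul_assoc]
      _ = x4 * x2 * (x1 * x3) * x2 * x3 * x4 := by rw [h.c24]; simp only [mul_assoc]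
      _ = x4 * x2 * x3 * (x1 * x2) * x3 * x4 := by rw [h.c13]; simp only [mul_assoc]
      _ = x4 * x2 * x3 * (x1 * x2 * x1) * x1 * x3 * x4 := by
          simp only [mul_assoc, ca h.s1]
      _ = x4 * x2 * x3 * (x2 * x1 * x2) * (x1 * x3) * x4 := by
          rw [h.b12]; simp only [mul_assoc]
      _ = x4 * x2 * x3 * x2 * x1 * x2 * x3 * (x1 * x4) := by
          rw [h.c13]; simp only [mul_assoc]
      _ = x4 * x2 * x3 * x2 * x1 * x2 * x3 * x4 * x1 := by
          rw [h.c14]; simp only [mul_assoc]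
      _ = x4 * x2 * x3 * x2 * x1 * x2 * x3 * (x2 * (x2 * x4)) * x1 := by
          rw [ca h.s2]
      _ = x4 * x2 * x3 * x2 * x1 * x2 * x3 * (x2 * (x4 * x2)) * x1 := by rw [h.c24]
      _ = _ := by simp only [mul_assoc]
  have l2 : (x2 * x1) * (x1 * x2 * x3 * x2 * x1) = x3 * (x2 * x1) := by
    simp only [mul_assoc, ca h.s1, ca h.s2]
  have l3 : (x2 * x1) * x5 = x5 * (x2 * x1) := by
    have q1 : Commute x2 x5 := h.c25
    have q2 : Commute x1 x5 := h.c15
    exact (q1.mul_left q2).eq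
  have A1 : ((x2 * x3 * x2) * x4 * x5 * x2 * x1) *
      (x5 * (x4 * x3 * x2 * x3 * x4) * (x1 * x2 * x3 * x2 * x1)) =
      x1 * (x2 * x3 * x2) * x4 * x3 * x2 * x1 := by
    calc ((x2 * x3 * x2) * x4 * x5 * x2 * x1) *
          (x5 * (x4 * x3 * x2 * x3 * x4) * (x1 * x2 * x3 * x2 * x1))
        = (x2 * x3 * x2) * x4 * x5 * ((x2 * x1) * x5) * (x4 * x3 * x2 * x3 * x4) *
          (x1 * x2 * x3 * x2 * x1) := by simp only [mul_assoc]
      _ = (x2 * x3 * x2) * x4 * (x5 * x5) * (x2 * x1 * (x4 * x3 * x2 * x3 * x4)) *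
          (x1 * x2 * x3 * x2 * x1) := by rw [l3]; simp only [mul_assoc]
      _ = (x2 * x3 * x2) * x4 * ((x4 * (x2 * x3 * x2) * x1 * (x2 * x3 * x2) * x4) *
          (x2 * x1)) * (x1 * x2 * x3 * x2 * x1) := by rw [h.s5, l1, mul_one]
      _ = (x2 * x3 * x2) * (x4 * x4) * (x2 * x3 * x2) * x1 * (x2 * x3 * x2) * x4 *
          ((x2 * x1) * (x1 * x2 * x3 * x2 * x1)) := by simp only [mul_assoc]
      _ = ((x2 * x3 * x2) * (x2 * x3 * x2)) * x1 * (x2 * x3 * x2) * x4 *
          (x3 * (x2 * x1)) := by rw [h.s4, l2, mul_one]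
      _ = x1 * (x2 * x3 * x2) * x4 * x3 * x2 * x1 := by
          rw [rr]; simp only [mul_assoc, one_mul]
  have A2 : x1 * (x2 * x3 * x2) * (x4 * (x3 * x5) * x4) * (x2 * x3 * x2) *
      ((x2 * x3 * x2) * x4 * x5 * x2 * x1) = x1 * (x2 * x3 * x2) * x4 * x3 * x2 * x1 := by
    calc x1 * (x2 * x3 * x2) * (x4 * (x3 * x5) * x4) * (x2 * x3 * x2) *
          ((x2 * x3 * x2) * x4 * x5 * x2 * x1)
        = x1 * (x2 * x3 * x2) * (x4 * (x3 * x5) * x4) * ((x2 * x3 * x2) * (x2 * x3 * x2)) *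
          x4 * x5 * x2 * x1 := by simp only [mul_assoc]
      _ = _ := by rw [rr]; simp only [mul_assoc, one_mul, ca h.s4, ca h.s5]
  have hu : (x1 * (x2 * x3 * x2) * (x4 * (x3 * x5) * x4) * (x2 * x3 * x2)) ^ (2 * n) = 1 := by
    have k1 : x1 * (x2 * x3 * x2) * (x4 * (x3 * x5) * x4) * (x2 * x3 * x2) =
        ((x2 * x3 * x2) * x4 * x5 * x2 * x1) *
          (x5 * (x4 * x3 * x2 * x3 * x4) * (x1 * x2 * x3 * x2 * x1)) *
          ((x2 * x3 * x2) * x4 * x5 * x2 * x1)⁻¹ := by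
      rw [eq_mul_inv_iff_mul_eq, A1, A2]
    rw [k1, conj_pow, hV]
    group
  have T3' : ∀ x, (pT h * pT h) (3, x) =
      (3, ((x1 * (x2 * x3 * x2) * (x4 * (x3 * x5) * x4) * (x2 * x3 * x2)) *
      (x1 * (x2 * x3 * x2) * (x4 * (x3 * x5) * x4) * (x2 * x3 * x2))) * x) := by
    intro x
    rw [T3 h x, ← h.c35]
  have e3 : ∀ x, (pT h ^ (2 * n)) (3, x) = (3, x) := by
    intro x
    rw [hP, pow_at T3', ← pow_two, ← pow_mul, hu, one_mul]
  have e4 : ∀ x, (pT h ^ (2 * n)) (4, x) = (4, x) := by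
    intro x
    have hc : Commute (pd h) (pT h ^ (2 * n)) := (dT (relP h)).pow_right (2 * n)
    have h1 : (pT h ^ (2 * n) * pd h) (3, x) = (pd h * pT h ^ (2 * n)) (3, x) := by rw [hc.eq]
    rw [Equiv.Perm.mul_apply, Equiv.Perm.mul_apply, e3 x] at h1
    exact h1
  refine ext5 (fun x => ?_) (fun x => ?_) (fun x => ?_) e3 e4
  · rw [pow_at (T0 h), hF, one_mul]
    rfl
  · rw [hP, pow_at (T1 h), hV', one_mul]
    rfl
  · rw [hP, pow_at (T2 h), sw hV', one_mul]
    rfl

/-! ### Passing to the group -/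

theorem fin_of_action {A : Type} [Group A] [Finite A] (φ : A →* Equiv.Perm (Fin 5 × H))
    (hr : ∀ g ∈ ({pa h, pb h, pc h, pd h, pe h, pf h} : Set (Equiv.Perm (Fin 5 × H))), g ∈ φ.range)
    (hgen : Subgroup.closure {x0, x1, x2, x3, x4, x5} = (⊤ : Subgroup H)) : Finite H := by
  have hfin : ((fun g : Equiv.Perm (Fin 5 × H) => (g (0, 1)).2) ''
      (φ.range : Set (Equiv.Perm (Fin 5 × H)))).Finite := by
    have : (φ.range : Set (Equiv.Perm (Fin 5 × H))).Finite := by
      rw [MonoidHom.coe_range]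
      exact Set.finite_range _
    exact this.image _
  have ha : pa h ∈ φ.range := hr _ (by simp)
  have hb : pb h ∈ φ.range := hr _ (by simp)
  have hc : pc h ∈ φ.range := hr _ (by simp)
  have hd : pd h ∈ φ.range := hr _ (by simp)
  have he : pe h ∈ φ.range := hr _ (by simp)
  have hf : pf h ∈ φ.range := hr _ (by simp)
  have hl : pa h * (pb h * sg (pc h) (pd h) (pe h) * pb h) * pa h ∈ φ.range :=
    mul_mem (mul_mem ha (mul_mem (mul_mem hb (mul_mem (mul_mem hc (mul_mem (mul_mem hd he) hd)) hc))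
      hb)) ha
  have key : ∀ x ∈ Subgroup.closure {x0, x1, x2, x3, x4, x5}, ∃ g ∈ φ.range, g (0, (1 : H)) = (0, x) := by
    intro x hx
    have step : ∀ s ∈ ({x0, x1, x2, x3, x4, x5} : Set H), ∀ y, (∃ g ∈ φ.range, g (0, (1 : H)) = (0, y)) →
        ∃ g ∈ φ.range, g (0, (1 : H)) = (0, s * y) := by
      rintro s hs y ⟨g, hg, hgy⟩
      simp only [Set.mem_insert_iff, Set.mem_singleton_iff] at hs
      rcases hs with hs | hs | hs | hs | hs | hs <;> rw [hs]
      · exact ⟨pb h * g, mul_mem hb hg, by rw [Equiv.Perm.mul_apply, hgy]; rfl⟩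
      · exact ⟨pc h * g, mul_mem hc hg, by rw [Equiv.Perm.mul_apply, hgy]; rfl⟩
      · exact ⟨pd h * g, mul_mem hd hg, by rw [Equiv.Perm.mul_apply, hgy]; rfl⟩
      · exact ⟨pe h * g, mul_mem he hg, by rw [Equiv.Perm.mul_apply, hgy]; rfl⟩
      · exact ⟨pf h * g, mul_mem hf hg, by rw [Equiv.Perm.mul_apply, hgy]; rfl⟩
      · exact ⟨pa h * (pb h * sg (pc h) (pd h) (pe h) * pb h) * pa h * g, mul_mem hl hg, by
          rw [Equiv.Perm.mul_apply, hgy]; rfl⟩
    have sq : ∀ s ∈ ({x0, x1, x2, x3, x4, x5} : Set H), s⁻¹ = s := by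
      intro s hs
      simp only [Set.mem_insert_iff, Set.mem_singleton_iff] at hs
      rcases hs with hs | hs | hs | hs | hs | hs <;> rw [hs]
      exacts [inv_eq_of_mul_eq_one_left h.s0, inv_eq_of_mul_eq_one_left h.s1,
        inv_eq_of_mul_eq_one_left h.s2, inv_eq_of_mul_eq_one_left h.s3,
        inv_eq_of_mul_eq_one_left h.s4, inv_eq_of_mul_eq_one_left h.s5]
    induction hx using Subgroup.closure_induction_left with
    | one => exact ⟨1, one_mem _, rfl⟩
    | mul_left s hs y hy ih => exact step s hs y ih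
    | inv_mul_cancel s hs y hy ih => rw [sq s hs]; exact step s hs y ih
  have huniv : (Set.univ : Set H).Finite := by
    refine hfin.subset ?_
    intro x _
    obtain ⟨g, hg, hgx⟩ := key x (by rw [hgen]; trivial)
    exact ⟨g, hg, by show (g (0, 1)).2 = x; rw [hgx]⟩
  exact Set.finite_univ_iff.1 huniv

end

/-! ### The homomorphism from family (A) -/

section

variable {G : Type} [Group G]

/-- The images of the generators. -/
def rA (a b c d e f : G) : Fin 6 → G := ![a, b, c, d, e, f]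

theorem cox_symm (i j : Fin 6) : cox i j = cox j i := by
  revert i j
  decide

theorem rA_cox {a b c d e f : G} (h : Rel a b c d e f) (i j : Fin 6) :
    (rA a b c d e f i * rA a b c d e f j) ^ cox i j = 1 := by
  refine coxall cox_symm ?_ i j
  intro i j hij
  fin_cases i <;> fin_cases j
  · exact p1 h.aa
  · exact p3 h.aa h.bb h.aba
  · exact p2 h.aa h.cc h.ac
  · exact p2 h.aa h.dd h.ad
  · exact p2 h.aa h.ee h.ae
  · exact p2 h.aa h.ff h.af
  · exact absurd hij (by decide)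
  · exact p1 h.bb
  · exact p3 h.bb h.cc h.bcb
  · exact p2 h.bb h.dd h.bd
  · exact p2 h.bb h.ee h.be
  · exact p2 h.bb h.ff h.bf
  · exact absurd hij (by decide)
  · exact absurd hij (by decide)
  · exact p1 h.cc
  · exact p3 h.cc h.dd h.cdc
  · exact p2 h.cc h.ee h.ce
  · exact p2 h.cc h.ff h.cf
  · exact absurd hij (by decide)
  · exact absurd hij (by decide)
  · exact absurd hij (by decide)
  · exact p1 h.dd
  · exact p4 h.dd h.ee h.dede
  · exact p2 h.dd h.ff h.df
  · exact absurd hij (by decide)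
  · exact absurd hij (by decide)
  · exact absurd hij (by decide)
  · exact absurd hij (by decide)
  · exact p1 h.ee
  · exact p3 h.ee h.ff h.efe
  · exact absurd hij (by decide)
  · exact absurd hij (by decide)
  · exact absurd hij (by decide)
  · exact absurd hij (by decide)
  · exact absurd hij (by decide)
  · exact p1 h.ff

theorem rA0 (a b c d e f : G) : rA a b c d e f 0 = a := rfl

theorem rA1 (a b c d e f : G) : rA a b c d e f 1 = b := rfl

theorem rA2 (a b c d e f : G) : rA a b c d e f 2 = c := rfl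

theorem rA3 (a b c d e f : G) : rA a b c d e f 3 = d := rfl

theorem rA4 (a b c d e f : G) : rA a b c d e f 4 = e := rfl

theorem rA5 (a b c d e f : G) : rA a b c d e f 5 = f := rfl

/-- The homomorphism, if `T ^ n = 1`. -/
theorem homT {a b c d e f : G} (h : Rel a b c d e f) (n : ℕ)
    (hT : (tT b (sg c d e) (ta d e f)) ^ n = 1) :
    ∃ φ : Gam n 1 →* G, ∀ i, φ (rho n 1 i) = rA a b c d e f i := by
  have hr : ∀ x ∈ rels n 1, FreeGroup.lift (rA a b c d e f) x = 1 := by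
    rintro x (⟨i, j, rfl⟩ | hx)
    · rw [map_pow, map_mul, GcdA.gen, GcdA.gen, FreeGroup.lift_apply_of, FreeGroup.lift_apply_of]
      exact rA_cox h i j
    · rw [Set.mem_singleton_iff.1 hx, extra, if_pos rfl, map_pow, ← hT]
      congr 1
      simp only [sigma, tau, GcdA.gen, tT, sg, ta, map_mul, FreeGroup.lift_apply_of, rA1, rA2, rA3,
        rA4, rA5, mul_assoc]
  exact ⟨PresentedGroup.toGroup hr, fun i => PresentedGroup.toGroup.of hr⟩

/-- The homomorphism, if `X ^ n = 1`. -/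
theorem homX {a b c d e f : G} (h : Rel a b c d e f) (n : ℕ)
    (hX : ((b * sg c d e * ta d e f) * (b * sg c d e * ta d e f)) ^ n = 1) :
    ∃ φ : Gam n 2 →* G, ∀ i, φ (rho n 2 i) = rA a b c d e f i := by
  have hr : ∀ x ∈ rels n 2, FreeGroup.lift (rA a b c d e f) x = 1 := by
    rintro x (⟨i, j, rfl⟩ | hx)
    · rw [map_pow, map_mul, GcdA.gen, GcdA.gen, FreeGroup.lift_apply_of, FreeGroup.lift_apply_of]
      exact rA_cox h i j
    · rw [Set.mem_singleton_iff.1 hx, extra, if_neg (by norm_num), map_pow, pow_mul, pow_two, ← hX]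
      congr 1
      simp only [sigma, tau, GcdA.gen, sg, ta, map_mul, FreeGroup.lift_apply_of, rA1, rA2, rA3,
        rA4, rA5, mul_assoc]
  exact ⟨PresentedGroup.toGroup hr, fun i => PresentedGroup.toGroup.of hr⟩

end

/-! ### The groups of family (B) -/

/-- The generators of the group of family (B). -/
def xB (s k t l : ℕ) (i : Fin 6) : GamB s k t l := PresentedGroup.of i

theorem xB_cox (s k t l : ℕ) (i j : Fin 6) (m : ℕ) (hm : coxB i j = m) :
    (xB s k t l i * xB s k t l j) ^ m = 1 := by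
  subst hm
  have h : PresentedGroup.mk (relsB s k t l) ((gen i * gen j) ^ coxB i j) = 1 :=
    PresentedGroup.one_of_mem (Or.inl ⟨i, j, rfl⟩)
  rw [map_pow, map_mul] at h
  exact h

theorem xB_sq (s k t l : ℕ) (i : Fin 6) : xB s k t l i * xB s k t l i = 1 := by
  have h := xB_cox s k t l i i 1 (by rw [coxB, if_pos rfl])
  rwa [pow_one] at h

theorem relB (s k t l : ℕ) : RelB (xB s k t l 0) (xB s k t l 1) (xB s k t l 2) (xB s k t l 3)
    (xB s k t l 4) (xB s k t l 5) where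
  s0 := xB_sq s k t l 0
  s1 := xB_sq s k t l 1
  s2 := xB_sq s k t l 2
  s3 := xB_sq s k t l 3
  s4 := xB_sq s k t l 4
  s5 := xB_sq s k t l 5
  b01 := q3 (xB_sq s k t l 0) (xB_sq s k t l 1) (xB_cox s k t l 0 1 3 (by decide))
  b12 := q3 (xB_sq s k t l 1) (xB_sq s k t l 2) (xB_cox s k t l 1 2 3 (by decide))
  b23 := q4 (xB_sq s k t l 2) (xB_sq s k t l 3) (xB_cox s k t l 2 3 4 (by decide))
  b34 := q3 (xB_sq s k t l 3) (xB_sq s k t l 4) (xB_cox s k t l 3 4 3 (by decide))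
  b45 := q3 (xB_sq s k t l 4) (xB_sq s k t l 5) (xB_cox s k t l 4 5 3 (by decide))
  c02 := q2 (xB_sq s k t l 0) (xB_sq s k t l 2) (xB_cox s k t l 0 2 2 (by decide))
  c03 := q2 (xB_sq s k t l 0) (xB_sq s k t l 3) (xB_cox s k t l 0 3 2 (by decide))
  c04 := q2 (xB_sq s k t l 0) (xB_sq s k t l 4) (xB_cox s k t l 0 4 2 (by decide))
  c05 := q2 (xB_sq s k t l 0) (xB_sq s k t l 5) (xB_cox s k t l 0 5 2 (by decide))
  c13 := q2 (xB_sq s k t l 1) (xB_sq s k t l 3) (xB_cox s k t l 1 3 2 (by decide))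
  c14 := q2 (xB_sq s k t l 1) (xB_sq s k t l 4) (xB_cox s k t l 1 4 2 (by decide))
  c15 := q2 (xB_sq s k t l 1) (xB_sq s k t l 5) (xB_cox s k t l 1 5 2 (by decide))
  c24 := q2 (xB_sq s k t l 2) (xB_sq s k t l 4) (xB_cox s k t l 2 4 2 (by decide))
  c25 := q2 (xB_sq s k t l 2) (xB_sq s k t l 5) (xB_cox s k t l 2 5 2 (by decide))
  c35 := q2 (xB_sq s k t l 3) (xB_sq s k t l 5) (xB_cox s k t l 3 5 2 (by decide))

theorem xB_gen (s k t l : ℕ) : Subgroup.closure {xB s k t l 0, xB s k t l 1, xB s k t l 2,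
    xB s k t l 3, xB s k t l 4, xB s k t l 5} = (⊤ : Subgroup (GamB s k t l)) := by
  rw [eq_top_iff, ← PresentedGroup.closure_range_of (relsB s k t l), Subgroup.closure_le]
  rintro x ⟨i, rfl⟩
  refine Subgroup.subset_closure ?_
  fin_cases i <;> simp [xB]

theorem fac_rel (s k t l : ℕ) : PresentedGroup.mk (relsB s k t l) (facetB s k) = 1 :=
  PresentedGroup.one_of_mem (Or.inr (Or.inl rfl))

theorem ver_rel (s k t l : ℕ) : PresentedGroup.mk (relsB s k t l) (vertB t l) = 1 :=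
  PresentedGroup.one_of_mem (Or.inr (Or.inr rfl))

/-- All lattices `n Q`. -/
theorem finB1 (n : ℕ) (hfin : Finite (Gam n 2)) : Finite (GamB n 2 n 1) := by
  have hF := fac_rel n 2 n 1
  have hV := ver_rel n 2 n 1
  rw [facetB, if_neg (by norm_num), map_pow] at hF
  rw [vertB, if_pos rfl, map_pow] at hV
  have h := relB n 2 n 1
  have hX := pX_pow h n (by rw [← hF]; congr 1) (by rw [← hV]; congr 1)
  obtain ⟨φ, hφ⟩ := homX (relP h) n hX
  refine fin_of_action h φ ?_ (xB_gen n 2 n 1)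
  rintro g (rfl | rfl | rfl | rfl | rfl | rfl)
  exacts [⟨_, hφ 0⟩, ⟨_, hφ 1⟩, ⟨_, hφ 2⟩, ⟨_, hφ 3⟩, ⟨_, hφ 4⟩, ⟨_, hφ 5⟩]

/-- All lattices `2 n P`. -/
theorem finB2 (n : ℕ) (hfin : Finite (Gam (2 * n) 1)) : Finite (GamB (2 * n) 1 n 2) := by
  have hF := fac_rel (2 * n) 1 n 2
  have hV := ver_rel (2 * n) 1 n 2
  rw [facetB, if_pos rfl, map_pow] at hF
  rw [vertB, if_neg (by norm_num), map_pow] at hV
  have h := relB (2 * n) 1 n 2
  have hT := pT_pow h n (by rw [← hF]; congr 1) (by rw [← hV]; congr 1)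
  obtain ⟨φ, hφ⟩ := homT (relP h) (2 * n) hT
  refine fin_of_action h φ ?_ (xB_gen (2 * n) 1 n 2)
  rintro g (rfl | rfl | rfl | rfl | rfl | rfl)
  exacts [⟨_, hφ 0⟩, ⟨_, hφ 1⟩, ⟨_, hφ 2⟩, ⟨_, hφ 3⟩, ⟨_, hφ 4⟩, ⟨_, hφ 5⟩]

end Pool.Agent.Lib.MP_c2d01e_co.FinB
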