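import Mathlib

/-!
# Words in a group with the relations of the Coxeter group `[3,3,3,4,3]`

The generators are `a, b, c, d, e, f`; `σ = c d e d c`, `τ = f e d e f`.
-/

set_option autoImplicit false

namespace Pool.Agent.Lib.MP_c2d01e_co.GcdW

variable {G : Type} [Group G]

/-- The Coxeter relations of the string `a, b, c, d, e, f` of type `{3,3,3,4,3}`. -/
structure Rel (a b c d e f : G) : Prop where
  aa : a * a = 1
  bb : b * b = 1
  cc : c * c = 1
  dd : d * d = 1
  ee : e * e = 1
  ff : f * f = 1
  aba : a * b * a = b * a * b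
  bcb : b * c * b = c * b * c
  cdc : c * d * c = d * c * d
  dede : d * e * d * e = e * d * e * d
  efe : e * f * e = f * e * f
  ac : a * c = c * a
  ad : a * d = d * a
  ae : a * e = e * a
  af : a * f = f * a
  bd : b * d = d * b
  be : b * e = e * b
  bf : b * f = f * b
  ce : c * e = e * c
  cf : c * f = f * c
  df : d * f = f * d

/-- Cancelling an involution at the left of a product. -/
theorem ca {x : G} (hx : x * x = 1) (y : G) : x * (x * y) = y := by
  rw [← mul_assoc, hx, one_mul]

/-- Conjugation by an involution, when the elements commute. -/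
theorem cj {x y : G} (hx : x * x = 1) (h : x * y = y * x) : x * y * x = y := by
  rw [h, mul_assoc, hx, mul_one]

theorem cm {x y : G} (hx : x * x = 1) (h : x * y * x = y) : x * y = y * x := by
  calc x * y = x * y * x * x := by rw [mul_assoc _ x x, hx, mul_one]
    _ = y * x := by rw [h]

/-- An element commutes with the conjugate if it commutes with both. -/
theorem cmm {x y z : G} (h1 : x * y = y * x) (h2 : x * z = z * x) :
    x * (z * y * z) = z * y * z * x := by
  have e1 : Commute x y := h1
  have e2 : Commute x z := h2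
  exact ((e2.mul_right e1).mul_right e2).eq

/-- Conjugating a commutation. -/
theorem cjc {x y z : G} (hz : z * z = 1) (h : x * y = y * x) :
    (z * x * z) * (z * y * z) = (z * y * z) * (z * x * z) := by
  calc (z * x * z) * (z * y * z) = z * x * (z * z) * y * z := by simp only [mul_assoc]
    _ = z * (x * y) * z := by rw [hz]; simp only [mul_assoc, one_mul]
    _ = z * (y * x) * z := by rw [h]
    _ = z * y * (z * z) * x * z := by rw [hz]; simp only [mul_assoc, one_mul]
    _ = (z * y * z) * (z * x * z) := by simp only [mul_assoc]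

/-- The conjugate of an involution is one. -/
theorem inv3 {x y : G} (hx : x * x = 1) (hy : y * y = 1) : (x * y * x) * (x * y * x) = 1 := by
  simp only [mul_assoc, ca hx, ca hy, hx]

/-- Conjugating a braid relation. -/
theorem brc {f x z : G} (hz : z * z = 1) (hf : f * z = z * f) (h : f * x * f = x * f * x) :
    f * (z * x * z) * f = (z * x * z) * f * (z * x * z) := by
  have h1 : z * f * z = f := cj hz hf.symm
  calc f * (z * x * z) * f = (f * z) * x * (z * f) := by simp only [mul_assoc]
    _ = z * (f * x * f) * z := by rw [hf, ← hf, hf]; simp only [mul_assoc, hf]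
    _ = z * (x * f * x) * z := by rw [h]
    _ = z * (x * (z * f * z) * x) * z := by rw [h1]
    _ = (z * x * z) * f * (z * x * z) := by simp only [mul_assoc]

/-- `σ`. -/
def sg (c d e : G) : G := c * (d * e * d) * c

/-- `τ`. -/
def ta (d e f : G) : G := f * (e * d * e) * f

section

variable {a b c d e f : G} (h : Rel a b c d e f)

include h

theorem ss : sg c d e * sg c d e = 1 := inv3 h.cc (inv3 h.dd h.ee)

theorem tt : ta d e f * ta d e f = 1 := inv3 h.ff (inv3 h.ee h.dd)

theorem ds : d * sg c d e = sg c d e * d := by
  refine cm h.dd ?_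
  calc d * (c * (d * e * d) * c) * d = (d * c * d) * e * (d * c * d) := by simp only [mul_assoc]
    _ = (c * d * c) * e * (c * d * c) := by rw [h.cdc]
    _ = c * d * (c * e * c) * d * c := by simp only [mul_assoc]
    _ = c * (d * e * d) * c := by rw [cj h.cc h.ce]; simp only [mul_assoc]

theorem e_ded : e * (d * e * d) = d * e * d * e := by
  rw [h.dede]; simp only [mul_assoc]

theorem es : e * sg c d e = sg c d e * e := cmm (e_ded h) h.ce.symm

theorem as : a * sg c d e = sg c d e * a := cmm (cmm h.ae h.ad) h.ac

theorem b_ded : b * (d * e * d) = d * e * d * b := cmm h.be h.bd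

theorem f_ded : f * (d * e * d) * f = (d * e * d) * f * (d * e * d) :=
  brc h.dd h.df.symm h.efe.symm

theorem fs : f * sg c d e * f = sg c d e * f * sg c d e := brc h.cc h.cf.symm (f_ded h)

theorem bt : b * ta d e f = ta d e f * b := cmm (cmm h.bd h.be) h.bf

theorem at' : a * ta d e f = ta d e f * a := cmm (cmm h.ad h.ae) h.af

/-- The element `g` with `σ = g e g⁻¹`, `τ g = g d`. -/
theorem tg : ta d e f * (f * e * sg c d e * f) = (f * e * sg c d e * f) * d := by
  calc ta d e f * (f * e * sg c d e * f) = f * e * (d * sg c d e) * f := by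
        simp only [ta, mul_assoc, ca h.ff, ca h.ee]
    _ = f * e * (sg c d e * d) * f := by rw [ds h]
    _ = f * e * sg c d e * (d * f) := by simp only [mul_assoc]
    _ = (f * e * sg c d e * f) * d := by rw [h.df]; simp only [mul_assoc]

theorem gs : sg c d e * (f * e * sg c d e * f) = (f * e * sg c d e * f) * e := by
  calc sg c d e * (f * e * sg c d e * f) = sg c d e * f * (e * sg c d e) * f := by
        simp only [mul_assoc]
    _ = sg c d e * f * (sg c d e * e) * f := by rw [es h]
    _ = (sg c d e * f * sg c d e) * e * f := by simp only [mul_assoc]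
    _ = (f * sg c d e * f) * e * f := by rw [fs h]
    _ = f * sg c d e * (f * e * f) := by simp only [mul_assoc]
    _ = f * sg c d e * (e * f * e) := by rw [h.efe]
    _ = f * (sg c d e * e) * f * e := by simp only [mul_assoc]
    _ = (f * e * sg c d e * f) * e := by rw [← es h]; simp only [mul_assoc]

theorem sM : sg c d e * (ta d e f * sg c d e * ta d e f) =
    (ta d e f * sg c d e * ta d e f) * sg c d e := by
  set g := f * e * sg c d e * f with hg
  have s1 : sg c d e = g * e * g⁻¹ := by
    rw [eq_mul_inv_iff_mul_eq]
    exact gs h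
  have t1 : ta d e f = g * d * g⁻¹ := by
    rw [eq_mul_inv_iff_mul_eq]
    exact tg h
  have m1 : ta d e f * sg c d e * ta d e f = g * (d * e * d) * g⁻¹ := by
    rw [t1]
    conv_lhs => rw [s1]
    group
  rw [m1]
  rw [s1]
  calc g * e * g⁻¹ * (g * (d * e * d) * g⁻¹) = g * (e * (d * e * d)) * g⁻¹ := by group
    _ = g * (d * e * d * e) * g⁻¹ := by rw [e_ded h]
    _ = g * (d * e * d) * g⁻¹ * (g * e * g⁻¹) := by group

/-- `L`, the leaf of the point `2`. -/
theorem eL : e * (b * sg c d e * b) = (b * sg c d e * b) * e := cmm (es h) h.be.symm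

theorem dL : d * (b * sg c d e * b) = (b * sg c d e * b) * d := cmm (ds h) h.bd.symm

theorem cL : c * (b * sg c d e * b) = (b * sg c d e * b) * c := by
  refine cm h.cc ?_
  calc c * (b * (c * (d * e * d) * c) * b) * c
      = (c * b * c) * (d * e * d) * (c * b * c) := by simp only [mul_assoc]
    _ = (b * c * b) * (d * e * d) * (b * c * b) := by rw [h.bcb]
    _ = b * c * (b * (d * e * d) * b) * c * b := by simp only [mul_assoc]
    _ = b * (c * (d * e * d) * c) * b := by rw [cj h.bb (b_ded h)]; simp only [mul_assoc]

theorem LL : (b * sg c d e * b) * (b * sg c d e * b) = 1 := inv3 h.bb (ss h)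

theorem sL : sg c d e * (b * sg c d e * b) = (b * sg c d e * b) * sg c d e := by
  have h1 : (b * sg c d e * b) * (d * e * d) = (d * e * d) * (b * sg c d e * b) :=
    cmm (eL h).symm (dL h).symm
  exact (cmm h1 (cL h).symm).symm

theorem fL : f * (b * sg c d e * b) * f = (b * sg c d e * b) * f * (b * sg c d e * b) :=
  brc h.bb h.bf.symm (fs h)

/-- `L₁`, the leaf of the point `1`. -/
theorem bL1 : b * (a * (b * sg c d e * b) * a) = (a * (b * sg c d e * b) * a) * b := by
  refine cm h.bb ?_
  calc b * (a * (b * sg c d e * b) * a) * b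
      = (b * a * b) * sg c d e * (b * a * b) := by simp only [mul_assoc]
    _ = (a * b * a) * sg c d e * (a * b * a) := by rw [h.aba]
    _ = a * b * (a * sg c d e * a) * b * a := by simp only [mul_assoc]
    _ = a * (b * sg c d e * b) * a := by rw [cj h.aa (as h)]; simp only [mul_assoc]

theorem cL1 : c * (a * (b * sg c d e * b) * a) = (a * (b * sg c d e * b) * a) * c :=
  cmm (cL h) h.ac.symm

theorem dL1 : d * (a * (b * sg c d e * b) * a) = (a * (b * sg c d e * b) * a) * d :=
  cmm (dL h) h.ad.symm

theorem eL1 : e * (a * (b * sg c d e * b) * a) = (a * (b * sg c d e * b) * a) * e :=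
  cmm (eL h) h.ae.symm

theorem fL1 : f * (a * (b * sg c d e * b) * a) * f =
    (a * (b * sg c d e * b) * a) * f * (a * (b * sg c d e * b) * a) :=
  brc h.aa h.af.symm (fL h)

theorem L1L1 : (a * (b * sg c d e * b) * a) * (a * (b * sg c d e * b) * a) = 1 :=
  inv3 h.aa (LL h)

theorem LL1 : (b * sg c d e * b) * (a * (b * sg c d e * b) * a) =
    (a * (b * sg c d e * b) * a) * (b * sg c d e * b) := by
  have h1 : sg c d e * (a * (b * sg c d e * b) * a) = (a * (b * sg c d e * b) * a) * sg c d e :=
    cmm (sL h) (as h).symm
  have h2 := cjc h.bb h1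
  rwa [cj h.bb (bL1 h)] at h2

end


end Pool.Agent.Lib.MP_c2d01e_co.GcdW
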