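import Pool.Agent.Lib.MP_c2d01e_co.GcdW

/-!
# Translations in a group with the relations of `[3,3,3,4,3]`

`T = b σ τ σ`, `T₂ = σ T σ`, `X = T T₂ = (b σ τ)²`, and the words that occur in the relations of the
families (B) and (C).
-/

set_option autoImplicit false

namespace Pool.Agent.Lib.MP_c2d01e_co.GcdW

variable {G : Type} [Group G]

/-- The translation `T`. -/
def tT (b s t : G) : G := b * s * t * s

/-- The other generators of the translations. -/
def tT2 (b s t : G) : G := s * b * s * t

section

variable {a b c d e f : G} (h : Rel a b c d e f)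

include h

theorem T2_eq : sg c d e * tT b (sg c d e) (ta d e f) * sg c d e = tT2 b (sg c d e) (ta d e f) := by
  simp only [tT, tT2, mul_assoc, ss h, mul_one]

theorem TT2 : tT b (sg c d e) (ta d e f) * tT2 b (sg c d e) (ta d e f) =
    (b * sg c d e * ta d e f) * (b * sg c d e * ta d e f) := by
  simp only [tT, tT2, mul_assoc, ca (ss h)]

theorem X_eq : (b * sg c d e * ta d e f) * (b * sg c d e * ta d e f) =
    (b * sg c d e * b) * (ta d e f * sg c d e * ta d e f) := by
  calc (b * sg c d e * ta d e f) * (b * sg c d e * ta d e f)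
      = b * sg c d e * (ta d e f * b) * sg c d e * ta d e f := by simp only [mul_assoc]
    _ = b * sg c d e * (b * ta d e f) * sg c d e * ta d e f := by rw [bt h]
    _ = _ := by simp only [mul_assoc]

theorem sX : sg c d e * ((b * sg c d e * ta d e f) * (b * sg c d e * ta d e f)) =
    ((b * sg c d e * ta d e f) * (b * sg c d e * ta d e f)) * sg c d e := by
  rw [X_eq h]
  have e1 : Commute (sg c d e) (b * sg c d e * b) := sL h
  have e2 : Commute (sg c d e) (ta d e f * sg c d e * ta d e f) := sM h
  exact (e1.mul_right e2).eq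

theorem cTT2 : Commute (tT b (sg c d e) (ta d e f)) (tT2 b (sg c d e) (ta d e f)) := by
  show _ * _ = _ * _
  rw [TT2 h]
  have e1 := sX h
  calc (b * sg c d e * ta d e f) * (b * sg c d e * ta d e f)
      = (sg c d e * sg c d e) * ((b * sg c d e * ta d e f) * (b * sg c d e * ta d e f)) := by
        rw [ss h, one_mul]
    _ = sg c d e * (((b * sg c d e * ta d e f) * (b * sg c d e * ta d e f)) * sg c d e) := by
        rw [mul_assoc, e1]
    _ = tT2 b (sg c d e) (ta d e f) * tT b (sg c d e) (ta d e f) := by
        simp only [tT, tT2, mul_assoc]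

/-- `(τ σ)⁴ = 1`. -/
theorem tsts : ta d e f * sg c d e * ta d e f * sg c d e =
    sg c d e * ta d e f * sg c d e * ta d e f := by
  rw [← sM h]
  simp only [mul_assoc]

theorem tTt : ta d e f * tT b (sg c d e) (ta d e f) * ta d e f = tT b (sg c d e) (ta d e f) := by
  calc ta d e f * (b * sg c d e * ta d e f * sg c d e) * ta d e f
      = (ta d e f * b) * sg c d e * ta d e f * sg c d e * ta d e f := by simp only [mul_assoc]
    _ = b * (ta d e f * sg c d e * ta d e f * sg c d e) * ta d e f := by
        rw [← bt h]; simp only [mul_assoc]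
    _ = b * (sg c d e * ta d e f * sg c d e * ta d e f) * ta d e f := by rw [tsts h]
    _ = b * sg c d e * ta d e f * sg c d e := by
        simp only [mul_assoc, tt h, mul_one]

theorem tT2t : ta d e f * tT2 b (sg c d e) (ta d e f) * ta d e f * tT2 b (sg c d e) (ta d e f) = 1 := by
  have e1 : (sg c d e * b * sg c d e) * (sg c d e * b * sg c d e) = 1 := inv3 (ss h) h.bb
  calc ta d e f * (sg c d e * b * sg c d e * ta d e f) * ta d e f * (sg c d e * b * sg c d e * ta d e f)
      = ta d e f * (sg c d e * b * sg c d e) * (ta d e f * ta d e f) *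
          (sg c d e * b * sg c d e) * ta d e f := by simp only [mul_assoc]
    _ = ta d e f * ((sg c d e * b * sg c d e) * (sg c d e * b * sg c d e)) * ta d e f := by
        rw [tt h]; simp only [mul_assoc, one_mul]
    _ = 1 := by rw [e1, mul_one, tt h]

/-- The square of `Y = L τ σ`. -/
theorem YY : ((b * sg c d e * b) * ta d e f * sg c d e) * ((b * sg c d e * b) * ta d e f * sg c d e) =
    ((b * sg c d e * ta d e f) * (b * sg c d e * ta d e f)) *
      (ta d e f * ((b * sg c d e * ta d e f) * (b * sg c d e * ta d e f)) * ta d e f) := by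
  rw [X_eq h]
  simp only [mul_assoc, ca (tt h), tt h, mul_one]

/-- `X` commutes with `τ X τ`. -/
theorem cXX : Commute ((b * sg c d e * ta d e f) * (b * sg c d e * ta d e f))
    (ta d e f * ((b * sg c d e * ta d e f) * (b * sg c d e * ta d e f)) * ta d e f) := by
  have e0 : ta d e f * tT2 b (sg c d e) (ta d e f) * ta d e f = (tT2 b (sg c d e) (ta d e f))⁻¹ :=
    eq_inv_of_mul_eq_one_left (tT2t h)
  have e1 : ta d e f * ((b * sg c d e * ta d e f) * (b * sg c d e * ta d e f)) * ta d e f =
      tT b (sg c d e) (ta d e f) * (tT2 b (sg c d e) (ta d e f))⁻¹ := by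
    rw [← e0, ← TT2 h]
    conv_rhs => rw [← tTt h]
    simp only [mul_assoc, ca (tt h)]
  rw [e1, ← TT2 h]
  have h1 := cTT2 h
  exact ((Commute.refl _).mul_left h1.symm).mul_right ((h1.mul_left (Commute.refl _)).inv_right)

/-- The power of `Y`. -/
theorem Y_pow (n : ℕ) (hX : ((b * sg c d e * ta d e f) * (b * sg c d e * ta d e f)) ^ n = 1) :
    ((b * sg c d e * b) * ta d e f * sg c d e) ^ (2 * n) = 1 := by
  rw [pow_mul, pow_two, YY h, (cXX h).mul_pow, hX, one_mul]
  have e1 : ta d e f * ((b * sg c d e * ta d e f) * (b * sg c d e * ta d e f)) * ta d e f =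
      ta d e f * ((b * sg c d e * ta d e f) * (b * sg c d e * ta d e f)) * (ta d e f)⁻¹ := by
    congr 1
    exact eq_inv_of_mul_eq_one_left (tt h)
  rw [e1, conj_pow, hX]
  group

/-- `X ^ n = 1` if `T ^ n = 1`. -/
theorem X_pow (n : ℕ) (hT : (tT b (sg c d e) (ta d e f)) ^ n = 1) :
    ((b * sg c d e * ta d e f) * (b * sg c d e * ta d e f)) ^ n = 1 := by
  rw [← TT2 h, (cTT2 h).mul_pow, hT, one_mul, ← T2_eq h]
  have e1 : sg c d e * tT b (sg c d e) (ta d e f) * sg c d e =
      sg c d e * tT b (sg c d e) (ta d e f) * (sg c d e)⁻¹ := by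
    congr 1
    exact eq_inv_of_mul_eq_one_left (ss h)
  rw [e1, conj_pow, hT]
  group

/-! ### The four translations -/

theorem fT : f * tT b (sg c d e) (ta d e f) = tT b (sg c d e) (ta d e f) * f := by
  refine cm h.ff ?_
  have e1 : f * ta d e f * f = e * d * e := by
    simp only [ta, mul_assoc, ca h.ff, h.ff, mul_one]
  have e2 : sg c d e * (e * d * e) = (e * d * e) * sg c d e := cmm (ds h).symm (es h).symm
  have e3 : f * (b * sg c d e * ta d e f * sg c d e) * f =
      b * (f * sg c d e * f) * (f * ta d e f * f) * (f * sg c d e * f) := by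
    calc f * (b * sg c d e * ta d e f * sg c d e) * f
        = (f * b) * sg c d e * ta d e f * sg c d e * f := by simp only [mul_assoc]
      _ = (b * f) * sg c d e * ta d e f * sg c d e * f := by rw [h.bf]
      _ = _ := by simp only [mul_assoc, ca h.ff]
  show f * (b * sg c d e * ta d e f * sg c d e) * f = b * sg c d e * ta d e f * sg c d e
  rw [e3, e1, fs h]
  calc b * (sg c d e * f * sg c d e) * (e * d * e) * (sg c d e * f * sg c d e)
      = b * sg c d e * f * (sg c d e * (e * d * e)) * sg c d e * f * sg c d e := by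
        simp only [mul_assoc]
    _ = b * sg c d e * f * ((e * d * e) * sg c d e) * sg c d e * f * sg c d e := by rw [e2]
    _ = b * sg c d e * ta d e f * sg c d e := by
        simp only [ta, mul_assoc, ca (ss h)]

theorem et : e * ta d e f = ta d e f * e := by
  refine cm h.ee ?_
  calc e * (f * (e * d * e) * f) * e = (e * f * e) * d * (e * f * e) := by simp only [mul_assoc]
    _ = (f * e * f) * d * (f * e * f) := by rw [h.efe]
    _ = f * e * (f * d * f) * e * f := by simp only [mul_assoc]
    _ = f * (e * d * e) * f := by rw [cj h.ff h.df.symm]; simp only [mul_assoc]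

theorem eT : e * tT b (sg c d e) (ta d e f) = tT b (sg c d e) (ta d e f) * e := by
  have e1 : Commute e b := h.be.symm
  have e2 : Commute e (sg c d e) := es h
  have e3 : Commute e (ta d e f) := et h
  exact (((e1.mul_right e2).mul_right e3).mul_right e2).eq

/-- `(σ f e)⁴ = 1`. -/
theorem v4 : (sg c d e * f * e) * (sg c d e * f * e) * (sg c d e * f * e) * (sg c d e * f * e) = 1 := by
  have e1 : (sg c d e * f * e) * (sg c d e * f * e) = f * sg c d e * e * f := by
    calc (sg c d e * f * e) * (sg c d e * f * e) = sg c d e * f * (e * sg c d e) * f * e := by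
          simp only [mul_assoc]
      _ = sg c d e * f * (sg c d e * e) * f * e := by rw [es h]
      _ = (sg c d e * f * sg c d e) * (e * f * e) := by simp only [mul_assoc]
      _ = (f * sg c d e * f) * (f * e * f) := by rw [fs h, h.efe]
      _ = f * sg c d e * e * f := by simp only [mul_assoc, ca h.ff]
  calc (sg c d e * f * e) * (sg c d e * f * e) * (sg c d e * f * e) * (sg c d e * f * e)
      = ((sg c d e * f * e) * (sg c d e * f * e)) * ((sg c d e * f * e) * (sg c d e * f * e)) := by
        simp only [mul_assoc]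
    _ = (f * sg c d e * e * f) * (f * sg c d e * e * f) := by rw [e1]
    _ = f * (sg c d e * e) * (sg c d e * e) * f := by simp only [mul_assoc, ca h.ff]
    _ = f * (e * sg c d e) * (sg c d e * e) * f := by rw [es h]
    _ = 1 := by simp only [mul_assoc, ca (ss h), ca h.ee, h.ff]

end

/-- The fourth power of `T v`. -/
theorem four_pow {T1 T2 T3 T4 v : G} (h1 : v * T1 = T2 * v) (h2 : v * T2 = T3 * v)
    (h3 : v * T3 = T4 * v) (h4 : v * v * v * v = 1) : (T1 * v) ^ 4 = T1 * T2 * (T3 * T4) := by
  have r1 : ∀ y, v * (T1 * y) = T2 * (v * y) := fun y => by rw [← mul_assoc, h1, mul_assoc]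
  have r2 : ∀ y, v * (T2 * y) = T3 * (v * y) := fun y => by rw [← mul_assoc, h2, mul_assoc]
  have r3 : ∀ y, v * (T3 * y) = T4 * (v * y) := fun y => by rw [← mul_assoc, h3, mul_assoc]
  have h4' : v * (v * (v * v)) = 1 := by rw [← h4]; simp only [mul_assoc]
  simp only [pow_succ, pow_zero, one_mul, mul_assoc, r1, r2, r3, h4', mul_one]

/-- The last relation, abstractly. -/
theorem four_one {T1 T2 s f e : G} (hs : s * s = 1) (hf : f * f = 1) (he : e * e = 1)
    (hsf : f * s * f = s * f * s) (hfe : e * f * e = f * e * f) (hse : e * s = s * e)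
    (fT : f * T1 = T1 * f) (eT : e * T1 = T1 * e) (hT2 : s * T1 * s = T2)
    (h12 : Commute T1 T2) (hv : (s * f * e) * (s * f * e) * (s * f * e) * (s * f * e) = 1)
    (n : ℕ) (hX : (T1 * T2) ^ n = 1) : (T1 * (s * f * e)) ^ (4 * n) = 1 := by
  have eT2 : e * T2 = T2 * e := by
    rw [← hT2]
    have c1 : Commute e s := hse
    have c2 : Commute e T1 := eT
    exact ((c1.mul_right c2).mul_right c1).eq
  have sT3 : s * (f * T2 * f) = (f * T2 * f) * s := by
    refine cm hs ?_
    rw [← hT2]
    calc s * (f * (s * T1 * s) * f) * s = (s * f * s) * T1 * (s * f * s) := by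
          simp only [mul_assoc]
      _ = (f * s * f) * T1 * (f * s * f) := by rw [hsf]
      _ = f * s * (f * T1 * f) * s * f := by simp only [mul_assoc]
      _ = f * (s * T1 * s) * f := by rw [cj hf fT]; simp only [mul_assoc]
  have fT4 : f * (e * (f * T2 * f) * e) = (e * (f * T2 * f) * e) * f := by
    refine cm hf ?_
    calc f * (e * (f * T2 * f) * e) * f = (f * e * f) * T2 * (f * e * f) := by
          simp only [mul_assoc]
      _ = (e * f * e) * T2 * (e * f * e) := by rw [hfe]
      _ = e * f * (e * T2 * e) * f * e := by simp only [mul_assoc]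
      _ = e * (f * T2 * f) * e := by rw [cj he eT2]; simp only [mul_assoc]
  have sT4 : s * (e * (f * T2 * f) * e) = (e * (f * T2 * f) * e) * s := cmm sT3 hse.symm
  have v1 : (s * f * e) * T1 = T2 * (s * f * e) := by
    calc (s * f * e) * T1 = s * f * (e * T1) := by simp only [mul_assoc]
      _ = s * (f * T1) * e := by rw [eT]; simp only [mul_assoc]
      _ = s * T1 * (s * s) * f * e := by rw [fT, hs]; simp only [mul_assoc, one_mul]
      _ = (s * T1 * s) * (s * f * e) := by simp only [mul_assoc]
      _ = T2 * (s * f * e) := by rw [hT2]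
  have v2 : (s * f * e) * T2 = (f * T2 * f) * (s * f * e) := by
    calc (s * f * e) * T2 = s * f * (e * T2) := by simp only [mul_assoc]
      _ = s * (f * T2) * e := by rw [eT2]; simp only [mul_assoc]
      _ = (s * (f * T2 * f)) * f * e := by simp only [mul_assoc, ca hf]
      _ = (f * T2 * f) * (s * f * e) := by rw [sT3]; simp only [mul_assoc]
  have v3 : (s * f * e) * (f * T2 * f) = (e * (f * T2 * f) * e) * (s * f * e) := by
    calc (s * f * e) * (f * T2 * f) = s * (f * (e * (f * T2 * f) * e)) * e := by
          simp only [mul_assoc, he, mul_one]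
      _ = (s * (e * (f * T2 * f) * e)) * f * e := by rw [fT4]; simp only [mul_assoc]
      _ = (e * (f * T2 * f) * e) * (s * f * e) := by rw [sT4]; simp only [mul_assoc]
  have key := four_pow v1 v2 v3 hv
  rw [pow_mul, key]
  have c13 : Commute T1 (f * T2 * f) := by
    have c1 : Commute T1 f := fT.symm
    exact (c1.mul_right h12).mul_right c1
  have c14 : Commute T1 (e * (f * T2 * f) * e) := by
    have c1 : Commute T1 e := eT.symm
    exact (c1.mul_right c13).mul_right c1
  have cv : ∀ {x y x' y' : G}, (s * f * e) * x = x' * (s * f * e) →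
      (s * f * e) * y = y' * (s * f * e) → Commute x y → Commute x' y' := by
    intro x y x' y' hx hy hc
    have hx' : x' = (s * f * e) * x * (s * f * e)⁻¹ := by rw [hx]; group
    have hy' : y' = (s * f * e) * y * (s * f * e)⁻¹ := by rw [hy]; group
    rw [hx', hy']
    show _ * _ = _ * _
    calc (s * f * e) * x * (s * f * e)⁻¹ * ((s * f * e) * y * (s * f * e)⁻¹)
        = (s * f * e) * (x * y) * (s * f * e)⁻¹ := by group
      _ = (s * f * e) * (y * x) * (s * f * e)⁻¹ := by rw [hc.eq]
      _ = _ := by group
  have c23 : Commute T2 (f * T2 * f) := cv v1 v2 h12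
  have c24 : Commute T2 (e * (f * T2 * f) * e) := cv v1 v3 c13
  have cc : Commute (T1 * T2) ((f * T2 * f) * (e * (f * T2 * f) * e)) :=
    (c13.mul_right c14).mul_left (c23.mul_right c24)
  rw [cc.mul_pow, hX, one_mul]
  have w1 : (f * T2 * f) * (e * (f * T2 * f) * e) =
      ((s * f * e) * (s * f * e)) * (T1 * T2) * ((s * f * e) * (s * f * e))⁻¹ := by
    rw [eq_mul_inv_iff_mul_eq]
    calc (f * T2 * f) * (e * (f * T2 * f) * e) * ((s * f * e) * (s * f * e))
        = (f * T2 * f) * ((e * (f * T2 * f) * e) * (s * f * e)) * (s * f * e) := by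
          simp only [mul_assoc]
      _ = (f * T2 * f) * ((s * f * e) * (f * T2 * f)) * (s * f * e) := by rw [v3]
      _ = ((f * T2 * f) * (s * f * e)) * ((f * T2 * f) * (s * f * e)) := by simp only [mul_assoc]
      _ = ((s * f * e) * T2) * ((s * f * e) * T2) := by rw [v2]
      _ = (s * f * e) * (T2 * (s * f * e)) * T2 := by simp only [mul_assoc]
      _ = (s * f * e) * ((s * f * e) * T1) * T2 := by rw [v1]
      _ = ((s * f * e) * (s * f * e)) * (T1 * T2) := by simp only [mul_assoc]
  rw [w1, conj_pow, hX]
  group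

end Pool.Agent.Lib.MP_c2d01e_co.GcdW
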