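import Pool.Agent.Lib.MP_c2d01e_co.GcdX

/-!
# The words of family (C), and cosets

Conjugation by `W = (a b c d)²` turns `b, σ, f, e, d` into `d, e, f, L, a`; the two steps of the coset enumeration
(5 and 4 cosets).
-/

set_option autoImplicit false

namespace Pool.Agent.Lib.MP_c2d01e_co.GcdW

variable {G : Type} [Group G]

section

variable {a b c d e f : G} (h : Rel a b c d e f)

include h

theorem w_a : (a * b * c * d) * a = b * (a * b * c * d) := by
  calc (a * b * c * d) * a = a * b * c * (a * d) := by rw [h.ad]; simp only [mul_assoc]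
    _ = a * b * (a * c) * d := by rw [h.ac]; simp only [mul_assoc]
    _ = (a * b * a) * c * d := by simp only [mul_assoc]
    _ = b * (a * b * c * d) := by rw [h.aba]; simp only [mul_assoc]

theorem w_b : (a * b * c * d) * b = c * (a * b * c * d) := by
  calc (a * b * c * d) * b = a * b * c * (b * d) := by rw [h.bd]; simp only [mul_assoc]
    _ = a * (b * c * b) * d := by simp only [mul_assoc]
    _ = (a * c) * b * c * d := by rw [h.bcb]; simp only [mul_assoc]
    _ = c * (a * b * c * d) := by rw [h.ac]; simp only [mul_assoc]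

theorem w_c : (a * b * c * d) * c = d * (a * b * c * d) := by
  calc (a * b * c * d) * c = a * b * (c * d * c) := by simp only [mul_assoc]
    _ = a * (b * d) * c * d := by rw [h.cdc]; simp only [mul_assoc]
    _ = (a * d) * b * c * d := by rw [h.bd]; simp only [mul_assoc]
    _ = d * (a * b * c * d) := by rw [h.ad]; simp only [mul_assoc]

theorem w_L1 : (a * b * c * d) * (a * (b * sg c d e * b) * a) =
    (b * sg c d e * b) * (a * b * c * d) := by
  have e1 : Commute (b * c * d) (a * (b * sg c d e * b) * a) :=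
    (Commute.mul_left (Commute.mul_left (bL1 h) (cL1 h)) (dL1 h))
  calc (a * b * c * d) * (a * (b * sg c d e * b) * a)
      = a * ((b * c * d) * (a * (b * sg c d e * b) * a)) := by simp only [mul_assoc]
    _ = a * ((a * (b * sg c d e * b) * a) * (b * c * d)) := by rw [e1.eq]
    _ = (b * sg c d e * b) * (a * b * c * d) := by simp only [mul_assoc, ca h.aa]

theorem w_e : (a * b * c * d) * e = (a * (b * sg c d e * b) * a) * (a * b * c * d) := by
  simp only [sg, mul_assoc, ca h.aa, ca h.bb, ca h.cc, h.dd, mul_one]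

theorem w_s : (a * b * c * d) * sg c d e = (d * e * d) * (a * b * c * d) := by
  calc (a * b * c * d) * sg c d e = a * b * c * (d * sg c d e) := by simp only [mul_assoc]
    _ = a * b * c * (sg c d e * d) := by rw [ds h]
    _ = a * (b * (d * e * d)) * c * d := by simp only [sg, mul_assoc, ca h.cc]
    _ = a * ((d * e * d) * b) * c * d := by rw [b_ded h]
    _ = (a * (d * e * d)) * b * c * d := by simp only [mul_assoc]
    _ = ((d * e * d) * a) * b * c * d := by rw [cmm h.ae h.ad]
    _ = (d * e * d) * (a * b * c * d) := by simp only [mul_assoc]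

theorem w_ded : (a * b * c * d) * (d * e * d) = e * (a * b * c * d) := by
  calc (a * b * c * d) * (d * e * d) = a * b * (c * e) * d := by
        simp only [mul_assoc, ca h.dd]
    _ = a * (b * e) * c * d := by rw [h.ce]; simp only [mul_assoc]
    _ = (a * e) * b * c * d := by rw [h.be]; simp only [mul_assoc]
    _ = e * (a * b * c * d) := by rw [h.ae]; simp only [mul_assoc]

theorem w_f : (a * b * c * d) * f = f * (a * b * c * d) := by
  have e1 : Commute a f := h.af
  have e2 : Commute b f := h.bf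
  have e3 : Commute c f := h.cf
  have e4 : Commute d f := h.df
  exact (((e1.mul_left e2).mul_left e3).mul_left e4).eq

theorem W_b : SemiconjBy ((a * b * c * d) * (a * b * c * d)) b d := by
  show _ * _ = _ * _
  rw [mul_assoc, w_b h, ← mul_assoc, w_c h, mul_assoc]

theorem W_e : SemiconjBy ((a * b * c * d) * (a * b * c * d)) e (b * sg c d e * b) := by
  show _ * _ = _ * _
  rw [mul_assoc, w_e h, ← mul_assoc, w_L1 h, mul_assoc]

theorem W_s : SemiconjBy ((a * b * c * d) * (a * b * c * d)) (sg c d e) e := by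
  show _ * _ = _ * _
  rw [mul_assoc, w_s h, ← mul_assoc, w_ded h, mul_assoc]

theorem W_f : SemiconjBy ((a * b * c * d) * (a * b * c * d)) f f := by
  show _ * _ = _ * _
  rw [mul_assoc, w_f h, ← mul_assoc, w_f h, mul_assoc]

theorem W_d : SemiconjBy ((a * b * c * d) * (a * b * c * d)) d a := by
  show _ * _ = _ * _
  calc (a * b * c * d) * (a * b * c * d) * d = (a * b * c * d) * a * b * c := by
        simp only [mul_assoc, h.dd, mul_one]
    _ = b * ((a * b * c * d) * b) * c := by rw [w_a h]; simp only [mul_assoc]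
    _ = b * c * ((a * b * c * d) * c) := by rw [w_b h]; simp only [mul_assoc]
    _ = b * c * d * (a * b * c * d) := by rw [w_c h]; simp only [mul_assoc]
    _ = a * ((a * b * c * d) * (a * b * c * d)) := by simp only [mul_assoc, ca h.aa]

theorem W_t : SemiconjBy ((a * b * c * d) * (a * b * c * d)) (ta d e f)
    (f * ((b * sg c d e * b) * a * (b * sg c d e * b)) * f) :=
  ((W_f h).mul_right (((W_e h).mul_right (W_d h)).mul_right (W_e h))).mul_right (W_f h)

omit h in
theorem one_of_semi {w x y : G} {n : ℕ} (hw : SemiconjBy w x y) (hx : x ^ n = 1) : y ^ n = 1 := by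
  have h1 : w * x ^ n = y ^ n * w := hw.pow_right n
  rw [hx, mul_one] at h1
  exact mul_eq_right.1 h1.symm

/-- The vertex-figure relation of family (C), first kind. -/
theorem vC1 (n : ℕ) (hT : (tT b (sg c d e) (ta d e f)) ^ n = 1) :
    (d * e * f * (b * sg c d e * b) * a * (b * sg c d e * b) * f * e) ^ n = 1 := by
  have h1 := (((W_b h).mul_right (W_s h)).mul_right (W_t h)).mul_right (W_s h)
  have h2 := one_of_semi h1 hT
  rw [← h2]
  congr 1
  simp only [mul_assoc]

/-- The vertex-figure relation of family (C), second kind. -/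
theorem vC2 (n : ℕ) (hX : ((b * sg c d e * ta d e f) * (b * sg c d e * ta d e f)) ^ n = 1) :
    (d * e * f * (b * sg c d e * b) * a * (b * sg c d e * b) * f) ^ (2 * n) = 1 := by
  have h1 := ((W_b h).mul_right (W_s h)).mul_right (W_t h)
  rw [← pow_two, ← pow_mul] at hX
  have h2 := one_of_semi h1 hX
  rw [← h2]
  congr 1
  simp only [mul_assoc]

/-- The vertex-figure relation of family (C), third kind. -/
theorem vC4 (n : ℕ) (hX : ((b * sg c d e * ta d e f) * (b * sg c d e * ta d e f)) ^ n = 1) :
    (d * e * f * (b * sg c d e * b) * a) ^ (4 * n) = 1 := by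
  have h1 := ((((W_b h).mul_right (W_s h)).mul_right (W_f h)).mul_right (W_e h)).mul_right (W_d h)
  rw [← TT2 h] at hX
  have h3 := four_one (ss h) h.ff h.ee (fs h) h.efe (es h) (fT h) (eT h) (T2_eq h) (cTT2 h) (v4 h)
    n hX
  have h4 : tT b (sg c d e) (ta d e f) * (sg c d e * f * e) = b * sg c d e * f * e * d := by
    simp only [tT, ta, mul_assoc, ca (ss h), ca h.ff, h.ee, mul_one]
  rw [h4] at h3
  exact one_of_semi h1 h3

/-- The relations of family (B) for the vertex-figures, first kind. -/
theorem vB1 (n : ℕ) (hX : ((b * sg c d e * ta d e f) * (b * sg c d e * ta d e f)) ^ n = 1) :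
    ((a * (b * sg c d e * b) * a) * ta d e f * sg c d e * ta d e f) ^ n = 1 := by
  rw [X_eq h] at hX
  have h1 : (a * (b * sg c d e * b) * a) * ta d e f * sg c d e * ta d e f =
      a * ((b * sg c d e * b) * (ta d e f * sg c d e * ta d e f)) * a⁻¹ := by
    have e0 : a⁻¹ = a := inv_eq_of_mul_eq_one_left h.aa
    rw [e0]
    calc (a * (b * sg c d e * b) * a) * ta d e f * sg c d e * ta d e f
        = a * (b * sg c d e * b) * (a * ta d e f) * sg c d e * ta d e f := by simp only [mul_assoc]
      _ = a * (b * sg c d e * b) * ta d e f * (a * sg c d e) * ta d e f := by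
          rw [at' h]; simp only [mul_assoc]
      _ = a * (b * sg c d e * b) * ta d e f * sg c d e * (a * ta d e f) := by
          rw [as h]; simp only [mul_assoc]
      _ = _ := by rw [at' h]; simp only [mul_assoc]
  rw [h1, conj_pow, hX]
  group

/-- The relations of family (B) for the vertex-figures, second kind. -/
theorem vB2 (n : ℕ) (hX : ((b * sg c d e * ta d e f) * (b * sg c d e * ta d e f)) ^ n = 1) :
    ((a * (b * sg c d e * b) * a) * ta d e f * sg c d e) ^ (2 * n) = 1 := by
  have hY := Y_pow h n hX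
  have h1 : (a * (b * sg c d e * b) * a) * ta d e f * sg c d e =
      a * ((b * sg c d e * b) * ta d e f * sg c d e) * a⁻¹ := by
    have e0 : a⁻¹ = a := inv_eq_of_mul_eq_one_left h.aa
    rw [e0]
    calc (a * (b * sg c d e * b) * a) * ta d e f * sg c d e
        = a * (b * sg c d e * b) * (a * ta d e f) * sg c d e := by simp only [mul_assoc]
      _ = a * (b * sg c d e * b) * ta d e f * (a * sg c d e) := by
          rw [at' h]; simp only [mul_assoc]
      _ = _ := by rw [as h]; simp only [mul_assoc]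
  rw [h1, conj_pow, hY]
  group

/-- `L a` has order dividing four. -/
theorem La : (b * sg c d e * b) * a * (b * sg c d e * b) * a =
    a * (b * sg c d e * b) * a * (b * sg c d e * b) := by
  have h1 := LL1 h
  rw [← h1]
  simp only [mul_assoc]

end

/-! ### Finiteness and cosets -/

open Pointwise

theorem fin_of {S S' : Set G} (R : Set G) (hR : R.Finite) (h1 : (1 : G) ∈ R)
    (hS : ∀ s ∈ S, s * s = 1)
    (step : ∀ s ∈ S, ∀ r ∈ R, ∃ r' ∈ R, ∃ k ∈ Subgroup.closure S', s * r = r' * k)
    (hf : (Subgroup.closure S' : Set G).Finite) : (Subgroup.closure S : Set G).Finite := by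
  refine (hR.mul hf).subset ?_
  intro x hx
  have step' : ∀ s ∈ S, ∀ y ∈ R * (Subgroup.closure S' : Set G), s * y ∈ R * (Subgroup.closure S' : Set G) := by
    rintro s hs y ⟨r, hr, k, hk, rfl⟩
    obtain ⟨r', hr', k', hk', he⟩ := step s hs r hr
    refine ⟨r', hr', k' * k, (Subgroup.closure S').mul_mem hk' hk, ?_⟩
    show r' * (k' * k) = s * (r * k)
    rw [← mul_assoc, ← he, mul_assoc]
  induction hx using Subgroup.closure_induction_left with
  | one => exact ⟨1, h1, 1, (Subgroup.closure S').one_mem, mul_one 1⟩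
  | mul_left s hs y hy ih => exact step' s hs y ih
  | inv_mul_cancel s hs y hy ih =>
    have e0 : s⁻¹ = s := inv_eq_of_mul_eq_one_left (hS s hs)
    rw [e0]
    exact step' s hs y ih

/-- Five cosets. -/
theorem fin5 {a b c d e f : G} (h : Rel a b c d e f)
    (hf : (Subgroup.closure {b, c, d, e, f, a * (b * sg c d e * b) * a} : Set G).Finite) :
    (Subgroup.closure {a, b, c, d, e, f} : Set G).Finite := by
  refine fin_of {1, a, b * a, c * b * a, d * c * b * a} (Set.toFinite _) (by simp) ?_ ?_ hf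
  · rintro s (rfl | rfl | rfl | rfl | rfl | rfl)
    exacts [h.aa, h.bb, h.cc, h.dd, h.ee, h.ff]
  have hb : b ∈ Subgroup.closure ({b, c, d, e, f, a * (b * sg c d e * b) * a} : Set G) :=
    Subgroup.subset_closure (by simp)
  have hc : c ∈ Subgroup.closure ({b, c, d, e, f, a * (b * sg c d e * b) * a} : Set G) :=
    Subgroup.subset_closure (by simp)
  have hd : d ∈ Subgroup.closure ({b, c, d, e, f, a * (b * sg c d e * b) * a} : Set G) :=
    Subgroup.subset_closure (by simp)
  have he : e ∈ Subgroup.closure ({b, c, d, e, f, a * (b * sg c d e * b) * a} : Set G) :=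
    Subgroup.subset_closure (by simp)
  have hf' : f ∈ Subgroup.closure ({b, c, d, e, f, a * (b * sg c d e * b) * a} : Set G) :=
    Subgroup.subset_closure (by simp)
  have hl : a * (b * sg c d e * b) * a ∈
      Subgroup.closure ({b, c, d, e, f, a * (b * sg c d e * b) * a} : Set G) :=
    Subgroup.subset_closure (by simp)
  have h1 := (Subgroup.closure ({b, c, d, e, f, a * (b * sg c d e * b) * a} : Set G)).one_mem
  have r1 : (1 : G) ∈ ({1, a, b * a, c * b * a, d * c * b * a} : Set G) := by simp
  have r2 : a ∈ ({1, a, b * a, c * b * a, d * c * b * a} : Set G) := by simp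
  have r3 : b * a ∈ ({1, a, b * a, c * b * a, d * c * b * a} : Set G) := by simp
  have r4 : c * b * a ∈ ({1, a, b * a, c * b * a, d * c * b * a} : Set G) := by simp
  have r5 : d * c * b * a ∈ ({1, a, b * a, c * b * a, d * c * b * a} : Set G) := by simp
  have ff1 : Commute f (d * c * b * a) :=
    ((Commute.mul_right (Commute.mul_right h.df.symm h.cf.symm) h.bf.symm).mul_right h.af.symm)
  rintro s (rfl | rfl | rfl | rfl | rfl | rfl) r (rfl | rfl | rfl | rfl | rfl)
  -- a
  · exact ⟨_, r2, 1, h1, rfl⟩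
  · exact ⟨_, r1, 1, h1, by rw [h.aa, mul_one]⟩
  · exact ⟨_, r3, b, hb, by rw [← mul_assoc, h.aba]⟩
  · refine ⟨_, r4, b, hb, ?_⟩
    calc s * (c * b * s) = (s * c) * b * s := by simp only [mul_assoc]
      _ = c * (s * b * s) := by rw [h.ac]; simp only [mul_assoc]
      _ = c * b * s * b := by rw [h.aba]; simp only [mul_assoc]
  · refine ⟨_, r5, b, hb, ?_⟩
    calc s * (d * c * b * s) = (s * d) * c * b * s := by simp only [mul_assoc]
      _ = d * (s * c) * b * s := by rw [h.ad]; simp only [mul_assoc]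
      _ = d * c * (s * b * s) := by rw [h.ac]; simp only [mul_assoc]
      _ = d * c * b * s * b := by rw [h.aba]; simp only [mul_assoc]
  -- b
  · exact ⟨_, r1, _, hb, by rw [mul_one, one_mul]⟩
  · exact ⟨_, r3, 1, h1, by rw [mul_one]⟩
  · exact ⟨_, r2, 1, h1, by rw [← mul_assoc, h.bb, one_mul, mul_one]⟩
  · refine ⟨_, r4, c, hc, ?_⟩
    calc s * (c * s * a) = (s * c * s) * a := by simp only [mul_assoc]
      _ = c * s * (c * a) := by rw [h.bcb]; simp only [mul_assoc]
      _ = c * s * a * c := by rw [← h.ac]; simp only [mul_assoc]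
  · refine ⟨_, r5, c, hc, ?_⟩
    calc s * (d * c * s * a) = (s * d) * c * s * a := by simp only [mul_assoc]
      _ = d * (s * c * s) * a := by rw [h.bd]; simp only [mul_assoc]
      _ = d * c * s * (c * a) := by rw [h.bcb]; simp only [mul_assoc]
      _ = d * c * s * a * c := by rw [← h.ac]; simp only [mul_assoc]
  -- c
  · exact ⟨_, r1, _, hc, by rw [mul_one, one_mul]⟩
  · exact ⟨_, r2, _, hc, h.ac.symm⟩
  · exact ⟨_, r4, 1, h1, by simp only [mul_assoc, mul_one]⟩
  · exact ⟨_, r3, 1, h1, by simp only [mul_assoc, ca h.cc, mul_one]⟩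
  · refine ⟨_, r5, d, hd, ?_⟩
    calc s * (d * s * b * a) = (s * d * s) * b * a := by simp only [mul_assoc]
      _ = d * s * (d * b) * a := by rw [h.cdc]; simp only [mul_assoc]
      _ = d * s * b * (d * a) := by rw [← h.bd]; simp only [mul_assoc]
      _ = d * s * b * a * d := by rw [← h.ad]; simp only [mul_assoc]
  -- d
  · exact ⟨_, r1, _, hd, by rw [mul_one, one_mul]⟩
  · exact ⟨_, r2, _, hd, h.ad.symm⟩
  · refine ⟨_, r3, _, hd, ?_⟩
    calc s * (b * a) = (s * b) * a := by simp only [mul_assoc]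
      _ = b * (s * a) := by rw [← h.bd]; simp only [mul_assoc]
      _ = b * a * s := by rw [← h.ad]; simp only [mul_assoc]
  · exact ⟨_, r5, 1, h1, by simp only [mul_assoc, mul_one]⟩
  · exact ⟨_, r4, 1, h1, by simp only [mul_assoc, ca h.dd, mul_one]⟩
  -- e
  · exact ⟨_, r1, _, he, by rw [mul_one, one_mul]⟩
  · exact ⟨_, r2, _, he, h.ae.symm⟩
  · refine ⟨_, r3, _, he, ?_⟩
    calc s * (b * a) = (s * b) * a := by simp only [mul_assoc]
      _ = b * (s * a) := by rw [← h.be]; simp only [mul_assoc]
      _ = b * a * s := by rw [← h.ae]; simp only [mul_assoc]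
  · refine ⟨_, r4, _, he, ?_⟩
    calc s * (c * b * a) = (s * c) * b * a := by simp only [mul_assoc]
      _ = c * (s * b) * a := by rw [← h.ce]; simp only [mul_assoc]
      _ = c * b * (s * a) := by rw [← h.be]; simp only [mul_assoc]
      _ = c * b * a * s := by rw [← h.ae]; simp only [mul_assoc]
  · refine ⟨_, r5, _, hl, ?_⟩
    simp only [sg, mul_assoc, ca h.aa, ca h.bb, ca h.cc, ca h.dd]
  -- f
  · exact ⟨_, r1, _, hf', by rw [mul_one, one_mul]⟩
  · exact ⟨_, r2, _, hf', h.af.symm⟩
  · exact ⟨_, r3, _, hf', (Commute.mul_right (show Commute _ _ from h.bf.symm) h.af.symm).eq⟩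
  · exact ⟨_, r4, _, hf', (Commute.mul_right (Commute.mul_right (show Commute _ _ from h.cf.symm)
      h.bf.symm) h.af.symm).eq⟩
  · exact ⟨_, r5, _, hf', ff1.eq⟩

/-- Four cosets. -/
theorem fin4 {a b c d e f : G} (h : Rel a b c d e f)
    (hf : (Subgroup.closure {c, d, e, f, b * sg c d e * b, a * (b * sg c d e * b) * a} :
      Set G).Finite) :
    (Subgroup.closure {b, c, d, e, f, a * (b * sg c d e * b) * a} : Set G).Finite := by
  refine fin_of {1, b, c * b, d * c * b} (Set.toFinite _) (by simp) ?_ ?_ hf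
  · rintro s (rfl | rfl | rfl | rfl | rfl | rfl)
    exacts [h.bb, h.cc, h.dd, h.ee, h.ff, L1L1 h]
  have hc : c ∈ Subgroup.closure
      ({c, d, e, f, b * sg c d e * b, a * (b * sg c d e * b) * a} : Set G) :=
    Subgroup.subset_closure (by simp)
  have hd : d ∈ Subgroup.closure
      ({c, d, e, f, b * sg c d e * b, a * (b * sg c d e * b) * a} : Set G) :=
    Subgroup.subset_closure (by simp)
  have he : e ∈ Subgroup.closure
      ({c, d, e, f, b * sg c d e * b, a * (b * sg c d e * b) * a} : Set G) :=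
    Subgroup.subset_closure (by simp)
  have hf' : f ∈ Subgroup.closure
      ({c, d, e, f, b * sg c d e * b, a * (b * sg c d e * b) * a} : Set G) :=
    Subgroup.subset_closure (by simp)
  have hl : b * sg c d e * b ∈ Subgroup.closure
      ({c, d, e, f, b * sg c d e * b, a * (b * sg c d e * b) * a} : Set G) :=
    Subgroup.subset_closure (by simp)
  have hl1 : a * (b * sg c d e * b) * a ∈ Subgroup.closure
      ({c, d, e, f, b * sg c d e * b, a * (b * sg c d e * b) * a} : Set G) :=
    Subgroup.subset_closure (by simp)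
  have h1 := (Subgroup.closure
    ({c, d, e, f, b * sg c d e * b, a * (b * sg c d e * b) * a} : Set G)).one_mem
  have r1 : (1 : G) ∈ ({1, b, c * b, d * c * b} : Set G) := by simp
  have r2 : b ∈ ({1, b, c * b, d * c * b} : Set G) := by simp
  have r3 : c * b ∈ ({1, b, c * b, d * c * b} : Set G) := by simp
  have r4 : d * c * b ∈ ({1, b, c * b, d * c * b} : Set G) := by simp
  have lb : Commute (a * (b * sg c d e * b) * a) b := (bL1 h).symm
  have lc : Commute (a * (b * sg c d e * b) * a) c := (cL1 h).symm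
  have ld : Commute (a * (b * sg c d e * b) * a) d := (dL1 h).symm
  have fb : Commute f b := h.bf.symm
  have fc : Commute f c := h.cf.symm
  have fd : Commute f d := h.df.symm
  intro s hs r hr
  simp only [Set.mem_insert_iff, Set.mem_singleton_iff] at hs hr
  rcases hs with hs | hs | hs | hs | hs | hs <;> rcases hr with hr | hr | hr | hr <;> rw [hs, hr]
  -- b
  · exact ⟨_, r2, 1, h1, rfl⟩
  · exact ⟨_, r1, 1, h1, by rw [h.bb, mul_one]⟩
  · exact ⟨_, r3, c, hc, by rw [← mul_assoc, h.bcb]⟩
  · refine ⟨_, r4, c, hc, ?_⟩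
    calc b * (d * c * b) = (b * d) * c * b := by simp only [mul_assoc]
      _ = d * (b * c * b) := by rw [h.bd]; simp only [mul_assoc]
      _ = d * c * b * c := by rw [h.bcb]; simp only [mul_assoc]
  -- c
  · exact ⟨_, r1, _, hc, by rw [mul_one, one_mul]⟩
  · exact ⟨_, r3, 1, h1, by rw [mul_one]⟩
  · exact ⟨_, r2, 1, h1, by rw [← mul_assoc, h.cc, one_mul, mul_one]⟩
  · refine ⟨_, r4, d, hd, ?_⟩
    calc c * (d * c * b) = (c * d * c) * b := by simp only [mul_assoc]
      _ = d * c * (d * b) := by rw [h.cdc]; simp only [mul_assoc]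
      _ = d * c * b * d := by rw [← h.bd]; simp only [mul_assoc]
  -- d
  · exact ⟨_, r1, _, hd, by rw [mul_one, one_mul]⟩
  · exact ⟨_, r2, _, hd, h.bd.symm⟩
  · exact ⟨_, r4, 1, h1, by simp only [mul_assoc, mul_one]⟩
  · exact ⟨_, r3, 1, h1, by simp only [mul_assoc, ca h.dd, mul_one]⟩
  -- e
  · exact ⟨_, r1, _, he, by rw [mul_one, one_mul]⟩
  · exact ⟨_, r2, _, he, h.be.symm⟩
  · refine ⟨_, r3, _, he, ?_⟩
    calc e * (c * b) = (e * c) * b := by simp only [mul_assoc]
      _ = c * (e * b) := by rw [← h.ce]; simp only [mul_assoc]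
      _ = c * b * e := by rw [← h.be]; simp only [mul_assoc]
  · refine ⟨_, r4, _, hl, ?_⟩
    simp only [sg, mul_assoc, ca h.bb, ca h.cc, ca h.dd]
  -- f
  · exact ⟨_, r1, _, hf', by rw [mul_one, one_mul]⟩
  · exact ⟨_, r2, _, hf', h.bf.symm⟩
  · exact ⟨_, r3, _, hf', (fc.mul_right fb).eq⟩
  · exact ⟨_, r4, _, hf', ((fd.mul_right fc).mul_right fb).eq⟩
  -- l
  · exact ⟨_, r1, _, hl1, by rw [mul_one, one_mul]⟩
  · exact ⟨_, r2, _, hl1, lb.eq⟩
  · exact ⟨_, r3, _, hl1, (lc.mul_right lb).eq⟩
  · exact ⟨_, r4, _, hl1, ((ld.mul_right lc).mul_right lb).eq⟩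

/-! ### Powers of products of two involutions -/

theorem p1 {x : G} (hx : x * x = 1) : (x * x) ^ 1 = 1 := by rw [pow_one, hx]

theorem p2 {x y : G} (hx : x * x = 1) (hy : y * y = 1) (hxy : x * y = y * x) : (x * y) ^ 2 = 1 := by
  calc (x * y) ^ 2 = x * (y * x) * y := by simp only [pow_two, mul_assoc]
    _ = 1 := by rw [← hxy, mul_assoc, mul_assoc, hy, mul_one, hx]

theorem p3 {x y : G} (hx : x * x = 1) (hy : y * y = 1) (hxy : x * y * x = y * x * y) :
    (x * y) ^ 3 = 1 := by
  calc (x * y) ^ 3 = (x * y * x) * (y * x * y) := by simp only [pow_succ, pow_zero, one_mul, mul_assoc]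
    _ = (y * x * y) * (y * x * y) := by rw [hxy]
    _ = 1 := inv3 hy hx

theorem p4 {x y : G} (hx : x * x = 1) (hy : y * y = 1) (hxy : x * y * x * y = y * x * y * x) :
    (x * y) ^ 4 = 1 := by
  calc (x * y) ^ 4 = (x * y * x * y) * (x * y * x * y) := by
        simp only [pow_succ, pow_zero, one_mul, mul_assoc]
    _ = (y * x * y * x) * (x * y * x * y) := by rw [hxy]
    _ = 1 := by simp only [mul_assoc, ca hx, ca hy, hy]

theorem sw {x y : G} {n : ℕ} (hxy : (x * y) ^ n = 1) : (y * x) ^ n = 1 := by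
  have h1 : y * x = y * (x * y) * y⁻¹ := by group
  rw [h1, conj_pow, hxy]
  group

theorem coxall {m : Fin 6 → Fin 6 → ℕ} (hm : ∀ i j, m i j = m j i) {r : Fin 6 → G}
    (hr : ∀ i j, i ≤ j → (r i * r j) ^ m i j = 1) (i j : Fin 6) : (r i * r j) ^ m i j = 1 := by
  rcases le_total i j with hij | hij
  · exact hr i j hij
  · rw [hm]
    exact sw (hr j i hij)

theorem q2 {x y : G} (hx : x * x = 1) (hy : y * y = 1) (hxy : (x * y) ^ 2 = 1) :
    x * y = y * x := by
  have h1 : x * y * (x * y) = 1 := by rw [← hxy, pow_two]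
  have hx' : x⁻¹ = x := inv_eq_of_mul_eq_one_left hx
  have hy' : y⁻¹ = y := inv_eq_of_mul_eq_one_left hy
  rw [eq_inv_of_mul_eq_one_left h1, mul_inv_rev, hx', hy']

theorem q3 {x y : G} (hx : x * x = 1) (hy : y * y = 1) (hxy : (x * y) ^ 3 = 1) :
    x * y * x = y * x * y := by
  have h1 : (x * y * x) * (y * x * y) = 1 := by
    rw [← hxy]
    simp only [pow_succ, pow_zero, one_mul, mul_assoc]
  have hx' : x⁻¹ = x := inv_eq_of_mul_eq_one_left hx
  have hy' : y⁻¹ = y := inv_eq_of_mul_eq_one_left hy
  rw [eq_inv_of_mul_eq_one_left h1]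
  simp only [mul_inv_rev, hx', hy', mul_assoc]

theorem q4 {x y : G} (hx : x * x = 1) (hy : y * y = 1) (hxy : (x * y) ^ 4 = 1) :
    x * y * x * y = y * x * y * x := by
  have h1 : (x * y * x * y) * (x * y * x * y) = 1 := by
    rw [← hxy]
    simp only [pow_succ, pow_zero, one_mul, mul_assoc]
  have hx' : x⁻¹ = x := inv_eq_of_mul_eq_one_left hx
  have hy' : y⁻¹ = y := inv_eq_of_mul_eq_one_left hy
  rw [eq_inv_of_mul_eq_one_left h1]
  simp only [mul_inv_rev, hx', hy', mul_assoc]

end Pool.Agent.Lib.MP_c2d01e_co.GcdW
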