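import Pool.Agent.Lib.MP_c2d01e_co.LabMain

/-!
# Infinite quotients of `[3,3,4,3,3]` and `[3,4,3,3,4]`
-/

set_option autoImplicit false

namespace Pool.Agent.Lib.MP_c2d01e_co.Lab

variable {D : Dat}

/-- Every generator acts as an involution (test). -/
def invB (D : Dat) : Bool := (List.range 6).all fun i => trivB D [i, i]

theorem invB_sound (k : ℕ → ℝ) (h : Ok D 6) (hi : invB D = true) (i : ℕ) (hi6 : i < 6) (v : ℕ → ℝ) :
    G D k i (G D k i v) = v := by
  simp only [invB, List.all_eq_true, List.mem_range] at hi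
  have := triv_sound k h [i, i] (by simp [hi6]) (hi i hi6) v
  simpa using this

/-- The generators as permutations. -/
noncomputable def P (k : ℕ → ℝ) (h : Ok D 6) (hi : invB D = true) (i : Fin 6) :
    Equiv.Perm (ℕ → ℝ) where
  toFun := G D k i
  invFun := G D k i
  left_inv := invB_sound k h hi i i.isLt
  right_inv := invB_sound k h hi i i.isLt

/-- Word in the free group. -/
def w2g (w : List (Fin 6)) : FreeGroup (Fin 6) := (w.map FreeGroup.of).prod

theorem w2g_append (w w' : List (Fin 6)) : w2g (w ++ w') = w2g w * w2g w' := by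
  simp [w2g]

/-- The group with the given relators is infinite. -/
theorem infinite_of_rep (k : ℕ → ℝ) (h : Ok D 6) (hi : invB D = true) (f : Fin 6 → Fin 6)
    (rels : Set (FreeGroup (Fin 6)))
    (hrel : ∀ r ∈ rels, ∃ (w : List (Fin 6)) (N : ℕ), r = w2g w ^ N ∧
      ∀ v, (fun v => (w.map fun i => (f i : ℕ)).foldr (G D k) v)^[N] v = v)
    (w0 : List (Fin 6)) (c : ℕ) (x : ℕ × ℕ × ℕ × ℕ)
    (hc : cycB D c x (w0.map fun i => (f i : ℕ)) = true) (hk : 1 ≤ k c) :
    Infinite (PresentedGroup rels) := by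
  have hw : ∀ (w : List (Fin 6)) (v : ℕ → ℝ), FreeGroup.lift (fun i => P k h hi (f i)) (w2g w) v =
      (w.map fun i => (f i : ℕ)).foldr (G D k) v := by
    intro w v
    induction w with
    | nil => simp [w2g]
    | cons i w ih =>
      rw [show i :: w = [i] ++ w from rfl, w2g_append, map_mul, Equiv.Perm.mul_apply, ih,
        List.map_append, List.foldr_append]
      simp [w2g, P]
  have hrel' : ∀ r ∈ rels, FreeGroup.lift (fun i => P k h hi (f i)) r = 1 := by
    intro r hr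
    obtain ⟨w, N, rfl, hN⟩ := hrel r hr
    rw [map_pow]
    ext1 v
    have h1 : (FreeGroup.lift (fun i => P k h hi (f i)) (w2g w) ^ N) v =
        (fun v => (w.map fun i => (f i : ℕ)).foldr (G D k) v)^[N] v := by
      rw [show (fun v => (w.map fun i => (f i : ℕ)).foldr (G D k) v) =
        (FreeGroup.lift (fun i => P k h hi (f i)) (w2g w) : (ℕ → ℝ) → (ℕ → ℝ)) from
          funext fun v => (hw w v).symm, Equiv.Perm.iterate_eq_pow]
    rw [h1, hN, Equiv.Perm.one_apply]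
  refine infinite_of_vec (PresentedGroup.toGroup hrel') (PresentedGroup.mk rels (w2g w0)) x
    (2 * k c) (by linarith) (fun a b => ?_)
  rw [show PresentedGroup.toGroup hrel' (PresentedGroup.mk rels (w2g w0)) =
    FreeGroup.lift (fun i => P k h hi (f i)) (w2g w0) from rfl, hw]
  exact cyc_sound k h _ (by
    intro i hi'
    rw [List.mem_map] at hi'
    obtain ⟨j, -, rfl⟩ := hi'
    exact (f j).isLt) c x hc a b

theorem invDB : invB DB = true := by decide +kernel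

theorem invDC : invB DC = true := by decide +kernel

/-- The element of infinite order for `[3,3,4,3,3]`. -/
def wB : List (Fin 6) :=
  [4] ++ ([0, 1, 2, 3, 2, 1, 0] ++ [1, 2, 3, 2, 1] ++ [4] ++ [1, 2, 3, 2, 1] ++
      [0, 1, 2, 3, 2, 1, 0]) ++
    ([1, 2, 3, 2, 1] ++ [2, 3, 2] ++ [3] ++ [5] ++ [4] ++ [5] ++ [3] ++ [2, 3, 2] ++
      [1, 2, 3, 2, 1]) ++
    ([0, 1, 2, 3, 2, 1, 0] ++ [2, 3, 2] ++ [3] ++ [5] ++ [4] ++ [5] ++ [3] ++ [2, 3, 2] ++
      [0, 1, 2, 3, 2, 1, 0])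

theorem cycB_B : cycB DB 0 (32, 62, 35, 61) (wB.map fun i => (i : ℕ)) = true := by decide +kernel

/-- The first element of infinite order for `[3,4,3,3,4]`. -/
def wC0 : List (Fin 6) :=
  [3] ++
    ([5, 4, 5] ++ [4] ++ [3] ++ [4] ++ [5, 4, 5]) ++
    ([4] ++ [0, 1, 2, 1, 0] ++ [1, 2, 1] ++ [2] ++ [3] ++ [2] ++ [1, 2, 1] ++ [0, 1, 2, 1, 0] ++ [4]) ++
    ([5, 4, 5] ++ [0, 1, 2, 1, 0] ++ [1, 2, 1] ++ [2] ++ [3] ++ [2] ++ [1, 2, 1] ++ [0, 1, 2, 1, 0] ++ [5, 4, 5])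

/-- The second element of infinite order for `[3,4,3,3,4]`. -/
def wC1 : List (Fin 6) :=
  [3] ++
    ([0, 1, 2, 1, 0] ++ [1, 2, 1] ++ [3] ++ [1, 2, 1] ++ [0, 1, 2, 1, 0]) ++
    ([5, 4, 5] ++ [4] ++ [1, 2, 1] ++ [2] ++ [3] ++ [2] ++ [1, 2, 1] ++ [4] ++ [5, 4, 5]) ++
    ([5, 4, 5] ++ [4] ++ [0, 1, 2, 1, 0] ++ [2] ++ [3] ++ [2] ++ [0, 1, 2, 1, 0] ++ [4] ++ [5, 4, 5])

theorem cycB_C0 : cycB DC 0 (32, 62, 35, 61) (wC0.map fun i => (i : ℕ)) = true := by
  decide +kernel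

theorem cycB_C1 : cycB DC 1 (32, 59, 44, 55) (wC1.map fun i => (i : ℕ)) = true := by
  decide +kernel

end Pool.Agent.Lib.MP_c2d01e_co.Lab
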