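import Pool.Agent.Lib.MP_c2d01e_co.EqDefs
import Pool.Agent.Lib.MP_c2d01e_co.LabGroup
import Pool.Agent.Lib.MP_c2d01e_co.GcdA
import Pool.Agent.Lib.MP_c2d01e_co.GcdY

/-!
# Infinite groups of the families (B) and (C) with equal lattices

Copies of the proofs of the hand-ins `InfiniteBC` and `GcdBC` (helper67) for the definitions of `EqDefs` (helper7).
-/

set_option autoImplicit false

namespace Pool.Agent.Lib.EqInf.L

open Pool.Agent.Lib.MP_c2d01e_co.EqDefs

open Pool.Agent.Lib.MP_c2d01e_co.Lab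

/-- The labels: class `0` has label `m₀`, class `1` has label `m₁`. -/
noncomputable def kk (m0 m1 : ℕ) (c : ℕ) : ℝ :=
  if c = 0 then 2 * Real.cos (Real.pi / m0) else 2 * Real.cos (Real.pi / m1)

theorem kk_zero (m0 m1 : ℕ) : kk m0 m1 0 = 2 * Real.cos (Real.pi / m0) := by
  simp [kk]

theorem kk_one (m0 m1 : ℕ) : kk m0 m1 1 = 2 * Real.cos (Real.pi / m1) := by
  simp [kk]

theorem one_le_cos {m : ℕ} (hm : 3 ≤ m) : 1 ≤ 2 * Real.cos (Real.pi / m) := by
  have h3 : (3 : ℝ) ≤ m := by exact_mod_cast hm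
  have h1 : Real.pi / m ≤ Real.pi / 3 :=
    div_le_div_of_nonneg_left Real.pi_pos.le (by norm_num) h3
  have h2 : Real.cos (Real.pi / 3) ≤ Real.cos (Real.pi / m) :=
    Real.cos_le_cos_of_nonneg_of_le_pi (by positivity) (by linarith [Real.pi_pos]) h1
  rw [Real.cos_pi_div_three] at h2
  linarith

theorem coxB_eq (i j : Fin 6) : coxB i j = coxL [2] i j := by
  revert i j
  decide +kernel

theorem coxC_eq (i j : Fin 6) : coxC i j = coxL [1, 4] i j := by
  revert i j
  decide +kernel

/-- The Coxeter relators act trivially. -/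
theorem cox_triv {D : Dat} (k : ℕ → ℝ) (h : Ok D 6) (L : List ℕ)
    (hT : ((List.range 6).all fun i => (List.range 6).all fun j =>
      trivB D (rep (coxL L i j) [i, j])) = true) (i j : Fin 6) (v : ℕ → ℝ) :
    (fun v => [(i : ℕ), (j : ℕ)].foldr (G D k) v)^[coxL L i j] v = v := by
  simp only [List.all_eq_true, List.mem_range] at hT
  have := triv_sound k h _ (fun x hx => ?_) (hT i i.isLt j j.isLt) v
  · rw [foldr_rep] at this
    exact this
  · have := mem_rep hx
    simp only [List.mem_cons, List.not_mem_nil, or_false] at this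
    rcases this with rfl | rfl
    · exact i.isLt
    · exact j.isLt

/-- The facet relation of family (B). -/
theorem facB (k : ℕ → ℝ) (s e m : ℕ) (hm : 2 ≤ m) (hk : k 1 = 2 * Real.cos (Real.pi / m))
    (hs : 2 * m ∣ s) (v : ℕ → ℝ) :
    (if e = 1 then (fun v => [0, 1, 2, 3, 2, 1, 4, 3, 2, 3, 4, 1, 2, 3, 2, 1].foldr (G DB k) v)^[s] v
      else (fun v => [0, 1, 2, 3, 2, 1, 4, 3, 2, 3, 4].foldr (G DB k) v)^[2 * s] v) = v := by
  split_ifs
  · exact pow_sound' k okB _ (by decide) m hm hk _ 2 powB_s1 s hs v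
  · exact pow_sound' k okB _ (by decide) m hm hk _ 4 powB_s2 (2 * s)
      (by obtain ⟨q, rfl⟩ := hs; exact ⟨q, by ring⟩) v

/-- The vertex-figure relation of family (B). -/
theorem verB (k : ℕ → ℝ) (t e m : ℕ) (hm : 2 ≤ m) (hk : k 0 = 2 * Real.cos (Real.pi / m))
    (ht : 2 * m ∣ t ∨ e ≠ 1 ∧ m ∣ t) (v : ℕ → ℝ) :
    (if e = 1 then (fun v => [5, 4, 3, 2, 3, 4, 1, 2, 3, 2, 1, 4, 3, 2, 3, 4].foldr (G DB k) v)^[t] v
      else (fun v => [5, 4, 3, 2, 3, 4, 1, 2, 3, 2, 1].foldr (G DB k) v)^[2 * t] v) = v := by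
  split_ifs with he
  · exact pow_sound' k okB _ (by decide) m hm hk _ 2 powB_t1 t (by tauto) v
  · refine pow_sound' k okB _ (by decide) m hm hk _ 2 powB_t2 (2 * t) ?_ v
    rcases ht with ⟨q, rfl⟩ | ⟨-, ⟨q, rfl⟩⟩
    · exact ⟨2 * q, by ring⟩
    · exact ⟨q, by ring⟩

/-- Family (B), first form. -/
theorem infinite_B (s k t l m0 m1 : ℕ) (h0 : 3 ≤ m0) (h1 : 2 ≤ m1) (hs : 2 * m1 ∣ s)
    (ht : 2 * m0 ∣ t ∨ l ≠ 1 ∧ m0 ∣ t) : Infinite (GamB s k t l) := by
  refine infinite_of_rep (kk m0 m1) okB invDB id _ ?_ wB 0 _ cycB_B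
    (by rw [kk_zero]; exact one_le_cos h0)
  rintro r (⟨i, j, rfl⟩ | hr)
  · refine ⟨[i, j], coxB i j, by simp [w2g, gen], fun v => ?_⟩
    rw [coxB_eq]
    exact cox_triv (kk m0 m1) okB [2] coxB_triv i j v
  · rcases hr with rfl | hr
    · have key := facB (kk m0 m1) s k m1 h1 (kk_one _ _) hs
      unfold facetB
      split_ifs with hk
      · refine ⟨[0, 1, 2, 3, 2, 1, 4, 3, 2, 3, 4, 1, 2, 3, 2, 1], s, ?_, fun v => ?_⟩
        · simp only [w2g, gen, sB, tB, List.map_cons, List.map_nil, List.prod_cons, List.prod_nil,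
            mul_one, mul_assoc]
        · have := key v
          rw [if_pos hk] at this
          exact this
      · refine ⟨[0, 1, 2, 3, 2, 1, 4, 3, 2, 3, 4], 2 * s, ?_, fun v => ?_⟩
        · simp only [w2g, gen, sB, tB, List.map_cons, List.map_nil, List.prod_cons, List.prod_nil,
            mul_one, mul_assoc]
        · have := key v
          rw [if_neg hk] at this
          exact this
    · rw [Set.mem_singleton_iff.1 hr]
      have key := verB (kk m0 m1) t l m0 (by omega) (kk_zero _ _) ht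
      unfold vertB
      split_ifs with hk
      · refine ⟨[5, 4, 3, 2, 3, 4, 1, 2, 3, 2, 1, 4, 3, 2, 3, 4], t, ?_, fun v => ?_⟩
        · simp only [w2g, gen, sB, tB, List.map_cons, List.map_nil, List.prod_cons, List.prod_nil,
            mul_one, mul_assoc]
        · have := key v
          rw [if_pos hk] at this
          exact this
      · refine ⟨[5, 4, 3, 2, 3, 4, 1, 2, 3, 2, 1], 2 * t, ?_, fun v => ?_⟩
        · simp only [w2g, gen, sB, tB, List.map_cons, List.map_nil, List.prod_cons, List.prod_nil,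
            mul_one, mul_assoc]
        · have := key v
          rw [if_neg hk] at this
          exact this

theorem coxB_rev (i j : Fin 6) : coxB i j = coxL [2] (Fin.rev i) (Fin.rev j) := by
  revert i j
  decide +kernel

theorem cycB_rev : cycB DB 0 (32, 62, 35, 61) ((wB.map Fin.rev).map fun i => ((Fin.rev i : Fin 6) : ℕ))
    = true := by
  decide +kernel

/-- Family (B), second form. -/
theorem infinite_B' (s k t l m0 m1 : ℕ) (h0 : 3 ≤ m0) (h1 : 2 ≤ m1) (hs : 2 * m1 ∣ s)
    (ht : 2 * m0 ∣ t ∨ l ≠ 1 ∧ m0 ∣ t) : Infinite (GamB t l s k) := by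
  refine infinite_of_rep (kk m0 m1) okB invDB Fin.rev _ ?_ (wB.map Fin.rev) 0 _ cycB_rev
    (by rw [kk_zero]; exact one_le_cos h0)
  rintro r (⟨i, j, rfl⟩ | hr)
  · refine ⟨[i, j], coxB i j, by simp [w2g, gen], fun v => ?_⟩
    rw [coxB_rev]
    exact cox_triv (kk m0 m1) okB [2] coxB_triv (Fin.rev i) (Fin.rev j) v
  · rcases hr with rfl | hr
    · have key := verB (kk m0 m1) t l m0 (by omega) (kk_zero _ _) ht
      unfold facetB
      split_ifs with hk
      · refine ⟨[0, 1, 2, 3, 2, 1, 4, 3, 2, 3, 4, 1, 2, 3, 2, 1], t, ?_, fun v => ?_⟩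
        · simp only [w2g, gen, sB, tB, List.map_cons, List.map_nil, List.prod_cons, List.prod_nil,
            mul_one, mul_assoc]
        · have := key v
          rw [if_pos hk] at this
          exact this
      · refine ⟨[0, 1, 2, 3, 2, 1, 4, 3, 2, 3, 4], 2 * t, ?_, fun v => ?_⟩
        · simp only [w2g, gen, sB, tB, List.map_cons, List.map_nil, List.prod_cons, List.prod_nil,
            mul_one, mul_assoc]
        · have := key v
          rw [if_neg hk] at this
          exact this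
    · rw [Set.mem_singleton_iff.1 hr]
      have key := facB (kk m0 m1) s k m1 h1 (kk_one _ _) hs
      unfold vertB
      split_ifs with hk
      · refine ⟨[5, 4, 3, 2, 3, 4, 1, 2, 3, 2, 1, 4, 3, 2, 3, 4], s, ?_, fun v => ?_⟩
        · simp only [w2g, gen, sB, tB, List.map_cons, List.map_nil, List.prod_cons, List.prod_nil,
            mul_one, mul_assoc]
        · have := key v
          rw [if_pos hk] at this
          exact this
      · refine ⟨[5, 4, 3, 2, 3, 4, 1, 2, 3, 2, 1], 2 * s, ?_, fun v => ?_⟩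
        · simp only [w2g, gen, sB, tB, List.map_cons, List.map_nil, List.prod_cons, List.prod_nil,
            mul_one, mul_assoc]
        · have := key v
          rw [if_neg hk] at this
          exact this

/-- Family (C). -/
theorem infinite_C (t k u l m0 m1 : ℕ) (h0 : 2 ≤ m0) (h1 : 2 ≤ m1) (h01 : 3 ≤ m0 ∨ 3 ≤ m1)
    (ht : 2 * m0 ∣ t ∨ k ≠ 1 ∧ m0 ∣ t) (hu : 2 * m1 ∣ u ∨ l ≠ 1 ∧ l ≠ 2 ∧ m1 ∣ u) :
    Infinite (GamC t k u l) := by
  have hrel : ∀ r ∈ relsC t k u l, ∃ (w : List (Fin 6)) (N : ℕ), r = w2g w ^ N ∧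
      ∀ v, (fun v => (w.map fun i => ((id i : Fin 6) : ℕ)).foldr (G DC (kk m0 m1)) v)^[N] v = v := by
    rintro r (⟨i, j, rfl⟩ | hr)
    · refine ⟨[i, j], coxC i j, by simp [w2g, gen], fun v => ?_⟩
      rw [coxC_eq]
      exact cox_triv (kk m0 m1) okC [1, 4] coxC_triv i j v
    · rcases hr with rfl | hr
      · unfold facetC
        split_ifs with hk
        · refine ⟨[4, 3, 2, 1, 2, 3, 0, 1, 2, 1, 0, 3, 2, 1, 2, 3], t, ?_, fun v => ?_⟩
          · simp only [w2g, gen, sC, tC, List.map_cons, List.map_nil, List.prod_cons,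
              List.prod_nil, mul_one, mul_assoc]
          · exact pow_sound' (kk m0 m1) okC _ (by decide) m0 h0 (kk_zero _ _) _ 2 powC_t1 t
              (by tauto) v
        · refine ⟨[4, 3, 2, 1, 2, 3, 0, 1, 2, 1, 0], 2 * t, ?_, fun v => ?_⟩
          · simp only [w2g, gen, sC, tC, List.map_cons, List.map_nil, List.prod_cons,
              List.prod_nil, mul_one, mul_assoc]
          · refine pow_sound' (kk m0 m1) okC _ (by decide) m0 h0 (kk_zero _ _) _ 2 powC_t2 (2 * t)
              ?_ v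
            rcases ht with ⟨q, rfl⟩ | ⟨-, ⟨q, rfl⟩⟩
            · exact ⟨2 * q, by ring⟩
            · exact ⟨q, by ring⟩
      · rw [Set.mem_singleton_iff.1 hr]
        unfold vertC
        split_ifs with hl1 hl2
        · refine ⟨[1, 2, 3, 4, 5, 4, 3, 2], u, ?_, fun v => ?_⟩
          · simp only [w2g, gen, List.map_cons, List.map_nil, List.prod_cons,
              List.prod_nil, mul_one, mul_assoc]
          · exact pow_sound' (kk m0 m1) okC _ (by decide) m1 h1 (kk_one _ _) _ 2 powC_u1 u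
              (by tauto) v
        · refine ⟨[1, 2, 3, 4, 5, 4, 3], 2 * u, ?_, fun v => ?_⟩
          · simp only [w2g, gen, List.map_cons, List.map_nil, List.prod_cons,
              List.prod_nil, mul_one, mul_assoc]
          · refine pow_sound' (kk m0 m1) okC _ (by decide) m1 h1 (kk_one _ _) _ 4 powC_u2 (2 * u)
              ?_ v
            rcases hu with ⟨q, rfl⟩ | h
            · exact ⟨q, by ring⟩
            · exact absurd hl2 h.2.1
        · refine ⟨[1, 2, 3, 4, 5], 4 * u, ?_, fun v => ?_⟩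
          · simp only [w2g, gen, List.map_cons, List.map_nil, List.prod_cons,
              List.prod_nil, mul_one, mul_assoc]
          · refine pow_sound' (kk m0 m1) okC _ (by decide) m1 h1 (kk_one _ _) _ 4 powC_u4 (4 * u)
              ?_ v
            rcases hu with ⟨q, rfl⟩ | ⟨-, -, ⟨q, rfl⟩⟩
            · exact ⟨2 * q, by ring⟩
            · exact ⟨q, by ring⟩
  rcases h01 with h | h
  · exact infinite_of_rep (kk m0 m1) okC invDC id _ hrel wC0 0 _ cycB_C0
      (by rw [kk_zero]; exact one_le_cos h)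
  · exact infinite_of_rep (kk m0 m1) okC invDC id _ hrel wC1 1 _ cycB_C1
      (by rw [kk_one]; exact one_le_cos h)


end Pool.Agent.Lib.EqInf.L

namespace Pool.Agent.Lib.EqInf.H

open Pool.Agent.Lib.MP_c2d01e_co.EqDefs

open Pool.Agent.Lib.MP_c2d01e_co.GcdW
open Pool.Agent.Lib.MP_c2d01e_co.GcdA (Gam rho rels extra sigma tau cox infinite_one infinite_two)

/-! ### The groups of family (A) -/

theorem rc (n k : ℕ) (i j : Fin 6) (m : ℕ) (hm : cox i j = m) : (rho n k i * rho n k j) ^ m = 1 := by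
  subst hm
  have h : PresentedGroup.mk (rels n k) ((Pool.Agent.Lib.MP_c2d01e_co.GcdA.gen i *
      Pool.Agent.Lib.MP_c2d01e_co.GcdA.gen j) ^ cox i j) = 1 :=
    PresentedGroup.one_of_mem (Or.inl ⟨i, j, rfl⟩)
  rw [map_pow, map_mul] at h
  exact h

theorem rsq (n k : ℕ) (i : Fin 6) : rho n k i * rho n k i = 1 := by
  have h := rc n k i i 1 (by rw [cox, if_pos rfl])
  rwa [pow_one] at h

theorem rel (n k : ℕ) :
    Rel (rho n k 0) (rho n k 1) (rho n k 2) (rho n k 3) (rho n k 4) (rho n k 5) where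
  aa := rsq n k 0
  bb := rsq n k 1
  cc := rsq n k 2
  dd := rsq n k 3
  ee := rsq n k 4
  ff := rsq n k 5
  aba := q3 (rsq n k 0) (rsq n k 1) (rc n k 0 1 3 (by decide))
  bcb := q3 (rsq n k 1) (rsq n k 2) (rc n k 1 2 3 (by decide))
  cdc := q3 (rsq n k 2) (rsq n k 3) (rc n k 2 3 3 (by decide))
  dede := q4 (rsq n k 3) (rsq n k 4) (rc n k 3 4 4 (by decide))
  efe := q3 (rsq n k 4) (rsq n k 5) (rc n k 4 5 3 (by decide))
  ac := q2 (rsq n k 0) (rsq n k 2) (rc n k 0 2 2 (by decide))
  ad := q2 (rsq n k 0) (rsq n k 3) (rc n k 0 3 2 (by decide))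
  ae := q2 (rsq n k 0) (rsq n k 4) (rc n k 0 4 2 (by decide))
  af := q2 (rsq n k 0) (rsq n k 5) (rc n k 0 5 2 (by decide))
  bd := q2 (rsq n k 1) (rsq n k 3) (rc n k 1 3 2 (by decide))
  be := q2 (rsq n k 1) (rsq n k 4) (rc n k 1 4 2 (by decide))
  bf := q2 (rsq n k 1) (rsq n k 5) (rc n k 1 5 2 (by decide))
  ce := q2 (rsq n k 2) (rsq n k 4) (rc n k 2 4 2 (by decide))
  cf := q2 (rsq n k 2) (rsq n k 5) (rc n k 2 5 2 (by decide))
  df := q2 (rsq n k 3) (rsq n k 5) (rc n k 3 5 2 (by decide))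

/-- `T ^ n = 1` for the vector `(n,0,0,0)`. -/
theorem T_one (n : ℕ) : (tT (rho n 1 1) (sg (rho n 1 2) (rho n 1 3) (rho n 1 4))
    (ta (rho n 1 3) (rho n 1 4) (rho n 1 5))) ^ n = 1 := by
  have h : PresentedGroup.mk (rels n 1) (extra n 1) = 1 := PresentedGroup.one_of_mem (Or.inr rfl)
  rw [extra, if_pos rfl, map_pow] at h
  rw [← h]
  congr 1

/-- `X ^ n = 1` for the vector `(n,n,0,0)`. -/
theorem X_one (n : ℕ) : ((rho n 2 1 * sg (rho n 2 2) (rho n 2 3) (rho n 2 4) *
    ta (rho n 2 3) (rho n 2 4) (rho n 2 5)) * (rho n 2 1 * sg (rho n 2 2) (rho n 2 3) (rho n 2 4) *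
    ta (rho n 2 3) (rho n 2 4) (rho n 2 5))) ^ n = 1 := by
  have h : PresentedGroup.mk (rels n 2) (extra n 2) = 1 := PresentedGroup.one_of_mem (Or.inr rfl)
  rw [extra, if_neg (by norm_num), map_pow, pow_mul, pow_two] at h
  rw [← h]
  congr 1

/-- A finite subgroup cannot contain the six elements. -/
theorem absurd_of_fin {n k : ℕ} (hinf : Infinite (Gam n k)) (H : Subgroup (Gam n k)) (hH : Finite H)
    (hc : rho n k 2 ∈ H) (hd : rho n k 3 ∈ H) (he : rho n k 4 ∈ H) (hf : rho n k 5 ∈ H)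
    (hl : rho n k 1 * sg (rho n k 2) (rho n k 3) (rho n k 4) * rho n k 1 ∈ H)
    (hm : rho n k 0 * (rho n k 1 * sg (rho n k 2) (rho n k 3) (rho n k 4) * rho n k 1) *
      rho n k 0 ∈ H) : False := by
  have h1 : (Subgroup.closure {rho n k 2, rho n k 3, rho n k 4, rho n k 5,
      rho n k 1 * sg (rho n k 2) (rho n k 3) (rho n k 4) * rho n k 1,
      rho n k 0 * (rho n k 1 * sg (rho n k 2) (rho n k 3) (rho n k 4) * rho n k 1) *
      rho n k 0} : Set (Gam n k)).Finite := by
    have h2 : Subgroup.closure {rho n k 2, rho n k 3, rho n k 4, rho n k 5,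
      rho n k 1 * sg (rho n k 2) (rho n k 3) (rho n k 4) * rho n k 1,
      rho n k 0 * (rho n k 1 * sg (rho n k 2) (rho n k 3) (rho n k 4) * rho n k 1) *
      rho n k 0} ≤ H := by
      rw [Subgroup.closure_le]
      rintro x (rfl | rfl | rfl | rfl | rfl | rfl)
      exacts [hc, hd, he, hf, hl, hm]
    exact (Set.toFinite (H : Set (Gam n k))).subset h2
  have h3 := fin5 (rel n k) (fin4 (rel n k) h1)
  have h4 : Subgroup.closure {rho n k 0, rho n k 1, rho n k 2, rho n k 3, rho n k 4, rho n k 5} =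
      (⊤ : Subgroup (Gam n k)) := by
    rw [eq_top_iff, ← PresentedGroup.closure_range_of (rels n k), Subgroup.closure_le]
    rintro x ⟨i, rfl⟩
    refine Subgroup.subset_closure ?_
    fin_cases i <;> simp [rho]
  rw [h4] at h3
  exact Set.infinite_univ h3

/-! ### Family (B) -/

section B

variable {G : Type} [Group G]

/-- The images of the generators in family (B). -/
def rB (a b c d e f : G) : Fin 6 → G := ![b, c, d, e, f, a * (b * sg c d e * b) * a]

theorem rB0 (a b c d e f : G) : rB a b c d e f 0 = b := rfl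

theorem rB1 (a b c d e f : G) : rB a b c d e f 1 = c := rfl

theorem rB2 (a b c d e f : G) : rB a b c d e f 2 = d := rfl

theorem rB3 (a b c d e f : G) : rB a b c d e f 3 = e := rfl

theorem rB4 (a b c d e f : G) : rB a b c d e f 4 = f := rfl

theorem rB5 (a b c d e f : G) : rB a b c d e f 5 = a * (b * sg c d e * b) * a := rfl

theorem coxB_symm (i j : Fin 6) : coxB i j = coxB j i := by
  revert i j
  decide

theorem coxB_rev (i j : Fin 6) : coxB i j = coxB (Fin.rev i) (Fin.rev j) := by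
  revert i j
  decide

theorem rB_cox {a b c d e f : G} (h : Rel a b c d e f) (i j : Fin 6) :
    (rB a b c d e f i * rB a b c d e f j) ^ coxB i j = 1 := by
  refine coxall coxB_symm ?_ i j
  intro i j hij
  fin_cases i <;> fin_cases j
  · exact p1 h.bb
  · exact p3 h.bb h.cc h.bcb
  · exact p2 h.bb h.dd h.bd
  · exact p2 h.bb h.ee h.be
  · exact p2 h.bb h.ff h.bf
  · exact p2 h.bb (L1L1 h) (bL1 h)
  · exact absurd hij (by decide)
  · exact p1 h.cc
  · exact p3 h.cc h.dd h.cdc
  · exact p2 h.cc h.ee h.ce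
  · exact p2 h.cc h.ff h.cf
  · exact p2 h.cc (L1L1 h) (cL1 h)
  · exact absurd hij (by decide)
  · exact absurd hij (by decide)
  · exact p1 h.dd
  · exact p4 h.dd h.ee h.dede
  · exact p2 h.dd h.ff h.df
  · exact p2 h.dd (L1L1 h) (dL1 h)
  · exact absurd hij (by decide)
  · exact absurd hij (by decide)
  · exact absurd hij (by decide)
  · exact p1 h.ee
  · exact p3 h.ee h.ff h.efe
  · exact p2 h.ee (L1L1 h) (eL1 h)
  · exact absurd hij (by decide)
  · exact absurd hij (by decide)
  · exact absurd hij (by decide)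
  · exact absurd hij (by decide)
  · exact p1 h.ff
  · exact p3 h.ff (L1L1 h) (fL1 h)
  · exact absurd hij (by decide)
  · exact absurd hij (by decide)
  · exact absurd hij (by decide)
  · exact absurd hij (by decide)
  · exact absurd hij (by decide)
  · exact p1 (L1L1 h)

theorem facB {a b c d e f : G} (s k : ℕ)
    (hT : k = 1 → (tT b (sg c d e) (ta d e f)) ^ s = 1)
    (hX : ((b * sg c d e * ta d e f) * (b * sg c d e * ta d e f)) ^ s = 1) :
    FreeGroup.lift (rB a b c d e f) (facetB s k) = 1 := by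
  unfold facetB
  split_ifs with hk
  · rw [map_pow, ← hT hk]
    congr 1
    simp only [sB, tB, gen, tT, sg, ta, map_mul, FreeGroup.lift_apply_of, rB0, rB1, rB2, rB3, rB4,
      mul_assoc]
  · rw [map_pow, ← hX, pow_mul, pow_two]
    congr 1
    simp only [sB, tB, gen, sg, ta, map_mul, FreeGroup.lift_apply_of, rB0, rB1, rB2, rB3, rB4,
      mul_assoc]

theorem verB {a b c d e f : G} (h : Rel a b c d e f) (t l : ℕ)
    (hX : ((b * sg c d e * ta d e f) * (b * sg c d e * ta d e f)) ^ t = 1) :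
    FreeGroup.lift (rB a b c d e f) (vertB t l) = 1 := by
  unfold vertB
  split_ifs with hk
  · rw [map_pow, ← vB1 h t hX]
    congr 1
    simp only [sB, tB, gen, sg, ta, map_mul, FreeGroup.lift_apply_of, rB1, rB2, rB3, rB4, rB5,
      mul_assoc]
  · rw [map_pow, ← vB2 h t hX]
    congr 1
    simp only [sB, tB, gen, sg, ta, map_mul, FreeGroup.lift_apply_of, rB1, rB2, rB3, rB4, rB5,
      mul_assoc]

/-- Reversing the generators exchanges facets and vertex-figures. -/
theorem facB_rev (r : Fin 6 → G) (s k : ℕ) :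
    FreeGroup.lift (fun i => r (Fin.rev i)) (facetB s k) = FreeGroup.lift r (vertB s k) := by
  unfold facetB vertB
  split_ifs with hk
  · simp only [sB, tB, gen, map_pow, map_mul, FreeGroup.lift_apply_of]
    rfl
  · simp only [sB, tB, gen, map_pow, map_mul, FreeGroup.lift_apply_of]
    rfl

theorem verB_rev (r : Fin 6 → G) (s k : ℕ) :
    FreeGroup.lift (fun i => r (Fin.rev i)) (vertB s k) = FreeGroup.lift r (facetB s k) := by
  unfold facetB vertB
  split_ifs with hk
  · simp only [sB, tB, gen, map_pow, map_mul, FreeGroup.lift_apply_of]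
    rfl
  · simp only [sB, tB, gen, map_pow, map_mul, FreeGroup.lift_apply_of]
    rfl

end B

/-- The subgroup argument for family (B). -/
theorem infB {n k' : ℕ} (hinf : Infinite (Gam n k')) {s k t l : ℕ} (r : Fin 6 → Gam n k')
    (hr : ∀ i : Fin 6, ∃ j : Fin 6, r j = rB (rho n k' 0) (rho n k' 1) (rho n k' 2) (rho n k' 3)
      (rho n k' 4) (rho n k' 5) i)
    (h : ∀ x ∈ relsB s k t l, FreeGroup.lift r x = 1) : Infinite (GamB s k t l) := by
  by_contra hcon
  rw [not_infinite_iff_finite] at hcon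
  have hH : Finite (PresentedGroup.toGroup h).range :=
    Finite.of_surjective _ (PresentedGroup.toGroup h).rangeRestrict_surjective
  have hm : ∀ i : Fin 6, rB (rho n k' 0) (rho n k' 1) (rho n k' 2) (rho n k' 3)
      (rho n k' 4) (rho n k' 5) i ∈ (PresentedGroup.toGroup h).range := by
    intro i
    obtain ⟨j, hj⟩ := hr i
    exact ⟨PresentedGroup.of j, by rw [PresentedGroup.toGroup.of, hj]⟩
  have hb : rho n k' 1 ∈ (PresentedGroup.toGroup h).range := hm 0
  have hc : rho n k' 2 ∈ (PresentedGroup.toGroup h).range := hm 1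
  have hd : rho n k' 3 ∈ (PresentedGroup.toGroup h).range := hm 2
  have he : rho n k' 4 ∈ (PresentedGroup.toGroup h).range := hm 3
  have hf : rho n k' 5 ∈ (PresentedGroup.toGroup h).range := hm 4
  have hs : sg (rho n k' 2) (rho n k' 3) (rho n k' 4) ∈ (PresentedGroup.toGroup h).range :=
    mul_mem (mul_mem hc (mul_mem (mul_mem hd he) hd)) hc
  exact absurd_of_fin hinf _ hH hc hd he hf (mul_mem (mul_mem hb hs) hb) (hm 5)

theorem infB1 {n k' : ℕ} (hinf : Infinite (Gam n k')) {s k t l : ℕ}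
    (hT : k = 1 → (tT (rho n k' 1) (sg (rho n k' 2) (rho n k' 3) (rho n k' 4))
      (ta (rho n k' 3) (rho n k' 4) (rho n k' 5))) ^ s = 1)
    (hXs : ((rho n k' 1 * sg (rho n k' 2) (rho n k' 3) (rho n k' 4) *
      ta (rho n k' 3) (rho n k' 4) (rho n k' 5)) * (rho n k' 1 *
      sg (rho n k' 2) (rho n k' 3) (rho n k' 4) * ta (rho n k' 3) (rho n k' 4) (rho n k' 5))) ^ s = 1)
    (hXt : ((rho n k' 1 * sg (rho n k' 2) (rho n k' 3) (rho n k' 4) *
      ta (rho n k' 3) (rho n k' 4) (rho n k' 5)) * (rho n k' 1 *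
      sg (rho n k' 2) (rho n k' 3) (rho n k' 4) * ta (rho n k' 3) (rho n k' 4) (rho n k' 5))) ^ t = 1) :
    Infinite (GamB s k t l) ∧ Infinite (GamB t l s k) := by
  constructor
  · refine infB hinf (rB (rho n k' 0) (rho n k' 1) (rho n k' 2) (rho n k' 3)
      (rho n k' 4) (rho n k' 5)) (fun i => ⟨i, rfl⟩) ?_
    rintro x (⟨i, j, rfl⟩ | hx | hx)
    · rw [map_pow, map_mul, gen, gen, FreeGroup.lift_apply_of, FreeGroup.lift_apply_of]
      exact rB_cox (rel n k') i j
    · rw [hx]
      exact facB s k hT hXs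
    · rw [Set.mem_singleton_iff.1 hx]
      exact verB (rel n k') t l hXt
  · refine infB hinf (fun i => rB (rho n k' 0) (rho n k' 1) (rho n k' 2) (rho n k' 3)
      (rho n k' 4) (rho n k' 5) (Fin.rev i)) (fun i => ⟨Fin.rev i, by rw [Fin.rev_rev]⟩) ?_
    rintro x (⟨i, j, rfl⟩ | hx | hx)
    · rw [map_pow, map_mul, gen, gen, FreeGroup.lift_apply_of, FreeGroup.lift_apply_of, coxB_rev]
      exact rB_cox (rel n k') _ _
    · rw [hx, facB_rev]
      exact verB (rel n k') t l hXt
    · rw [Set.mem_singleton_iff.1 hx, verB_rev]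
      exact facB s k hT hXs

/-! ### Family (C) -/

section C

variable {G : Type} [Group G]

/-- The images of the generators in family (C). -/
def rC (a b c d e f : G) : Fin 6 → G := ![c, d, e, f, b * sg c d e * b, a]

theorem rC0 (a b c d e f : G) : rC a b c d e f 0 = c := rfl

theorem rC1 (a b c d e f : G) : rC a b c d e f 1 = d := rfl

theorem rC2 (a b c d e f : G) : rC a b c d e f 2 = e := rfl

theorem rC3 (a b c d e f : G) : rC a b c d e f 3 = f := rfl

theorem rC4 (a b c d e f : G) : rC a b c d e f 4 = b * sg c d e * b := rfl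

theorem rC5 (a b c d e f : G) : rC a b c d e f 5 = a := rfl

theorem coxC_symm (i j : Fin 6) : coxC i j = coxC j i := by
  revert i j
  decide

theorem rC_cox {a b c d e f : G} (h : Rel a b c d e f) (i j : Fin 6) :
    (rC a b c d e f i * rC a b c d e f j) ^ coxC i j = 1 := by
  refine coxall coxC_symm ?_ i j
  intro i j hij
  fin_cases i <;> fin_cases j
  · exact p1 h.cc
  · exact p3 h.cc h.dd h.cdc
  · exact p2 h.cc h.ee h.ce
  · exact p2 h.cc h.ff h.cf
  · exact p2 h.cc (LL h) (cL h)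
  · exact p2 h.cc h.aa h.ac.symm
  · exact absurd hij (by decide)
  · exact p1 h.dd
  · exact p4 h.dd h.ee h.dede
  · exact p2 h.dd h.ff h.df
  · exact p2 h.dd (LL h) (dL h)
  · exact p2 h.dd h.aa h.ad.symm
  · exact absurd hij (by decide)
  · exact absurd hij (by decide)
  · exact p1 h.ee
  · exact p3 h.ee h.ff h.efe
  · exact p2 h.ee (LL h) (eL h)
  · exact p2 h.ee h.aa h.ae.symm
  · exact absurd hij (by decide)
  · exact absurd hij (by decide)
  · exact absurd hij (by decide)
  · exact p1 h.ff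
  · exact p3 h.ff (LL h) (fL h)
  · exact p2 h.ff h.aa h.af.symm
  · exact absurd hij (by decide)
  · exact absurd hij (by decide)
  · exact absurd hij (by decide)
  · exact absurd hij (by decide)
  · exact p1 (LL h)
  · exact p4 (LL h) h.aa (La h)
  · exact absurd hij (by decide)
  · exact absurd hij (by decide)
  · exact absurd hij (by decide)
  · exact absurd hij (by decide)
  · exact absurd hij (by decide)
  · exact p1 h.aa

theorem facC {a b c d e f : G} (h : Rel a b c d e f) (t k : ℕ)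
    (hX : ((b * sg c d e * ta d e f) * (b * sg c d e * ta d e f)) ^ t = 1) :
    FreeGroup.lift (rC a b c d e f) (facetC t k) = 1 := by
  unfold facetC
  split_ifs with hk
  · rw [map_pow, ← hX, X_eq h]
    congr 1
    simp only [sC, tC, gen, sg, ta, map_mul, FreeGroup.lift_apply_of, rC0, rC1, rC2, rC3, rC4,
      mul_assoc]
  · rw [map_pow, ← Y_pow h t hX]
    congr 1
    simp only [sC, tC, gen, sg, ta, map_mul, FreeGroup.lift_apply_of, rC0, rC1, rC2, rC3, rC4,
      mul_assoc]

theorem verC {a b c d e f : G} (h : Rel a b c d e f) (u l : ℕ)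
    (hT : l = 1 → (tT b (sg c d e) (ta d e f)) ^ u = 1)
    (hX : ((b * sg c d e * ta d e f) * (b * sg c d e * ta d e f)) ^ u = 1) :
    FreeGroup.lift (rC a b c d e f) (vertC u l) = 1 := by
  unfold vertC
  split_ifs with hl hl2
  · rw [map_pow, ← vC1 h u (hT hl)]
    congr 1
    simp only [gen, map_mul, FreeGroup.lift_apply_of, rC1, rC2, rC3, rC4, rC5, sg, mul_assoc]
  · rw [map_pow, ← vC2 h u hX]
    congr 1
    simp only [gen, map_mul, FreeGroup.lift_apply_of, rC1, rC2, rC3, rC4, rC5, sg, mul_assoc]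
  · rw [map_pow, ← vC4 h u hX]
    congr 1
    simp only [gen, map_mul, FreeGroup.lift_apply_of, rC1, rC2, rC3, rC4, rC5, sg, mul_assoc]

end C

theorem infC {n k' : ℕ} (hinf : Infinite (Gam n k')) {t k u l : ℕ}
    (hT : l = 1 → (tT (rho n k' 1) (sg (rho n k' 2) (rho n k' 3) (rho n k' 4))
      (ta (rho n k' 3) (rho n k' 4) (rho n k' 5))) ^ u = 1)
    (hXt : ((rho n k' 1 * sg (rho n k' 2) (rho n k' 3) (rho n k' 4) *
      ta (rho n k' 3) (rho n k' 4) (rho n k' 5)) * (rho n k' 1 *
      sg (rho n k' 2) (rho n k' 3) (rho n k' 4) * ta (rho n k' 3) (rho n k' 4) (rho n k' 5))) ^ t = 1)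
    (hXu : ((rho n k' 1 * sg (rho n k' 2) (rho n k' 3) (rho n k' 4) *
      ta (rho n k' 3) (rho n k' 4) (rho n k' 5)) * (rho n k' 1 *
      sg (rho n k' 2) (rho n k' 3) (rho n k' 4) * ta (rho n k' 3) (rho n k' 4) (rho n k' 5))) ^ u = 1) :
    Infinite (GamC t k u l) := by
  have h : ∀ x ∈ relsC t k u l, FreeGroup.lift (rC (rho n k' 0) (rho n k' 1) (rho n k' 2)
      (rho n k' 3) (rho n k' 4) (rho n k' 5)) x = 1 := by
    rintro x (⟨i, j, rfl⟩ | hx | hx)
    · rw [map_pow, map_mul, gen, gen, FreeGroup.lift_apply_of, FreeGroup.lift_apply_of]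
      exact rC_cox (rel n k') i j
    · rw [hx]
      exact facC (rel n k') t k hXt
    · rw [Set.mem_singleton_iff.1 hx]
      exact verC (rel n k') u l hT hXu
  by_contra hcon
  rw [not_infinite_iff_finite] at hcon
  have hH : Finite (PresentedGroup.toGroup h).range :=
    Finite.of_surjective _ (PresentedGroup.toGroup h).rangeRestrict_surjective
  have hm : ∀ i : Fin 6, rC (rho n k' 0) (rho n k' 1) (rho n k' 2) (rho n k' 3)
      (rho n k' 4) (rho n k' 5) i ∈ (PresentedGroup.toGroup h).range :=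
    fun i => ⟨PresentedGroup.of i, by rw [PresentedGroup.toGroup.of]⟩
  have ha : rho n k' 0 ∈ (PresentedGroup.toGroup h).range := hm 5
  have hl : rho n k' 1 * sg (rho n k' 2) (rho n k' 3) (rho n k' 4) * rho n k' 1 ∈
      (PresentedGroup.toGroup h).range := hm 4
  exact absurd_of_fin hinf _ hH (hm 0) (hm 1) (hm 2) (hm 3) hl (mul_mem (mul_mem ha hl) ha)

/-- Powers. -/
theorem pow_dvd {G : Type} [Group G] {x : G} {n m : ℕ} (hx : x ^ n = 1) (h : n ∣ m) : x ^ m = 1 := by
  obtain ⟨q, rfl⟩ := h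
  rw [pow_mul, hx, one_pow]


end Pool.Agent.Lib.EqInf.H

namespace Pool.Agent.Lib.MP_c2d01e_co.InfEq

open Pool.Agent.Lib.EqInf

/-- The infinite groups of the four families. -/
theorem infEq : (∀ n : ℕ, 4 ≤ n → Infinite (EqDefs.GamB n 2 n 1)) ∧
    (∀ n : ℕ, 3 ≤ n → Infinite (EqDefs.GamB (2 * n) 1 n 2)) ∧
    (∀ n : ℕ, 4 ≤ n → Infinite (EqDefs.GamC n 1 n 2)) ∧
    (∀ n : ℕ, 3 ≤ n → Infinite (EqDefs.GamC n 2 n 4)) := by
  refine ⟨fun n hn => ?_, fun n hn => ?_, fun n hn => ?_, fun n hn => ?_⟩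
  · have e2 := H.X_one n
    exact (H.infB1 (Pool.Agent.Lib.MP_c2d01e_co.GcdA.infinite_two _ hn) (fun h1 => absurd h1 (by omega))
      e2 e2).1
  · exact L.infinite_B (2 * n) 1 n 2 n n hn (by omega) dvd_rfl (Or.inr ⟨by norm_num, dvd_rfl⟩)
  · have e2 := H.X_one n
    exact H.infC (Pool.Agent.Lib.MP_c2d01e_co.GcdA.infinite_two _ hn) (fun h1 => absurd h1 (by omega)) e2 e2
  · exact L.infinite_C n 2 n 4 n n (by omega) (by omega) (Or.inl hn)
      (Or.inr ⟨by norm_num, dvd_rfl⟩) (Or.inr ⟨by norm_num, by norm_num, dvd_rfl⟩)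

end Pool.Agent.Lib.MP_c2d01e_co.InfEq
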