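import Pool.Agent.Lib.MP_c2d01e_co.Sep

/-!
# The two families of levels
-/

namespace Pool.Agent.Lib.MP_c2d01e_co

theorem dvd_of_eq' {a b c : ℤ} (h : a ∣ b) (e : c = b) : a ∣ c := e ▸ h

theorem emod_uniq {m t r q : ℤ} (h0 : 0 ≤ r) (h1 : r < m) (h : t = r + m * q) : t % m = r := by
  rw [h, Int.add_mul_emod_self_left, Int.emod_eq_of_lt h0 h1]

theorem dn_eq (n t : ℤ) : dn n t = if t % n = 0 then 1 else 0 := by
  unfold dn
  by_cases h : n ∣ t
  · rw [if_pos h, if_pos (Int.emod_eq_zero_of_dvd h)]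
  · rw [if_neg h, if_neg fun h' => h (Int.dvd_of_emod_eq_zero h')]

/-- The reduction of `a - k`, for `0 ≤ k ≤ m`. -/
theorem emod_sub {m a k : ℤ} (hm : 0 < m) (hk0 : 0 ≤ k) (hk : k ≤ m) :
    (a - k) % m = if a % m < k then a % m - k + m else a % m - k := by
  have h1 := Int.emod_nonneg a hm.ne'
  have h2 := Int.emod_lt_of_pos a hm
  have h3 := Int.emod_add_mul_ediv a m
  split_ifs with h
  · apply emod_uniq (q := a / m - 1) (by omega) (by omega)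
    linear_combination -h3
  · apply emod_uniq (q := a / m) (by omega) (by omega)
    linear_combination -h3

theorem emod_neg {m a : ℤ} (hm : 0 < m) :
    (-a) % m = if a % m = 0 then 0 else m - a % m := by
  have h1 := Int.emod_nonneg a hm.ne'
  have h2 := Int.emod_lt_of_pos a hm
  have h3 := Int.emod_add_mul_ediv a m
  split_ifs with h
  · apply emod_uniq (q := -(a / m)) (by omega) (by omega)
    rw [h] at h3
    linear_combination h3
  · apply emod_uniq (q := -(a / m) - 1) (by omega) (by omega)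
    linear_combination h3

/-! ### Odd levels -/

/-- The weight function of an odd level. -/
def Wo (m t : ℤ) : ℤ := if t % m = 0 then 0 else if t % m % 2 = 0 then -1 else 1

theorem Wo_neg {m : ℤ} (hm : 5 ≤ m) (h2 : m % 2 = 1) (t : ℤ) : Wo m (-t) = -Wo m t := by
  unfold Wo
  have h1 := Int.emod_nonneg t (show m ≠ 0 by omega)
  have h3 := Int.emod_lt_of_pos t (show 0 < m by omega)
  rw [emod_neg (by omega)]
  generalize t % m = r at *
  split_ifs <;> omega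

theorem Wo_per {m : ℤ} (t k : ℤ) : Wo m (t + m * k) = Wo m t := by
  unfold Wo
  rw [Int.add_mul_emod_self_left]

theorem Wo_T {m : ℤ} (hm : 5 ≤ m) (h2 : m % 2 = 1) (a : ℤ) : Wo m a - Wo m (a - 2) =
    2 * dn m (a - 1) - (dn m a + dn m (a - 2)) := by
  unfold Wo
  have h1 := Int.emod_nonneg a (show m ≠ 0 by omega)
  have h3 := Int.emod_lt_of_pos a (show 0 < m by omega)
  simp only [dn_eq]
  rw [emod_sub (k := 2) (by omega) (by omega) (by omega),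
    emod_sub (k := 1) (by omega) (by omega) (by omega)]
  generalize a % m = r at *
  split_ifs <;> omega

/-- The ideal `m H`. -/
def Ho (m : ℤ) : AddSubgroup H4 where
  carrier := {y | m ∣ y.1 ∧ m ∣ y.2.1 ∧ m ∣ y.2.2.1 ∧ m ∣ y.2.2.2}
  zero_mem' := ⟨dvd_zero _, dvd_zero _, dvd_zero _, dvd_zero _⟩
  add_mem' := by
    rintro a b ⟨h1, h2, h3, h4⟩ ⟨k1, k2, k3, k4⟩
    exact ⟨dvd_add h1 k1, dvd_add h2 k2, dvd_add h3 k3, dvd_add h4 k4⟩
  neg_mem' := by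
    rintro a ⟨h1, h2, h3, h4⟩
    exact ⟨(dvd_neg).2 h1, (dvd_neg).2 h2, (dvd_neg).2 h3, (dvd_neg).2 h4⟩

theorem mem_Ho {m : ℤ} {y : H4} :
    y ∈ Ho m ↔ m ∣ y.1 ∧ m ∣ y.2.1 ∧ m ∣ y.2.2.1 ∧ m ∣ y.2.2.2 := Iff.rfl

/-- The odd level `m`. -/
def oddLvl (m : ℤ) (hm : 5 ≤ m) (h2 : m % 2 = 1) : Lvl where
  n := m
  c := 1
  e := 0
  H := Ho m
  W := Wo m
  one_mem := ⟨dvd_mul_left _ _, (dvd_neg).2 dvd_rfl, (dvd_neg).2 dvd_rfl, (dvd_neg).2 dvd_rfl⟩
  tr := fun _ h => h.1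
  cjm := fun _ h => ⟨(dvd_neg).2 h.1, dvd_add h.2.1 h.1, dvd_add h.2.2.1 h.1, dvd_add h.2.2.2 h.1⟩
  r2 := fun _ h => by
    obtain ⟨h1, h2, h3, h4⟩ := h
    have hs := dvd_add (dvd_add (dvd_add h1 h2) h3) h4
    exact ⟨dvd_add h1 hs, dvd_sub h2 hs, dvd_sub h3 hs, dvd_sub h4 hs⟩
  r3 := fun _ h => ⟨h.1, h.2.1, h.2.2.1, dvd_sub ((dvd_neg).2 h.1) h.2.2.2⟩
  r4 := fun _ h => ⟨h.1, h.2.1, h.2.2.2, h.2.2.1⟩
  r5 := fun _ h => ⟨h.1, h.2.2.1, h.2.1, h.2.2.2⟩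
  cx := fun x _ => by
    rw [sub_self, zero_smul]
    exact (Ho m).zero_mem
  c2 := by norm_num
  Wodd := Wo_neg hm h2
  Wper := Wo_per
  T := fun a => by
    rw [Wo_T hm h2 a]
    ring

/-! ### Even levels -/

/-- The weight function of an even level. -/
def We (m t : ℤ) : ℤ :=
  if t % (2 * m) % 2 = 0 then 0 else if t % (2 * m) < m then 1 else -1

theorem We_neg {m : ℤ} (hm : 4 ≤ m) (h2 : m % 2 = 0) (t : ℤ) : We m (-t) = -We m t := by
  unfold We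
  have h1 := Int.emod_nonneg t (show 2 * m ≠ 0 by omega)
  have h3 := Int.emod_lt_of_pos t (show 0 < 2 * m by omega)
  rw [emod_neg (by omega)]
  generalize t % (2 * m) = r at *
  split_ifs <;> omega

theorem We_per {m : ℤ} (t k : ℤ) : We m (t + 2 * m * k) = We m t := by
  unfold We
  rw [Int.add_mul_emod_self_left]

theorem We_T {m : ℤ} (hm : 4 ≤ m) (h2 : m % 2 = 0) (a : ℤ) : We m a - We m (a - 2) =
    2 * dn (2 * m) (a - 1) - 2 * dn (2 * m) (a - (m + 1)) := by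
  unfold We
  have h1 := Int.emod_nonneg a (show 2 * m ≠ 0 by omega)
  have h3 := Int.emod_lt_of_pos a (show 0 < 2 * m by omega)
  simp only [dn_eq]
  rw [emod_sub (k := 2) (by omega) (by omega) (by omega),
    emod_sub (k := 1) (by omega) (by omega) (by omega),
    emod_sub (k := m + 1) (by omega) (by omega) (by omega)]
  generalize a % (2 * m) = r at *
  split_ifs <;> omega

/-- The ideal `m (1 + i) H`. -/
def He (m : ℤ) : AddSubgroup H4 where
  carrier := {y | 2 * m ∣ y.1 ∧ m ∣ y.2.1 ∧ m ∣ y.2.2.1 ∧ m ∣ y.2.2.2 ∧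
    2 * m ∣ y.2.1 + y.2.2.1 + y.2.2.2}
  zero_mem' := ⟨dvd_zero _, dvd_zero _, dvd_zero _, dvd_zero _, dvd_zero _⟩
  add_mem' := by
    rintro a b ⟨h1, h2, h3, h4, h5⟩ ⟨k1, k2, k3, k4, k5⟩
    refine ⟨dvd_add h1 k1, dvd_add h2 k2, dvd_add h3 k3, dvd_add h4 k4, ?_⟩
    have h := dvd_add h5 k5
    simp only [Prod.fst_add, Prod.snd_add]
    refine dvd_of_eq' h ?_
    ring
  neg_mem' := by
    rintro a ⟨h1, h2, h3, h4, h5⟩
    refine ⟨(dvd_neg).2 h1, (dvd_neg).2 h2, (dvd_neg).2 h3, (dvd_neg).2 h4, ?_⟩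
    have h := (dvd_neg).2 h5
    simp only [Prod.fst_neg, Prod.snd_neg]
    refine dvd_of_eq' h ?_
    ring

theorem N2_even : ∀ x ∈ N2, (2 : ℤ) ∣ x.1 ∧ (2 : ℤ) ∣ x.2.1 + x.2.2.1 + x.2.2.2 := by
  decide +kernel

/-- The even level `2 m`. -/
def evenLvl (m : ℤ) (hm : 4 ≤ m) (h2 : m % 2 = 0) : Lvl where
  n := 2 * m
  c := m + 1
  e := 1
  H := He m
  W := We m
  one_mem := by
    refine ⟨⟨2, by ring⟩, ⟨-2, by ring⟩, ⟨-2, by ring⟩, ⟨-2, by ring⟩, ⟨-3, by ring⟩⟩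
  tr := fun _ h => h.1
  cjm := fun y h => by
    obtain ⟨h1, h2, h3, h4, h5⟩ := h
    have hm1 : m ∣ y.1 := (dvd_mul_left m 2).trans h1
    refine ⟨(dvd_neg).2 h1, dvd_add h2 hm1, dvd_add h3 hm1, dvd_add h4 hm1, ?_⟩
    have h := dvd_add h5 (dvd_mul_of_dvd_right h1 3)
    simp only [cj]
    refine dvd_of_eq' h ?_
    ring
  r2 := fun y h => by
    obtain ⟨p, x, y, z⟩ := y
    obtain ⟨h1, h2, h3, h4, h5⟩ := h
    simp only at h1 h2 h3 h4 h5
    have hs : 2 * m ∣ p + x + y + z := by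
      have h := dvd_add h1 h5
      refine dvd_of_eq' h ?_
      ring
    have hs1 : m ∣ p + x + y + z := (dvd_mul_left m 2).trans hs
    refine ⟨dvd_add h1 hs, dvd_sub h2 hs1, dvd_sub h3 hs1, dvd_sub h4 hs1, ?_⟩
    have h := dvd_sub h5 (dvd_mul_of_dvd_right hs 3)
    simp only [Rh, R]
    refine dvd_of_eq' h ?_
    ring
  r3 := fun y h => by
    obtain ⟨p, x, y, z⟩ := y
    obtain ⟨h1, h2, h3, h4, h5⟩ := h
    simp only at h1 h2 h3 h4 h5
    have hm1 : m ∣ p := (dvd_mul_left m 2).trans h1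
    refine ⟨h1, h2, h3, dvd_sub ((dvd_neg).2 hm1) h4, ?_⟩
    have h := dvd_sub (dvd_sub h5 h1) (mul_dvd_mul_left 2 h4)
    simp only [Rh, R]
    refine dvd_of_eq' h ?_
    ring
  r4 := fun y h => by
    obtain ⟨p, x, y, z⟩ := y
    obtain ⟨h1, h2, h3, h4, h5⟩ := h
    simp only at h1 h2 h3 h4 h5
    refine ⟨h1, h2, h4, h3, ?_⟩
    simp only [Rh, R]
    refine dvd_of_eq' h5 ?_
    ring
  r5 := fun y h => by
    obtain ⟨p, x, y, z⟩ := y
    obtain ⟨h1, h2, h3, h4, h5⟩ := h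
    simp only at h1 h2 h3 h4 h5
    refine ⟨h1, h3, h2, h4, ?_⟩
    simp only [Rh, R]
    refine dvd_of_eq' h5 ?_
    ring
  cx := fun x hx => by
    obtain ⟨⟨a, ha⟩, ⟨b, hb⟩⟩ := N2_even x hx
    rw [show m + 1 - 1 = m by ring]
    refine ⟨⟨a, ?_⟩, dvd_mul_right _ _, dvd_mul_right _ _, dvd_mul_right _ _, ⟨b, ?_⟩⟩
    · simp only [Prod.smul_fst, smul_eq_mul]
      rw [ha]
      ring
    · simp only [Prod.smul_fst, Prod.smul_snd, smul_eq_mul]
      linear_combination m * hb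
  c2 := ⟨1, by ring⟩
  Wodd := We_neg hm h2
  Wper := We_per
  T := fun a => by
    rw [We_T hm h2 a]
    ring

end Pool.Agent.Lib.MP_c2d01e_co
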