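import Mathlib

/-!
# Reflection representations of labelled graphs, with a word machine

A labelled graph on `0, …, N - 1` is given by the lists `nb z` of the neighbours of `z` together
with the class of the edge.  For real numbers `k c` (one for each class of edges) the reflection
`s z` changes the coordinate `z` of a vector `v` into `∑ k c * v w - v z`, the sum over the
neighbours `w` of `z`.  If `k c = 2 cos (π / m)` then `(s z s w)^m = 1` for neighbours `z, w` with an
edge of class `c`, and `s z, s w` commute if `z, w` are not neighbours.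

A generator `g i` is a product of reflections and a permutation of the coordinates (an automorphism
of the labelled graph).  The function `evalw` computes words in the generators, as a list of
reflections and a permutation; `red` reduces lists of reflections.
-/

set_option autoImplicit false

namespace Pool.Agent.Lib.MP_c2d01e_co.Lab

/-- A labelled graph and generators. -/
structure Dat where
  N : ℕ
  nb : ℕ → List (ℕ × ℕ)
  g : ℕ → List ℕ × (ℕ → ℕ)

variable (D : Dat) (k : ℕ → ℝ)

/-- The sum over the neighbours. -/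
noncomputable def sn (z : ℕ) (v : ℕ → ℝ) : ℝ := ((D.nb z).map fun p => k p.2 * v p.1).sum

open Classical in
/-- The reflection. -/
noncomputable def s (z : ℕ) (v : ℕ → ℝ) : ℕ → ℝ :=
  fun j => if j = z then sn D k z v - v z else v j

theorem s_self (z : ℕ) (v : ℕ → ℝ) : s D k z v z = sn D k z v - v z := by simp [s]

theorem s_ne {z j : ℕ} (h : j ≠ z) (v : ℕ → ℝ) : s D k z v j = v j := by simp [s, h]

theorem sn_congr (z : ℕ) {v w : ℕ → ℝ} (h : ∀ p ∈ D.nb z, v p.1 = w p.1) :
    sn D k z v = sn D k z w := by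
  unfold sn
  congr 1
  exact List.map_congr_left (fun p hp => by rw [h p hp])

theorem s_s {z : ℕ} (hz : ∀ p ∈ D.nb z, p.1 ≠ z) (v : ℕ → ℝ) : s D k z (s D k z v) = v := by
  funext j
  by_cases hj : j = z
  · subst hj
    rw [s_self, s_self, sn_congr D k j (w := v) (fun p hp => s_ne D k (hz p hp) v)]
    ring
  · rw [s_ne D k hj, s_ne D k hj]

theorem s_comm {z w : ℕ} (hne : z ≠ w) (hz : ∀ p ∈ D.nb z, p.1 ≠ w) (hw : ∀ p ∈ D.nb w, p.1 ≠ z)
    (v : ℕ → ℝ) : s D k z (s D k w v) = s D k w (s D k z v) := by
  funext j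
  by_cases hj : j = z
  · subst hj
    rw [s_self, s_ne D k hne, s_ne D k hne, s_self,
      sn_congr D k j (w := v) (fun p hp => s_ne D k (hz p hp) v)]
  · rw [s_ne D k hj]
    by_cases hj' : j = w
    · subst hj'
      rw [s_self, s_self, s_ne D k hj,
        sn_congr D k j (v := s D k z v) (w := v) (fun p hp => s_ne D k (hw p hp) v)]
    · rw [s_ne D k hj', s_ne D k hj', s_ne D k hj]

/-- The deviation from the fixed point. -/
noncomputable def dev (θ α β : ℝ) (x : ℝ) : ℝ :=
  (Real.sin (x * θ) * α - Real.sin ((x - 1) * θ) * β) / Real.sin θ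

theorem dev_rec (θ α β x : ℝ) :
    dev θ α β (x + 1) = 2 * Real.cos θ * dev θ α β x - dev θ α β (x - 1) := by
  have h : ∀ y : ℝ, Real.sin ((y + 1) * θ) = 2 * Real.cos θ * Real.sin (y * θ)
      - Real.sin ((y - 1) * θ) := by
    intro y
    rw [show (y + 1) * θ = y * θ + θ by ring, show (y - 1) * θ = y * θ - θ by ring, Real.sin_add,
      Real.sin_sub]
    ring
  unfold dev
  rw [h x, show (x + 1 - 1) * θ = (x - 1 + 1) * θ by ring, h (x - 1)]
  ring

/-- The dihedral relation. -/
theorem dihedral {z w : ℕ} (hne : z ≠ w) (m : ℕ) (hm : 2 ≤ m) (P Q : (ℕ → ℝ) → ℝ)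
    (hz : ∀ v, sn D k z v = 2 * Real.cos (Real.pi / m) * v w + P v)
    (hw : ∀ v, sn D k w v = 2 * Real.cos (Real.pi / m) * v z + Q v)
    (hP : ∀ v v' : ℕ → ℝ, (∀ j, j ≠ z → j ≠ w → v j = v' j) → P v = P v')
    (hQ : ∀ v v' : ℕ → ℝ, (∀ j, j ≠ z → j ≠ w → v j = v' j) → Q v = Q v') (v : ℕ → ℝ) :
    (fun v => s D k z (s D k w v))^[m] v = v := by
  set θ : ℝ := Real.pi / m with hθ
  have hm0 : (0 : ℝ) < m := by exact_mod_cast (by omega : 0 < m)
  have hθ0 : 0 < θ := by positivity
  have hθ1 : θ ≤ Real.pi / 2 := by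
    rw [hθ]
    apply div_le_div_of_nonneg_left Real.pi_pos.le (by norm_num)
    exact_mod_cast hm
  have hmθ : m * θ = Real.pi := by rw [hθ]; field_simp
  have hsin : Real.sin θ ≠ 0 := by
    apply ne_of_gt
    apply Real.sin_pos_of_pos_of_lt_pi hθ0
    have := Real.pi_pos
    linarith
  have hdet : 1 - Real.cos θ ^ 2 ≠ 0 := by
    have := Real.sin_sq_add_cos_sq θ
    have h2 : 1 - Real.cos θ ^ 2 = Real.sin θ ^ 2 := by linarith
    rw [h2]
    exact pow_ne_zero 2 hsin
  set C : ℝ := Real.cos θ with hC
  set a0 : ℝ := (P v + C * Q v) / (2 * (1 - C ^ 2)) with ha0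
  set b0 : ℝ := (Q v + C * P v) / (2 * (1 - C ^ 2)) with hb0
  have ea : 2 * a0 = 2 * C * b0 + P v := by
    rw [ha0, hb0]
    field_simp
    ring
  have eb : 2 * b0 = 2 * C * a0 + Q v := by
    rw [ha0, hb0]
    field_simp
    ring
  have key : ∀ n : ℕ, (fun v => s D k z (s D k w v))^[n] v = fun j =>
      if j = z then a0 + dev θ (v z - a0) (v w - b0) (2 * n + 1)
      else if j = w then b0 + dev θ (v z - a0) (v w - b0) (2 * n) else v j := by
    intro n
    induction n with
    | zero =>
      funext j
      simp only [Function.iterate_zero, id_eq, Nat.cast_zero, mul_zero, zero_add]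
      by_cases hj : j = z
      · subst hj
        simp only [if_true, dev, one_mul, sub_self, zero_mul, Real.sin_zero, sub_zero]
        field_simp
        ring
      · by_cases hj' : j = w
        · subst hj'
          simp only [hj, if_false, if_true, dev, zero_mul, Real.sin_zero, zero_sub, neg_mul,
            one_mul, Real.sin_neg]
          field_simp
          ring
        · simp [hj, hj']
    | succ n ih =>
      rw [Function.iterate_succ_apply', ih]
      set A : ℝ := dev θ (v z - a0) (v w - b0) (2 * n + 1) with hA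
      set B : ℝ := dev θ (v z - a0) (v w - b0) (2 * n) with hB
      have r1 : dev θ (v z - a0) (v w - b0) (2 * ((n + 1 : ℕ) : ℝ)) = 2 * C * A - B := by
        have := dev_rec θ (v z - a0) (v w - b0) (2 * n + 1)
        rw [show (2 * (n : ℝ) + 1 + 1) = 2 * ((n + 1 : ℕ) : ℝ) by push_cast; ring,
          show (2 * (n : ℝ) + 1 - 1) = 2 * n by ring] at this
        rw [this]
      have r2 : dev θ (v z - a0) (v w - b0) (2 * ((n + 1 : ℕ) : ℝ) + 1)
          = 2 * C * (2 * C * A - B) - A := by
        have := dev_rec θ (v z - a0) (v w - b0) (2 * ((n + 1 : ℕ) : ℝ))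
        rw [this, r1, show (2 * ((n + 1 : ℕ) : ℝ) - 1) = 2 * n + 1 by push_cast; ring]
      set u : ℕ → ℝ := fun j => if j = z then a0 + A else if j = w then b0 + B else v j with hu
      have huz : u z = a0 + A := by simp [hu]
      have huw : u w = b0 + B := by simp [hu, hne.symm]
      have hQu : Q u = Q v := hQ _ _ (fun j h1 h2 => by simp [hu, h1, h2])
      have h1 : s D k w u w = b0 + (2 * C * A - B) := by
        rw [s_self, hw, huz, huw, hQu]
        linarith
      have h1' : s D k w u z = a0 + A := by rw [s_ne D k hne, huz]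
      have hPu : P (s D k w u) = P v :=
        hP _ _ (fun j h1 h2 => by rw [s_ne D k h2]; simp [hu, h1, h2])
      funext j
      by_cases hj : j = z
      · subst hj
        rw [if_pos rfl, r2]
        rw [s_self, hz, h1, h1', hPu]
        linarith
      · rw [if_neg hj]
        rw [s_ne D k hj]
        by_cases hj' : j = w
        · subst hj'
          rw [if_pos rfl, r1, h1]
        · rw [if_neg hj', s_ne D k hj']
          simp [hu, hj, hj']
  rw [key m]
  have p1 : dev θ (v z - a0) (v w - b0) (2 * m + 1) = v z - a0 := by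
    unfold dev
    rw [show (2 * (m : ℝ) + 1) * θ = θ + 2 * Real.pi by rw [← hmθ]; ring,
      show (2 * (m : ℝ) + 1 - 1) * θ = 2 * Real.pi by rw [← hmθ]; ring, Real.sin_add_two_pi,
      Real.sin_two_pi]
    field_simp
    ring
  have p2 : dev θ (v z - a0) (v w - b0) (2 * m) = v w - b0 := by
    unfold dev
    rw [show (2 * (m : ℝ)) * θ = 2 * Real.pi by rw [← hmθ]; ring,
      show (2 * (m : ℝ) - 1) * θ = -θ + 2 * Real.pi by rw [← hmθ]; ring, Real.sin_add_two_pi,
      Real.sin_two_pi, Real.sin_neg]
    field_simp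
    ring
  funext j
  by_cases hj : j = z
  · subst hj
    rw [if_pos rfl, p1]; ring
  · rw [if_neg hj]
    by_cases hj' : j = w
    · subst hj'
      rw [if_pos rfl, p2]; ring
    · rw [if_neg hj']

/-! ### Lists of reflections -/

/-- The product of a list of reflections. -/
noncomputable def S (L : List ℕ) (v : ℕ → ℝ) : ℕ → ℝ := L.foldr (s D k) v

theorem S_nil (v : ℕ → ℝ) : S D k [] v = v := rfl

theorem S_cons (z : ℕ) (L : List ℕ) (v : ℕ → ℝ) : S D k (z :: L) v = s D k z (S D k L v) := rfl

theorem S_append (L L' : List ℕ) (v : ℕ → ℝ) : S D k (L ++ L') v = S D k L (S D k L' v) := by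
  simp [S, List.foldr_append]

/-- `z, w` are different and not neighbours. -/
def comm (z w : ℕ) : Bool :=
  (z != w) && ((D.nb z).all fun p => p.1 != w) && ((D.nb w).all fun p => p.1 != z)

theorem comm_sound {z w : ℕ} (h : comm D z w = true) (v : ℕ → ℝ) :
    s D k z (s D k w v) = s D k w (s D k z v) := by
  simp only [comm, Bool.and_eq_true, bne_iff_ne, ne_eq, List.all_eq_true] at h
  exact s_comm D k h.1.1 (fun p hp => h.1.2 p hp) (fun p hp => h.2 p hp) v

/-- Cancel `z` with a letter of the list, if possible. -/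
def go (z : ℕ) : List ℕ → Option (List ℕ)
  | [] => none
  | x :: R => if x = z then some R else if comm D z x then (go z R).map (x :: ·) else none

/-- Multiply a reduced list by a letter. -/
def push (z : ℕ) (R : List ℕ) : List ℕ := (go D z R).getD (z :: R)

/-- Reduction of a list. -/
def red (L : List ℕ) : List ℕ := L.foldr (push D) []

/-- No loops. -/
def NoLoop : Prop := ∀ z, ∀ p ∈ D.nb z, p.1 ≠ z

variable {D} in
theorem go_sound (hD : NoLoop D) (z : ℕ) (R R' : List ℕ) (h : go D z R = some R') (v : ℕ → ℝ) :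
    S D k R' v = s D k z (S D k R v) := by
  induction R generalizing R' with
  | nil => simp [go] at h
  | cons x R ih =>
    unfold go at h
    by_cases hx : x = z
    · rw [if_pos hx] at h
      simp only [Option.some.injEq] at h
      rw [← h, S_cons, hx, s_s D k (hD z)]
    · rw [if_neg hx] at h
      by_cases hc : comm D z x = true
      · rw [if_pos hc] at h
        rw [Option.map_eq_some_iff] at h
        obtain ⟨R'', h1, h2⟩ := h
        rw [← h2, S_cons, S_cons, ih R'' h1, comm_sound D k hc]
      · rw [if_neg hc] at h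
        exact absurd h (by simp)

variable {D} in
theorem push_sound (hD : NoLoop D) (z : ℕ) (R : List ℕ) (v : ℕ → ℝ) :
    S D k (push D z R) v = s D k z (S D k R v) := by
  unfold push
  cases h : go D z R with
  | none => rfl
  | some R' => exact go_sound k hD z R R' h v

variable {D} in
theorem red_sound (hD : NoLoop D) (L : List ℕ) (v : ℕ → ℝ) : S D k (red D L) v = S D k L v := by
  unfold red
  induction L with
  | nil => rfl
  | cons z L ih => rw [List.foldr_cons, push_sound k hD, ih, S_cons]

variable {D} in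
theorem S_reverse (hD : NoLoop D) (L : List ℕ) (v : ℕ → ℝ) :
    S D k L.reverse (S D k L v) = v := by
  induction L with
  | nil => rfl
  | cons z L ih =>
    rw [List.reverse_cons, S_append, S_cons, S_cons, S_nil, s_s D k (hD z), ih]

variable {D} in
theorem eq_of_red (hD : NoLoop D) (L F : List ℕ) (h : red D (L ++ F.reverse) = [])
    (v : ℕ → ℝ) : S D k L v = S D k F v := by
  have h1 := red_sound k hD (L ++ F.reverse) (S D k F v)
  rw [h, S_append, S_reverse k hD, S_nil] at h1
  exact h1.symm

/-! ### Powers of products of commuting pairs -/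

/-- The list of letters of a list of pairs. -/
def flat (PL : List (ℕ × ℕ)) : List ℕ := PL.flatMap fun p => [p.1, p.2]

/-- The two pairs are equal or all letters commute. -/
def pcomm (p q : ℕ × ℕ) : Bool :=
  decide (p = q) || (comm D p.1 q.1 && comm D p.1 q.2 && comm D p.2 q.1 && comm D p.2 q.2)

/-- The pair is an edge of class `c`. -/
def edge (c : ℕ) (p : ℕ × ℕ) : Bool :=
  (p.1 != p.2) && ((D.nb p.1).filter fun q => q.1 == p.2) == [(p.2, c)]
    && ((D.nb p.2).filter fun q => q.1 == p.1) == [(p.1, c)]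

/-- The product of a pair. -/
noncomputable def pr (p : ℕ × ℕ) (v : ℕ → ℝ) : ℕ → ℝ := s D k p.1 (s D k p.2 v)

theorem pcomm_sound {p q : ℕ × ℕ} (h : pcomm D p q = true) (v : ℕ → ℝ) :
    pr D k p (pr D k q v) = pr D k q (pr D k p v) := by
  simp only [pcomm, Bool.or_eq_true, decide_eq_true_eq, Bool.and_eq_true] at h
  rcases h with rfl | ⟨⟨⟨h1, h2⟩, h3⟩, h4⟩
  · rfl
  · unfold pr
    rw [comm_sound D k h3, comm_sound D k h1, comm_sound D k h4, comm_sound D k h2]

theorem sn_split (z w c : ℕ) (h : ((D.nb z).filter fun q => q.1 == w) = [(w, c)]) (v : ℕ → ℝ) :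
    sn D k z v = k c * v w
      + (((D.nb z).filter fun q => !(q.1 == w)).map fun p => k p.2 * v p.1).sum := by
  unfold sn
  have hp := (List.filter_append_perm (fun q : ℕ × ℕ => q.1 == w) (D.nb z)).symm
  rw [(hp.map _).sum_eq, List.map_append, List.sum_append, h]
  simp

variable {D} in
theorem edge_sound (hD : NoLoop D) {c : ℕ} {p : ℕ × ℕ} (h : edge D c p = true) (m : ℕ) (hm : 2 ≤ m)
    (hk : k c = 2 * Real.cos (Real.pi / m)) (v : ℕ → ℝ) : (pr D k p)^[m] v = v := by
  obtain ⟨z, w⟩ := p
  simp only [edge, Bool.and_eq_true, bne_iff_ne, ne_eq, beq_iff_eq] at h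
  obtain ⟨⟨hne, h1⟩, h2⟩ := h
  refine dihedral D k hne m hm
    (fun v => (((D.nb z).filter fun q => !(q.1 == w)).map fun p => k p.2 * v p.1).sum)
    (fun v => (((D.nb w).filter fun q => !(q.1 == z)).map fun p => k p.2 * v p.1).sum)
    (fun v => ?_) (fun v => ?_) ?_ ?_ v
  · rw [sn_split D k z w c h1, hk]
  · rw [sn_split D k w z c h2, hk]
  · intro v v' hv
    refine congrArg List.sum (List.map_congr_left (fun q hq => ?_))
    rw [List.mem_filter] at hq
    rw [hv q.1 (hD z q hq.1) (by simpa using hq.2)]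
  · intro v v' hv
    refine congrArg List.sum (List.map_congr_left (fun q hq => ?_))
    rw [List.mem_filter] at hq
    rw [hv q.1 (by simpa using hq.2) (hD w q hq.1)]

theorem S_flat_cons (p : ℕ × ℕ) (PL : List (ℕ × ℕ)) (v : ℕ → ℝ) :
    S D k (flat (p :: PL)) v = pr D k p (S D k (flat PL) v) := by
  simp [flat, S_cons, pr]

theorem flat_comm (p : ℕ × ℕ) (PL : List (ℕ × ℕ)) (h : ∀ q ∈ PL, pcomm D p q = true)
    (v : ℕ → ℝ) : pr D k p (S D k (flat PL) v) = S D k (flat PL) (pr D k p v) := by
  induction PL with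
  | nil => rfl
  | cons q PL ih =>
    rw [S_flat_cons, S_flat_cons, pcomm_sound D k (h q List.mem_cons_self),
      ih (fun q' hq' => h q' (List.mem_cons_of_mem _ hq'))]

/-- All pairs are edges of class `c`, and commute. -/
def okPairs (c : ℕ) (PL : List (ℕ × ℕ)) : Bool :=
  PL.all (edge D c) && PL.all fun p => PL.all fun q => pcomm D p q

variable {D} in
theorem flat_pow (hD : NoLoop D) {c : ℕ} (m : ℕ) (hm : 2 ≤ m)
    (hk : k c = 2 * Real.cos (Real.pi / m)) (PL : List (ℕ × ℕ)) (h : okPairs D c PL = true)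
    (v : ℕ → ℝ) : (S D k (flat PL))^[m] v = v := by
  simp only [okPairs, Bool.and_eq_true, List.all_eq_true] at h
  obtain ⟨h1, h2⟩ := h
  induction PL generalizing v with
  | nil =>
    have : S D k (flat []) = id := by funext v; rfl
    rw [this, Function.iterate_id]
    rfl
  | cons p PL ih =>
    have e : S D k (flat (p :: PL)) = pr D k p ∘ S D k (flat PL) := by
      funext v
      exact S_flat_cons D k p PL v
    have hc : Function.Commute (pr D k p) (S D k (flat PL)) := fun v =>
      flat_comm D k p PL (fun q hq => h2 p List.mem_cons_self q (List.mem_cons_of_mem _ hq)) v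
    rw [e, hc.comp_iterate, Function.comp_apply,
      ih _ (fun q hq => h1 q (List.mem_cons_of_mem _ hq))
        (fun q hq q' hq' => h2 q (List.mem_cons_of_mem _ hq) q' (List.mem_cons_of_mem _ hq')),
      edge_sound k hD (h1 p List.mem_cons_self) m hm hk]

/-! ### Permutations and words -/

/-- Action of a permutation. -/
def Q (τ : ℕ → ℕ) (v : ℕ → ℝ) : ℕ → ℝ := fun j => v (τ j)

/-- The function is an involutive automorphism of the labelled graph. -/
def okTab (τ : ℕ → ℕ) : Bool :=
  (List.range D.N).all fun z =>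
    decide (τ z < D.N) && (τ (τ z) == z)
      && ((D.nb (τ z)).map fun p => (τ p.1, p.2)).isPerm (D.nb z)

/-- The generator. -/
noncomputable def G (i : ℕ) (v : ℕ → ℝ) : ℕ → ℝ := S D k (D.g i).1 (Q (D.g i).2 v)

/-- The data are correct: no loops, nothing outside `0, …, N - 1`, correct permutations. -/
structure Ok (n : ℕ) : Prop where
  loop : NoLoop D
  tab : ∀ i < n, okTab D (D.g i).2 = true
  out : ∀ i < n, ∀ z, D.N ≤ z → (D.g i).2 z = z
  ref : ∀ i < n, ∀ z ∈ (D.g i).1, z < D.N

variable {D} {n : ℕ}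

theorem Q_s {τ : ℕ → ℕ} (hτ : okTab D τ = true) (hout : ∀ z, D.N ≤ z → τ z = z) (z : ℕ)
    (hz : z < D.N) (v : ℕ → ℝ) : Q τ (s D k z v) = s D k (τ z) (Q τ v) := by
  simp only [okTab, Bool.and_eq_true, beq_iff_eq, List.all_eq_true, List.mem_range,
    decide_eq_true_eq, List.isPerm_iff] at hτ
  obtain ⟨⟨hz1, hz2⟩, hz3⟩ := hτ z hz
  funext j
  by_cases hj : j = τ z
  · subst hj
    rw [s_self]
    change s D k z v (τ (τ z)) = _
    rw [hz2, s_self]
    have e1 : Q τ v (τ z) = v z := by
      change v (τ (τ z)) = _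
      rw [hz2]
    rw [e1]
    congr 1
    unfold sn
    rw [← (hz3.map _).sum_eq, List.map_map]
    rfl
  · rw [s_ne D k hj]
    change s D k z v (τ j) = v (τ j)
    apply s_ne
    intro hjz
    apply hj
    rcases lt_or_ge j D.N with hjN | hjN
    · have := (hτ j hjN).1.2
      rw [hjz] at this
      exact this.symm
    · rw [hout j hjN] at hjz
      omega

theorem Q_S {τ : ℕ → ℕ} (hτ : okTab D τ = true) (hout : ∀ z, D.N ≤ z → τ z = z) (L : List ℕ)
    (hL : ∀ z ∈ L, z < D.N) (v : ℕ → ℝ) :
    Q τ (S D k L v) = S D k (L.map τ) (Q τ v) := by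
  induction L with
  | nil => rfl
  | cons z L ih =>
    rw [S_cons, Q_s k hτ hout z (hL z List.mem_cons_self), List.map_cons, S_cons,
      ih (fun z' hz' => hL z' (List.mem_cons_of_mem _ hz'))]

variable (D) in
/-- The reflections of a word. -/
def evL (w : List ℕ) : List ℕ := w.foldr (fun i L => (D.g i).1 ++ L.map (D.g i).2) []

variable (D) in
/-- The permutation of a word. -/
def evT (w : List ℕ) (j : ℕ) : ℕ := w.foldl (fun j i => (D.g i).2 j) j

theorem okTab_lt {τ : ℕ → ℕ} (hτ : okTab D τ = true) {z : ℕ} (hz : z < D.N) : τ z < D.N := by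
  simp only [okTab, Bool.and_eq_true, List.all_eq_true, List.mem_range, decide_eq_true_eq] at hτ
  exact (hτ z hz).1.1

theorem evalw_sound (h : Ok D n) (w : List ℕ) (hw : ∀ i ∈ w, i < n) :
    (∀ z ∈ evL D w, z < D.N) ∧
      ∀ v, w.foldr (G D k) v = S D k (evL D w) (Q (evT D w) v) := by
  induction w with
  | nil => exact ⟨by simp [evL], fun v => rfl⟩
  | cons i w ih =>
    obtain ⟨h2, h3⟩ := ih (fun j hj => hw j (List.mem_cons_of_mem _ hj))
    have hi : i < n := hw i List.mem_cons_self
    have hτ := h.tab i hi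
    have e : evL D (i :: w) = (D.g i).1 ++ (evL D w).map (D.g i).2 := rfl
    refine ⟨?_, fun v => ?_⟩
    · rw [e]
      intro z hz
      simp only [List.mem_append, List.mem_map] at hz
      rcases hz with hz | ⟨y, hy, rfl⟩
      · exact h.ref i hi z hz
      · exact okTab_lt hτ (h2 y hy)
    · rw [List.foldr_cons, h3]
      unfold G
      rw [Q_S k hτ (h.out i hi) _ h2, ← S_append, e]
      rfl

theorem evT_out (h : Ok D n) (w : List ℕ) (hw : ∀ i ∈ w, i < n) (j : ℕ) (hj : D.N ≤ j) :
    evT D w j = j := by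
  unfold evT
  induction w with
  | nil => rfl
  | cons i w ih =>
    rw [List.foldl_cons, h.out i (hw i List.mem_cons_self) j hj]
    exact ih (fun i' hi' => hw i' (List.mem_cons_of_mem _ hi'))

variable (D) in
/-- The permutation of the word is trivial (test). -/
def idB (w : List ℕ) : Bool := (List.range D.N).all fun j => evT D w j == j

theorem idB_sound (h : Ok D n) (w : List ℕ) (hw : ∀ i ∈ w, i < n) (hc : idB D w = true)
    (v : ℕ → ℝ) : Q (evT D w) v = v := by
  simp only [idB, List.all_eq_true, List.mem_range, beq_iff_eq] at hc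
  funext j
  unfold Q
  rcases lt_or_ge j D.N with hj | hj
  · rw [hc j hj]
  · rw [evT_out h w hw j hj]

variable (D) in
/-- The word acts trivially (test). -/
def trivB (w : List ℕ) : Bool := idB D w && (red D (evL D w)).isEmpty

variable (D) in
/-- The word acts as a product of commuting pairs of class `c` (test). -/
def powB (c : ℕ) (PL : List (ℕ × ℕ)) (w : List ℕ) : Bool :=
  idB D w && (red D (evL D w ++ (flat PL).reverse)).isEmpty && okPairs D c PL

/-- The word acts trivially. -/
theorem triv_sound (h : Ok D n) (w : List ℕ) (hw : ∀ i ∈ w, i < n) (hc : trivB D w = true)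
    (v : ℕ → ℝ) : w.foldr (G D k) v = v := by
  simp only [trivB, Bool.and_eq_true, List.isEmpty_iff] at hc
  rw [(evalw_sound k h w hw).2, idB_sound h w hw hc.1, ← red_sound k h.loop, hc.2]
  rfl

/-- The word acts as a product of commuting pairs of class `c`. -/
theorem pow_sound (h : Ok D n) (w : List ℕ) (hw : ∀ i ∈ w, i < n) {c : ℕ} (m : ℕ) (hm : 2 ≤ m)
    (hk : k c = 2 * Real.cos (Real.pi / m)) (PL : List (ℕ × ℕ)) (hc : powB D c PL w = true)
    (v : ℕ → ℝ) : (fun v => w.foldr (G D k) v)^[m] v = v := by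
  simp only [powB, Bool.and_eq_true, List.isEmpty_iff] at hc
  have e : (fun v => w.foldr (G D k) v) = S D k (flat PL) := by
    funext v
    rw [(evalw_sound k h w hw).2, idB_sound h w hw hc.1.1, eq_of_red k h.loop _ _ hc.1.2]
  rw [e]
  exact flat_pow k h.loop m hm hk PL hc.2 v

/-- Repetition of a word. -/
def rep (m : ℕ) (w : List ℕ) : List ℕ := (List.replicate m w).flatten

theorem mem_rep {m : ℕ} {w : List ℕ} {i : ℕ} (h : i ∈ rep m w) : i ∈ w := by
  simp only [rep, List.mem_flatten, List.mem_replicate] at h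
  obtain ⟨l, ⟨-, rfl⟩, h2⟩ := h
  exact h2

theorem foldr_rep (m : ℕ) (w : List ℕ) (v : ℕ → ℝ) :
    (rep m w).foldr (G D k) v = (fun v => w.foldr (G D k) v)^[m] v := by
  unfold rep
  induction m with
  | zero => rfl
  | succ m ih =>
    rw [List.replicate_succ, List.flatten_cons, List.foldr_append, ih,
      Function.iterate_succ_apply']

/-- A power of the word acts trivially. -/
theorem pow_sound' (h : Ok D n) (w : List ℕ) (hw : ∀ i ∈ w, i < n) {c : ℕ} (m : ℕ) (hm : 2 ≤ m)
    (hk : k c = 2 * Real.cos (Real.pi / m)) (PL : List (ℕ × ℕ)) (e : ℕ)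
    (hc : powB D c PL (rep e w) = true) (N : ℕ) (hN : e * m ∣ N) (v : ℕ → ℝ) :
    (fun v => w.foldr (G D k) v)^[N] v = v := by
  obtain ⟨q, rfl⟩ := hN
  have h1 : (fun v => w.foldr (G D k) v)^[e * m] = id := by
    funext v
    have h2 := pow_sound k h (rep e w) (fun i hi => hw i (mem_rep hi)) m hm hk PL hc v
    have h3 : (fun v => (rep e w).foldr (G D k) v) = (fun v => w.foldr (G D k) v)^[e] := by
      funext v
      exact foldr_rep k e w v
    rw [h3, ← Function.iterate_mul] at h2
    exact h2
  rw [Function.iterate_mul, h1, Function.iterate_id]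
  rfl

end Pool.Agent.Lib.MP_c2d01e_co.Lab
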