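import Pool.Agent.Lib.MP_c2d01e_co.Lab

/-!
# The labelled graphs for the Coxeter groups `[3,3,4,3,3]` and `[3,4,3,3,4]`

The Coxeter group of the star with centre `c` and five leaves `a₀, …, a₄` acts on `3 × 32`
coordinates `(f, S)`, `S ⊆ {0, …, 4}`: `aᵢ` is the reflection at `(0, {i})` followed by the exchange
of `(1, S)` and `(2, S Δ {i})`; `c` is the reflection at `(1, ∅)` followed by the exchange of
`(0, S)` and `(2, S)`.  The vertices `(f, S)`, `(f, S')` are joined by an edge of class `cl i` if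
`S Δ S'` is the complement of `{i}`.  Permutations of the leaves act on the subsets `S`.
-/

set_option autoImplicit false

namespace Pool.Agent.Lib.MP_c2d01e_co.Lab

/-- The neighbours of `32 f + S`. -/
def nbF (cl : ℕ → ℕ) (z : ℕ) : List (ℕ × ℕ) :=
  if z < 96 then [0, 1, 2, 3, 4].map fun i => (32 * (z / 32) + ((z % 32) ^^^ (31 ^^^ 2 ^ i)), cl i)
  else []

/-- The generator of the leaf `i`. -/
def gA (i : ℕ) : List ℕ × (ℕ → ℕ) :=
  ([2 ^ i], fun z => if z < 32 then z else if z < 96 then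
    32 * (3 - z / 32) + ((z % 32) ^^^ 2 ^ i) else z)

/-- The generator of the centre. -/
def gC : List ℕ × (ℕ → ℕ) :=
  ([32], fun z => if z < 96 then 32 * (2 - z / 32) + z % 32 else z)

/-- The transposition of the leaves `i` and `j`. -/
def gT (i j : ℕ) : List ℕ × (ℕ → ℕ) :=
  ([], fun z => if 96 ≤ z ∨ (z % 32 / 2 ^ i) % 2 = (z % 32 / 2 ^ j) % 2 then z
    else 32 * (z / 32) + ((z % 32) ^^^ (2 ^ i + 2 ^ j)))

/-- The data for `[3,3,4,3,3]`: class `0` for the directions `0, 1, 2, 3`, class `1` for `4`. -/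
def DB : Dat where
  N := 96
  nb := nbF fun i => if i = 4 then 1 else 0
  g := fun
    | 0 => gT 0 1
    | 1 => gT 1 2
    | 2 => gT 2 3
    | 3 => gA 3
    | 4 => gC
    | _ => gA 4

/-- The data for `[3,4,3,3,4]`: class `0` for the directions `0, 1`, class `1` for `2, 3, 4`. -/
def DC : Dat where
  N := 96
  nb := nbF fun i => if i ≤ 1 then 0 else 1
  g := fun
    | 0 => gT 2 3
    | 1 => gT 3 4
    | 2 => gA 4
    | 3 => gC
    | 4 => gA 1
    | _ => gT 0 1

/-- Check of the data. -/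
def okAll (D : Dat) : Bool :=
  ((List.range D.N).all fun z => (D.nb z).all fun p => (p.1 != z) && decide (p.1 < D.N)) &&
    (List.range 6).all fun i => okTab D (D.g i).2 && (D.g i).1.all fun z => decide (z < D.N)

theorem ok_of_okAll {D : Dat} (h : okAll D = true) (hnb : ∀ z, D.N ≤ z → D.nb z = [])
    (hout : ∀ i < 6, ∀ z, D.N ≤ z → (D.g i).2 z = z) : Ok D 6 := by
  simp only [okAll, Bool.and_eq_true, List.all_eq_true, List.mem_range, decide_eq_true_eq,
    bne_iff_ne, ne_eq] at h
  obtain ⟨h1, h2⟩ := h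
  refine ⟨?_, fun i hi => (h2 i hi).1, hout, fun i hi => (h2 i hi).2⟩
  intro z p hp
  rcases lt_or_ge z D.N with hz | hz
  · exact (h1 z hz p hp).1
  · rw [hnb z hz] at hp
    simp at hp

theorem gA_out (i z : ℕ) (hz : 96 ≤ z) : (gA i).2 z = z := by
  simp only [gA]
  rw [if_neg (by omega), if_neg (by omega)]

theorem gC_out (z : ℕ) (hz : 96 ≤ z) : gC.2 z = z := by
  simp only [gC]
  rw [if_neg (by omega)]

theorem gT_out (i j z : ℕ) (hz : 96 ≤ z) : (gT i j).2 z = z := by
  simp only [gT]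
  rw [if_pos (Or.inl hz)]

theorem okB : Ok DB 6 := by
  refine ok_of_okAll (by decide +kernel) (fun z hz => ?_) (fun i hi z hz => ?_)
  · simp only [DB, nbF] at hz ⊢
    rw [if_neg (by omega)]
  · match i, hi with
    | 0, _ => exact gT_out _ _ z hz
    | 1, _ => exact gT_out _ _ z hz
    | 2, _ => exact gT_out _ _ z hz
    | 3, _ => exact gA_out _ z hz
    | 4, _ => exact gC_out z hz
    | 5, _ => exact gA_out _ z hz

theorem okC : Ok DC 6 := by
  refine ok_of_okAll (by decide +kernel) (fun z hz => ?_) (fun i hi z hz => ?_)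
  · simp only [DC, nbF] at hz ⊢
    rw [if_neg (by omega)]
  · match i, hi with
    | 0, _ => exact gT_out _ _ z hz
    | 1, _ => exact gT_out _ _ z hz
    | 2, _ => exact gA_out _ z hz
    | 3, _ => exact gC_out z hz
    | 4, _ => exact gA_out _ z hz
    | 5, _ => exact gT_out _ _ z hz

/-- The Coxeter matrix with labels `3` except the label `4` at the edges in the list. -/
def coxL (L : List ℕ) (i j : ℕ) : ℕ :=
  if i = j then 1 else if i + 1 = j then (if L.contains i then 4 else 3)
    else if j + 1 = i then (if L.contains j then 4 else 3) else 2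

theorem coxB_triv : ((List.range 6).all fun i => (List.range 6).all fun j =>
    trivB DB (rep (coxL [2] i j) [i, j])) = true := by
  decide +kernel

theorem coxC_triv : ((List.range 6).all fun i => (List.range 6).all fun j =>
    trivB DC (rep (coxL [1, 4] i j) [i, j])) = true := by
  decide +kernel

theorem powB_s1 : powB DB 1 [(1, 14), (65, 78), (41, 38), (37, 42), (77, 66), (13, 2)]
    (rep 2 [0, 1, 2, 3, 2, 1, 4, 3, 2, 3, 4, 1, 2, 3, 2, 1]) = true := by
  decide +kernel

theorem powB_s2 : powB DB 1 [(1, 14), (65, 78), (41, 38), (37, 42), (77, 66), (35, 44), (75, 68),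
    (71, 72), (47, 32), (1, 14)] (rep 4 [0, 1, 2, 3, 2, 1, 4, 3, 2, 3, 4]) = true := by
  decide +kernel

theorem powB_t1 : powB DB 0 [(16, 14), (80, 78), (56, 38), (52, 42), (92, 66), (50, 44), (90, 68),
    (86, 72), (62, 32), (16, 14)]
    (rep 2 [5, 4, 3, 2, 3, 4, 1, 2, 3, 2, 1, 4, 3, 2, 3, 4]) = true := by
  decide +kernel

theorem powB_t2 : powB DB 0 [(16, 14), (80, 78), (56, 38), (52, 42), (92, 66), (28, 2)]
    (rep 2 [5, 4, 3, 2, 3, 4, 1, 2, 3, 2, 1]) = true := by
  decide +kernel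

theorem powC_t1 : powB DC 0 [(2, 28), (66, 92), (50, 44), (42, 52), (90, 68), (38, 56), (86, 72),
    (78, 80), (62, 32), (2, 28)]
    (rep 2 [4, 3, 2, 1, 2, 3, 0, 1, 2, 1, 0, 3, 2, 1, 2, 3]) = true := by
  decide +kernel

theorem powC_t2 : powB DC 0 [(2, 28), (66, 92), (50, 44), (42, 52), (90, 68), (26, 4)]
    (rep 2 [4, 3, 2, 1, 2, 3, 0, 1, 2, 1, 0]) = true := by
  decide +kernel

theorem powC_u1 : powB DC 1 [(8, 19), (72, 83), (42, 49), (41, 50), (75, 80), (11, 16)]
    (rep 2 [1, 2, 3, 4, 5, 4, 3, 2]) = true := by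
  decide +kernel

theorem powC_u2 : powB DC 1 [(8, 19), (72, 83), (42, 49), (41, 50), (75, 80), (56, 35), (90, 65),
    (89, 66), (59, 32), (8, 19)] (rep 4 [1, 2, 3, 4, 5, 4, 3]) = true := by
  decide +kernel

theorem powC_u4 : powB DC 1 [(8, 19), (72, 83), (42, 49), (56, 35), (90, 65), (26, 1)]
    (rep 4 [1, 2, 3, 4, 5]) = true := by
  decide +kernel

end Pool.Agent.Lib.MP_c2d01e_co.Lab
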