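import Pool.Agent.Lib.MP_c2d01e_co.LabTri

/-!
# A quotient of `[3,3,4,3,3]` inside `(W ≀ S₄)`, `W` the Coxeter group of the complete graph `K₄`

Let `F = {0, 1, 2, 3}` (exclusive or; a group of type `2 × 2`) act on the complete graph with the
vertices `0, …, 3`, all edges with the same label, and let `r` be the reflection at the vertex `0`. The vertices
here are the triples `(m, i, g)`, `m, i, g < 4`, written as `16 m + 4 i + g`; two of them are joined if they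
differ in `g` only. The generator `ρ₄` exchanges `i = 1` and `i = 2`; `ρ₅` exchanges `i = 2` and `i = 3` and
acts there by `r`; `ρ₃` exchanges `i = 2` and `i = 3` if `m = 3`, and `(m, 0, g)` and `(m, 1, g + h)`,
`h = h(m, 3)`, if `m ≠ 3`. Here `h(m, j)`, `j ≠ m`, are the elements `0, 1, 2` of `F` in the order of the `j`. The generators
`ρ₀, ρ₁, ρ₂` are the transpositions of `m`, combined with the affine maps of `F` which take `h(m, j)` to the
value for the images of `m` and `j` (with their linear parts for `i ≠ 0`).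
-/

set_option autoImplicit false

namespace Pool.Agent.Lib.MP_c2d01e_co.Lab

/-- The table of the permutation of `ρ₀`. -/
def tE0 : List ℕ :=
  [16, 17, 18, 19, 20, 21, 22, 23, 24, 25, 26, 27, 28, 29, 30, 31, 0, 1, 2, 3, 4, 5, 6, 7, 8,
  9, 10, 11, 12, 13, 14, 15, 33, 32, 34, 35, 36, 37, 39, 38, 40, 41, 43, 42, 44, 45, 47, 46,
  49, 48, 50, 51, 52, 53, 55, 54, 56, 57, 59, 58, 60, 61, 63, 62]

/-- The table of the permutation of `ρ₁`. -/
def tE1 : List ℕ :=
  [1, 0, 2, 3, 4, 5, 7, 6, 8, 9, 11, 10, 12, 13, 15, 14, 32, 33, 34, 35, 36, 37, 38, 39, 40,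
  41, 42, 43, 44, 45, 46, 47, 16, 17, 18, 19, 20, 21, 22, 23, 24, 25, 26, 27, 28, 29, 30, 31,
  48, 50, 49, 51, 52, 54, 53, 55, 56, 58, 57, 59, 60, 62, 61, 63]

/-- The table of the permutation of `ρ₂`. -/
def tE2 : List ℕ :=
  [0, 2, 1, 3, 4, 6, 5, 7, 8, 10, 9, 11, 12, 14, 13, 15, 16, 18, 17, 19, 20, 22, 21, 23, 24,
  26, 25, 27, 28, 30, 29, 31, 48, 49, 50, 51, 52, 53, 54, 55, 56, 57, 58, 59, 60, 61, 62, 63,
  32, 33, 34, 35, 36, 37, 38, 39, 40, 41, 42, 43, 44, 45, 46, 47]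

/-- The table of the permutation of `ρ₃`. -/
def tE3 : List ℕ :=
  [6, 7, 4, 5, 2, 3, 0, 1, 8, 9, 10, 11, 12, 13, 14, 15, 22, 23, 20, 21, 18, 19, 16, 17, 24,
  25, 26, 27, 28, 29, 30, 31, 38, 39, 36, 37, 34, 35, 32, 33, 40, 41, 42, 43, 44, 45, 46, 47,
  48, 49, 50, 51, 52, 53, 54, 55, 60, 61, 62, 63, 56, 57, 58, 59]

/-- The table of the permutation of `ρ₄`. -/
def tE4 : List ℕ :=
  [0, 1, 2, 3, 8, 9, 10, 11, 4, 5, 6, 7, 12, 13, 14, 15, 16, 17, 18, 19, 24, 25, 26, 27, 20,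
  21, 22, 23, 28, 29, 30, 31, 32, 33, 34, 35, 40, 41, 42, 43, 36, 37, 38, 39, 44, 45, 46, 47,
  48, 49, 50, 51, 56, 57, 58, 59, 52, 53, 54, 55, 60, 61, 62, 63]

/-- The table of the permutation of `ρ₅`. -/
def tE5 : List ℕ :=
  [0, 1, 2, 3, 4, 5, 6, 7, 12, 13, 14, 15, 8, 9, 10, 11, 16, 17, 18, 19, 20, 21, 22, 23, 28,
  29, 30, 31, 24, 25, 26, 27, 32, 33, 34, 35, 36, 37, 38, 39, 44, 45, 46, 47, 40, 41, 42, 43,
  48, 49, 50, 51, 52, 53, 54, 55, 60, 61, 62, 63, 56, 57, 58, 59]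

/-- The neighbours. -/
def nbE (z : ℕ) : List (ℕ × ℕ) :=
  if z < 64 then [(z ^^^ 1, 0), (z ^^^ 2, 0), (z ^^^ 3, 0)] else []

/-- The data. -/
def DE : Dat where
  N := 64
  nb := nbE
  g := fun
    | 0 => ([], fun z => tE0.getD z z)
    | 1 => ([], fun z => tE1.getD z z)
    | 2 => ([], fun z => tE2.getD z z)
    | 3 => ([], fun z => tE3.getD z z)
    | 4 => ([], fun z => tE4.getD z z)
    | _ => ([8, 12, 24, 28, 40, 44, 56, 60], fun z => tE5.getD z z)

theorem getD_out (l : List ℕ) (hl : l.length = 64) (z : ℕ) (hz : 64 ≤ z) : l.getD z z = z :=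
  List.getD_eq_default _ _ (by omega)

theorem okE : Ok DE 6 := by
  refine ok_of_okAll (by decide +kernel) (fun z hz => ?_) (fun i hi z hz => ?_)
  · simp only [DE, nbE] at hz ⊢
    rw [if_neg (by omega)]
  · match i, hi with
    | 0, _ => exact getD_out tE0 rfl z hz
    | 1, _ => exact getD_out tE1 rfl z hz
    | 2, _ => exact getD_out tE2 rfl z hz
    | 3, _ => exact getD_out tE3 rfl z hz
    | 4, _ => exact getD_out tE4 rfl z hz
    | 5, _ => exact getD_out tE5 rfl z hz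

theorem invDE : invB DE = true := by decide +kernel

theorem coxE_triv : ((List.range 6).all fun i => (List.range 6).all fun j =>
    trivB DE (rep (coxL [2] i j) [i, j])) = true := by
  decide +kernel

theorem facE : trivB DE (rep 4 [0, 1, 2, 3, 2, 1, 4, 3, 2, 3, 4]) = true := by
  decide +kernel

theorem powE_t1 : powB DE 0 [(24, 27), (28, 31), (40, 43), (44, 47), (56, 59), (60, 63)]
    (rep 2 [5, 4, 3, 2, 3, 4, 1, 2, 3, 2, 1, 4, 3, 2, 3, 4]) = true := by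
  decide +kernel

theorem powE_t2 : powB DE 0 [(28, 31), (28, 31), (40, 43), (44, 47), (56, 59), (60, 63), (50, 49),
    (52, 55), (34, 33), (36, 39)] (rep 4 [5, 4, 3, 2, 3, 4, 1, 2, 3, 2, 1]) = true := by
  decide +kernel

/-- The element of infinite order. -/
def wE : List (Fin 6) :=
  ([0, 1, 2, 3, 2, 1, 0] ++ [5]) ++
  ([4] ++ [1, 2, 3, 2, 1] ++ [2, 3, 2] ++ [4] ++ [0, 1, 2, 3, 2, 1, 0] ++ [5] ++ [4] ++ [2, 3, 2] ++
    [1, 2, 3, 2, 1] ++ [4]) ++
  ([4] ++ [1, 2, 3, 2, 1] ++ [3] ++ [4] ++ [0, 1, 2, 3, 2, 1, 0] ++ [5] ++ [4] ++ [3] ++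
    [1, 2, 3, 2, 1] ++ [4])

theorem triE : triB DE 0 (8, 9, 10) (wE.map fun i => (i : ℕ)) = true := by decide +kernel

theorem triE_rev : triB DE 0 (8, 9, 10) ((wE.map Fin.rev).map fun i => ((Fin.rev i : Fin 6) : ℕ))
    = true := by
  decide +kernel

end Pool.Agent.Lib.MP_c2d01e_co.Lab
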