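import Pool.Agent.Lib.MP_c2d01e_co.LabBC

/-!
# Elements of infinite order and quotients of the groups of type `[3,3,4,3,3]` and `[3,4,3,3,4]`
-/

set_option autoImplicit false

namespace Pool.Agent.Lib.MP_c2d01e_co.Lab

/-! ### A cycle of length four -/

/-- The vector with values `a` at `x₁, x₃` and `b` at `x₂, x₄`. -/
noncomputable def vec (x : ℕ × ℕ × ℕ × ℕ) (a b : ℝ) : ℕ → ℝ := fun j =>
  if j = x.1 ∨ j = x.2.2.1 then a else if j = x.2.1 ∨ j = x.2.2.2 then b else 0

/-- Membership in the cycle. -/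
def su (x : ℕ × ℕ × ℕ × ℕ) (j : ℕ) : Bool := j == x.1 || j == x.2.1 || j == x.2.2.1 || j == x.2.2.2

/-- The word acts as `s x₁ s x₃ s x₂ s x₄` on vectors supported on the cycle `x₁ x₂ x₃ x₄`, all of
whose edges have class `c` (test). -/
def cycB (D : Dat) (c : ℕ) (x : ℕ × ℕ × ℕ × ℕ) (w : List ℕ) : Bool :=
  (x.1 != x.2.1 && x.1 != x.2.2.1 && x.1 != x.2.2.2 && x.2.1 != x.2.2.1 && x.2.1 != x.2.2.2 &&
    x.2.2.1 != x.2.2.2) &&
  (decide (x.1 < D.N) && decide (x.2.1 < D.N) && decide (x.2.2.1 < D.N) &&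
    decide (x.2.2.2 < D.N)) &&
  ((List.range D.N).all fun j => (evT D w j == x.1) == (j == x.1) &&
    (evT D w j == x.2.1) == (j == x.2.1) && (evT D w j == x.2.2.1) == (j == x.2.2.1) &&
    (evT D w j == x.2.2.2) == (j == x.2.2.2)) &&
  ((evL D w).filter (su x) == [x.1, x.2.2.1, x.2.1, x.2.2.2]) &&
  ((evL D w).all fun z => su x z || (D.nb z).all fun p => !(su x p.1)) &&
  (((D.nb x.1).filter fun p => su x p.1).isPerm [(x.2.1, c), (x.2.2.2, c)]) &&
  (((D.nb x.2.2.1).filter fun p => su x p.1).isPerm [(x.2.1, c), (x.2.2.2, c)]) &&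
  (((D.nb x.2.1).filter fun p => su x p.1).isPerm [(x.1, c), (x.2.2.1, c)]) &&
  (((D.nb x.2.2.2).filter fun p => su x p.1).isPerm [(x.1, c), (x.2.2.1, c)])

variable {D : Dat} (k : ℕ → ℝ)

theorem sn_su (x : ℕ × ℕ × ℕ × ℕ) (z : ℕ) (v : ℕ → ℝ) (hv : ∀ j, su x j = false → v j = 0)
    (l : List (ℕ × ℕ)) (hl : ((D.nb z).filter fun p => su x p.1).isPerm l = true) :
    sn D k z v = (l.map fun p => k p.2 * v p.1).sum := by
  rw [List.isPerm_iff] at hl
  rw [← (hl.map _).sum_eq]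
  unfold sn
  have hp := (List.filter_append_perm (fun q : ℕ × ℕ => su x q.1) (D.nb z)).symm
  rw [(hp.map _).sum_eq, List.map_append, List.sum_append]
  have h0 : (((D.nb z).filter fun q => !(su x q.1)).map fun p => k p.2 * v p.1).sum = 0 := by
    apply List.sum_eq_zero
    intro y hy
    rw [List.mem_map] at hy
    obtain ⟨q, hq, rfl⟩ := hy
    rw [List.mem_filter] at hq
    rw [hv q.1 (by simpa using hq.2), mul_zero]
  rw [h0, add_zero]

theorem S_filter (x : ℕ × ℕ × ℕ × ℕ) (v : ℕ → ℝ) (hv : ∀ j, su x j = false → v j = 0)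
    (L : List ℕ) (hL : ∀ z ∈ L, su x z = true ∨ ∀ p ∈ D.nb z, su x p.1 = false) :
    S D k L v = S D k (L.filter (su x)) v ∧ ∀ j, su x j = false → S D k L v j = 0 := by
  induction L with
  | nil => exact ⟨rfl, hv⟩
  | cons z L ih =>
    obtain ⟨h1, h2⟩ := ih (fun z' hz' => hL z' (List.mem_cons_of_mem _ hz'))
    by_cases hz : su x z = true
    · refine ⟨?_, ?_⟩
      · rw [List.filter_cons_of_pos hz, S_cons, S_cons, h1]
      · intro j hj
        rw [S_cons, s_ne D k, h2 j hj]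
        rintro rfl
        rw [hz] at hj
        exact absurd hj (by decide)
    · have hz' : su x z = false := by simpa using hz
      have h3 : s D k z (S D k L v) = S D k L v := by
        funext j
        by_cases hj : j = z
        · subst hj
          rw [s_self, h2 j hz']
          have h4 := (hL j List.mem_cons_self).resolve_left hz
          have : sn D k j (S D k L v) = sn D k j (fun _ => 0) :=
            sn_congr D k j (fun p hp => h2 p.1 (h4 p hp))
          rw [this]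
          simp [sn]
        · rw [s_ne D k hj]
      refine ⟨?_, ?_⟩
      · rw [List.filter_cons_of_neg hz, S_cons, h3, h1]
      · intro j hj
        rw [S_cons, h3, h2 j hj]

theorem cyc_sound {n : ℕ} (h : Ok D n) (w : List ℕ) (hw : ∀ i ∈ w, i < n) (c : ℕ)
    (x : ℕ × ℕ × ℕ × ℕ) (hc : cycB D c x w = true) (a b : ℝ) :
    w.foldr (G D k) (vec x a b) =
      vec x (2 * k c * (2 * k c * a - b) - a) (2 * k c * a - b) := by
  obtain ⟨x1, x2, x3, x4⟩ := x
  simp only [cycB, Bool.and_eq_true, bne_iff_ne, ne_eq, decide_eq_true_eq, List.all_eq_true,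
    List.mem_range, beq_iff_eq, Bool.or_eq_true, Bool.not_eq_true'] at hc
  obtain ⟨⟨⟨⟨⟨⟨⟨⟨hne, hlt⟩, hT⟩, hF⟩, hirr⟩, n1⟩, n3⟩, n2⟩, n4⟩ := hc
  obtain ⟨⟨⟨⟨⟨h12, h13⟩, h14⟩, h23⟩, h24⟩, h34⟩ := hne
  obtain ⟨⟨⟨l1, l2⟩, l3⟩, l4⟩ := hlt
  set X : ℕ × ℕ × ℕ × ℕ := (x1, x2, x3, x4) with hX
  have hsup : ∀ a b : ℝ, ∀ j, su X j = false → vec X a b j = 0 := by
    intro a b j hj
    simp only [su, hX, Bool.or_eq_false_iff, beq_eq_false_iff_ne, ne_eq] at hj
    simp only [vec, hX]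
    rw [if_neg (by tauto), if_neg (by tauto)]
  have v1 : ∀ a b : ℝ, vec X a b x1 = a := by intro a b; simp [vec, hX]
  have v3 : ∀ a b : ℝ, vec X a b x3 = a := by intro a b; simp [vec, hX]
  have v2 : ∀ a b : ℝ, vec X a b x2 = b := by
    intro a b
    simp only [vec, hX]
    rw [if_neg (by tauto), if_pos (by tauto)]
  have v4 : ∀ a b : ℝ, vec X a b x4 = b := by
    intro a b
    simp only [vec, hX]
    rw [if_neg (by tauto), if_pos (by tauto)]
  have hQ : Q (evT D w) (vec X a b) = vec X a b := by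
    funext j
    unfold Q
    rcases lt_or_ge j D.N with hj | hj
    · obtain ⟨⟨⟨t1, t2⟩, t3⟩, t4⟩ := hT j hj
      have e1 : evT D w j = x1 ↔ j = x1 := by
        rw [← beq_iff_eq (a := evT D w j), ← beq_iff_eq (a := j), t1]
      have e2 : evT D w j = x2 ↔ j = x2 := by
        rw [← beq_iff_eq (a := evT D w j), ← beq_iff_eq (a := j), t2]
      have e3 : evT D w j = x3 ↔ j = x3 := by
        rw [← beq_iff_eq (a := evT D w j), ← beq_iff_eq (a := j), t3]
      have e4 : evT D w j = x4 ↔ j = x4 := by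
        rw [← beq_iff_eq (a := evT D w j), ← beq_iff_eq (a := j), t4]
      simp only [vec, hX, e1, e2, e3, e4]
    · rw [evT_out h w hw j hj]
  rw [(evalw_sound k h w hw).2, hQ, (S_filter k X _ (hsup a b) _ hirr).1, hF]
  simp only [S_cons, S_nil]
  -- the four reflections
  have e1 : ∀ (P : Prop) [Decidable P] (u v : ℝ), P → (if P then u else v) = u :=
    fun P _ u v h => if_pos h
  have e0 : ∀ (P : Prop) [Decidable P] (u v : ℝ), ¬ P → (if P then u else v) = v :=
    fun P _ u v h => if_neg h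
  have c4 : ∀ j, s D k x4 (vec X a b) j = if j = x1 ∨ j = x3 then a else if j = x2 then b
      else if j = x4 then 2 * k c * a - b else 0 := by
    intro j
    by_cases hj : j = x4
    · rw [hj, s_self, sn_su k X x4 _ (hsup a b) _ n4, v4]
      simp only [List.map_cons, List.map_nil, List.sum_cons, List.sum_nil, v1, v3]
      rw [e0 _ _ _ (by tauto), e0 _ _ _ (by tauto), e1 _ _ _ trivial]
      ring
    · rw [s_ne D k hj]
      simp only [vec, hX]
      by_cases h1 : j = x1 ∨ j = x3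
      · rw [e1 _ _ _ h1, e1 _ _ _ h1]
      · rw [e0 _ _ _ h1, e0 _ _ _ h1]
        by_cases h2 : j = x2
        · rw [e1 _ _ _ (Or.inl h2), e1 _ _ _ h2]
        · rw [e0 _ _ _ (by tauto), e0 _ _ _ h2, e0 _ _ _ hj]
  have hsup4 : ∀ j, su X j = false → s D k x4 (vec X a b) j = 0 := by
    intro j hj
    rw [c4]
    simp only [su, hX, Bool.or_eq_false_iff, beq_eq_false_iff_ne, ne_eq] at hj
    rw [e0 _ _ _ (by tauto), e0 _ _ _ (by tauto), e0 _ _ _ (by tauto)]
  have c41 : s D k x4 (vec X a b) x1 = a := by rw [c4, e1 _ _ _ (Or.inl rfl)]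
  have c43 : s D k x4 (vec X a b) x3 = a := by rw [c4, e1 _ _ _ (Or.inr rfl)]
  have c42 : s D k x4 (vec X a b) x2 = b := by rw [c4, e0 _ _ _ (by tauto), e1 _ _ _ rfl]
  have c2 : s D k x2 (s D k x4 (vec X a b)) = vec X a (2 * k c * a - b) := by
    funext j
    by_cases hj : j = x2
    · rw [hj, s_self, sn_su k X x2 _ hsup4 _ n2, v2]
      simp only [List.map_cons, List.map_nil, List.sum_cons, List.sum_nil, c41, c43, c42]
      ring
    · rw [s_ne D k hj, c4]
      simp only [vec, hX]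
      by_cases h1 : j = x1 ∨ j = x3
      · rw [e1 _ _ _ h1, e1 _ _ _ h1]
      · rw [e0 _ _ _ h1, e0 _ _ _ h1, e0 _ _ _ hj]
        by_cases h2 : j = x4
        · rw [e1 _ _ _ h2, e1 _ _ _ (Or.inr h2)]
        · rw [e0 _ _ _ h2, e0 _ _ _ (by tauto)]
  rw [c2]
  set b' : ℝ := 2 * k c * a - b with hb'
  have c3 : ∀ j, s D k x3 (vec X a b') j = if j = x1 then a else if j = x3 then
      2 * k c * b' - a else if j = x2 ∨ j = x4 then b' else 0 := by
    intro j
    by_cases hj : j = x3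
    · rw [hj, s_self, sn_su k X x3 _ (hsup a b') _ n3, v3]
      simp only [List.map_cons, List.map_nil, List.sum_cons, List.sum_nil, v2, v4]
      rw [e0 _ _ _ (by tauto), e1 _ _ _ trivial]
      ring
    · rw [s_ne D k hj]
      simp only [vec, hX]
      by_cases h1 : j = x1
      · rw [e1 _ _ _ (Or.inl h1), e1 _ _ _ h1]
      · rw [e0 (j = x1 ∨ j = x3) _ _ (by tauto), e0 _ _ _ h1, e0 _ _ _ hj]
  have hsup3 : ∀ j, su X j = false → s D k x3 (vec X a b') j = 0 := by
    intro j hj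
    rw [c3]
    simp only [su, hX, Bool.or_eq_false_iff, beq_eq_false_iff_ne, ne_eq] at hj
    rw [e0 _ _ _ (by tauto), e0 _ _ _ (by tauto), e0 _ _ _ (by tauto)]
  have c31 : s D k x3 (vec X a b') x1 = a := by rw [c3, e1 _ _ _ rfl]
  have c32 : s D k x3 (vec X a b') x2 = b' := by
    rw [c3, e0 _ _ _ (by tauto), e0 _ _ _ (by tauto), e1 _ _ _ (Or.inl rfl)]
  have c34 : s D k x3 (vec X a b') x4 = b' := by
    rw [c3, e0 _ _ _ (by tauto), e0 _ _ _ (by tauto), e1 _ _ _ (Or.inr rfl)]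
  funext j
  by_cases hj : j = x1
  · rw [hj, s_self, sn_su k X x1 _ hsup3 _ n1, v1]
    simp only [List.map_cons, List.map_nil, List.sum_cons, List.sum_nil, c31, c32, c34]
    ring
  · rw [s_ne D k hj, c3]
    simp only [vec, hX]
    rw [e0 _ _ _ hj]
    by_cases h1 : j = x3
    · rw [e1 _ _ _ h1, e1 _ _ _ (Or.inr h1)]
    · rw [e0 _ _ _ h1, e0 (j = x1 ∨ j = x3) _ _ (by tauto)]

/-- A group with such an element is infinite. -/
theorem infinite_of_vec {H : Type*} [Group H] (Ψ : H →* Equiv.Perm (ℕ → ℝ)) (y : H)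
    (x : ℕ × ℕ × ℕ × ℕ) (l : ℝ) (hl : 2 ≤ l)
    (hy : ∀ a b : ℝ, Ψ y (vec x a b) = vec x (l * (l * a - b) - a) (l * a - b)) : Infinite H := by
  have key : ∀ n : ℕ, ∃ a b : ℝ, Ψ (y ^ n) (vec x 1 0) = vec x a b ∧ 0 ≤ b ∧ 1 ≤ a - b ∧
      (n : ℝ) < a := by
    intro n
    induction n with
    | zero => exact ⟨1, 0, by simp, le_rfl, by norm_num, by simp⟩
    | succ n ih =>
      obtain ⟨a, b, h1, h2, h3, h4⟩ := ih
      have ha : 0 < a := lt_of_le_of_lt (Nat.cast_nonneg n) h4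
      have h5 : 2 * a ≤ l * a := mul_le_mul_of_nonneg_right hl ha.le
      have h5' : 0 ≤ l * a - b := by linarith
      have h6 : 2 * (l * a - b) ≤ l * (l * a - b) := mul_le_mul_of_nonneg_right hl h5'
      refine ⟨l * (l * a - b) - a, l * a - b, ?_, h5', by linarith, ?_⟩
      · rw [pow_succ', map_mul, Equiv.Perm.mul_apply, h1, hy]
      · push_cast
        linarith
  have hx : ∀ a b : ℝ, vec x a b x.1 = a := fun a b => by simp [vec]
  by_contra hfin
  rw [not_infinite_iff_finite] at hfin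
  obtain ⟨n, hn, hy1⟩ := isOfFinOrder_iff_pow_eq_one.1 (isOfFinOrder_of_finite y)
  obtain ⟨a, b, h1, -, -, h4⟩ := key n
  rw [hy1, map_one, Equiv.Perm.one_apply] at h1
  have h5 := congrFun h1 x.1
  rw [hx, hx] at h5
  rw [← h5] at h4
  have : (1 : ℝ) ≤ n := by exact_mod_cast hn
  linarith

end Pool.Agent.Lib.MP_c2d01e_co.Lab
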