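import Pool.Agent.Lib.MP_c2d01e_co.LabGroup

/-!
# Elements of infinite order from triangles
-/

set_option autoImplicit false

namespace Pool.Agent.Lib.MP_c2d01e_co.Lab

/-- The vector with values `a, b, c` at `x₁, x₂, x₃`. -/
noncomputable def vec3 (x : ℕ × ℕ × ℕ) (a b c : ℝ) : ℕ → ℝ := fun j =>
  if j = x.1 then a else if j = x.2.1 then b else if j = x.2.2 then c else 0

/-- Membership in the triangle. -/
def su3 (x : ℕ × ℕ × ℕ) (j : ℕ) : Bool := j == x.1 || j == x.2.1 || j == x.2.2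

/-- The word acts as `s x₁ s x₂ s x₃` on vectors supported on the triangle `x₁ x₂ x₃`, all of
whose edges have class `c` (test). -/
def triB (D : Dat) (c : ℕ) (x : ℕ × ℕ × ℕ) (w : List ℕ) : Bool :=
  (x.1 != x.2.1 && x.1 != x.2.2 && x.2.1 != x.2.2) &&
  ((List.range D.N).all fun j => (evT D w j == x.1) == (j == x.1) &&
    (evT D w j == x.2.1) == (j == x.2.1) && (evT D w j == x.2.2) == (j == x.2.2)) &&
  ((evL D w).filter (su3 x) == [x.1, x.2.1, x.2.2]) &&
  ((evL D w).all fun z => su3 x z || (D.nb z).all fun p => !(su3 x p.1)) &&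
  (((D.nb x.1).filter fun p => su3 x p.1).isPerm [(x.2.1, c), (x.2.2, c)]) &&
  (((D.nb x.2.1).filter fun p => su3 x p.1).isPerm [(x.1, c), (x.2.2, c)]) &&
  (((D.nb x.2.2).filter fun p => su3 x p.1).isPerm [(x.1, c), (x.2.1, c)])

variable {D : Dat} (k : ℕ → ℝ)

theorem sn_su3 (x : ℕ × ℕ × ℕ) (z : ℕ) (v : ℕ → ℝ) (hv : ∀ j, su3 x j = false → v j = 0)
    (l : List (ℕ × ℕ)) (hl : ((D.nb z).filter fun p => su3 x p.1).isPerm l = true) :
    sn D k z v = (l.map fun p => k p.2 * v p.1).sum := by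
  rw [List.isPerm_iff] at hl
  rw [← (hl.map _).sum_eq]
  unfold sn
  have hp := (List.filter_append_perm (fun q : ℕ × ℕ => su3 x q.1) (D.nb z)).symm
  rw [(hp.map _).sum_eq, List.map_append, List.sum_append]
  have h0 : (((D.nb z).filter fun q => !(su3 x q.1)).map fun p => k p.2 * v p.1).sum = 0 := by
    apply List.sum_eq_zero
    intro y hy
    rw [List.mem_map] at hy
    obtain ⟨q, hq, rfl⟩ := hy
    rw [List.mem_filter] at hq
    rw [hv q.1 (by simpa using hq.2), mul_zero]
  rw [h0, add_zero]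

theorem S_filter3 (x : ℕ × ℕ × ℕ) (v : ℕ → ℝ) (hv : ∀ j, su3 x j = false → v j = 0)
    (L : List ℕ) (hL : ∀ z ∈ L, su3 x z = true ∨ ∀ p ∈ D.nb z, su3 x p.1 = false) :
    S D k L v = S D k (L.filter (su3 x)) v ∧ ∀ j, su3 x j = false → S D k L v j = 0 := by
  induction L with
  | nil => exact ⟨rfl, hv⟩
  | cons z L ih =>
    obtain ⟨h1, h2⟩ := ih (fun z' hz' => hL z' (List.mem_cons_of_mem _ hz'))
    by_cases hz : su3 x z = true
    · refine ⟨?_, ?_⟩
      · rw [List.filter_cons_of_pos hz, S_cons, S_cons, h1]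
      · intro j hj
        rw [S_cons, s_ne D k, h2 j hj]
        rintro rfl
        rw [hz] at hj
        exact absurd hj (by decide)
    · have hz' : su3 x z = false := by simpa using hz
      have h3 : s D k z (S D k L v) = S D k L v := by
        funext j
        by_cases hj : j = z
        · subst hj
          rw [s_self, h2 j hz']
          have h4 := (hL j List.mem_cons_self).resolve_left hz
          have : sn D k j (S D k L v) = sn D k j (fun _ => 0) :=
            sn_congr D k j (fun p hp => h2 p.1 (h4 p hp))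
          rw [this]
          simp [sn]
        · rw [s_ne D k hj]
      refine ⟨?_, ?_⟩
      · rw [List.filter_cons_of_neg hz, S_cons, h3, h1]
      · intro j hj
        rw [S_cons, h3, h2 j hj]

/-- The three values after the word. -/
theorem tri_sound {n : ℕ} (h : Ok D n) (w : List ℕ) (hw : ∀ i ∈ w, i < n) (e : ℕ)
    (x : ℕ × ℕ × ℕ) (hc : triB D e x w = true) (a b c : ℝ) : ∃ c1 b1 a1 : ℝ,
    c1 = k e * a + k e * b - c ∧ b1 = k e * a + k e * c1 - b ∧ a1 = k e * b1 + k e * c1 - a ∧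
    w.foldr (G D k) (vec3 x a b c) = vec3 x a1 b1 c1 := by
  obtain ⟨x1, x2, x3⟩ := x
  simp only [triB, Bool.and_eq_true, bne_iff_ne, ne_eq, List.all_eq_true,
    List.mem_range, beq_iff_eq, Bool.or_eq_true, Bool.not_eq_true'] at hc
  obtain ⟨⟨⟨⟨⟨⟨hne, hT⟩, hF⟩, hirr⟩, n1⟩, n2⟩, n3⟩ := hc
  obtain ⟨⟨h12, h13⟩, h23⟩ := hne
  obtain ⟨X, hX⟩ : ∃ X : ℕ × ℕ × ℕ, X = (x1, x2, x3) := ⟨_, rfl⟩
  rw [← hX] at hF hirr n1 n2 n3 ⊢
  have hsup : ∀ a b c : ℝ, ∀ j, su3 X j = false → vec3 X a b c j = 0 := by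
    intro a b c j hj
    simp only [su3, hX, Bool.or_eq_false_iff, beq_eq_false_iff_ne, ne_eq] at hj
    simp only [vec3, hX]
    rw [if_neg (by tauto), if_neg (by tauto), if_neg (by tauto)]
  have v1 : ∀ a b c : ℝ, vec3 X a b c x1 = a := by intro a b c; simp [vec3, hX]
  have v2 : ∀ a b c : ℝ, vec3 X a b c x2 = b := by
    intro a b c
    simp only [vec3, hX]
    rw [if_neg (fun h => h12 h.symm), if_pos trivial]
  have v3 : ∀ a b c : ℝ, vec3 X a b c x3 = c := by
    intro a b c
    simp only [vec3, hX]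
    rw [if_neg (fun h => h13 h.symm), if_neg (fun h => h23 h.symm), if_pos trivial]
  have hQ : Q (evT D w) (vec3 X a b c) = vec3 X a b c := by
    funext j
    unfold Q
    rcases lt_or_ge j D.N with hj | hj
    · obtain ⟨⟨t1, t2⟩, t3⟩ := hT j hj
      have e1 : evT D w j = x1 ↔ j = x1 := by
        rw [← beq_iff_eq (a := evT D w j), ← beq_iff_eq (a := j), t1]
      have e2 : evT D w j = x2 ↔ j = x2 := by
        rw [← beq_iff_eq (a := evT D w j), ← beq_iff_eq (a := j), t2]
      have e3 : evT D w j = x3 ↔ j = x3 := by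
        rw [← beq_iff_eq (a := evT D w j), ← beq_iff_eq (a := j), t3]
      simp only [vec3, hX, e1, e2, e3]
    · rw [evT_out h w hw j hj]
  refine ⟨_, _, _, rfl, rfl, rfl, ?_⟩
  rw [(evalw_sound k h w hw).2, hQ, (S_filter3 k X _ (hsup a b c) _ hirr).1, hF]
  simp only [S_cons, S_nil]
  have c3 : ∀ a b c : ℝ, s D k x3 (vec3 X a b c) = vec3 X a b (k e * a + k e * b - c) := by
    intro a b c
    funext j
    by_cases hj : j = x3
    · rw [hj, s_self, sn_su3 k X x3 _ (hsup a b c) _ n3, v3, v3]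
      simp only [List.map_cons, List.map_nil, List.sum_cons, List.sum_nil, v1, v2]
      ring
    · rw [s_ne D k hj]
      simp only [vec3, hX]
      rw [if_neg hj, if_neg hj]
  have c2 : ∀ a b c : ℝ, s D k x2 (vec3 X a b c) = vec3 X a (k e * a + k e * c - b) c := by
    intro a b c
    funext j
    by_cases hj : j = x2
    · rw [hj, s_self, sn_su3 k X x2 _ (hsup a b c) _ n2, v2, v2]
      simp only [List.map_cons, List.map_nil, List.sum_cons, List.sum_nil, v1, v3]
      ring
    · rw [s_ne D k hj]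
      simp only [vec3, hX]
      rw [if_neg hj, if_neg hj]
  have c1 : ∀ a b c : ℝ, s D k x1 (vec3 X a b c) = vec3 X (k e * b + k e * c - a) b c := by
    intro a b c
    funext j
    by_cases hj : j = x1
    · rw [hj, s_self, sn_su3 k X x1 _ (hsup a b c) _ n1, v1, v1]
      simp only [List.map_cons, List.map_nil, List.sum_cons, List.sum_nil, v2, v3]
      ring
    · rw [s_ne D k hj]
      simp only [vec3, hX]
      rw [if_neg hj, if_neg hj]
  rw [c3, c2, c1]

/-- A group with such an element is infinite. -/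
theorem infinite_of_vec3 {H : Type*} [Group H] (Ψ : H →* Equiv.Perm (ℕ → ℝ)) (y : H)
    (x : ℕ × ℕ × ℕ) (l : ℝ) (hl : 1 ≤ l)
    (hy : ∀ a b c : ℝ, ∃ c1 b1 a1 : ℝ, c1 = l * a + l * b - c ∧ b1 = l * a + l * c1 - b ∧
      a1 = l * b1 + l * c1 - a ∧ Ψ y (vec3 x a b c) = vec3 x a1 b1 c1) : Infinite H := by
  have key : ∀ n : ℕ, ∃ a b c : ℝ, Ψ (y ^ n) (vec3 x 1 0 0) = vec3 x a b c ∧ 0 ≤ c ∧ c ≤ b ∧
      b ≤ a ∧ 1 ≤ a - c ∧ (n : ℝ) < a := by
    intro n
    induction n with
    | zero => exact ⟨1, 0, 0, by simp, le_rfl, le_rfl, by norm_num, by norm_num, by simp⟩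
    | succ n ih =>
      obtain ⟨a, b, c, h1, h2, h3, h4, h5, h6⟩ := ih
      obtain ⟨c1, b1, a1, e1, e2, e3, e4⟩ := hy a b c
      have hb : 0 ≤ b := h2.trans h3
      have ha : 0 ≤ a := hb.trans h4
      have la : a ≤ l * a := le_mul_of_one_le_left ha hl
      have lb : b ≤ l * b := le_mul_of_one_le_left hb hl
      have hc1 : a + (b - c) ≤ c1 := by linarith
      have hc0 : 0 ≤ c1 := by linarith
      have lc : c1 ≤ l * c1 := le_mul_of_one_le_left hc0 hl
      have hb1 : c1 + (a - b) ≤ b1 := by linarith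
      have hb0 : 0 ≤ b1 := by linarith
      have lb1 : b1 ≤ l * b1 := le_mul_of_one_le_left hb0 hl
      have ha1 : b1 + (c1 - a) ≤ a1 := by linarith
      refine ⟨a1, b1, c1, ?_, hc0, by linarith, by linarith, by linarith, ?_⟩
      · rw [pow_succ', map_mul, Equiv.Perm.mul_apply, h1, e4]
      · push_cast
        linarith
  have hx : ∀ a b c : ℝ, vec3 x a b c x.1 = a := fun a b c => by simp [vec3]
  by_contra hfin
  rw [not_infinite_iff_finite] at hfin
  obtain ⟨n, hn, hy1⟩ := isOfFinOrder_iff_pow_eq_one.1 (isOfFinOrder_of_finite y)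
  obtain ⟨a, b, c, h1, -, -, -, -, h4⟩ := key n
  rw [hy1, map_one, Equiv.Perm.one_apply] at h1
  have h5 := congrFun h1 x.1
  rw [hx, hx] at h5
  rw [← h5] at h4
  have : (1 : ℝ) ≤ n := by exact_mod_cast hn
  linarith

/-- The group with the given relators is infinite. -/
theorem infinite_of_rep3 (h : Ok D 6) (hi : invB D = true) (f : Fin 6 → Fin 6)
    (rels : Set (FreeGroup (Fin 6)))
    (hrel : ∀ r ∈ rels, ∃ (w : List (Fin 6)) (N : ℕ), r = w2g w ^ N ∧
      ∀ v, (fun v => (w.map fun i => (f i : ℕ)).foldr (G D k) v)^[N] v = v)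
    (w0 : List (Fin 6)) (c : ℕ) (x : ℕ × ℕ × ℕ)
    (hc : triB D c x (w0.map fun i => (f i : ℕ)) = true) (hk : 1 ≤ k c) :
    Infinite (PresentedGroup rels) := by
  have hw : ∀ (w : List (Fin 6)) (v : ℕ → ℝ), FreeGroup.lift (fun i => P k h hi (f i)) (w2g w) v =
      (w.map fun i => (f i : ℕ)).foldr (G D k) v := by
    intro w v
    induction w with
    | nil => simp [w2g]
    | cons i w ih =>
      rw [show i :: w = [i] ++ w from rfl, w2g_append, map_mul, Equiv.Perm.mul_apply, ih,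
        List.map_append, List.foldr_append]
      simp [w2g, P]
  have hrel' : ∀ r ∈ rels, FreeGroup.lift (fun i => P k h hi (f i)) r = 1 := by
    intro r hr
    obtain ⟨w, N, rfl, hN⟩ := hrel r hr
    rw [map_pow]
    ext1 v
    have h1 : (FreeGroup.lift (fun i => P k h hi (f i)) (w2g w) ^ N) v =
        (fun v => (w.map fun i => (f i : ℕ)).foldr (G D k) v)^[N] v := by
      rw [show (fun v => (w.map fun i => (f i : ℕ)).foldr (G D k) v) =
        (FreeGroup.lift (fun i => P k h hi (f i)) (w2g w) : (ℕ → ℝ) → (ℕ → ℝ)) from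
          funext fun v => (hw w v).symm, Equiv.Perm.iterate_eq_pow]
    rw [h1, hN, Equiv.Perm.one_apply]
  refine infinite_of_vec3 (PresentedGroup.toGroup hrel') (PresentedGroup.mk rels (w2g w0)) x
    (k c) hk (fun a b d => ?_)
  rw [show PresentedGroup.toGroup hrel' (PresentedGroup.mk rels (w2g w0)) =
    FreeGroup.lift (fun i => P k h hi (f i)) (w2g w0) from rfl, hw]
  exact tri_sound k h _ (by
    intro i hi'
    rw [List.mem_map] at hi'
    obtain ⟨j, -, rfl⟩ := hi'
    exact (f j).isLt) c x hc a b d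

end Pool.Agent.Lib.MP_c2d01e_co.Lab
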