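import Pool.Agent.Lib.MP_c2d01e_co.Base

/-!
# Levels: periodic functions and the function `D`
-/

namespace Pool.Agent.Lib.MP_c2d01e_co

/-! ### The data of a level -/

open Classical in
/-- Indicator of divisibility. -/
noncomputable def dn (n t : ℤ) : ℤ := if n ∣ t then 1 else 0

/-- Minus conjugation on `H`. -/
def cj (y : H4) : H4 := (-y.1, y.2.1 + y.1, y.2.2.1 + y.1, y.2.2.2 + y.1)

/-- The linear action of a reflection on `H`. -/
def Rh (i : Fin 6) (y : H4) : H4 := (R i (y, 0, 0)).1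

/-- The data attached to a level: `n` is the modulus of the last two coordinates, `H` the ideal of
the quaternion coordinate, `c` a scalar, `e ∈ {0, 1}` and `W` the weight function. -/
structure Lvl where
  n : ℤ
  c : ℤ
  e : ℤ
  H : AddSubgroup H4
  W : ℤ → ℤ
  one_mem : ((2 * n, -n, -n, -n) : H4) ∈ H
  tr : ∀ y ∈ H, n ∣ y.1
  cjm : ∀ y ∈ H, cj y ∈ H
  r2 : ∀ y ∈ H, Rh 2 y ∈ H
  r3 : ∀ y ∈ H, Rh 3 y ∈ H
  r4 : ∀ y ∈ H, Rh 4 y ∈ H
  r5 : ∀ y ∈ H, Rh 5 y ∈ H
  cx : ∀ x ∈ N2, (c - 1) • x ∈ H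
  c2 : n ∣ 2 * c - 2
  Wodd : ∀ t, W (-t) = -W t
  Wper : ∀ t k, W (t + n * k) = W t
  T : ∀ a, W a - W (a - 2) = 2 * dn n (a - 1) - e * (2 * dn n (a - c)) -
    (1 - e) * (dn n a + dn n (a - 2))

namespace Lvl

variable (L : Lvl)

/-- The sublattice. -/
def mem (v : V) : Prop := v.1 ∈ L.H ∧ L.n ∣ v.2.1 ∧ L.n ∣ v.2.2

theorem mem_zero : L.mem 0 := ⟨L.H.zero_mem, dvd_zero _, dvd_zero _⟩

theorem mem_sub {v w : V} (hv : L.mem v) (hw : L.mem w) : L.mem (v - w) :=
  ⟨L.H.sub_mem hv.1 hw.1, dvd_sub hv.2.1 hw.2.1, dvd_sub hv.2.2 hw.2.2⟩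

theorem mem_R {v : V} (i : Fin 6) (hv : L.mem v) : L.mem (R i v) := by
  obtain ⟨⟨p, x, y, z⟩, a, b⟩ := v
  obtain ⟨h1, h2, h3⟩ := hv
  fin_cases i
  · exact ⟨h1, (dvd_neg).2 h3, (dvd_neg).2 h2⟩
  · have htr := L.tr _ h1
    have hcj := L.cjm _ h1
    obtain ⟨b', rfl⟩ := h3
    have h4 := L.H.add_mem (L.H.zsmul_mem L.one_mem b') hcj
    refine ⟨?_, ?_, dvd_mul_right _ _⟩
    · convert h4 using 1
      simp only [R, cj, Prod.smul_mk, Prod.mk_add_mk, smul_eq_mul]
      ext <;> simp <;> ring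
    · simp only [R]
      simp only at htr
      exact dvd_add (dvd_sub h2 (dvd_mul_right _ _)) htr
  · exact ⟨L.r2 _ h1, h2, h3⟩
  · exact ⟨L.r3 _ h1, h2, h3⟩
  · exact ⟨L.r4 _ h1, h2, h3⟩
  · exact ⟨L.r5 _ h1, h2, h3⟩

theorem mem_R_iff {v : V} (i : Fin 6) : L.mem (R i v) ↔ L.mem v := by
  refine ⟨fun h => ?_, L.mem_R i⟩
  have := L.mem_R i h
  rwa [R_R] at this

open Classical in
/-- Indicator function of the sublattice. -/
noncomputable def ind (v : V) : ℤ := if L.mem v then 1 else 0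

open Classical in
/-- Indicator function of the ideal. -/
noncomputable def A (y : H4) : ℤ := if y ∈ L.H then 1 else 0

theorem ind_eq (y : H4) (a b : ℤ) : L.ind (y, a, b) = L.A y * dn L.n a * dn L.n b := by
  unfold ind A dn mem
  by_cases h1 : y ∈ L.H <;> by_cases h2 : L.n ∣ a <;> by_cases h3 : L.n ∣ b <;> simp [h1, h2, h3]

theorem ind_R (i : Fin 6) (v w : V) : L.ind (R i v - w) = L.ind (v - R i w) := by
  unfold ind
  have : L.mem (R i v - w) ↔ L.mem (v - R i w) := by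
    rw [← L.mem_R_iff i, R_sub, R_R]
  by_cases h : L.mem (v - R i w)
  · rw [if_pos h, if_pos (this.2 h)]
  · rw [if_neg h, if_neg fun h' => h (this.1 h')]

/-- Evaluation of a formal sum (scaled by `c`) at `v`. -/
noncomputable def ev (c : ℤ) (l : List (V × ℤ)) (v : V) : ℤ :=
  (l.map fun q => q.2 * L.ind (v - c • q.1)).sum

theorem ev_append (c : ℤ) (l l' : List (V × ℤ)) (v : V) :
    L.ev c (l ++ l') v = L.ev c l v + L.ev c l' v := by
  simp [ev, List.map_append, List.sum_append]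

theorem ev_ng (c : ℤ) (l : List (V × ℤ)) (v : V) : L.ev c (ng l) v = -L.ev c l v := by
  unfold ev ng
  rw [List.map_map]
  have : ∀ l : List (V × ℤ), (l.map ((fun q : V × ℤ => q.2 * L.ind (v - c • q.1)) ∘
      fun q : V × ℤ => (q.1, -q.2))).sum = -(l.map fun q => q.2 * L.ind (v - c • q.1)).sum := by
    intro l
    induction l with
    | nil => simp
    | cons q l ih =>
      simp only [List.map_cons, List.sum_cons, Function.comp] at ih ⊢
      rw [ih]
      ring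
  exact this l

theorem ev_mp (c : ℤ) (i : Fin 6) (l : List (V × ℤ)) (v : V) :
    L.ev c (mp i l) v = L.ev c l (R i v) := by
  unfold ev mp
  rw [List.map_map]
  congr 1
  apply List.map_congr_left
  intro q _
  simp only [Function.comp]
  rw [L.ind_R, R_smul]

theorem ev_null (c : ℤ) {l : List (V × ℤ)} (h : nullB l = true) (v : V) : L.ev c l v = 0 :=
  null_sum h fun w => L.ind (v - c • w)

theorem ev_R0 (c : ℤ) (v : V) : L.ev c I0 (R 0 v) = -L.ev c I0 v := by
  have h := L.ev_null c null_R0 v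
  rw [ev_append, ev_mp] at h
  linarith

theorem ev_Rj (c : ℤ) (j : Fin 6) (hj : nullB (I0 ++ ng (mp j I0)) = true) (v : V) :
    L.ev c I0 (R j v) = L.ev c I0 v := by
  have h := L.ev_null c hj v
  rw [ev_append, ev_ng, ev_mp] at h
  linarith

theorem ev_three (c : ℤ) {l : List (V × ℤ)} (h : nullB (three l) = true) (v : V) :
    L.ev c l v + (L.ev c l (R 1 (R 0 v)) + L.ev c l (R 1 (R 0 (R 1 (R 0 v))))) = 0 := by
  have h := L.ev_null c h v
  unfold three at h
  rw [ev_append, ev_append] at h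
  simp only [ev_mp] at h
  exact h

theorem A_add {y h : H4} (hh : h ∈ L.H) : L.A (y + h) = L.A y := by
  unfold A
  by_cases h1 : y ∈ L.H
  · rw [if_pos h1, if_pos (L.H.add_mem h1 hh)]
  · rw [if_neg h1, if_neg]
    intro h2
    exact h1 (by simpa using L.H.sub_mem h2 hh)

theorem A_map (f : H4 → H4) (hf : ∀ y ∈ L.H, f y ∈ L.H) (hff : ∀ y, f (f y) = y) (y : H4) :
    L.A (f y) = L.A y := by
  unfold A
  by_cases h1 : y ∈ L.H
  · rw [if_pos h1, if_pos (hf _ h1)]
  · rw [if_neg h1, if_neg]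
    intro h2
    exact h1 (by simpa [hff] using hf _ h2)

/-- Number of norm two elements congruent to `y`. -/
noncomputable def cN (y : H4) : ℤ := (N2.map fun x => L.A (y - x)).sum

theorem cN_add {y h : H4} (hh : h ∈ L.H) : L.cN (y + h) = L.cN y := by
  unfold cN
  congr 1
  apply List.map_congr_left
  intro x _
  rw [show y + h - x = (y - x) + h by abel, L.A_add hh]

theorem cN_map (f : H4 → H4) (hf : ∀ y ∈ L.H, f y ∈ L.H) (hff : ∀ y, f (f y) = y)
    (hsub : ∀ y w, f (y - w) = f y - f w) (hp : (N2.map f).Perm N2) (y : H4) :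
    L.cN (f y) = L.cN y := by
  unfold cN
  rw [← (hp.map fun x => L.A (f y - x)).sum_eq, List.map_map]
  congr 1
  apply List.map_congr_left
  intro x _
  simp only [Function.comp]
  rw [← hsub, L.A_map f hf hff]

theorem cj_cj (y : H4) : cj (cj y) = y := by
  obtain ⟨p, x, y, z⟩ := y
  simp [cj]

theorem cj_sub (y w : H4) : cj (y - w) = cj y - cj w := by
  obtain ⟨p, x, y, z⟩ := y
  obtain ⟨p', x', y', z'⟩ := w
  simp only [cj, Prod.mk_sub_mk, Prod.mk.injEq]
  refine ⟨?_, ?_, ?_, ?_⟩ <;> ring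

theorem perm_cj : (N2.map cj).Perm N2 := by decide +kernel
theorem perm_2 : (N2.map (Rh 2)).Perm N2 := by decide +kernel
theorem perm_3 : (N2.map (Rh 3)).Perm N2 := by decide +kernel
theorem perm_4 : (N2.map (Rh 4)).Perm N2 := by decide +kernel
theorem perm_5 : (N2.map (Rh 5)).Perm N2 := by decide +kernel

theorem cN_cj (y : H4) : L.cN (cj y) = L.cN y := L.cN_map cj L.cjm cj_cj cj_sub perm_cj y

/-- The boundary function. -/
noncomputable def Bd (v : V) : ℤ :=
  L.cN v.1 * (dn L.n v.2.2 * L.W v.2.1 + dn L.n v.2.1 * L.W v.2.2)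

/-- The function `D`. -/
noncomputable def D (v : V) : ℤ := L.ev 1 I0 v - L.e * L.ev L.c I0 v + L.Bd v

theorem dn_neg (n t : ℤ) : dn n (-t) = dn n t := by
  unfold dn
  by_cases h : n ∣ t
  · rw [if_pos h, if_pos ((dvd_neg).2 h)]
  · rw [if_neg h, if_neg fun h' => h ((dvd_neg).1 h')]

theorem dn_add {n t k : ℤ} (h : n ∣ k) : dn n (t + k) = dn n t := by
  unfold dn
  by_cases h' : n ∣ t
  · rw [if_pos h', if_pos (dvd_add h' h)]
  · rw [if_neg h', if_neg fun h'' => h' ((dvd_add_left h).1 h'')]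

theorem W_add {t k : ℤ} (h : L.n ∣ k) : L.W (t + k) = L.W t := by
  obtain ⟨m, rfl⟩ := h
  exact L.Wper t m

theorem D_R0 (v : V) : L.D (R 0 v) = -L.D v := by
  obtain ⟨⟨p, x, y, z⟩, a, b⟩ := v
  have h1 := L.ev_R0 1 ((p, x, y, z), a, b)
  have h2 := L.ev_R0 L.c ((p, x, y, z), a, b)
  have h3 : L.Bd (R 0 ((p, x, y, z), a, b)) = -L.Bd ((p, x, y, z), a, b) := by
    simp only [R, Bd, dn_neg, L.Wodd]
    ring
  unfold D
  rw [h1, h2, h3]
  ring

theorem Rh_Rh (i : Fin 6) (hi : i ≠ 0) (hi1 : i ≠ 1) (y : H4) : Rh i (Rh i y) = y := by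
  obtain ⟨p, x, y, z⟩ := y
  fin_cases i <;> simp_all [Rh, R] <;> ring_nf <;> simp

theorem Rh_sub (i : Fin 6) (y w : H4) : Rh i (y - w) = Rh i y - Rh i w := by
  change (R i (y - w, 0, 0)).1 = _
  rw [show ((y - w, (0 : ℤ), (0 : ℤ)) : V) = (y, 0, 0) - (w, 0, 0) from rfl, R_sub]
  rfl

theorem D_Rj (j : Fin 6) (h0 : j ≠ 0) (h1 : j ≠ 1) (v : V) : L.D (R j v) = L.D v := by
  have key : ∀ (hR : ∀ y ∈ L.H, Rh j y ∈ L.H) (hp : (N2.map (Rh j)).Perm N2)
      (hn : nullB (I0 ++ ng (mp j I0)) = true) (hr : R j v = (Rh j v.1, v.2)),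
      L.D (R j v) = L.D v := by
    intro hR hp hn hr
    have h3 : L.Bd (R j v) = L.Bd v := by
      rw [hr]
      unfold Bd
      simp only
      rw [L.cN_map (Rh j) hR (Rh_Rh j h0 h1) (Rh_sub j) hp]
    unfold D
    rw [L.ev_Rj 1 j hn, L.ev_Rj L.c j hn, h3]
  obtain ⟨⟨p, x, y, z⟩, a, b⟩ := v
  fin_cases j
  · exact absurd rfl h0
  · exact absurd rfl h1
  · exact key L.r2 perm_2 null_R2 rfl
  · exact key L.r3 perm_3 null_R3 rfl
  · exact key L.r4 perm_4 null_R4 rfl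
  · exact key L.r5 perm_5 null_R5 rfl

/-- The part of the formal sum `K1` at `x`. -/
def k1 (x : H4) : List (V × ℤ) :=
  if x.1 = -2 then [((x, 1, 0), 2)] else if x.1 = 2 then [((x, -1, 0), -2)] else []

/-- The part of the formal sum `K0` at `x`. -/
def k0 (x : H4) : List (V × ℤ) :=
  if x.1 = -2 then [((x, 0, 0), 1), ((x, 2, 0), 1)] else
    if x.1 = 2 then [((x, 0, 0), -1), ((x, -2, 0), -1)] else []

theorem N2_tr : ∀ x ∈ N2, x.1 = -2 ∨ x.1 = 0 ∨ x.1 = 2 := by decide +kernel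

theorem T' (a : ℤ) : L.W a - L.W (a + 2) = -(2 * dn L.n (a + 1)) + L.e * (2 * dn L.n (a + L.c)) +
    (1 - L.e) * (dn L.n a + dn L.n (a + 2)) := by
  have h := L.T (a + 2)
  rw [show a + 2 - 2 = a by ring, show a + 2 - 1 = a + 1 by ring] at h
  have h2 : dn L.n (a + L.c) = dn L.n (a + 2 - L.c) := by
    rw [show a + L.c = (a + 2 - L.c) + (2 * L.c - 2) by ring, dn_add L.c2]
  rw [h2]
  linarith

theorem ev_single (c : ℤ) (x y : H4) (a b a0 w : ℤ) :
    L.ev c [((x, a0, 0), w)] (y, a, b) = w * (L.A (y - c • x) * dn L.n (a - c * a0) * dn L.n b) := by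
  unfold ev
  simp only [List.map_cons, List.map_nil, List.sum_cons, List.sum_nil, add_zero]
  rw [show ((y, a, b) : V) - c • ((x, a0, 0) : V) = (y - c • x, a - c * a0, b) by simp, ind_eq]

theorem ev_nil (c : ℤ) (v : V) : L.ev c [] v = 0 := by simp [ev]

theorem ev_pair (c : ℤ) (q q' : V × ℤ) (v : V) :
    L.ev c [q, q'] v = L.ev c [q] v + L.ev c [q'] v := by
  simp [ev]

theorem corner_point {x : H4} (hx : x ∈ N2) (y : H4) (a b : ℤ) :
    L.A (y - x) * dn L.n b * (L.W a - L.W (a + y.1)) =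
      L.ev 1 (k1 x) (y, a, b) - L.e * L.ev L.c (k1 x) (y, a, b) -
        (1 - L.e) * L.ev 1 (k0 x) (y, a, b) := by
  have hc : L.A (y - L.c • x) = L.A (y - x) := by
    rw [show y - x = (y - L.c • x) + (L.c - 1) • x by rw [sub_smul, one_smul]; abel,
      L.A_add (L.cx x hx)]
  have hW : L.A (y - x) * (L.W a - L.W (a + y.1)) = L.A (y - x) * (L.W a - L.W (a + x.1)) := by
    unfold A
    by_cases h : y - x ∈ L.H
    · have h1 : L.n ∣ y.1 - x.1 := L.tr _ h
      rw [show a + y.1 = (a + x.1) + (y.1 - x.1) by ring, L.W_add h1]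
    · rw [if_neg h]
      ring
  have hl : L.A (y - x) * dn L.n b * (L.W a - L.W (a + y.1)) =
      dn L.n b * (L.A (y - x) * (L.W a - L.W (a + x.1))) := by
    rw [← hW]
    ring
  rw [hl]
  rcases N2_tr x hx with h | h | h
  · have hT := L.T a
    rw [show k1 x = [((x, 1, 0), 2)] by simp [k1, h],
      show k0 x = [((x, 0, 0), 1), ((x, 2, 0), 1)] by simp [k0, h], ev_pair]
    simp only [ev_single, hc, h, one_smul]
    rw [show a + -2 = a - 2 by ring, hT]
    simp only [mul_one, one_mul, mul_zero, sub_zero]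
    ring
  · rw [show k1 x = [] by simp [k1, h], show k0 x = [] by simp [k0, h]]
    simp only [ev_nil]
    rw [h]
    simp
  · have hT := L.T' a
    rw [show k1 x = [((x, -1, 0), -2)] by simp [k1, h],
      show k0 x = [((x, 0, 0), -1), ((x, -2, 0), -1)] by simp [k0, h], ev_pair]
    simp only [ev_single, hc, h, one_smul]
    rw [hT]
    simp only [mul_one, one_mul, mul_zero, sub_zero, mul_neg, neg_mul, sub_neg_eq_add]
    ring

theorem corner_list (y : H4) (a b : ℤ) (l : List H4) (hl : ∀ x ∈ l, x ∈ N2) :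
    (l.map fun x => L.A (y - x)).sum * dn L.n b * (L.W a - L.W (a + y.1)) =
      L.ev 1 (l.flatMap k1) (y, a, b) - L.e * L.ev L.c (l.flatMap k1) (y, a, b) -
        (1 - L.e) * L.ev 1 (l.flatMap k0) (y, a, b) := by
  induction l with
  | nil => simp [ev_nil]
  | cons x l ih =>
    have h1 := L.corner_point (hl x List.mem_cons_self) y a b
    have h2 := ih fun z hz => hl z (List.mem_cons_of_mem _ hz)
    simp only [List.flatMap_cons, List.map_cons, List.sum_cons, ev_append]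
    linear_combination h1 + h2

theorem corner (v : V) :
    L.cN v.1 * (dn L.n v.2.2 * L.W v.2.1) +
      L.cN (R 0 (R 1 v)).1 * (dn L.n (R 0 (R 1 v)).2.1 * L.W (R 0 (R 1 v)).2.2) =
      L.ev 1 K1 v - L.e * L.ev L.c K1 v - (1 - L.e) * L.ev 1 K0 v := by
  obtain ⟨⟨p, x, y, z⟩, a, b⟩ := v
  have h := L.corner_list (p, x, y, z) a b N2 (fun _ h => h)
  rw [show N2.flatMap k1 = K1 from rfl, show N2.flatMap k0 = K0 from rfl] at h
  rw [← h]
  have h1 : R 0 (R 1 ((p, x, y, z), a, b)) =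
      ((2 * b - p, x + p - b, y + p - b, z + p - b), -b, -(a - b + p)) := rfl
  rw [h1]
  simp only
  by_cases hb : L.n ∣ b
  · have h2 : L.cN (2 * b - p, x + p - b, y + p - b, z + p - b) = L.cN (p, x, y, z) := by
      obtain ⟨m, rfl⟩ := hb
      rw [← L.cN_cj (p, x, y, z)]
      rw [show ((2 * (L.n * m) - p, x + p - L.n * m, y + p - L.n * m, z + p - L.n * m) : H4) =
        cj (p, x, y, z) + m • (2 * L.n, -L.n, -L.n, -L.n) by
          simp only [cj, Prod.smul_mk, Prod.mk_add_mk, smul_eq_mul, Prod.mk.injEq]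
          refine ⟨?_, ?_, ?_, ?_⟩ <;> ring, L.cN_add (L.H.zsmul_mem L.one_mem m)]
    rw [h2, dn_neg, show -(a - b + p) = -(a + p) + b by ring, L.W_add hb, L.Wodd]
    unfold cN
    ring
  · have h3 : dn L.n b = 0 := by
      unfold dn
      rw [if_neg hb]
    rw [dn_neg, h3]
    ring

/-- The three term relation. -/
theorem D_three (v : V) : L.D v + L.D (R 1 (R 0 v)) + L.D (R 1 (R 0 (R 1 (R 0 v)))) = 0 := by
  have h3 : ∀ w : V, R 0 (R 1 w) = R 1 (R 0 (R 1 (R 0 w))) := by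
    intro w
    obtain ⟨⟨p, x, y, z⟩, a, b⟩ := w
    simp only [R, Prod.mk.injEq]
    refine ⟨⟨?_, ?_, ?_, ?_⟩, ?_, ?_⟩ <;> ring
  have c1 := L.corner v
  have c2 := L.corner (R 1 (R 0 v))
  have c3 := L.corner (R 1 (R 0 (R 1 (R 0 v))))
  rw [R_R, R_R] at c2
  rw [R_R, R_R] at c3
  rw [h3 v] at c1
  have t1 := L.ev_three 1 null_three_I v
  have t2 := L.ev_three L.c null_three_I v
  have t3 := L.ev_three 1 null_three_K v
  simp only [ev_append] at t1 t2
  unfold D Bd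
  linear_combination c1 + c2 + c3 + t1 - L.e * t2 - (1 - L.e) * t3

end Lvl

end Pool.Agent.Lib.MP_c2d01e_co
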