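import Pool.Agent.Lib.MP_c2d01e_co.Level

/-!
# Translations generated by the last five reflections
-/

namespace Pool.Agent.Lib.MP_c2d01e_co

/-- Norm on `H`. -/
def nm (y : H4) : ℤ :=
  y.1 ^ 2 + y.2.1 ^ 2 + y.2.2.1 ^ 2 + y.2.2.2 ^ 2 + y.1 * (y.2.1 + y.2.2.1 + y.2.2.2)

/-- Bilinear form on `H`, `bil y y = 2 * nm y`. -/
def bil (x y : H4) : ℤ :=
  2 * x.1 * y.1 + x.1 * (y.2.1 + y.2.2.1 + y.2.2.2) + y.1 * (x.2.1 + x.2.2.1 + x.2.2.2) +
    2 * (x.2.1 * y.2.1 + x.2.2.1 * y.2.2.1 + x.2.2.2 * y.2.2.2)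

/-- Translation by `y` of the cusp. -/
def E (y : H4) (v : V) : V := (v.1 + v.2.2 • y, v.2.1 - bil v.1 y - nm y * v.2.2, v.2.2)

theorem E_E (y w : H4) (v : V) : E y (E w v) = E (y + w) v := by
  obtain ⟨⟨p, x, y1, z⟩, a, b⟩ := v
  obtain ⟨q, q1, q2, q3⟩ := y
  obtain ⟨r, r1, r2, r3⟩ := w
  simp only [E, bil, nm, Prod.smul_mk, Prod.mk_add_mk, smul_eq_mul, Prod.mk.injEq]
  refine ⟨⟨?_, ?_, ?_, ?_⟩, ?_, trivial⟩ <;> ring

theorem E_zero (v : V) : E 0 v = v := by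
  obtain ⟨⟨p, x, y1, z⟩, a, b⟩ := v
  simp [E, bil, nm]

/-- The word `σ` acts as the reflection in `1 - i`. -/
theorem sig_eq (p x y z a b : ℤ) : R 2 (R 3 (R 4 (R 3 (R 2 ((p, x, y, z), a, b))))) =
    ((p + 2 * x, -x, y - x, z - x), a, b) := by
  simp only [R, Prod.mk.injEq]
  constructorm* _ ∧ _ <;> first | trivial | ring

/-- The word `τ` acts as the reflection in `i`. -/
theorem tau_eq (p x y z a b : ℤ) : R 5 (R 4 (R 3 (R 4 (R 5 ((p, x, y, z), a, b))))) =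
    ((p, -p - x, y, z), a, b) := by
  simp only [R]

theorem word1 (v : V) :
    R 2 (R 3 (R 4 (R 3 (R 2 (R 5 (R 4 (R 3 (R 4 (R 5 (R 2 (R 3 (R 4 (R 3 (R 2 (R 1 v))))))))))))))) =
      E (-2, 1, 1, 1) v := by
  obtain ⟨⟨p, x, y, z⟩, a, b⟩ := v
  rw [show R 1 ((p, x, y, z), a, b) =
    ((2 * b - p, x + p - b, y + p - b, z + p - b), a - b + p, b) from rfl, sig_eq, tau_eq, sig_eq]
  simp only [E, bil, nm, Prod.smul_mk, Prod.mk_add_mk, smul_eq_mul, Prod.mk.injEq]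
  refine ⟨⟨?_, ?_, ?_, ?_⟩, ?_, trivial⟩ <;> ring

theorem word2 (v : V) :
    R 5 (R 4 (R 3 (R 4 (R 5 (R 2 (R 3 (R 4 (R 3 (R 2 (R 1
      (R 5 (R 4 (R 3 (R 4 (R 5 (R 2 (R 3 (R 4 (R 3 (R 2 (R 1 v))))))))))))))))))))) =
      E (-2, 0, 1, 1) v := by
  obtain ⟨⟨p, x, y, z⟩, a, b⟩ := v
  rw [show R 1 ((p, x, y, z), a, b) =
    ((2 * b - p, x + p - b, y + p - b, z + p - b), a - b + p, b) from rfl, sig_eq, tau_eq]
  rw [show ∀ p x y z a b, R 1 ((p, x, y, z), a, b) =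
    ((2 * b - p, x + p - b, y + p - b, z + p - b), a - b + p, b) from fun _ _ _ _ _ _ => rfl,
    sig_eq, tau_eq]
  simp only [E, bil, nm, Prod.smul_mk, Prod.mk_add_mk, smul_eq_mul, Prod.mk.injEq]
  refine ⟨⟨?_, ?_, ?_, ?_⟩, ?_, trivial⟩ <;> ring

theorem E_conj (j : Fin 6) (h0 : j ≠ 0) (h1 : j ≠ 1) (y : H4) (v : V) :
    E (Rh j y) v = R j (E y (R j v)) := by
  obtain ⟨⟨p, x, y1, z⟩, a, b⟩ := v
  obtain ⟨q, q1, q2, q3⟩ := y
  fin_cases j <;> simp_all [E, bil, nm, Rh, R] <;> (try constructorm* _ ∧ _) <;> ring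

/-- Invariance under all translations. -/
theorem inv_E (F : V → ℤ) (hF : ∀ i : Fin 6, i ≠ 0 → ∀ v, F (R i v) = F v) (y : H4) (v : V) :
    F (E y v) = F v := by
  have hneg : ∀ y : H4, (∀ v, F (E y v) = F v) → ∀ v, F (E (-y) v) = F v := by
    intro y hy v
    rw [← hy (E (-y) v), E_E, add_neg_cancel, E_zero]
  have hadd : ∀ y w : H4, (∀ v, F (E y v) = F v) → (∀ v, F (E w v) = F v) →
      ∀ v, F (E (y + w) v) = F v := by
    intro y w hy hw v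
    rw [← E_E, hy, hw]
  have hconj : ∀ (j : Fin 6), j ≠ 0 → j ≠ 1 → ∀ y : H4, (∀ v, F (E y v) = F v) →
      ∀ v, F (E (Rh j y) v) = F v := by
    intro j h0 h1 y hy v
    rw [E_conj j h0 h1, hF j h0, hy, hF j h0]
  have e1 : ∀ v, F (E (-2, 1, 1, 1) v) = F v := by
    intro v
    rw [← word1]
    simp only [hF _ (show (1 : Fin 6) ≠ 0 by decide), hF _ (show (2 : Fin 6) ≠ 0 by decide),
      hF _ (show (3 : Fin 6) ≠ 0 by decide), hF _ (show (4 : Fin 6) ≠ 0 by decide),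
      hF _ (show (5 : Fin 6) ≠ 0 by decide)]
  have e2 := hneg _ e1
  have w0 := hconj 2 (by decide) (by decide) _ e2
  have w1 := hconj 3 (by decide) (by decide) _ w0
  have w2 := hconj 4 (by decide) (by decide) _ w1
  have w3 := hconj 3 (by decide) (by decide) _ w2
  have wi := hconj 2 (by decide) (by decide) _ w3
  have wj := hconj 5 (by decide) (by decide) _ wi
  have wk := hconj 4 (by decide) (by decide) _ wj
  rw [show Rh 2 (-(-2, 1, 1, 1)) = (1, 0, 0, 0) by decide] at w0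
  have hmul : ∀ y : H4, (∀ v, F (E y v) = F v) → ∀ (k : ℤ) v, F (E (k • y) v) = F v := by
    intro y hy k
    induction k using Int.induction_on with
    | zero => intro v; rw [zero_smul, E_zero]
    | succ k ih =>
      intro v
      rw [add_smul, one_smul]
      exact hadd _ _ ih hy v
    | pred k ih =>
      intro v
      rw [sub_smul, one_smul, sub_eq_add_neg]
      exact hadd _ _ ih (hneg _ hy) v
  obtain ⟨p, x, z, t⟩ := y
  have h0 := hmul _ w0 p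
  have h1 : ∀ v, F (E (x • (0, 1, 0, 0)) v) = F v := by
    have h := hmul _ wi x
    rw [show Rh 2 (Rh 3 (Rh 4 (Rh 3 (Rh 2 (-(-2, 1, 1, 1)))))) = (0, 1, 0, 0) by decide] at h
    exact h
  have h2 : ∀ v, F (E (z • (0, 0, 1, 0)) v) = F v := by
    have h := hmul _ wj z
    rw [show Rh 5 (Rh 2 (Rh 3 (Rh 4 (Rh 3 (Rh 2 (-(-2, 1, 1, 1))))))) = (0, 0, 1, 0) by decide] at h
    exact h
  have h3 : ∀ v, F (E (t • (0, 0, 0, 1)) v) = F v := by
    have h := hmul _ wk t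
    rw [show Rh 4 (Rh 5 (Rh 2 (Rh 3 (Rh 4 (Rh 3 (Rh 2 (-(-2, 1, 1, 1)))))))) = (0, 0, 0, 1) by
      decide] at h
    exact h
  have h4 := hadd _ _ (hadd _ _ (hadd _ _ h0 h1) h2) h3 v
  rw [show (p • ((1, 0, 0, 0) : H4) + x • (0, 1, 0, 0) + z • (0, 0, 1, 0) + t • (0, 0, 0, 1) : H4) =
    (p, x, z, t) by simp] at h4
  exact h4

end Pool.Agent.Lib.MP_c2d01e_co
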