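import Pool.Agent.Lib.MP_c2d01e_co.Inst

/-!
# The relations hold
-/

namespace Pool.Agent.Lib.MP_c2d01e_co

/-! ### Relations among the reflections -/

theorem comm_R (i j : Fin 6) (h : (i : ℕ) + 2 ≤ j) (v : V) : R j (R i (R j (R i v))) = v := by
  obtain ⟨⟨p, x, y, z⟩, a, b⟩ := v
  fin_cases i <;> fin_cases j <;> simp at h <;> simp only [R, Prod.mk.injEq] <;>
    (try constructorm* _ ∧ _) <;> first | trivial | ring

theorem br12 (v : V) : R 2 (R 1 (R 2 (R 1 (R 2 (R 1 v))))) = v := by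
  obtain ⟨⟨p, x, y, z⟩, a, b⟩ := v
  simp only [R, Prod.mk.injEq]
  (try constructorm* _ ∧ _) <;> first | trivial | ring

theorem br23 (v : V) : R 3 (R 2 (R 3 (R 2 (R 3 (R 2 v))))) = v := by
  obtain ⟨⟨p, x, y, z⟩, a, b⟩ := v
  simp only [R, Prod.mk.injEq]
  (try constructorm* _ ∧ _) <;> first | trivial | ring

theorem br34 (v : V) : R 4 (R 3 (R 4 (R 3 (R 4 (R 3 (R 4 (R 3 v))))))) = v := by
  obtain ⟨⟨p, x, y, z⟩, a, b⟩ := v
  simp only [R, Prod.mk.injEq]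
  (try constructorm* _ ∧ _) <;> first | trivial | ring

theorem br45 (v : V) : R 5 (R 4 (R 5 (R 4 (R 5 (R 4 v))))) = v := by
  obtain ⟨⟨p, x, y, z⟩, a, b⟩ := v
  simp only [R]

namespace Lvl

variable (L : Lvl)

theorem rel_lt (i j : Fin 6) (h : (i : ℕ) < j) :
    (L.T0 i * L.T0 j) ^ (if (i = 3 ∧ j = 4) ∨ (i = 4 ∧ j = 3) then 4
      else if (i : ℕ) + 1 = j ∨ (j : ℕ) + 1 = i then 3 else 2) = 1 := by
  by_cases h2 : (i : ℕ) + 2 ≤ j
  · have e : (if (i = 3 ∧ j = 4) ∨ (i = 4 ∧ j = 3) then 4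
      else if (i : ℕ) + 1 = j ∨ (j : ℕ) + 1 = i then 3 else 2) = 2 := by
      rw [if_neg, if_neg]
      · omega
      · rintro (⟨rfl, rfl⟩ | ⟨rfl, rfl⟩) <;> simp at h2
    rw [e]
    have hj0 : j ≠ 0 := by
      rintro rfl
      simp at h2
    have hj1 : j ≠ 1 := by
      rintro rfl
      simp at h2
    by_cases hi : i = 0
    · subst hi
      exact L.rel0 j hj0 hj1 (comm_R 0 j h2)
    · exact L.rel2 i j hi hj0 (comm_R i j h2)
  · have hij : (j : ℕ) = i + 1 := by omega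
    fin_cases i
    · obtain rfl : j = 1 := Fin.ext hij
      exact L.rel01
    · obtain rfl : j = 2 := Fin.ext hij
      exact L.rel3 1 2 (by decide) (by decide) br12
    · obtain rfl : j = 3 := Fin.ext hij
      exact L.rel3 2 3 (by decide) (by decide) br23
    · obtain rfl : j = 4 := Fin.ext hij
      exact L.rel4 3 4 (by decide) (by decide) br34
    · obtain rfl : j = 5 := Fin.ext hij
      exact L.rel3 4 5 (by decide) (by decide) br45
    · exfalso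
      have := j.2
      simp at hij
      omega

theorem rel_cox (i j : Fin 6) :
    (L.T0 i * L.T0 j) ^ (if i = j then 1 else if (i = 3 ∧ j = 4) ∨ (i = 4 ∧ j = 3) then 4
      else if (i : ℕ) + 1 = j ∨ (j : ℕ) + 1 = i then 3 else 2) = 1 := by
  rcases lt_trichotomy (i : ℕ) j with h | h | h
  · rw [if_neg (by rintro rfl; exact lt_irrefl _ h)]
    exact L.rel_lt i j h
  · obtain rfl : i = j := Fin.ext h
    rw [if_pos rfl, pow_one]
    exact L.T0_sq i
  · rw [if_neg (by rintro rfl; exact lt_irrefl _ h)]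
    have := L.pow_inv j i _ (L.rel_lt j i h)
    convert this using 2
    simp only [and_comm, or_comm]

/-- The permutation given by `σ`. -/
noncomputable def Sg : Equiv.Perm L.Per := L.T0 2 * L.T0 3 * L.T0 4 * L.T0 3 * L.T0 2

/-- The permutation given by `τ`. -/
noncomputable def Ta : Equiv.Perm L.Per := L.T0 5 * L.T0 4 * L.T0 3 * L.T0 4 * L.T0 5

theorem val1 (f : L.Per) (v : V) :
    ((L.T0 1 * L.Sg * L.Ta * L.Sg) f).1 v = f.1 (E (-2, 1, 1, 1) v) := by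
  rw [← word1]
  simp only [Sg, Ta, Equiv.Perm.mul_apply, L.T0_val' 1 (by decide), L.T0_val' 2 (by decide),
    L.T0_val' 3 (by decide), L.T0_val' 4 (by decide), L.T0_val' 5 (by decide)]

theorem val2 (f : L.Per) (v : V) :
    (((L.T0 1 * L.Sg * L.Ta) ^ 2) f).1 v = f.1 (E (-2, 0, 1, 1) v) := by
  rw [← word2]
  simp only [Sg, Ta, pow_succ, pow_zero, one_mul, Equiv.Perm.mul_apply, L.T0_val' 1 (by decide),
    L.T0_val' 2 (by decide), L.T0_val' 3 (by decide), L.T0_val' 4 (by decide),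
    L.T0_val' 5 (by decide)]

theorem rel_one (s : ℕ) (h1 : (-2 * (s : ℤ), (s : ℤ), (s : ℤ), (s : ℤ)) ∈ L.H)
    (h2 : L.n ∣ s) : (L.T0 1 * L.Sg * L.Ta * L.Sg) ^ s = 1 := by
  apply L.perm_ext
  intro f v
  rw [L.pow_E _ _ L.val1]
  have e : (s : ℤ) • ((-2, 1, 1, 1) : H4) = (-2 * (s : ℤ), (s : ℤ), (s : ℤ), (s : ℤ)) := by
    simp only [Prod.smul_mk, smul_eq_mul, Prod.mk.injEq]
    refine ⟨?_, ?_, ?_, ?_⟩ <;> ring
  rw [e]
  apply L.E_per _ _ _ h1
  refine dvd_of_eq' (dvd_mul_of_dvd_left h2 (-v.1.1 + s * v.2.2)) ?_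
  simp only [bil, nm]
  ring

theorem rel_two (s : ℕ) (h1 : (-2 * (s : ℤ), (0 : ℤ), (s : ℤ), (s : ℤ)) ∈ L.H)
    (h2 : L.n ∣ 2 * s) : (L.T0 1 * L.Sg * L.Ta) ^ (2 * s) = 1 := by
  rw [pow_mul]
  apply L.perm_ext
  intro f v
  rw [L.pow_E _ _ L.val2]
  have e : (s : ℤ) • ((-2, 0, 1, 1) : H4) = (-2 * (s : ℤ), (0 : ℤ), (s : ℤ), (s : ℤ)) := by
    simp only [Prod.smul_mk, smul_eq_mul, Prod.mk.injEq]
    refine ⟨?_, ?_, ?_, ?_⟩ <;> ring
  rw [e]
  apply L.E_per _ _ _ h1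
  refine dvd_of_eq' (dvd_mul_of_dvd_left h2 (-v.1.1 - v.1.2.1 + s * v.2.2)) ?_
  simp only [bil, nm]
  ring

end Lvl

/-! ### The criterion at odd and even levels -/

theorem odd_ne (m : ℤ) (hm : 5 ≤ m) (h2 : m % 2 = 1) (x' : H4) (hx : nm x' = 1 + m) :
    (oddLvl m hm h2).D ((2, -1, -1, -1), 1, 1) ≠ (oddLvl m hm h2).D (x', 1, 1) := by
  have hd : ∀ t : ℤ, 0 < t → t < m → dn m t = 0 := by
    intro t ht0 ht
    unfold dn
    rw [if_neg]
    intro h
    have := Int.le_of_dvd ht0 h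
    omega
  apply Lvl.D_ne
  · exact hd 1 (by omega) (by omega)
  · exact hd 2 (by omega) (by omega)
  · exact Or.inl rfl
  · intro h hh h0
    obtain ⟨⟨a, ha⟩, ⟨b, hb⟩, ⟨c, hc⟩, ⟨d, hd⟩⟩ := mem_Ho.1 hh
    have e : h = m • ((a, b, c, d) : H4) := by
      ext <;> simp [ha, hb, hc, hd]
    rw [e, nm_smul]
    have hne : ((a, b, c, d) : H4) ≠ 0 := by
      intro h1
      apply h0
      rw [e, h1, smul_zero]
    have := nm_pos hne
    change 2 * m + 4 < _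
    nlinarith
  · exact hx
  · change 0 < m
    omega

theorem infinite_odd (m : ℤ) (hm : 5 ≤ m) (h2 : m % 2 = 1) (rel : Set (FreeGroup (Fin 6)))
    (hrel : ∀ r ∈ rel, FreeGroup.lift (oddLvl m hm h2).T0 r = 1) :
    Infinite (PresentedGroup rel) := by
  obtain ⟨x', hx⟩ := exists_nm (1 + m).toNat
  rw [Int.toNat_of_nonneg (by omega)] at hx
  exact (oddLvl m hm h2).infinite_of rel hrel x' 1 (by rw [hx]; change 1 + m = 1 + m * 1; ring)
    (odd_ne m hm h2 x' hx)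

theorem nm_even {a b c d : ℤ} (h1 : (2 : ℤ) ∣ a) (h2 : (2 : ℤ) ∣ b + c + d) :
    (2 : ℤ) ∣ nm (a, b, c, d) := by
  obtain ⟨a', rfl⟩ := h1
  obtain ⟨e, he⟩ := h2
  obtain rfl : b = 2 * e - c - d := by linarith
  refine ⟨2 * a' ^ 2 + 2 * e ^ 2 + c ^ 2 + d ^ 2 - 2 * e * c - 2 * e * d + c * d +
    2 * a' * e, ?_⟩
  simp only [nm]
  ring

theorem even_ne (m : ℤ) (hm : 4 ≤ m) (h2 : m % 2 = 0) (x' : H4) (hx : nm x' = 1 + 2 * m) :
    (evenLvl m hm h2).D ((2, -1, -1, -1), 1, 1) ≠ (evenLvl m hm h2).D (x', 1, 1) := by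
  have hd : ∀ t : ℤ, 0 < t → t < 2 * m → dn (2 * m) t = 0 := by
    intro t ht0 ht
    unfold dn
    rw [if_neg]
    intro h
    have := Int.le_of_dvd ht0 h
    omega
  apply Lvl.D_ne
  · exact hd 1 (by omega) (by omega)
  · exact hd 2 (by omega) (by omega)
  · refine Or.inr ⟨?_, ?_, ?_⟩
    · change m + 1 ≠ 1
      omega
    · change dn (2 * m) (1 - (m + 1)) = 0
      rw [← Lvl.dn_neg]
      exact hd _ (by omega) (by omega)
    · change dn (2 * m) (1 + (m + 1)) = 0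
      exact hd _ (by omega) (by omega)
  · intro h hh h0
    obtain ⟨⟨a, ha⟩, ⟨b, hb⟩, ⟨c, hc⟩, ⟨d, hd⟩, ⟨e', he⟩⟩ := hh
    have hm0 : m ≠ 0 := by omega
    have e : h = m • ((2 * a, b, c, d) : H4) := by
      ext <;> simp [ha, hb, hc, hd]
      ring
    rw [e, nm_smul]
    have hne : ((2 * a, b, c, d) : H4) ≠ 0 := by
      intro h1
      apply h0
      rw [e, h1, smul_zero]
    have h3 := nm_pos hne
    have h4 : (2 : ℤ) ∣ nm (2 * a, b, c, d) := by
      apply nm_even (dvd_mul_right _ _)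
      refine ⟨e', ?_⟩
      rw [hb, hc, hd] at he
      apply mul_left_cancel₀ hm0
      linear_combination he
    have h5 : 2 ≤ nm (2 * a, b, c, d) := Int.le_of_dvd h3 h4
    change 2 * (2 * m) + 4 < _
    nlinarith
  · exact hx
  · change 0 < 2 * m
    omega

theorem infinite_even (m : ℤ) (hm : 4 ≤ m) (h2 : m % 2 = 0) (rel : Set (FreeGroup (Fin 6)))
    (hrel : ∀ r ∈ rel, FreeGroup.lift (evenLvl m hm h2).T0 r = 1) :
    Infinite (PresentedGroup rel) := by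
  obtain ⟨x', hx⟩ := exists_nm (1 + 2 * m).toNat
  rw [Int.toNat_of_nonneg (by omega)] at hx
  exact (evenLvl m hm h2).infinite_of rel hrel x' 1
    (by rw [hx]; change 1 + 2 * m = 1 + 2 * m * 1; ring) (even_ne m hm h2 x' hx)

end Pool.Agent.Lib.MP_c2d01e_co
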