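import Pool.Agent.Lib.MP_c2d01e_co.Act

/-!
# Separation of two points by `D`, and the translations killed by the additional relator
-/

namespace Pool.Agent.Lib.MP_c2d01e_co

theorem nm_four (y : H4) : 4 * nm y = y.1 ^ 2 + (y.1 + 2 * y.2.1) ^ 2 + (y.1 + 2 * y.2.2.1) ^ 2 +
    (y.1 + 2 * y.2.2.2) ^ 2 := by
  unfold nm
  ring

theorem nm_nonneg (y : H4) : 0 ≤ nm y := by
  have := nm_four y
  nlinarith [sq_nonneg y.1, sq_nonneg (y.1 + 2 * y.2.1), sq_nonneg (y.1 + 2 * y.2.2.1),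
    sq_nonneg (y.1 + 2 * y.2.2.2)]

theorem nm_pos {y : H4} (hy : y ≠ 0) : 0 < nm y := by
  rcases (nm_nonneg y).lt_or_eq with h | h
  · exact h
  · exfalso
    apply hy
    have h4 := nm_four y
    rw [← h] at h4
    have h0 : y.1 ^ 2 = 0 := by
      nlinarith [sq_nonneg y.1, sq_nonneg (y.1 + 2 * y.2.1), sq_nonneg (y.1 + 2 * y.2.2.1),
        sq_nonneg (y.1 + 2 * y.2.2.2)]
    have h1 : (y.1 + 2 * y.2.1) ^ 2 = 0 := by
      nlinarith [sq_nonneg y.1, sq_nonneg (y.1 + 2 * y.2.1), sq_nonneg (y.1 + 2 * y.2.2.1),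
        sq_nonneg (y.1 + 2 * y.2.2.2)]
    have h2 : (y.1 + 2 * y.2.2.1) ^ 2 = 0 := by
      nlinarith [sq_nonneg y.1, sq_nonneg (y.1 + 2 * y.2.1), sq_nonneg (y.1 + 2 * y.2.2.1),
        sq_nonneg (y.1 + 2 * y.2.2.2)]
    have h3 : (y.1 + 2 * y.2.2.2) ^ 2 = 0 := by
      nlinarith [sq_nonneg y.1, sq_nonneg (y.1 + 2 * y.2.1), sq_nonneg (y.1 + 2 * y.2.2.1),
        sq_nonneg (y.1 + 2 * y.2.2.2)]
    rw [sq_eq_zero_iff] at h0 h1 h2 h3
    obtain ⟨p, x, y, z⟩ := y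
    simp only at h0 h1 h2 h3
    ext <;> simp <;> omega

theorem nm_sub_le (x u : H4) : nm (x - u) ≤ 2 * nm x + 2 * nm u := by
  have h := nm_nonneg (x + u)
  have : nm (x - u) + nm (x + u) = 2 * nm x + 2 * nm u := by
    obtain ⟨p, x1, x2, x3⟩ := x
    obtain ⟨q, u1, u2, u3⟩ := u
    simp only [nm, Prod.mk_add_mk, Prod.mk_sub_mk]
    ring
  linarith

theorem nm_smul (c : ℤ) (y : H4) : nm (c • y) = c ^ 2 * nm y := by
  obtain ⟨p, x, y, z⟩ := y
  simp only [nm, Prod.smul_mk, smul_eq_mul]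
  ring

theorem U_nm : ∀ u ∈ U, nm u = 1 := by decide +kernel

theorem one_U : ((2, -1, -1, -1) : H4) ∈ U := by decide +kernel

/-- Every integer is a norm. -/
theorem exists_nm (n : ℕ) : ∃ x : H4, nm x = n := by
  obtain ⟨a, b, c, d, h⟩ := Nat.sum_four_squares n
  refine ⟨(2 * a, b - a, c - a, d - a), ?_⟩
  simp only [nm]
  rw [← h]
  push_cast
  ring

namespace Lvl

variable (L : Lvl)

theorem A_nonneg (y : H4) : 0 ≤ L.A y := by
  unfold A
  split_ifs <;> norm_num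

theorem A_zero : L.A 0 = 1 := by
  unfold A
  rw [if_pos L.H.zero_mem]

theorem ev_U (c : ℤ) (y : H4) (l : List H4) (h1 : c = 1 ∨ dn L.n (1 - c) = 0)
    (h2 : dn L.n (1 + c) = 0) :
    L.ev c (l.flatMap fun u => [((u, 1, 1), 2), ((u, -1, -1), -2)]) (y, 1, 1) =
      if c = 1 then 2 * (l.map fun u => L.A (y - u)).sum else 0 := by
  induction l with
  | nil => simp [ev_nil]
  | cons u l ih =>
    rw [List.flatMap_cons, ev_append, ih, ev_pair]
    have e1 : L.ev c [((u, 1, 1), 2)] (y, 1, 1) = if c = 1 then 2 * L.A (y - u) else 0 := by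
      unfold ev
      simp only [List.map_cons, List.map_nil, List.sum_cons, List.sum_nil, add_zero]
      rw [show ((y, 1, 1) : V) - c • ((u, 1, 1) : V) = (y - c • u, 1 - c, 1 - c) by simp, ind_eq]
      by_cases hc : c = 1
      · rw [if_pos hc, hc]
        simp [dn]
      · rw [if_neg hc, h1.resolve_left hc]
        ring
    have e2 : L.ev c [((u, -1, -1), -2)] (y, 1, 1) = 0 := by
      unfold ev
      simp only [List.map_cons, List.map_nil, List.sum_cons, List.sum_nil, add_zero]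
      rw [show ((y, 1, 1) : V) - c • ((u, -1, -1) : V) = (y - c • u, 1 + c, 1 + c) by simp,
        ind_eq, h2]
      ring
    rw [e1, e2]
    split_ifs
    · rw [List.map_cons, List.sum_cons]
      ring
    · ring

theorem ev_I0 (c : ℤ) (y : H4) (h1 : c = 1 ∨ dn L.n (1 - c) = 0) (h2 : dn L.n (1 + c) = 0)
    (h3 : dn L.n 1 = 0) :
    L.ev c I0 (y, 1, 1) = if c = 1 then 2 * (U.map fun u => L.A (y - u)).sum else 0 := by
  unfold I0
  rw [ev_append, L.ev_U c y U h1 h2]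
  have hz : L.ev c [(((0, 0, 0, 0), 1, 2), 2), (((0, 0, 0, 0), 2, 1), 2),
      (((0, 0, 0, 0), -1, -2), -2), (((0, 0, 0, 0), -2, -1), -2)] (y, 1, 1) = 0 := by
    unfold ev
    simp only [List.map_cons, List.map_nil, List.sum_cons, List.sum_nil, add_zero]
    have k1 : ((y, 1, 1) : V) - c • (((0, 0, 0, 0), 1, 2) : V) =
        (y - c • (0, 0, 0, 0), 1 - c, 1 - c * 2) := by simp
    have k2 : ((y, 1, 1) : V) - c • (((0, 0, 0, 0), 2, 1) : V) =
        (y - c • (0, 0, 0, 0), 1 - c * 2, 1 - c) := by simp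
    have k3 : ((y, 1, 1) : V) - c • (((0, 0, 0, 0), -1, -2) : V) =
        (y - c • (0, 0, 0, 0), 1 + c, 1 + c * 2) := by simp
    have k4 : ((y, 1, 1) : V) - c • (((0, 0, 0, 0), -2, -1) : V) =
        (y - c • (0, 0, 0, 0), 1 + c * 2, 1 + c) := by simp
    rw [k1, k2, k3, k4]
    simp only [ind_eq, h2]
    rcases h1 with h1 | h1
    · subst h1
      rw [show (1 : ℤ) - 1 * 2 = -1 by norm_num, dn_neg, h3]
      ring
    · rw [h1]
      ring
  rw [hz, add_zero]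

theorem D_one (y : H4) (h1 : dn L.n 1 = 0) (h2 : dn L.n 2 = 0)
    (hc : L.e = 0 ∨ (L.c ≠ 1 ∧ dn L.n (1 - L.c) = 0 ∧ dn L.n (1 + L.c) = 0)) :
    L.D (y, 1, 1) = 2 * (U.map fun u => L.A (y - u)).sum := by
  have hB : L.Bd (y, 1, 1) = 0 := by
    unfold Bd
    simp only [h1]
    ring
  have hI := L.ev_I0 1 y (Or.inl rfl) (by rw [show (1 : ℤ) + 1 = 2 by norm_num]; exact h2) h1
  rw [if_pos rfl] at hI
  have hJ : L.e * L.ev L.c I0 (y, 1, 1) = 0 := by
    rcases hc with hc | ⟨h, h4, h5⟩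
    · rw [hc, zero_mul]
    · rw [L.ev_I0 L.c y (Or.inr h4) h5 h1, if_neg h, mul_zero]
  unfold D
  rw [hB, hI, hJ]
  ring

theorem D_ne (h1 : dn L.n 1 = 0) (h2 : dn L.n 2 = 0)
    (hc : L.e = 0 ∨ (L.c ≠ 1 ∧ dn L.n (1 - L.c) = 0 ∧ dn L.n (1 + L.c) = 0))
    (hmin : ∀ h ∈ L.H, h ≠ 0 → 2 * L.n + 4 < nm h) (x' : H4) (hx : nm x' = 1 + L.n)
    (hn : 0 < L.n) :
    L.D ((2, -1, -1, -1), 1, 1) ≠ L.D (x', 1, 1) := by
  rw [L.D_one _ h1 h2 hc, L.D_one _ h1 h2 hc]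
  have hz : (U.map fun u => L.A (x' - u)).sum = 0 := by
    apply List.sum_eq_zero
    intro t ht
    rw [List.mem_map] at ht
    obtain ⟨u, hu, rfl⟩ := ht
    have hu1 := U_nm u hu
    unfold A
    rw [if_neg]
    intro hmem
    have hne : x' - u ≠ 0 := by
      intro h0
      rw [sub_eq_zero] at h0
      rw [h0, hu1] at hx
      omega
    have := hmin _ hmem hne
    have h3 := nm_sub_le x' u
    omega
  have hp : 1 ≤ (U.map fun u => L.A ((2, -1, -1, -1) - u)).sum := by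
    have h3 : L.A ((2, -1, -1, -1) - (2, -1, -1, -1)) ∈
        U.map fun u => L.A ((2, -1, -1, -1) - u) := List.mem_map.2 ⟨_, one_U, rfl⟩
    rw [sub_self, A_zero] at h3
    refine List.single_le_sum ?_ _ h3
    intro t ht
    rw [List.mem_map] at ht
    obtain ⟨u, _, rfl⟩ := ht
    exact L.A_nonneg _
  rw [hz]
  intro h
  omega

/-- Powers of a translation. -/
theorem pow_E (g : Equiv.Perm L.Per) (y : H4) (hg : ∀ (f : L.Per) v, (g f).1 v = f.1 (E y v))
    (s : ℕ) (f : L.Per) (v : V) : ((g ^ s) f).1 v = f.1 (E ((s : ℤ) • y) v) := by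
  induction s generalizing f v with
  | zero => simp [E_zero]
  | succ s ih =>
    rw [pow_succ, Equiv.Perm.mul_apply, ih, hg, E_E]
    congr 2
    push_cast
    rw [add_smul, one_smul, add_comm]

theorem E_per (f : L.Per) (Y : H4) (v : V) (h1 : Y ∈ L.H)
    (h2 : L.n ∣ bil v.1 Y + nm Y * v.2.2) : f.1 (E Y v) = f.1 v := by
  have h3 : E Y v = v + (v.2.2 • Y, -(bil v.1 Y + nm Y * v.2.2), 0) := by
    obtain ⟨x, a, b⟩ := v
    simp only [E, Prod.mk_add_mk, Prod.mk.injEq, add_zero, and_true, true_and]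
    ring
  rw [h3]
  exact f.2 _ _ ⟨L.H.zsmul_mem h1 _, (dvd_neg).2 h2, dvd_zero _⟩

end Lvl

end Pool.Agent.Lib.MP_c2d01e_co
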